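import Mathlib
import Pool.Agent.Helper13.TSD.DD2
import Pool.Agent.Helper13.TSD.EC1

/-!
# Exact order of the degree of total separability: definitions

Facets of the polytope are used for all faces: a facet `H` of the polytope cuts the face `F` if
`F` is not contained in `H` and `F ∩ H` is not empty; then `F ∩ H` is a facet of `F`.
-/

namespace Pool.Agent.Helper13.TSE

open Finset Pool.Agent.Helper82.TotSep Pool.Agent.Helper13.TSD

variable {V : Type*} {G : SimpleGraph V} {d : ℕ} {Λ : Type*}

open Classical in
/-- `F ∩ H` -/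
noncomputable def ct (H F : Finset V) : Finset V := F.filter fun x => x ∈ H

lemma mem_ct {H F : Finset V} {x : V} : x ∈ ct H F ↔ x ∈ F ∧ x ∈ H := by
  simp [ct]

lemma ct_subset {H F : Finset V} : ct H F ⊆ F := fun _ hx => (mem_ct.mp hx).1

/-- a face is real if it contains at least two labels -/
def Re (M : Finset V) (lab : V → Λ) (F : Finset V) : Prop := 2 ≤ (labs M lab F).card

open Classical in
/-- the number of the neighbours of `v` in `F` which lie in `M` and in `a` -/
noncomputable def mm (L : FaceData G d) (M F : Finset V) (v : V) (a : Finset V) : ℕ :=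
  ((dir L F v).filter fun l => L.nb v l ∈ M ∧ L.nb v l ∈ a).card

/-- the proportion of the nodes of `M` in `P` which lie in `H` -/
noncomputable def pr (M P H : Finset V) : ℝ :=
  ((inner M (ct H P)).card : ℝ) / (inner M P).card

open Classical in
/-- the seers of `c` in `F` which see at most two labels in `F` -/
noncomputable def bs (L : FaceData G d) (M : Finset V) (lab : V → Λ) (F : Finset V) (c : Λ) :
    Finset V :=
  (seers L M lab F c).filter fun w => (eqSeen L M lab F w).card ≤ 2

lemma mem_bs {L : FaceData G d} {M : Finset V} {lab : V → Λ} {F : Finset V} {c : Λ} {w : V} :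
    w ∈ bs L M lab F c ↔ w ∈ seers L M lab F c ∧ (eqSeen L M lab F w).card ≤ 2 := by
  simp [bs]

/-- the directions with rank less than `j` -/
def ini (σ : Equiv.Perm (Fin d)) (j : ℕ) : Finset (Fin d) :=
  univ.filter fun l => (σ l : ℕ) < j

lemma mem_ini {σ : Equiv.Perm (Fin d)} {j : ℕ} {l : Fin d} : l ∈ ini σ j ↔ (σ l : ℕ) < j := by
  simp [ini]

/-- the sum over the nodes of `M` of the mean over all orderings of the directions -/
noncomputable def Es (M : Finset V) (f : V → Equiv.Perm (Fin d) → ℝ) : ℝ :=
  ∑ v ∈ M, (∑ σ : Equiv.Perm (Fin d), f v σ) / (Nat.factorial d : ℝ)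

variable [Fintype V]

/-- the facet of the polytope at `v` which does not contain the edge of direction `l` -/
noncomputable def hf (L : FaceData G d) (v : V) (l : Fin d) : Finset V :=
  faceOf L v (univ.erase l)

open Classical in
/-- the facets of the polytope -/
noncomputable def fc (L : FaceData G d) : Finset (Finset V) :=
  univ.filter fun H => ∃ v l, hf L v l = H

lemma mem_fc {L : FaceData G d} {H : Finset V} : H ∈ fc L ↔ ∃ v l, hf L v l = H := by
  simp [fc]

open Classical in
/-- the facets of the polytope which cut `F` -/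
noncomputable def cuts (L : FaceData G d) (F : Finset V) : Finset (Finset V) :=
  (fc L).filter fun H => ¬ F ⊆ H ∧ (ct H F).Nonempty

lemma mem_cuts {L : FaceData G d} {F H : Finset V} :
    H ∈ cuts L F ↔ H ∈ fc L ∧ ¬ F ⊆ H ∧ (ct H F).Nonempty := by
  simp [cuts]

open Classical in
/-- the facets of the polytope through `v` which do not contain `F` -/
noncomputable def th (L : FaceData G d) (F : Finset V) (v : V) : Finset (Finset V) :=
  (fc L).filter fun H => ¬ F ⊆ H ∧ v ∈ H

lemma mem_th {L : FaceData G d} {F H : Finset V} {v : V} :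
    H ∈ th L F v ↔ H ∈ fc L ∧ ¬ F ⊆ H ∧ v ∈ H := by
  simp [th]

open Classical in
/-- the faces of dimension `j` of `P` -/
noncomputable def fcs (L : FaceData G d) (j : ℕ) (P : Finset V) : Finset (Finset V) :=
  univ.filter fun F => IsFace L j F ∧ F ⊆ P

lemma mem_fcs {L : FaceData G d} {j : ℕ} {P F : Finset V} :
    F ∈ fcs L j P ↔ IsFace L j F ∧ F ⊆ P := by
  simp [fcs]

open Classical in
/-- the facets `H` of the polytope such that `F ∩ H` is a real facet of `F` with the label `c` -/
noncomputable def ZZ (L : FaceData G d) (M : Finset V) (lab : V → Λ) (F : Finset V) (c : Λ) :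
    Finset (Finset V) :=
  (fc L).filter fun H => ¬ F ⊆ H ∧ Re M lab (ct H F) ∧ c ∈ labs M lab (ct H F)

lemma mem_ZZ {L : FaceData G d} {M : Finset V} {lab : V → Λ} {F H : Finset V} {c : Λ} :
    H ∈ ZZ L M lab F c ↔ H ∈ fc L ∧ ¬ F ⊆ H ∧ Re M lab (ct H F) ∧ c ∈ labs M lab (ct H F) := by
  simp [ZZ]

/-- `c` lies in exactly `j` real facets of `F` and has at least two good seers -/
def Nic (L : FaceData G d) (M : Finset V) (lab : V → Λ) (j : ℕ) (F : Finset V) (c : Λ) : Prop :=
  (ZZ L M lab F c).card = j ∧ 2 ≤ (gs L M lab F c).card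

/-- strongly nice: in addition at most `j / 4` bad seers -/
def SN (L : FaceData G d) (M : Finset V) (lab : V → Λ) (j : ℕ) (F : Finset V) (c : Λ) : Prop :=
  c ∈ labs M lab F ∧ Nic L M lab j F c ∧ 4 * (bs L M lab F c).card ≤ j

open Classical in
/-- the strongly nice labels of `F` -/
noncomputable def sn (L : FaceData G d) (M : Finset V) (lab : V → Λ) (j : ℕ) (F : Finset V) :
    Finset Λ :=
  (labs M lab F).filter fun c => SN L M lab j F c

lemma mem_sn {L : FaceData G d} {M : Finset V} {lab : V → Λ} {j : ℕ} {F : Finset V} {c : Λ} :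
    c ∈ sn L M lab j F ↔ SN L M lab j F c := by
  simp only [sn, Finset.mem_filter, and_iff_right_iff_imp]
  exact fun h => h.1

open Classical in
/-- the class `a` at `v`: the nice labels for which `v` is a good seer and `a` is the missing
facet -/
noncomputable def cl (L : FaceData G d) (M : Finset V) (lab : V → Λ) (j : ℕ) (F : Finset V)
    (v : V) (a : Finset V) : Finset Λ :=
  (labs M lab F).filter fun c => Nic L M lab j F c ∧ v ∈ gs L M lab F c ∧
    a ∈ ZZ L M lab F c ∧ v ∉ a

lemma mem_cl {L : FaceData G d} {M : Finset V} {lab : V → Λ} {j : ℕ} {F : Finset V} {v : V}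
    {a : Finset V} {c : Λ} : c ∈ cl L M lab j F v a ↔ c ∈ labs M lab F ∧ Nic L M lab j F c ∧
      v ∈ gs L M lab F c ∧ a ∈ ZZ L M lab F c ∧ v ∉ a := by
  simp [cl]

open Classical in
/-- the number of facets of `F` through `v` which are not real -/
noncomputable def nr (L : FaceData G d) (M : Finset V) (lab : V → Λ) (F : Finset V) (v : V) : ℕ :=
  ((th L F v).filter fun H => ¬ Re M lab (ct H F)).card

/-- the sum of `p (1 - p)` over the facets -/
noncomputable def SS (L : FaceData G d) (M P : Finset V) : ℝ :=
  ∑ H ∈ fc L, pr M P H * (1 - pr M P H)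

open Classical in
/-- the sum of `log (1 / p)` over the facets through `v` -/
noncomputable def lv (L : FaceData G d) (M P : Finset V) (v : V) : ℝ :=
  ∑ H ∈ (fc L).filter (fun H => v ∈ H), Real.log (1 / pr M P H)

/-- the sum of `lv` over the nodes of `M` in `P` -/
noncomputable def SL (L : FaceData G d) (M P : Finset V) : ℝ := ∑ v ∈ inner M P, lv L M P v

open Classical in
/-- the number of the facets of `P` with more than half of the nodes which do not contain `v` -/
noncomputable def qq (L : FaceData G d) (M P : Finset V) (v : V) : ℕ :=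
  ((fc L).filter fun H => 1 / 2 < pr M P H ∧ v ∉ H).card

open Classical in
/-- the number of the facets through `v` cutting `F` with proportion at most `ε` in `P` -/
noncomputable def sf (L : FaceData G d) (M P F : Finset V) (ε : ℝ) (v : V) : ℕ :=
  ((th L F v).filter fun H => pr M P H ≤ ε).card

open Classical in
/-- the strongly nice labels with many good seers with many neighbours in the missing facet -/
noncomputable def KQ (L : FaceData G d) (M : Finset V) (lab : V → Λ) (j : ℕ) (F : Finset V)
    (m : ℕ) : Finset Λ :=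
  (sn L M lab j F).filter fun c => j ≤ 4 * ((gs L M lab F c).filter fun v =>
    ∃ a ∈ ZZ L M lab F c, v ∉ a ∧ m ≤ mm L M F v a).card

/-- the mean over the faces of dimension `j` of `P`, up to the factor `n` (`r` is the dimension
of `P`) -/
noncomputable def av (L : FaceData G d) (r : ℕ) (P : Finset V) (j : ℕ) (f : Finset V → ℝ) : ℝ :=
  (∑ F ∈ fcs L j P, f F) / (r.choose j : ℝ)

open Classical in
/-- the number of labels of a real face -/
noncomputable def KR (M : Finset V) (lab : V → Λ) (F : Finset V) : ℝ :=
  if Re M lab F then ((labs M lab F).card : ℝ) else 0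

open Classical in
/-- the number of nodes of `M` of a real face -/
noncomputable def nR (M : Finset V) (lab : V → Λ) (F : Finset V) : ℝ :=
  if Re M lab F then ((inner M F).card : ℝ) else 0

open Classical in
/-- the sum of `nr` over the nodes of `M` of a real face -/
noncomputable def NR (L : FaceData G d) (M : Finset V) (lab : V → Λ) (F : Finset V) : ℝ :=
  if Re M lab F then ∑ v ∈ inner M F, (nr L M lab F v : ℝ) else 0

/-- the face at step `j` of the flag -/
noncomputable def fl (L : FaceData G d) (v : V) (σ : Equiv.Perm (Fin d)) (j : ℕ) : Finset V :=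
  faceOf L v (ini σ j)

/-- The direction `l` is used in the face at `v` with directions `U`, with the missing facet
`a`. -/
structure Use (L : FaceData G d) (M : Finset V) (lab : V → Λ) (v : V) (U : Finset (Fin d))
    (l : Fin d) (a : Finset V) : Prop where
  mem : l ∈ U
  out : L.nb v l ∉ M
  nice : SN L M lab U.card (faceOf L v U) (lab (L.nb v l))
  good : v ∈ gs L M lab (faceOf L v U) (lab (L.nb v l))
  miss : a ∈ ZZ L M lab (faceOf L v U) (lab (L.nb v l))
  av : v ∉ a

/-- The last direction of `ini σ (t + 1)` is used with the missing facet `a`. -/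
def Uz (L : FaceData G d) (M : Finset V) (lab : V → Λ) (v : V) (σ : Equiv.Perm (Fin d))
    (t : Fin d) (a : Finset V) : Prop :=
  Use L M lab v (ini σ (t + 1)) (σ.symm t) a

/-- Two uses with the same missing facet, seen in the face `F` of dimension `k + 1` (directions
`l1`, `l2` at `v`). -/
structure Cfg (L : FaceData G d) (M : Finset V) (lab : V → Λ) (k : ℕ) (F : Finset V) (v : V)
    (l1 l2 : Fin d) (a : Finset V) : Prop where
  mem : v ∈ F
  memM : v ∈ M
  d1 : l1 ∈ dir L F v
  d2 : l2 ∈ dir L F v
  ne : l1 ≠ l2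
  o1 : L.nb v l1 ∉ M
  o2 : L.nb v l2 ∉ M
  lne : lab (L.nb v l1) ≠ lab (L.nb v l2)
  av : v ∉ a
  sub : ∀ l ∈ dir L F v, l ≠ l1 → hf L v l ∈ ZZ L M lab F (lab (L.nb v l1))
  sup : ∀ H ∈ ZZ L M lab F (lab (L.nb v l1)), H = a ∨ ∃ l ∈ dir L F v, l ≠ l1 ∧ hf L v l = H
  snice : SN L M lab k (ct (hf L v l1) F) (lab (L.nb v l2))
  good : v ∈ gs L M lab (ct (hf L v l1) F) (lab (L.nb v l2))
  miss : a ∈ ZZ L M lab (ct (hf L v l1) F) (lab (L.nb v l2))

/-- `w` lies in all facets through `v` except those of the directions `l1`, `l2` -/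
def InQ (L : FaceData G d) (F : Finset V) (v : V) (l1 l2 : Fin d) (w : V) : Prop :=
  w ∈ F ∧ (∀ l ∈ dir L F v, l ≠ l1 → l ≠ l2 → w ∈ hf L v l) ∧ w ∉ hf L v l1 ∧ w ∉ hf L v l2

/-- first kind of single configurations -/
def T1 (L : FaceData G d) (M : Finset V) (lab : V → Λ) (F : Finset V) (v : V)
    (l1 l2 : Fin d) (a : Finset V) : Prop :=
  ∃ w ∈ M, InQ L F v l1 l2 w ∧ (eqSeen L M lab F w).card ≤ 2 ∧
    lab (L.nb v l1) ∈ eqSeen L M lab F w ∧ (w ∉ a ∨ a ∉ ZZ L M lab F (lab (L.nb v l1)))

/-- The other configurations: `a` is in `ZZ` of the first label, and some node `w ∈ M` of the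
edge of `F` in `a` and in all facets through `v` except those of the directions `l1`, `l2` is a
bad seer of the first label, or a good node while the other end has the first label. -/
def Tw (L : FaceData G d) (M : Finset V) (lab : V → Λ) (F : Finset V) (v : V)
    (l1 l2 : Fin d) (a : Finset V) : Prop :=
  a ∈ ZZ L M lab F (lab (L.nb v l1)) ∧ ∃ w ∈ M, InQ L F v l1 l2 w ∧ w ∈ a ∧
    (((eqSeen L M lab F w).card ≤ 2 ∧ lab (L.nb v l1) ∈ eqSeen L M lab F w) ∨
      (3 ≤ (eqSeen L M lab F w).card ∧ ∃ m ∈ dir L F w, L.nb w m ∉ M ∧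
        lab (L.nb w m) = lab (L.nb v l1) ∧
        ∀ H ∈ ZZ L M lab (ct (hf L v l1) F) (lab (L.nb v l2)), L.nb w m ∈ H))

/-- the second label is still nice in `F` -/
def Cor (L : FaceData G d) (M : Finset V) (lab : V → Λ) (k : ℕ) (F : Finset V) (v : V)
    (l2 : Fin d) : Prop :=
  (ZZ L M lab F (lab (L.nb v l2))).card = k + 1

/-- second kind of single configurations -/
def T3 (L : FaceData G d) (M : Finset V) (lab : V → Λ) (k : ℕ) (F : Finset V) (v : V)
    (l1 l2 : Fin d) (a : Finset V) : Prop :=
  Cor L M lab k F v l2 ∧ ∃ w ∈ M, InQ L F v l1 l2 w ∧ (eqSeen L M lab F w).card ≤ 2 ∧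
    lab (L.nb v l2) ∈ eqSeen L M lab F w ∧ w ∉ a

/-- configurations found from a node with exactly one facet which is not real -/
def T4 (L : FaceData G d) (M : Finset V) (lab : V → Λ) (k : ℕ) (F : Finset V) (v : V)
    (l1 l2 : Fin d) (a : Finset V) : Prop :=
  Cor L M lab k F v l2 ∧ ∃ w ∈ M, InQ L F v l1 l2 w ∧ (eqSeen L M lab F w).card ≤ 2 ∧
    lab (L.nb v l2) ∈ eqSeen L M lab F w ∧ w ∈ a ∧ nr L M lab F w = 1

open Classical in
/-- the nodes of `F` in all facets of `Z` -/
noncomputable def eds (F : Finset V) (Z : Finset (Finset V)) : Finset V :=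
  F.filter fun x => ∀ H ∈ Z, x ∈ H

lemma mem_eds {F : Finset V} {Z : Finset (Finset V)} {x : V} :
    x ∈ eds F Z ↔ x ∈ F ∧ ∀ H ∈ Z, x ∈ H := by
  simp [eds]

open Classical in
/-- the candidates for the first label, found at the nodes of the edge `E` -/
noncomputable def cand (L : FaceData G d) (M : Finset V) (lab : V → Λ) (F E : Finset V) :
    Finset Λ :=
  E.biUnion fun x => if x ∈ M then (if (eqSeen L M lab F x).card ≤ 2 then eqSeen L M lab F x
    else ∅) else {lab x}

open Classical in
/-- all configurations in `F` -/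
noncomputable def CF (L : FaceData G d) (M : Finset V) (lab : V → Λ) (k : ℕ) (F : Finset V) :
    Finset (V × Fin d × Fin d × Finset V) :=
  univ.filter fun x => Cfg L M lab k F x.1 x.2.1 x.2.2.1 x.2.2.2

open Classical in
/-- the weight of the single configurations -/
noncomputable def s1 (L : FaceData G d) (M : Finset V) (lab : V → Λ) (k : ℕ) (F : Finset V)
    (v : V) (l1 l2 : Fin d) (a : Finset V) : ℝ :=
  if Cfg L M lab k F v l1 l2 a ∧ (T1 L M lab F v l1 l2 a ∨ T3 L M lab k F v l1 l2 a) then 1
  else 0

open Classical in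
/-- the weight of the other configurations -/
noncomputable def s2 (L : FaceData G d) (M : Finset V) (lab : V → Λ) (k : ℕ) (F : Finset V)
    (v : V) (l1 l2 : Fin d) (a : Finset V) : ℝ :=
  if Cfg L M lab k F v l1 l2 a ∧ ¬ (T1 L M lab F v l1 l2 a ∨ T3 L M lab k F v l1 l2 a) then
    1 / (1 + (mm L M F v a : ℝ)) else 0

open Classical in
/-- the number of pairs of a facet `H` of `F` and a strongly nice label of `F ∩ H` which is not
nice in `F` -/
noncomputable def N2 (L : FaceData G d) (M : Finset V) (lab : V → Λ) (k : ℕ) (F : Finset V) : ℕ :=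
  ∑ H ∈ cuts L F, ((sn L M lab k (ct H F)).filter fun c => (ZZ L M lab F c).card ≠ k + 1).card

open Classical in
/-- the number of nodes of `M` in `F` with exactly one facet which is not real, for real `F` -/
noncomputable def N3 (L : FaceData G d) (M : Finset V) (lab : V → Λ) (F : Finset V) : ℕ :=
  if Re M lab F then ((inner M F).filter fun w => nr L M lab F w = 1).card else 0

/-- the label of `nb v l` is strongly nice in the face of `U`, `v` is a good seer, and the label
is not nice in the face of `U'` -/
structure Fail (L : FaceData G d) (M : Finset V) (lab : V → Λ) (v : V) (U U' : Finset (Fin d))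
    (l : Fin d) : Prop where
  mem : l ∈ U
  out : L.nb v l ∉ M
  nice : SN L M lab U.card (faceOf L v U) (lab (L.nb v l))
  good : v ∈ gs L M lab (faceOf L v U) (lab (L.nb v l))
  fails : (ZZ L M lab (faceOf L v U') (lab (L.nb v l))).card ≠ U.card + 1

open Classical in
/-- the mean number of directions where the strongly nice label is lost at the next step -/
noncomputable def nn (L : FaceData G d) (M : Finset V) (lab : V → Λ) (J : ℕ) : ℝ :=
  Es M fun v σ => (((ini σ J).filter fun l => Fail L M lab v (ini σ J) (ini σ (J + 1)) l).card : ℝ)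

end Pool.Agent.Helper13.TSE
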