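import Mathlib
import Pool.Agent.Helper13.TSE.Defs

/-!
# TSE-A1: facets of the polytope at a node
-/

namespace Pool.Agent.Helper13.TSE

open Finset Pool.Agent.Helper82.TotSep Pool.Agent.Helper13.TSD

variable {V : Type*} [Fintype V] {G : SimpleGraph V} {d : ℕ} {L : FaceData G d}

theorem mem_hf {v x : V} {l : Fin d} : x ∈ hf L v l ↔ l ∉ L.supp v x := by
  unfold hf
  rw [mem_faceOf]
  constructor
  · intro h hl
    exact (Finset.mem_erase.mp (h hl)).1 rfl
  · intro h i hi
    exact Finset.mem_erase.mpr ⟨fun e => h (e ▸ hi), Finset.mem_univ _⟩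

theorem self_mem_hf {v : V} {l : Fin d} : v ∈ hf L v l := by
  rw [mem_hf, L.supp_self]
  exact Finset.notMem_empty _

theorem nb_mem_hf {v : V} {l m : Fin d} : L.nb v m ∈ hf L v l ↔ l ≠ m := by
  rw [mem_hf, L.supp_nb, Finset.mem_singleton]

theorem hf_mem_fc {v : V} {l : Fin d} : hf L v l ∈ fc L := mem_fc.mpr ⟨v, l, rfl⟩

theorem hf_inj {v : V} {l m : Fin d} (h : hf L v l = hf L v m) : l = m := by
  by_contra hne
  have h1 : L.nb v l ∈ hf L v m := nb_mem_hf.mpr (Ne.symm hne)
  rw [← h] at h1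
  exact nb_mem_hf.mp h1 rfl

/-- A facet `H = hf w m` through `v` is some `hf v l`: `L.trans w v (univ.erase m)` gives a set
`S'` of `d - 1` directions, its complement has one element. -/
theorem exists_hf {v : V} {H : Finset V} (hH : H ∈ fc L) (hv : v ∈ H) :
    ∃ l, hf L v l = H := by
  obtain ⟨w, m, rfl⟩ := mem_fc.mp hH
  have hF : IsFace L (univ.erase m).card (hf L w m) := isFace_faceOf w (univ.erase m)
  obtain ⟨hc, hs⟩ := hF.spec hv
  have h1 : (univ \ dir L (hf L w m) v).card = 1 := by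
    rw [Finset.card_sdiff_of_subset (Finset.subset_univ _), hc,
      Finset.card_erase_of_mem (Finset.mem_univ _), Finset.card_univ, Fintype.card_fin]
    have : 0 < d := Fin.pos m
    omega
  obtain ⟨l, hl⟩ := Finset.card_eq_one.mp h1
  refine ⟨l, ?_⟩
  ext x
  rw [mem_hf, hs x]
  have h2 : ∀ i, i ∉ dir L (hf L w m) v ↔ i = l := by
    intro i
    rw [← Finset.mem_singleton, ← hl, Finset.mem_sdiff]
    simp
  constructor
  · intro h i hi
    by_contra h3
    exact h ((h2 i).mp h3 ▸ hi)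
  · intro h h3
    exact (h2 l).mpr rfl (h h3)

/-- There is exactly one facet which contains `nb v l` and does not contain `v`
(`L.nb_surj`: `v = nb (nb v l) m`, the facet is `hf (nb v l) m`). -/
theorem exists_far (v : V) (l : Fin d) : ∃ a ∈ fc L, L.nb v l ∈ a ∧ v ∉ a := by
  obtain ⟨m, hm⟩ := L.nb_surj (L.nb v l) v (L.adj_nb v l).symm
  refine ⟨hf L (L.nb v l) m, hf_mem_fc, self_mem_hf, fun h => ?_⟩
  have h3 : L.supp (L.nb v l) v = {m} := by
    have := L.supp_nb (L.nb v l) m
    rwa [hm] at this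
  rw [mem_hf, h3] at h
  exact h (Finset.mem_singleton_self m)

theorem far_unique {v : V} {l : Fin d} {a a' : Finset V} (ha : a ∈ fc L) (ha' : a' ∈ fc L)
    (h1 : L.nb v l ∈ a) (h2 : v ∉ a) (h1' : L.nb v l ∈ a') (h2' : v ∉ a') : a = a' := by
  obtain ⟨m, hm⟩ := L.nb_surj (L.nb v l) v (L.adj_nb v l).symm
  have key : ∀ b ∈ fc L, L.nb v l ∈ b → v ∉ b → b = hf L (L.nb v l) m := by
    intro b hb hb1 hb2
    obtain ⟨i, rfl⟩ := exists_hf hb hb1
    rw [mem_hf, not_not] at hb2
    have h3 : L.supp (L.nb v l) v = {m} := by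
      have := L.supp_nb (L.nb v l) m
      rwa [hm] at this
    rw [h3, Finset.mem_singleton] at hb2
    rw [hb2]
  rw [key a ha h1 h2, key a' ha' h1' h2']

end Pool.Agent.Helper13.TSE
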