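import Mathlib
import Pool.Agent.Helper13.TSE.A1

/-!
# TSE-A2: the facets through a node of a face
-/

namespace Pool.Agent.Helper13.TSE

open Finset Pool.Agent.Helper82.TotSep Pool.Agent.Helper13.TSD

variable {V : Type*} [Fintype V] {G : SimpleGraph V} {d : ℕ} {L : FaceData G d} {j : ℕ}
  {F : Finset V}

/-- `IsFace.mem_iff`, `mem_hf`: if `l ∉ dir v` then no `x ∈ F` has `l ∈ supp v x`; if `l ∈ dir v`
then `nb v l` is in `F` and not in `hf v l`. -/
theorem not_subset_hf (hF : IsFace L j F) {v : V} (hv : v ∈ F) {l : Fin d} :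
    ¬ F ⊆ hf L v l ↔ l ∈ dir L F v := by
  constructor
  · intro h
    by_contra hl
    apply h
    intro x hx
    exact mem_hf.mpr fun hm => hl (hF.supp_subset hv hx hm)
  · intro hl hs
    exact nb_mem_hf.mp (hs (mem_dir.mp hl)) rfl

theorem mem_th_iff (hF : IsFace L j F) {v : V} (hv : v ∈ F) {H : Finset V} :
    H ∈ th L F v ↔ ∃ l ∈ dir L F v, hf L v l = H := by
  rw [mem_th]
  constructor
  · rintro ⟨h1, h2, h3⟩
    obtain ⟨l, rfl⟩ := exists_hf h1 h3
    exact ⟨l, (not_subset_hf hF hv).mp h2, rfl⟩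
  · rintro ⟨l, hl, rfl⟩
    exact ⟨hf_mem_fc, (not_subset_hf hF hv).mpr hl, self_mem_hf⟩

theorem hf_mem_th (hF : IsFace L j F) {v : V} (hv : v ∈ F) {l : Fin d} (hl : l ∈ dir L F v) :
    hf L v l ∈ th L F v := (mem_th_iff hF hv).mpr ⟨l, hl, rfl⟩

theorem card_th (hF : IsFace L j F) {v : V} (hv : v ∈ F) : (th L F v).card = j := by
  classical
  have h : th L F v = (dir L F v).image (hf L v) := by
    ext H
    rw [mem_th_iff hF hv, Finset.mem_image]
  rw [h, Finset.card_image_of_injective _ (fun l m hlm => hf_inj hlm), hF.card_dir hv]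

open Classical in
theorem th_eq_cuts_filter (hF : IsFace L j F) {v : V} (hv : v ∈ F) :
    th L F v = (cuts L F).filter fun H => v ∈ H := by
  ext H
  rw [mem_th, Finset.mem_filter, mem_cuts]
  constructor
  · rintro ⟨h1, h2, h3⟩
    exact ⟨⟨h1, h2, ⟨v, mem_ct.mpr ⟨hv, h3⟩⟩⟩, h3⟩
  · rintro ⟨⟨h1, h2, -⟩, h3⟩
    exact ⟨h1, h2, h3⟩

/-- A node of `F` in all facets `hf w l`, `l ≠ m`, is an end of the edge of direction `m`. -/
theorem eq_or_eq_nb' (hF : IsFace L j F) {w x : V} (hw : w ∈ F) {m : Fin d}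
    (hx : x ∈ F) (h : ∀ l ∈ dir L F w, l ≠ m → x ∈ hf L w l) : x = w ∨ x = L.nb w m := by
  have h1 : L.supp w x ⊆ {m} := by
    intro l hl
    rw [Finset.mem_singleton]
    by_contra hlm
    exact mem_hf.mp (h l (hF.supp_subset hw hx hl) hlm) hl
  rcases Finset.subset_singleton_iff.mp h1 with h2 | h2
  · exact Or.inl (L.eq_self w x h2)
  · exact Or.inr (L.eq_nb w x m h2)

end Pool.Agent.Helper13.TSE
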