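import Mathlib
import Pool.Agent.Helper13.TSE.A2

/-!
# TSE-A3: intersections of a face with a facet of the polytope
-/

namespace Pool.Agent.Helper13.TSE

open Finset Pool.Agent.Helper82.TotSep Pool.Agent.Helper13.TSD

variable {V : Type*} [Fintype V] {G : SimpleGraph V} {d : ℕ} {L : FaceData G d} {k : ℕ}
  {F : Finset V}

theorem ct_hf (hF : IsFace L k F) {v : V} (hv : v ∈ F) (l : Fin d) :
    ct (hf L v l) F = faceOf L v ((dir L F v).erase l) := by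
  ext x
  rw [mem_ct, hF.mem_iff hv, mem_hf, mem_faceOf, Finset.subset_erase]

private lemma cuts_at (hF : IsFace L k F) {H : Finset V} (hH : H ∈ cuts L F) {w : V}
    (hw : w ∈ ct H F) : ∃ l ∈ dir L F w, hf L w l = H := by
  obtain ⟨h1, h2, _⟩ := mem_cuts.mp hH
  obtain ⟨hwF, hwH⟩ := mem_ct.mp hw
  obtain ⟨l, rfl⟩ := exists_hf h1 hwH
  exact ⟨l, (not_subset_hf hF hwF).mp h2, rfl⟩

theorem isFace_ct (hF : IsFace L (k + 1) F) {H : Finset V} (hH : H ∈ cuts L F) :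
    IsFace L k (ct H F) := by
  obtain ⟨w, hw⟩ := (mem_cuts.mp hH).2.2
  obtain ⟨l, hl, rfl⟩ := cuts_at hF hH hw
  rw [ct_hf hF (mem_ct.mp hw).1]
  exact (hF.facetOf (mem_ct.mp hw).1 hl).1

/-- Take `w` in the intersection, `H = hf w l`, `H' = hf w l'`, `l, l' ∈ dir w`. -/
theorem ct_inj (hF : IsFace L k F) {H H' : Finset V} (hH : H ∈ cuts L F) (hH' : H' ∈ cuts L F)
    (h : ct H F = ct H' F) : H = H' := by
  obtain ⟨w, hw⟩ := (mem_cuts.mp hH).2.2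
  have hw' : w ∈ ct H' F := h ▸ hw
  have hwF := (mem_ct.mp hw).1
  obtain ⟨l, hl, rfl⟩ := cuts_at hF hH hw
  obtain ⟨l', hl', rfl⟩ := cuts_at hF hH' hw'
  rw [ct_hf hF hwF, ct_hf hF hwF] at h
  have h1 : (dir L F w).erase l = (dir L F w).erase l' := by
    rw [← dir_faceOf (L := L) w ((dir L F w).erase l), h, dir_faceOf]
  by_cases hll : l = l'
  · rw [hll]
  · exfalso
    have h2 : l' ∈ (dir L F w).erase l := Finset.mem_erase.mpr ⟨fun e => hll e.symm, hl'⟩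
    rw [h1] at h2
    exact (Finset.mem_erase.mp h2).1 rfl

/-- The facets of `F` are the `ct H F`, `H ∈ cuts F`: at `v` in the facet `A` of `F`,
`A = faceOf v ((dir F v).erase l)` (`IsFace.exists_out`, `IsFace.eq_faceOf`). -/
theorem facets_eq (hF : IsFace L (k + 1) F) {A : Finset V} :
    A ∈ facets L k F ↔ ∃ H ∈ cuts L F, ct H F = A := by
  rw [mem_facets]
  constructor
  · rintro ⟨hA, hAf⟩
    obtain ⟨w, hw⟩ := hAf.nonempty
    obtain ⟨l, _, _, hdir, hl, _⟩ := hF.exists_out hAf hA hw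
    refine ⟨hf L w l, mem_cuts.mpr ⟨hf_mem_fc, (not_subset_hf hF (hA hw)).mpr hl,
      ⟨w, mem_ct.mpr ⟨hA hw, self_mem_hf⟩⟩⟩, ?_⟩
    rw [ct_hf hF (hA hw), ← hdir, ← hAf.eq_faceOf hw]
  · rintro ⟨H, hH, rfl⟩
    exact ⟨ct_subset, isFace_ct hF hH⟩

/-- Sums over the facets of `F`. -/
theorem sum_cuts (hF : IsFace L (k + 1) F) (f : Finset V → ℝ) :
    ∑ H ∈ cuts L F, f (ct H F) = ∑ A ∈ facets L k F, f A := by
  refine Finset.sum_bij (fun H _ => ct H F) ?_ ?_ ?_ ?_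
  · intro H hH
    exact (facets_eq hF).mpr ⟨H, hH, rfl⟩
  · intro H hH H' hH' h
    exact ct_inj hF hH hH' h
  · intro A hA
    obtain ⟨H, hH, h⟩ := (facets_eq hF).mp hA
    exact ⟨H, hH, h⟩
  · intro H _
    rfl

/-- For `v ∈ F`, `v ∈ H = hf v l`, `l ∈ dir F v`. -/
theorem dir_ct_hf (hF : IsFace L k F) {v : V} (hv : v ∈ F) (l : Fin d) :
    dir L (ct (hf L v l) F) v = (dir L F v).erase l := by
  rw [ct_hf hF hv, dir_faceOf]

theorem cuts_of_th (hF : IsFace L k F) {v : V} (hv : v ∈ F) {H : Finset V}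
    (hH : H ∈ th L F v) : H ∈ cuts L F := by
  obtain ⟨h1, h2, h3⟩ := mem_th.mp hH
  exact mem_cuts.mpr ⟨h1, h2, ⟨v, mem_ct.mpr ⟨hv, h3⟩⟩⟩

end Pool.Agent.Helper13.TSE
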