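import Mathlib
import Pool.Agent.Helper13.TSE.A3

/-!
# TSE-A4: neighbours
-/

namespace Pool.Agent.Helper13.TSE

open Finset Pool.Agent.Helper82.TotSep Pool.Agent.Helper13.TSD

variable {V : Type*} [Fintype V] {G : SimpleGraph V} {d : ℕ} {L : FaceData G d} {j : ℕ}
  {F : Finset V}

/-- If `v` and `w ≠ v` are in `F` and all facets of `F` through `v` except at most one contain
`w`, then `w = nb v m` for the exceptional one. -/
theorem exists_nb_of_th (hF : IsFace L j F) {v w : V} (hv : v ∈ F) (hw : w ∈ F) (hne : w ≠ v)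
    {m : Fin d} (h : ∀ l ∈ dir L F v, l ≠ m → w ∈ hf L v l) :
    m ∈ dir L F v ∧ L.nb v m = w ∧ w ∉ hf L v m := by
  have hs := hF.supp_subset hv hw
  have h1 : L.supp v w ⊆ {m} := by
    intro l hl
    rw [Finset.mem_singleton]
    by_contra hlm
    exact (mem_hf.mp (h l (hs hl) hlm)) hl
  have h2 : L.supp v w = {m} := by
    rcases Finset.subset_singleton_iff.mp h1 with h3 | h3
    · exact absurd (L.eq_self v w h3) hne
    · exact h3
  have hm : m ∈ L.supp v w := by rw [h2]; exact Finset.mem_singleton_self m
  exact ⟨hs hm, (L.eq_nb v w m h2).symm, fun h3 => (mem_hf.mp h3) hm⟩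

/-- The nodes of `F` in all facets of a set `Z` of at least `j - 1` facets of `F` through `w` are
at most two: `w` and a neighbour. -/
theorem card_eds_le (hF : IsFace L j F) {w : V} {Z : Finset (Finset V)}
    (hw : w ∈ eds F Z) (hZ : Z ⊆ th L F w) (hc : j ≤ Z.card + 1) : (eds F Z).card ≤ 2 := by
  classical
  have hwF : w ∈ F := (mem_eds.mp hw).1
  set D' : Finset (Fin d) := (dir L F w).filter fun l => hf L w l ∉ Z with hD'
  have hsub : ∀ x ∈ eds F Z, L.supp w x ⊆ D' := by
    intro x hx l hl
    have hx' := mem_eds.mp hx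
    have hld := hF.supp_subset hwF hx'.1 hl
    rw [hD', Finset.mem_filter]
    exact ⟨hld, fun hlZ => (mem_hf.mp (hx'.2 _ hlZ)) hl⟩
  have hcard : D'.card ≤ 1 := by
    have h1 : Z ⊆ ((dir L F w).filter fun l => hf L w l ∈ Z).image (hf L w) := by
      intro H hH
      obtain ⟨l, hl, rfl⟩ := (mem_th_iff hF hwF).mp (hZ hH)
      exact Finset.mem_image.mpr ⟨l, Finset.mem_filter.mpr ⟨hl, hH⟩, rfl⟩
    have h2 : Z.card ≤ ((dir L F w).filter fun l => hf L w l ∈ Z).card :=
      (Finset.card_le_card h1).trans Finset.card_image_le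
    have h3 : ((dir L F w).filter fun l => hf L w l ∈ Z).card + D'.card = j := by
      rw [← hF.card_dir hwF, hD']
      exact Finset.card_filter_add_card_filter_not (s := dir L F w) (fun l => hf L w l ∈ Z)
    omega
  rcases D'.eq_empty_or_nonempty with h0 | ⟨m, hm⟩
  · have hE : eds F Z ⊆ {w} := by
      intro x hx
      rw [Finset.mem_singleton]
      have h := hsub x hx
      rw [h0, Finset.subset_empty] at h
      exact L.eq_self w x h
    exact (Finset.card_le_card hE).trans (by simp)
  · have hE : eds F Z ⊆ {w, L.nb w m} := by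
      intro x hx
      rw [Finset.mem_insert, Finset.mem_singleton]
      have h : L.supp w x ⊆ {m} := fun l hl =>
        Finset.mem_singleton.mpr (Finset.card_le_one.mp hcard l (hsub x hx hl) m hm)
      rcases Finset.subset_singleton_iff.mp h with h | h
      · exact Or.inl (L.eq_self w x h)
      · exact Or.inr (L.eq_nb w x m h)
    exact (Finset.card_le_card hE).trans Finset.card_le_two

/-- The number of neighbours in `M` in the facet `a`, for the subfaces. -/
theorem mm_mono {M F' : Finset V} (h : F' ⊆ F) (v : V) (a : Finset V) :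
    mm L M F' v a ≤ mm L M F v a := by
  classical
  unfold mm
  refine Finset.card_le_card fun l hl => ?_
  rw [Finset.mem_filter] at hl ⊢
  exact ⟨mem_dir.mpr (h (mem_dir.mp hl.1)), hl.2⟩

open Classical in
theorem mm_faceOf {M : Finset V} (v : V) (U : Finset (Fin d)) (a : Finset V) :
    mm L M (faceOf L v U) v a = (U.filter fun l => L.nb v l ∈ M ∧ L.nb v l ∈ a).card := by
  unfold mm
  rw [dir_faceOf]

/-- The facets which do not contain `v`, weighted by the neighbours of `v` in them, have total
weight at most `j` (`far_unique`). -/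
theorem sum_mm_le (hF : IsFace L j F) {M : Finset V} {v : V} (hv : v ∈ F)
    (A : Finset (Finset V)) (hA : ∀ a ∈ A, a ∈ fc L ∧ v ∉ a) : ∑ a ∈ A, mm L M F v a ≤ j := by
  classical
  unfold mm
  rw [← Finset.card_biUnion]
  · rw [← hF.card_dir hv]
    refine Finset.card_le_card fun l hl => ?_
    obtain ⟨a, _, hl⟩ := Finset.mem_biUnion.mp hl
    exact (Finset.mem_filter.mp hl).1
  · intro a ha a' ha' hne
    rw [Function.onFun, Finset.disjoint_left]
    intro l hl hl'
    refine hne (far_unique (hA a ha).1 (hA a' ha').1 (Finset.mem_filter.mp hl).2.2 (hA a ha).2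
      (Finset.mem_filter.mp hl').2.2 (hA a' ha').2)

end Pool.Agent.Helper13.TSE
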