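import Mathlib
import Pool.Agent.Helper13.TSE.A4

/-!
# TSE-B1: good seers
-/

namespace Pool.Agent.Helper13.TSE

open Finset Pool.Agent.Helper82.TotSep Pool.Agent.Helper13.TSD

variable {V : Type*} [Fintype V] {G : SimpleGraph V} {d : ℕ} {Λ : Type*} {L : FaceData G d}
  {M : Finset V} {lab : V → Λ} {j : ℕ} {F : Finset V}

omit [Fintype V] in
theorem labs_mono {F' : Finset V} (h : F' ⊆ F) : labs M lab F' ⊆ labs M lab F := by
  intro a ha
  obtain ⟨x, hx, hM, hl⟩ := mem_labs.mp ha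
  exact mem_labs.mpr ⟨x, h hx, hM, hl⟩

omit [Fintype V] in
theorem Re.mono {F' : Finset V} (h : F' ⊆ F) (h' : Re M lab F') : Re M lab F :=
  le_trans h' (Finset.card_le_card (labs_mono h))

/-- Smaller faces have smaller `ZZ`. -/
theorem ZZ_mono {F' : Finset V} (h : F' ⊆ F) (c : Λ) : ZZ L M lab F' c ⊆ ZZ L M lab F c := by
  intro H hH
  obtain ⟨h1, h2, h3, h4⟩ := mem_ZZ.mp hH
  have h5 : ct H F' ⊆ ct H F := fun x hx => mem_ct.mpr ⟨h (mem_ct.mp hx).1, (mem_ct.mp hx).2⟩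
  exact mem_ZZ.mpr ⟨h1, fun h6 => h2 (h.trans h6), h3.mono h5, labs_mono h5 h4⟩

/-- `H ∈ ZZ F c` through `v ∈ F` is a facet through `v`, and `ZZ F c` consists of facets which
cut `F`. -/
theorem ZZ_subset_cuts (c : Λ) : ZZ L M lab F c ⊆ cuts L F := by
  intro H hH
  obtain ⟨h1, h2, _, h4⟩ := mem_ZZ.mp hH
  obtain ⟨x, hx, _, _⟩ := mem_labs.mp h4
  exact mem_cuts.mpr ⟨h1, h2, ⟨x, hx⟩⟩

/-- A node `v` of `F` sees at least three labels in `F` and one of them, `c`, through `l`: all the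
facets `hf v l'`, `l' ≠ l`, are real and contain `c`: `ct (hf v l') F` contains `nb v m` for all
`m ≠ l'`; among two labels `≠ c` seen by `v` one is seen through a direction `m ≠ l'`. -/
theorem good_mem_ZZ (hF : IsFace L j F) {v : V} (hv : v ∈ F)
    (h3 : 3 ≤ (eqSeen L M lab F v).card) {l : Fin d} (hl : l ∈ dir L F v) (hM : L.nb v l ∉ M)
    {l' : Fin d} (hl' : l' ∈ dir L F v) (hne : l' ≠ l) :
    hf L v l' ∈ ZZ L M lab F (lab (L.nb v l)) := by
  classical
  have key : ∀ m ∈ dir L F v, l' ≠ m → L.nb v m ∉ M →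
      lab (L.nb v m) ∈ labs M lab (ct (hf L v l') F) := by
    intro m hm hne' hM'
    exact mem_labs.mpr ⟨_, mem_ct.mpr ⟨mem_dir.mp hm, nb_mem_hf.mpr hne'⟩, hM', rfl⟩
  obtain ⟨b, hb⟩ : ((eqSeen L M lab F v) \ {lab (L.nb v l), lab (L.nb v l')}).Nonempty := by
    rw [← Finset.card_pos]
    have h4 := Finset.le_card_sdiff ({lab (L.nb v l), lab (L.nb v l')} : Finset Λ)
      (eqSeen L M lab F v)
    have h5 : ({lab (L.nb v l), lab (L.nb v l')} : Finset Λ).card ≤ 2 := Finset.card_le_two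
    omega
  rw [Finset.mem_sdiff, Finset.mem_insert, Finset.mem_singleton, not_or] at hb
  obtain ⟨hb1, hb2, hb3⟩ := hb
  obtain ⟨m, hm, hM', hlm⟩ := mem_eqSeen.mp hb1
  have hml : l' ≠ m := by
    rintro rfl
    exact hb3 hlm.symm
  have hc1 := key l hl hne hM
  have hc2 := key m hm hml hM'
  refine mem_ZZ.mpr ⟨hf_mem_fc, (not_subset_hf hF hv).mpr hl', ?_, hc1⟩
  have h2 : 1 < (labs M lab (ct (hf L v l') F)).card :=
    Finset.one_lt_card.mpr ⟨_, hc1, _, hc2, by rw [hlm]; exact fun h => hb2 h.symm⟩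
  exact h2

/-- All facets through a node which sees three labels are real. -/
theorem nr_eq_zero (hF : IsFace L j F) {v : V} (hv : v ∈ F)
    (h3 : 3 ≤ (eqSeen L M lab F v).card) : nr L M lab F v = 0 := by
  classical
  unfold nr
  rw [Finset.card_eq_zero, Finset.filter_eq_empty_iff]
  intro H hH
  rw [not_not]
  obtain ⟨l', hl', rfl⟩ := (mem_th_iff hF hv).mp hH
  obtain ⟨b, hb⟩ : ((eqSeen L M lab F v) \ {lab (L.nb v l')}).Nonempty := by
    rw [← Finset.card_pos]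
    have h4 := Finset.le_card_sdiff ({lab (L.nb v l')} : Finset Λ) (eqSeen L M lab F v)
    rw [Finset.card_singleton] at h4
    omega
  rw [Finset.mem_sdiff, Finset.mem_singleton] at hb
  obtain ⟨hb1, hb2⟩ := hb
  obtain ⟨l, hl, hM, hll⟩ := mem_eqSeen.mp hb1
  have hne : l' ≠ l := by
    rintro rfl
    exact hb2 hll.symm
  exact (mem_ZZ.mp (good_mem_ZZ hF hv h3 hl hM hl' hne)).2.2.1

end Pool.Agent.Helper13.TSE
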