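import Mathlib
import Pool.Agent.Helper13.TSE.B1

/-!
# TSE-B2: the number of real facets of a label with two good seers
-/

namespace Pool.Agent.Helper13.TSE

open Finset Pool.Agent.Helper82.TotSep Pool.Agent.Helper13.TSD

variable {V : Type*} [Fintype V] {G : SimpleGraph V} {d : ℕ} {Λ : Type*} {L : FaceData G d}
  {M : Finset V} {lab : V → Λ} {j : ℕ} {F : Finset V}

open Classical in
private theorem B2_image (hF : IsFace L j F) {c : Λ} {v : V} (hv : v ∈ gs L M lab F c) :
    ∃ i ∈ dir L F v, v ∈ F ∧ v ∈ M ∧ L.nb v i ∉ M ∧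
      ((dir L F v).erase i).image (fun l => hf L v l) ⊆ ZZ L M lab F c ∧
      (((dir L F v).erase i).image (fun l => hf L v l)).card + 1 = j := by
  obtain ⟨hs, h3⟩ := mem_gs.mp hv
  obtain ⟨hvF, hvM, i, hi, hiM, hic⟩ := mem_seers.mp hs
  refine ⟨i, hi, hvF, hvM, hiM, ?_, ?_⟩
  · intro H hH
    obtain ⟨l, hl, rfl⟩ := Finset.mem_image.mp hH
    rw [Finset.mem_erase] at hl
    have h := good_mem_ZZ (M := M) (lab := lab) hF hvF h3 hi hiM hl.2 hl.1
    rwa [hic] at h
  · rw [Finset.card_image_of_injOn, Finset.card_erase_of_mem hi, hF.card_dir hvF]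
    · have h1 : 0 < (dir L F v).card := Finset.card_pos.mpr ⟨i, hi⟩
      rw [hF.card_dir hvF] at h1
      omega
    · intro l _ l' _ hll
      exact hf_inj hll

/-- A good seer gives `j - 1` elements of `ZZ`. -/
theorem card_ZZ_ge_one (hF : IsFace L j F) {c : Λ} {v : V} (hv : v ∈ gs L M lab F c) :
    j ≤ (ZZ L M lab F c).card + 1 := by
  classical
  obtain ⟨i, -, -, -, -, hsub, hcard⟩ := B2_image hF hv
  have := Finset.card_le_card hsub
  omega

/-- Two good seers: at least `j` real facets.  Otherwise `ZZ F c` is the set of the `hf v l'`,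
`l' ≠ l`, and also the set of the `hf v' l'`, `l' ≠ m`, so `v'` lies in all the first ones, and
`v' = nb v l`, which is not in `M` (`exists_nb_of_th`).  Compare `TSD.card_Zs_ge`. -/
theorem card_ZZ_ge (hF : IsFace L j F) {c : Λ} (hc : 2 ≤ (gs L M lab F c).card) :
    j ≤ (ZZ L M lab F c).card := by
  classical
  by_contra hlt
  push Not at hlt
  obtain ⟨v, hv, v', hv', hne⟩ := Finset.one_lt_card.mp (lt_of_lt_of_le one_lt_two hc)
  obtain ⟨i, hi, hvF, -, hiM, hsub, hcard⟩ := B2_image hF hv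
  obtain ⟨i', -, hvF', hvM', -, hsub', hcard'⟩ := B2_image hF hv'
  have h2 : ((dir L F v').erase i').image (fun l => hf L v' l) = ZZ L M lab F c :=
    Finset.eq_of_subset_of_card_le hsub' (by omega)
  have h3 := exists_nb_of_th hF hvF hvF' (Ne.symm hne) (m := i) fun l hl hli => by
    have h4 : hf L v l ∈ ZZ L M lab F c :=
      hsub (Finset.mem_image.mpr ⟨l, Finset.mem_erase.mpr ⟨hli, hl⟩, rfl⟩)
    rw [← h2] at h4
    obtain ⟨l', -, h5⟩ := Finset.mem_image.mp h4
    rw [← h5]
    exact self_mem_hf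
  rw [h3.2.1] at hiM
  exact hiM hvM'

end Pool.Agent.Helper13.TSE
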