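import Mathlib
import Pool.Agent.Helper13.TSE.B2

/-!
# TSE-B3: nice labels (compare `TSD.LC`)
-/

namespace Pool.Agent.Helper13.TSE

open Finset Pool.Agent.Helper82.TotSep Pool.Agent.Helper13.TSD

variable {V : Type*} [Fintype V] {G : SimpleGraph V} {d : ℕ} {Λ : Type*} {L : FaceData G d}
  {M : Finset V} {lab : V → Λ} {j : ℕ} {F : Finset V}

/-- the facets through a good seer, except one, are in `ZZ` -/
private theorem gs_ZZ (hF : IsFace L j F) {c : Λ} {v : V}
    (hv : v ∈ gs L M lab F c) {l : Fin d} (hl : l ∈ dir L F v) (hM : L.nb v l ∉ M)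
    (hlc : lab (L.nb v l) = c) {l' : Fin d} (hl' : l' ∈ dir L F v) (hne : l' ≠ l) :
    hf L v l' ∈ ZZ L M lab F c := by
  obtain ⟨hs, h3⟩ := mem_gs.mp hv
  have h := good_mem_ZZ (M := M) (lab := lab) hF (mem_seers.mp hs).1 h3 hl hM hl' hne
  rwa [hlc] at h

/-- the elements of `ZZ` through `v` -/
private theorem ZZ_hf (hF : IsFace L j F) {c : Λ} {v : V} (hvF : v ∈ F) {H : Finset V}
    (hH : H ∈ ZZ L M lab F c) (hvH : v ∈ H) : ∃ l ∈ dir L F v, hf L v l = H :=
  (mem_th_iff hF hvF).mp (mem_th.mpr ⟨(mem_ZZ.mp hH).1, (mem_ZZ.mp hH).2.1, hvH⟩)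

/-- For a nice label and a good seer `v` through the direction `l`, the facet `hf v l` is not in
`ZZ F c`.  Otherwise `ZZ F c = th F v`; another good seer `v'`, through `m`, gives: all `hf v' l'`,
`l' ≠ m`, contain `v`, so `v = nb v' m`, not in `M`. -/
theorem Nic.notMem (hF : IsFace L j F) {c : Λ} (hc : Nic L M lab j F c) {v : V}
    (hv : v ∈ gs L M lab F c) {l : Fin d} (hl : l ∈ dir L F v) (hM : L.nb v l ∉ M)
    (hlc : lab (L.nb v l) = c) : hf L v l ∉ ZZ L M lab F c := by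
  classical
  intro hmem
  have hvF : v ∈ F := (mem_seers.mp (mem_gs.mp hv).1).1
  have hvM : v ∈ M := (mem_seers.mp (mem_gs.mp hv).1).2.1
  have hsub : th L F v ⊆ ZZ L M lab F c := by
    intro H hH
    obtain ⟨l', hl', rfl⟩ := (mem_th_iff hF hvF).mp hH
    by_cases h : l' = l
    · rw [h]; exact hmem
    · exact gs_ZZ hF hv hl hM hlc hl' h
  have heq : th L F v = ZZ L M lab F c :=
    Finset.eq_of_subset_of_card_le hsub (by rw [hc.1, card_th hF hvF])
  obtain ⟨v', hv', hne⟩ := Finset.exists_mem_ne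
    (show 1 < (gs L M lab F c).card by have := hc.2; omega) v
  obtain ⟨hv'F, hv'M, m, hm, hM', hm'⟩ := mem_seers.mp (mem_gs.mp hv').1
  rcases eq_or_eq_nb' hF hv'F hvF (fun l' hl' hne' => by
    have h1 := gs_ZZ hF hv' hm hM' hm' hl' hne'
    rw [← heq] at h1
    exact (mem_th.mp h1).2.2) with h | h
  · exact hne h.symm
  · exact hM' (h ▸ hvM)

/-- The direction through which a good seer sees a nice label is unique (`good_mem_ZZ` for the
other direction against `Nic.notMem`). -/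
theorem Nic.dir_unique (hF : IsFace L j F) {c : Λ} (hc : Nic L M lab j F c) {v : V}
    (hv : v ∈ gs L M lab F c) {l l' : Fin d} (hl : l ∈ dir L F v) (hM : L.nb v l ∉ M)
    (hlc : lab (L.nb v l) = c) (hl' : l' ∈ dir L F v) (hM' : L.nb v l' ∉ M)
    (hlc' : lab (L.nb v l') = c) : l = l' := by
  by_contra hne
  exact hc.notMem hF hv hl' hM' hlc' (gs_ZZ hF hv hl hM hlc hl' fun h => hne h.symm)

/-- `ZZ F c` minus the facets through the good seer has exactly one element. -/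
private theorem ZZ_sdiff (hF : IsFace L j F) {c : Λ} (hc : Nic L M lab j F c) {v : V}
    (hv : v ∈ gs L M lab F c) : ∃ a ∈ ZZ L M lab F c, v ∉ a ∧
      ∀ a' ∈ ZZ L M lab F c, v ∉ a' → a' = a := by
  classical
  obtain ⟨hvF, hvM, l, hl, hM, hlc⟩ := mem_seers.mp (mem_gs.mp hv).1
  have hn := hc.notMem hF hv hl hM hlc
  have hsub : (th L F v).erase (hf L v l) ⊆ ZZ L M lab F c := by
    intro H hH
    rw [Finset.mem_erase] at hH
    obtain ⟨l', hl', rfl⟩ := (mem_th_iff hF hvF).mp hH.2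
    exact gs_ZZ hF hv hl hM hlc hl' fun h => hH.1 (by rw [h])
  have hcard : (ZZ L M lab F c \ (th L F v).erase (hf L v l)).card = 1 := by
    rw [Finset.card_sdiff_of_subset hsub, hc.1,
      Finset.card_erase_of_mem (hf_mem_th hF hvF hl), card_th hF hvF]
    have h1 : 0 < (th L F v).card := Finset.card_pos.mpr ⟨_, hf_mem_th hF hvF hl⟩
    rw [card_th hF hvF] at h1
    omega
  obtain ⟨a, ha⟩ := Finset.card_eq_one.mp hcard
  have key : ∀ H, H ∈ ZZ L M lab F c → v ∉ H → H = a := by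
    intro H hH hvH
    have : H ∈ ZZ L M lab F c \ (th L F v).erase (hf L v l) := by
      rw [Finset.mem_sdiff, Finset.mem_erase, mem_th]
      exact ⟨hH, fun h => hvH h.2.2.2⟩
    rw [ha, Finset.mem_singleton] at this
    exact this
  have ha' : a ∈ ZZ L M lab F c \ (th L F v).erase (hf L v l) := by
    rw [ha]; exact Finset.mem_singleton_self a
  rw [Finset.mem_sdiff, Finset.mem_erase] at ha'
  refine ⟨a, ha'.1, fun hva => ha'.2 ⟨fun h => hn (h ▸ ha'.1), ?_⟩, key⟩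
  exact mem_th.mpr ⟨(mem_ZZ.mp ha'.1).1, (mem_ZZ.mp ha'.1).2.1, hva⟩

/-- So `ZZ F c` consists of the `hf v l'`, `l' ≠ l`, and of one facet which does not contain
`v`. -/
theorem Nic.exists_miss (hF : IsFace L j F) {c : Λ} (hc : Nic L M lab j F c) {v : V}
    (hv : v ∈ gs L M lab F c) : ∃ a ∈ ZZ L M lab F c, v ∉ a := by
  obtain ⟨a, ha, hva, -⟩ := ZZ_sdiff hF hc hv
  exact ⟨a, ha, hva⟩

/-- The missing facet is unique. -/
theorem Nic.miss_unique (hF : IsFace L j F) {c : Λ} (hc : Nic L M lab j F c) {v : V}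
    (hv : v ∈ gs L M lab F c) {a a' : Finset V} (ha : a ∈ ZZ L M lab F c) (hva : v ∉ a)
    (ha' : a' ∈ ZZ L M lab F c) (hva' : v ∉ a') : a = a' := by
  obtain ⟨b, -, -, h⟩ := ZZ_sdiff hF hc hv
  rw [h a ha hva, h a' ha' hva']

/-- Description of `ZZ F c` by a good seer. -/
theorem Nic.mem_ZZ_iff (hF : IsFace L j F) {c : Λ} (hc : Nic L M lab j F c) {v : V}
    (hv : v ∈ gs L M lab F c) {l : Fin d} (hl : l ∈ dir L F v) (hM : L.nb v l ∉ M)
    (hlc : lab (L.nb v l) = c) {a : Finset V} (ha : a ∈ ZZ L M lab F c) (hva : v ∉ a)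
    {H : Finset V} :
    H ∈ ZZ L M lab F c ↔ H = a ∨ ∃ l' ∈ dir L F v, l' ≠ l ∧ hf L v l' = H := by
  have hvF : v ∈ F := (mem_seers.mp (mem_gs.mp hv).1).1
  constructor
  · intro hH
    by_cases hvH : v ∈ H
    · obtain ⟨l', hl', rfl⟩ := ZZ_hf hF hvF hH hvH
      exact Or.inr ⟨l', hl', fun h => hc.notMem hF hv hl hM hlc (h ▸ hH), rfl⟩
    · exact Or.inl (hc.miss_unique hF hv hH hvH ha hva)
  · rintro (h | ⟨l', h1, h2, rfl⟩)
    · rw [h]; exact ha
    · exact gs_ZZ hF hv hl hM hlc h1 h2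

end Pool.Agent.Helper13.TSE
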