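import Mathlib
import Pool.Agent.Helper13.TSE.B3

/-!
# TSE-B4: different good seers of a nice label
-/

namespace Pool.Agent.Helper13.TSE

open Finset Pool.Agent.Helper82.TotSep Pool.Agent.Helper13.TSD

variable {V : Type*} [Fintype V] {G : SimpleGraph V} {d : ℕ} {Λ : Type*} {L : FaceData G d}
  {M : Finset V} {lab : V → Λ} {j : ℕ} {F : Finset V}

/-- The good seer is determined by the missing facet (compare `TSD.Nice.seer_unique`): the
`hf v l'`, `l' ≠ l`, all contain `v'`. -/
theorem Nic.seer_unique (hF : IsFace L j F) {c : Λ} (hc : Nic L M lab j F c) {v v' : V}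
    (hv : v ∈ gs L M lab F c) (hv' : v' ∈ gs L M lab F c) {a : Finset V}
    (ha : a ∈ ZZ L M lab F c) (hva : v ∉ a) (hva' : v' ∉ a) : v = v' := by
  obtain ⟨hvF, hvM, l, hl, hM, hlc⟩ := mem_seers.mp (mem_gs.mp hv).1
  have h3 := (mem_gs.mp hv).2
  have hv'F : v' ∈ F := (mem_seers.mp (mem_gs.mp hv').1).1
  have hv'M : v' ∈ M := (mem_seers.mp (mem_gs.mp hv').1).2.1
  rcases eq_or_eq_nb' hF hvF (m := l) hv'F (fun l' hl' hne => by
    by_contra hvH
    have h1 := good_mem_ZZ hF hvF h3 hl hM hl' hne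
    rw [hlc] at h1
    have h2 := hc.miss_unique hF hv' h1 hvH ha hva'
    exact hva (h2 ▸ self_mem_hf)) with h | h
  · exact h.symm
  · exact absurd (h ▸ hv'M) hM

/-- Two different good seers `v`, `v'` of a nice label `c` with the same facet `hf v l = hf v' l'`
through them which is not in `ZZ F c`: with the missing facets `a` of `v` and `a'` of `v'`
(different by `seer_unique`) the facets through `v'` are `hf v l` and those of `ZZ F c` except
`a'`; so `v'` lies in all facets through `v` except `a' = hf v m`, and `v' = nb v m`; also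
`v' ∈ a`. -/
theorem Nic.adj (hF : IsFace L j F) {c : Λ} (hc : Nic L M lab j F c) {v v' : V}
    (hv : v ∈ gs L M lab F c) (hv' : v' ∈ gs L M lab F c) (hne : v ≠ v') {l l' : Fin d}
    (hl : l ∈ dir L F v) (hM : L.nb v l ∉ M) (hlc : lab (L.nb v l) = c)
    (hl' : l' ∈ dir L F v') (hM' : L.nb v' l' ∉ M) (hlc' : lab (L.nb v' l') = c)
    (he : hf L v l = hf L v' l') {a : Finset V} (ha : a ∈ ZZ L M lab F c) (hva : v ∉ a) :
    v' ∈ a ∧ ∃ m ∈ dir L F v, L.nb v m = v' := by
  have hvF : v ∈ F := (mem_seers.mp (mem_gs.mp hv).1).1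
  have h3 := (mem_gs.mp hv).2
  have hv'F : v' ∈ F := (mem_seers.mp (mem_gs.mp hv').1).1
  have hv'a : v' ∈ a := by
    by_contra hva'
    exact hne (hc.seer_unique hF hv hv' ha hva hva')
  refine ⟨hv'a, ?_⟩
  obtain ⟨a', ha', hva'⟩ := hc.exists_miss hF hv'
  rcases (hc.mem_ZZ_iff hF hv hl hM hlc ha hva).mp ha' with h | ⟨m, hm, hml, hma⟩
  · exact absurd (h ▸ hv'a) hva'
  · refine ⟨m, hm, ?_⟩
    refine (exists_nb_of_th hF hvF hv'F hne.symm (m := m) fun l'' hl'' hne'' => ?_).2.1
    by_cases hll : l'' = l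
    · rw [hll, he]
      exact self_mem_hf
    · by_contra hvH
      have h1 := good_mem_ZZ hF hvF h3 hl hM hl'' hll
      rw [hlc] at h1
      have h2 := hc.miss_unique hF hv' h1 hvH ha' hva'
      exact hne'' (hf_inj (h2.trans hma.symm))

open Classical in
/-- So the number of the good seers with the same facet `e` outside `ZZ F c` is at most
`mm F v a + 1`. -/
theorem Nic.card_class_le (hF : IsFace L j F) {c : Λ} (hc : Nic L M lab j F c) {v : V}
    (hv : v ∈ gs L M lab F c) {l : Fin d} (hl : l ∈ dir L F v) (hM : L.nb v l ∉ M)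
    (hlc : lab (L.nb v l) = c) {a : Finset V} (ha : a ∈ ZZ L M lab F c) (hva : v ∉ a) :
    ((gs L M lab F c).filter fun v' => ∃ l' ∈ dir L F v', L.nb v' l' ∉ M ∧
      lab (L.nb v' l') = c ∧ hf L v' l' = hf L v l).card ≤ mm L M F v a + 1 := by
  set S := (gs L M lab F c).filter fun v' => ∃ l' ∈ dir L F v', L.nb v' l' ∉ M ∧
      lab (L.nb v' l') = c ∧ hf L v' l' = hf L v l with hS
  have hvS : v ∈ S := by
    rw [hS, Finset.mem_filter]
    exact ⟨hv, l, hl, hM, hlc, rfl⟩
  have key : ∀ v' : V, ∃ m : Option (Fin d), v' ∈ S.erase v →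
      ∃ m', m = some m' ∧ m' ∈ dir L F v ∧ L.nb v m' = v' ∧ v' ∈ M ∧ v' ∈ a := by
    intro v'
    by_cases hv' : v' ∈ S.erase v
    · rw [Finset.mem_erase, hS, Finset.mem_filter] at hv'
      obtain ⟨hne, hg, l', hl', hM', hlc', he⟩ := hv'
      obtain ⟨h1, m, hm, hm'⟩ := hc.adj hF hv hg (fun h => hne h.symm) hl hM hlc hl' hM' hlc'
        he.symm ha hva
      exact ⟨some m, fun _ => ⟨m, rfl, hm, hm', (mem_seers.mp (mem_gs.mp hg).1).2.1, h1⟩⟩
    · exact ⟨none, fun h => absurd h hv'⟩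
  choose g hg using key
  have h6 : (S.erase v).card ≤
      (((dir L F v).filter fun l => L.nb v l ∈ M ∧ L.nb v l ∈ a).image some).card := by
    refine Finset.card_le_card_of_injOn g ?_ ?_
    · intro v' hv'
      obtain ⟨m, e, h1, h2, h3, h4⟩ := hg v' hv'
      rw [Finset.mem_coe, Finset.mem_image]
      exact ⟨m, Finset.mem_filter.mpr ⟨h1, by rw [h2]; exact ⟨h3, h4⟩⟩, e.symm⟩
    · intro v' hv' v'' hv'' h
      obtain ⟨m, e, -, h2, -⟩ := hg v' hv'
      obtain ⟨m', e', -, h2', -⟩ := hg v'' hv''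
      have e2 : m = m' := by
        rw [e, e'] at h
        exact Option.some.inj h
      rw [← h2, ← h2', e2]
  have h7 := Finset.card_erase_add_one hvS
  have h8 := h6.trans Finset.card_image_le
  unfold mm
  omega

end Pool.Agent.Helper13.TSE
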