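import Mathlib
import Pool.Agent.Helper13.TSE.B1

/-!
# TSE-B5: the number of seers
-/

namespace Pool.Agent.Helper13.TSE

open Finset Pool.Agent.Helper82.TotSep Pool.Agent.Helper13.TSD

variable {V : Type*} [Fintype V] {G : SimpleGraph V} {d : ℕ} {Λ : Type*} {L : FaceData G d}
  {M : Finset V} {lab : V → Λ} {j : ℕ} {F : Finset V}

omit [Fintype V] in
/-- Seers are good or bad. -/
theorem card_gs_add_bs (c : Λ) :
    (gs L M lab F c).card + (bs L M lab F c).card = (seers L M lab F c).card := by
  classical
  rw [← Finset.card_filter_add_card_filter_not (s := seers L M lab F c)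
    (fun w => 3 ≤ (eqSeen L M lab F w).card)]
  unfold gs bs
  congr 2
  ext w
  rw [Finset.mem_filter, Finset.mem_filter]
  constructor
  · rintro ⟨h1, h2⟩
    exact ⟨h1, by omega⟩
  · rintro ⟨h1, h2⟩
    exact ⟨h1, by omega⟩

omit [Fintype V] in
/-- A label with two good seers is seen in a real face (a good seer sees three labels). -/
theorem Re.of_gs {c : Λ} (h : (gs L M lab F c).Nonempty) : Re M lab F := by
  obtain ⟨w, hw⟩ := h
  obtain ⟨_, h3⟩ := mem_gs.mp hw
  have hsub : eqSeen L M lab F w ⊆ labs M lab F := by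
    intro a ha
    obtain ⟨m, hm, hM, hl⟩ := mem_eqSeen.mp ha
    exact mem_labs.mpr ⟨_, mem_dir.mp hm, hM, hl⟩
  have h4 := Finset.card_le_card hsub
  unfold Re
  omega

/-- At least three quarters of `j` seers of a strongly nice label are good (`TSD.card_seers`). -/
theorem SN.card_gs (hlab : LabOn G M lab F) (hF : IsFace L j F) {c : Λ}
    (hc : SN L M lab j F c) : 3 * j ≤ 4 * (gs L M lab F c).card := by
  obtain ⟨h1, ⟨h2, h3⟩, h4⟩ := hc
  have hne : (gs L M lab F c).Nonempty := by
    rw [← Finset.card_pos]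
    omega
  have h5 := card_seers hlab hF (Re.of_gs hne) h1
  have h6 := card_gs_add_bs (L := L) (M := M) (lab := lab) (F := F) c
  omega

omit [Fintype V] in
/-- The bad seers, counted over a set of labels: each bad node sees at most two labels
(compare `TSD.card_K1_le`). -/
theorem sum_card_bs_le (S : Finset Λ) :
    ∑ c ∈ S, (bs L M lab F c).card ≤ 2 * (inner M F).card := by
  classical
  have h1 : ∀ c ∈ S, (bs L M lab F c).card = ∑ w ∈ inner M F, if w ∈ bs L M lab F c then 1 else 0 := by
    intro c _
    rw [← Finset.card_filter]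
    congr 1
    ext w
    rw [Finset.mem_filter, mem_inner]
    constructor
    · intro h
      have h' := mem_seers.mp (mem_bs.mp h).1
      exact ⟨⟨h'.1, h'.2.1⟩, h⟩
    · exact fun h => h.2
  have h2 : ∀ w ∈ inner M F, ∑ c ∈ S, (if w ∈ bs L M lab F c then 1 else 0) ≤ 2 := by
    intro w _
    by_cases h : (eqSeen L M lab F w).card ≤ 2
    · rw [← Finset.card_filter]
      refine le_trans (Finset.card_le_card ?_) h
      intro a ha
      exact mem_eqSeen.mpr (mem_seers.mp (mem_bs.mp (Finset.mem_filter.mp ha).2).1).2.2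
    · have h0 : ∀ c ∈ S, (if w ∈ bs L M lab F c then 1 else 0) = 0 := by
        intro c _
        rw [if_neg]
        exact fun h' => h (mem_bs.mp h').2
      rw [Finset.sum_congr rfl h0]
      simp
  rw [Finset.sum_congr rfl h1, Finset.sum_comm]
  calc _ ≤ ∑ _w ∈ inner M F, 2 := Finset.sum_le_sum h2
    _ = 2 * (inner M F).card := by rw [Finset.sum_const, smul_eq_mul, mul_comm]

omit [Fintype V] in
open Classical in
/-- Exchange of sums for the good seers. -/
theorem sum_card_gs (S : Finset Λ) (p : Λ → V → Prop) :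
    ∑ c ∈ S, ((gs L M lab F c).filter fun v => p c v).card =
      ∑ v ∈ inner M F, (S.filter fun c => v ∈ gs L M lab F c ∧ p c v).card := by
  have h1 : ∀ c ∈ S, ((gs L M lab F c).filter fun v => p c v).card =
      ∑ v ∈ inner M F, if v ∈ gs L M lab F c ∧ p c v then 1 else 0 := by
    intro c _
    rw [← Finset.card_filter]
    congr 1
    ext v
    rw [Finset.mem_filter, Finset.mem_filter, mem_inner]
    constructor
    · intro h
      have h' := mem_seers.mp (mem_gs.mp h.1).1
      exact ⟨⟨h'.1, h'.2.1⟩, h⟩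
    · exact fun h => h.2
  rw [Finset.sum_congr rfl h1, Finset.sum_comm]
  refine Finset.sum_congr rfl fun v _ => ?_
  rw [← Finset.card_filter]

omit [Fintype V] in
/-- A node sees at most `j` labels. -/
theorem card_seen_le (hF : IsFace L j F) {v : V} (hv : v ∈ F) (S : Finset Λ)
    (hS : ∀ c ∈ S, v ∈ gs L M lab F c) : S.card ≤ j := by
  classical
  have h1 : ∀ c ∈ S, ∃ l ∈ dir L F v, lab (L.nb v l) = c := by
    intro c hc
    obtain ⟨_, _, l, hl, _, h⟩ := mem_seers.mp (mem_gs.mp (hS c hc)).1
    exact ⟨l, hl, h⟩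
  have h2 : S ⊆ (dir L F v).image fun l => lab (L.nb v l) := by
    intro c hc
    obtain ⟨l, hl, h⟩ := h1 c hc
    exact Finset.mem_image.mpr ⟨l, hl, h⟩
  have h3 : (dir L F v).card = j := by
    exact hF.card_dir hv
  calc S.card ≤ _ := Finset.card_le_card h2
    _ ≤ (dir L F v).card := Finset.card_image_le
    _ = j := h3

end Pool.Agent.Helper13.TSE
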