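import Mathlib
import Pool.Agent.Helper13.TSE.B5

/-!
# TSE-B6: labels which are nice but not strongly nice, and labels with at most one good seer
-/

namespace Pool.Agent.Helper13.TSE

open Finset Pool.Agent.Helper82.TotSep Pool.Agent.Helper13.TSD

variable {V : Type*} [Fintype V] {G : SimpleGraph V} {d : ℕ} {Λ : Type*} {L : FaceData G d}
  {M : Finset V} {lab : V → Λ} {j : ℕ} {F : Finset V}

open Classical in
/-- More than `j / 4` bad seers each: `sum_card_bs_le`. -/
theorem card_nic_not_sn (S : Finset Λ) (hS : ∀ c ∈ S, j < 4 * (bs L M lab F c).card) :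
    j * S.card ≤ 8 * (inner M F).card := by
  have h1 : ∑ c ∈ S, j ≤ ∑ c ∈ S, 4 * (bs L M lab F c).card :=
    Finset.sum_le_sum fun c hc => (hS c hc).le
  rw [Finset.sum_const, smul_eq_mul, ← Finset.mul_sum] at h1
  have h2 := sum_card_bs_le (L := L) (M := M) (lab := lab) (F := F) S
  calc j * S.card = S.card * j := mul_comm _ _
    _ ≤ 4 * ∑ c ∈ S, (bs L M lab F c).card := h1
    _ ≤ 4 * (2 * (inner M F).card) := Nat.mul_le_mul_left _ h2
    _ = 8 * (inner M F).card := by ring

/-- At least `j - 1` bad seers each (`card_gs_add_bs`, `TSD.card_seers`). -/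
theorem card_poor (hlab : LabOn G M lab F) (hF : IsFace L j F) (hR : Re M lab F) (S : Finset Λ)
    (hS : ∀ c ∈ S, c ∈ labs M lab F ∧ (gs L M lab F c).card ≤ 1) :
    (j - 1) * S.card ≤ 2 * (inner M F).card := by
  have h1 : ∑ c ∈ S, (j - 1) ≤ ∑ c ∈ S, (bs L M lab F c).card := by
    refine Finset.sum_le_sum fun c hc => ?_
    obtain ⟨h3, h4⟩ := hS c hc
    have h5 := card_seers hlab hF hR h3
    have h6 := card_gs_add_bs (L := L) (M := M) (lab := lab) (F := F) c
    omega
  rw [Finset.sum_const, smul_eq_mul] at h1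
  have h2 := sum_card_bs_le (L := L) (M := M) (lab := lab) (F := F) S
  calc (j - 1) * S.card = S.card * (j - 1) := mul_comm _ _
    _ ≤ _ := h1
    _ ≤ _ := h2

end Pool.Agent.Helper13.TSE
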