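import Mathlib
import Pool.Agent.Helper13.TSE.B3

/-!
# TSE-B7a: comparison with the definitions of `TSD` inside a face
-/

namespace Pool.Agent.Helper13.TSE

open Finset Pool.Agent.Helper82.TotSep Pool.Agent.Helper13.TSD

variable {V : Type*} [Fintype V] {G : SimpleGraph V} {d : ℕ} {Λ : Type*} {L : FaceData G d}
  {M : Finset V} {lab : V → Λ} {k : ℕ} {F : Finset V}

/-- `facets_eq`: the real facets of `F` with the label `c` are the `ct H F`, `H ∈ ZZ F c`. -/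
theorem mem_Zs_iff_ZZ (hF : IsFace L (k + 1) F) {c : Λ} {A : Finset V} :
    A ∈ Zs L M lab k F c ↔ ∃ H ∈ ZZ L M lab F c, ct H F = A := by
  rw [mem_Zs]
  constructor
  · rintro ⟨h1, h2, h3⟩
    obtain ⟨H, hH, rfl⟩ := (facets_eq hF).mp h1
    have hH' := mem_cuts.mp hH
    exact ⟨H, mem_ZZ.mpr ⟨hH'.1, hH'.2.1, h2, h3⟩, rfl⟩
  · rintro ⟨H, hH, rfl⟩
    have hH' := mem_ZZ.mp hH
    exact ⟨(facets_eq hF).mpr ⟨H, ZZ_subset_cuts c hH, rfl⟩, hH'.2.2.1, hH'.2.2.2⟩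

theorem card_Zs_eq (hF : IsFace L (k + 1) F) (c : Λ) :
    (Zs L M lab k F c).card = (ZZ L M lab F c).card := by
  symm
  refine Finset.card_bij (fun H _ => ct H F) ?_ ?_ ?_
  · intro H hH
    exact (mem_Zs_iff_ZZ hF).mpr ⟨H, hH, rfl⟩
  · intro H hH H' hH' h
    exact ct_inj hF (ZZ_subset_cuts c hH) (ZZ_subset_cuts c hH') h
  · intro A hA
    obtain ⟨H, hH, h⟩ := (mem_Zs_iff_ZZ hF).mp hA
    exact ⟨H, hH, h⟩

theorem nice_iff (hF : IsFace L (k + 1) F) (c : Λ) :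
    Nice L M lab k F c ↔ Nic L M lab (k + 1) F c := by
  unfold Nice Nic
  rw [card_Zs_eq hF c]

theorem cl_subset_cls (hF : IsFace L (k + 1) F) {v : V} (hv : v ∈ F) (a : Finset V) :
    cl L M lab (k + 1) F v a ⊆ cls L M lab k F v (ct a F) := by
  intro c hc
  obtain ⟨h1, h2, h3, h4, h5⟩ := mem_cl.mp hc
  refine mem_cls.mpr ⟨h1, (nice_iff hF c).mpr h2, h3, ?_, ?_, ?_⟩
  · exact (mem_Zs_iff_ZZ hF).mpr ⟨a, h4, rfl⟩
  · exact fun h => h5 (mem_ct.mp h).2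
  · intro H hH hvH
    obtain ⟨H', hH', rfl⟩ := (mem_Zs_iff_ZZ hF).mp hH
    have hvH' : v ∉ H' := fun h => hvH (mem_ct.mpr ⟨hv, h⟩)
    rw [h2.miss_unique hF h3 hH' hvH' h4 h5]

end Pool.Agent.Helper13.TSE
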