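import Mathlib
import Pool.Agent.Helper13.TSE.Defs
import Pool.Agent.Helper13.TSD.PA1
import Pool.Agent.Helper13.TSD.PB1
import Pool.Agent.Helper13.TSD.PC1
import Pool.Agent.Helper13.TSD.PC2

/-!
# TSE-B7b: the number of pairs, without the assumption `Ctx.sees`

The proofs of `TSD.alpha_of_notMem` (PB2), `TSD.beta_of_mem` (PB3), `TSD.prs_cases` (PB4),
`TSD.card_prs_le` (PC3); they use only `h.face` and `h.labOn`.
-/

namespace Pool.Agent.Helper13.TSE

open Finset Pool.Agent.Helper82.TotSep Pool.Agent.Helper13.TSD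

variable {V : Type*} [Fintype V] {G : SimpleGraph V} {d : ℕ} {Λ : Type*} {L : FaceData G d}
  {M : Finset V} {lab : V → Λ} {k : ℕ} {F : Finset V}

private theorem b7b_alpha (hF : IsFace L (k + 1) F) {c c' : Λ} (hne : c ≠ c') {v w : V}
    {a : Finset V} (hc : c ∈ cls L M lab k F v a) (hc' : c' ∈ cls L M lab k F v a)
    {i i' : Fin d} (hi : i ∈ dir L F v) (hi' : i' ∈ dir L F v) (hM : L.nb v i ∉ M)
    (hM' : L.nb v i' ∉ M) (hl : lab (L.nb v i) = c) (hl' : lab (L.nb v i') = c') (hw : w ∈ M)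
    (hwv : w ≠ v) (hwQ : w ∈ faceOf L v {i, i'}) (hs : Sees L M lab F w c) (ha : w ∉ a) :
    Alpha L M lab k F c c' w a := by
  classical
  obtain ⟨-, hN, hgs, hMiss⟩ := mem_cls.mp hc
  have hvF : v ∈ F := (mem_seers.mp (mem_gs.mp hgs).1).1
  have hii : i ≠ i' := by
    intro hh
    apply hne
    rw [← hl, ← hl', hh]
  have hwi : w ≠ L.nb v i := fun hh => hM (hh ▸ hw)
  have hwi' : w ≠ L.nb v i' := fun hh => hM' (hh ▸ hw)
  obtain ⟨hwF, htwo⟩ := two_face hF hvF hi hi' hii hwQ hwv hwi hwi'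
  have hZ : ∀ H, H ∈ Zs L M lab k F c ↔ H = a ∨ (H ∈ thr L k F v ∧ H ≠ opp L F v i) :=
    fun H => Nice.mem_Zs_iff hF hN hgs hi hM hl hMiss
  have hbt : opp L F v i' ∈ thr L k F v := opp_mem_thr hF hvF hi'
  have hbi : opp L F v i' ≠ opp L F v i := fun hh => hii (opp_inj hi' hh).symm
  have hbZ : opp L F v i' ∈ Zs L M lab k F c := (hZ _).mpr (Or.inr ⟨hbt, hbi⟩)
  have hba : opp L F v i' ≠ a := fun hh => hMiss.2.1 (hh ▸ (mem_thr.mp hbt).2)
  have hwb : w ∉ opp L F v i' := fun hh => ((htwo _ hbt).mp hh).2 rfl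
  have hsee : c ∈ eqSeen L M lab F w := mem_eqSeen.mpr hs
  refine ⟨mem_inner.mpr ⟨hwF, hw⟩, ?_, hsee, hMiss.1, ha, opp L F v i', hbZ, hba, hwb, ?_,
    v, hc, i', hi', hM', hl', rfl⟩
  · by_contra hlt
    push Not at hlt
    have hwgs : w ∈ gs L M lab F c := mem_gs.mpr ⟨mem_seers.mpr ⟨hwF, hw, hs⟩, hlt⟩
    obtain ⟨j, hj, hjM, hjl⟩ := hs
    have hed := gs_edge hF hwgs hj hjM hjl
    have hot : opp L F w j ∈ thr L k F w := opp_mem_thr hF hwF hj
    have hcard : ((thr L k F w).erase (opp L F w j)).card = k := by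
      rw [Finset.card_erase_of_mem hot, card_thr hF hwF]
      rfl
    have hsub : insert a (insert (opp L F v i') ((thr L k F w).erase (opp L F w j))) ⊆
        Zs L M lab k F c := by
      intro H hH
      rcases Finset.mem_insert.mp hH with rfl | hH
      · exact hMiss.1
      rcases Finset.mem_insert.mp hH with rfl | hH
      · exact hbZ
      · exact hed H (Finset.mem_erase.mp hH).2 (Finset.mem_erase.mp hH).1
    have hn1 : opp L F v i' ∉ (thr L k F w).erase (opp L F w j) := fun hh =>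
      hwb (mem_thr.mp (Finset.mem_erase.mp hh).2).2
    have hn2 : a ∉ insert (opp L F v i') ((thr L k F w).erase (opp L F w j)) := by
      intro hh
      rcases Finset.mem_insert.mp hh with hh | hh
      · exact hba hh.symm
      · exact ha (mem_thr.mp (Finset.mem_erase.mp hh).2).2
    have hle := Finset.card_le_card hsub
    rw [Finset.card_insert_of_notMem hn2, Finset.card_insert_of_notMem hn1, hcard, hN.1] at hle
    omega
  · intro H hH hwH
    rcases (hZ H).mp hH with hHa | ⟨hHt, hHi⟩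
    · exact Or.inl hHa
    · by_cases hHb : H = opp L F v i'
      · exact Or.inr hHb
      · exact absurd ((htwo H hHt).mpr ⟨hHi, hHb⟩) hwH

private lemma b7b_gs (hF : IsFace L (k + 1) F) {c : Λ} (hc : Nice L M lab k F c) {x : V}
    (hx : x ∈ gs L M lab F c) {m : Fin d} (hm : m ∈ dir L F x) (hM : L.nb x m ∉ M)
    (hl : lab (L.nb x m) = c) {b : Finset V} (hb : b ∈ Zs L M lab k F c) (hxb : x ∉ b)
    (H : Finset V) :
    (H ∈ thr L k F x ∧ H ≠ opp L F x m) ↔ (H ∈ Zs L M lab k F c ∧ H ≠ b) := by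
  classical
  have hxF : x ∈ F := (mem_seers.mp (mem_gs.mp hx).1).1
  have hsub : (thr L k F x).erase (opp L F x m) ⊆ (Zs L M lab k F c).erase b := by
    intro H hH
    rw [Finset.mem_erase] at hH ⊢
    refine ⟨?_, gs_edge hF hx hm hM hl H hH.2 hH.1⟩
    rintro rfl
    exact hxb (mem_thr.mp hH.2).2
  have h1 : ((thr L k F x).erase (opp L F x m)).card = k := by
    rw [Finset.card_erase_of_mem (opp_mem_thr hF hxF hm), card_thr hF hxF, Nat.add_sub_cancel]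
  have h2 : ((Zs L M lab k F c).erase b).card = k := by
    rw [Finset.card_erase_of_mem hb, hc.1, Nat.add_sub_cancel]
  have heq := Finset.eq_of_subset_of_card_le hsub (by rw [h1, h2])
  have h3 := Finset.ext_iff.mp heq H
  rw [Finset.mem_erase, Finset.mem_erase] at h3
  exact ⟨fun h => (h3.mp ⟨h.2, h.1⟩).symm, fun h => (h3.mpr ⟨h.2, h.1⟩).symm⟩

private lemma b7b_key (hF : IsFace L (k + 1) F) {c c' : Λ} (hne : c ≠ c')
    (hc : Nice L M lab k F c) (hc' : Nice L M lab k F c') {b b' : Finset V}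
    (hb : b ∈ Zs L M lab k F c) (hb' : b' ∈ Zs L M lab k F c')
    (hE : ∀ H, (H ∈ Zs L M lab k F c ∧ H ≠ b) ↔ (H ∈ Zs L M lab k F c' ∧ H ≠ b'))
    {w w' : V} (hwM : w ∈ M) (hwF : w ∈ F) (hw'M : w' ∈ M) (hw'F : w' ∈ F)
    (hwb : w ∉ b) (hwb' : w ∉ b')
    (hall : ∀ H ∈ Zs L M lab k F c, H ≠ b → w' ∈ H)
    (hs : Sees L M lab F w c) (hs' : Sees L M lab F w' c') :
    (eqSeen L M lab F w).card ≤ 2 := by
  by_contra hcon
  have h3 : 3 ≤ (eqSeen L M lab F w).card := by omega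
  have hwg : w ∈ gs L M lab F c := mem_gs.mpr ⟨mem_seers.mpr ⟨hwF, hwM, hs⟩, h3⟩
  obtain ⟨m, hm, hmM, hml⟩ := hs
  have e1 := b7b_gs hF hc hwg hm hmM hml hb hwb
  have hww : w' = w := by
    rcases eq_or_eq_nb hF hwF hm hw'F (fun H hH hHo =>
      hall H ((e1 H).mp ⟨hH, hHo⟩).1 ((e1 H).mp ⟨hH, hHo⟩).2) with h | h
    · exact h
    · exact absurd (h ▸ hw'M) hmM
  subst hww
  have hwg' : w' ∈ gs L M lab F c' := mem_gs.mpr ⟨mem_seers.mpr ⟨hwF, hwM, hs'⟩, h3⟩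
  obtain ⟨m', hm', hmM', hml'⟩ := hs'
  have e2 := b7b_gs hF hc' hwg' hm' hmM' hml' hb' hwb'
  have h4 : opp L F w' m = opp L F w' m' := by
    by_contra h5
    exact ((e1 _).mpr ((hE _).mpr ((e2 _).mp ⟨opp_mem_thr hF hwF hm, h5⟩))).2 rfl
  have h6 : m = m' := opp_inj hm h4
  subst h6
  exact hne (hml.symm.trans hml')

private theorem b7b_beta (hF : IsFace L (k + 1) F) {c c' : Λ} (hne : c ≠ c') {v w w' : V}
    {a : Finset V} (hc : c ∈ cls L M lab k F v a) (hc' : c' ∈ cls L M lab k F v a)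
    {i i' : Fin d} (hi : i ∈ dir L F v) (hi' : i' ∈ dir L F v) (hM : L.nb v i ∉ M)
    (hM' : L.nb v i' ∉ M) (hl : lab (L.nb v i) = c) (hl' : lab (L.nb v i') = c') (hw : w ∈ M)
    (hwv : w ≠ v) (hwQ : w ∈ faceOf L v {i, i'}) (hs : Sees L M lab F w c) (ha : w ∈ a)
    (hw' : w' ∈ M) (hwv' : w' ≠ v) (hwQ' : w' ∈ faceOf L v {i, i'}) (hs' : Sees L M lab F w' c')
    (ha' : w' ∈ a) : Beta L M lab k F c c' w w' := by
  obtain ⟨_, hN, hg, hmiss⟩ := mem_cls.mp hc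
  obtain ⟨_, hN', hg', hmiss'⟩ := mem_cls.mp hc'
  have hvF : v ∈ F := (mem_seers.mp (mem_gs.mp hg).1).1
  have hii : i ≠ i' := by
    rintro rfl
    exact hne (hl.symm.trans hl')
  have hnb : ∀ {x : V} {j : Fin d}, x ∈ M → L.nb v j ∉ M → x ≠ L.nb v j := by
    intro x j hx hj hxj
    exact hj (hxj ▸ hx)
  obtain ⟨hwF, hwt⟩ := two_face hF hvF hi hi' hii hwQ hwv (hnb hw hM) (hnb hw hM')
  obtain ⟨hwF', hwt'⟩ := two_face hF hvF hi hi' hii hwQ' hwv' (hnb hw' hM) (hnb hw' hM')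
  have hZ : ∀ H, H ∈ Zs L M lab k F c ↔ H = a ∨ (H ∈ thr L k F v ∧ H ≠ opp L F v i) :=
    fun H => Nice.mem_Zs_iff hF hN hg hi hM hl hmiss
  have hZ' : ∀ H, H ∈ Zs L M lab k F c' ↔ H = a ∨ (H ∈ thr L k F v ∧ H ≠ opp L F v i') :=
    fun H => Nice.mem_Zs_iff hF hN' hg' hi' hM' hl' hmiss'
  have hto : opp L F v i ∈ thr L k F v := opp_mem_thr hF hvF hi
  have hto' : opp L F v i' ∈ thr L k F v := opp_mem_thr hF hvF hi'
  have hoo : opp L F v i ≠ opp L F v i' := fun he => hii (opp_inj hi he)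
  have hva : v ∉ a := hmiss.2.1
  have hao : a ≠ opp L F v i := by
    rintro rfl
    exact hva (mem_thr.mp hto).2
  have hao' : a ≠ opp L F v i' := by
    rintro rfl
    exact hva (mem_thr.mp hto').2
  have hb : opp L F v i' ∈ Zs L M lab k F c := (hZ _).mpr (Or.inr ⟨hto', hoo.symm⟩)
  have hb' : opp L F v i ∈ Zs L M lab k F c' := (hZ' _).mpr (Or.inr ⟨hto, hoo⟩)
  have hwb : w ∉ opp L F v i' := fun hx => ((hwt _ hto').mp hx).2 rfl
  have hwb' : w ∉ opp L F v i := fun hx => ((hwt _ hto).mp hx).1 rfl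
  have hw'b : w' ∉ opp L F v i' := fun hx => ((hwt' _ hto').mp hx).2 rfl
  have hw'b' : w' ∉ opp L F v i := fun hx => ((hwt' _ hto).mp hx).1 rfl
  have hall : ∀ H ∈ Zs L M lab k F c, H ≠ opp L F v i' → w ∈ H ∧ w' ∈ H := by
    intro H hH hHb
    rcases (hZ H).mp hH with rfl | ⟨h1, h2⟩
    · exact ⟨ha, ha'⟩
    · exact ⟨(hwt H h1).mpr ⟨h2, hHb⟩, (hwt' H h1).mpr ⟨h2, hHb⟩⟩
  have hall' : ∀ H ∈ Zs L M lab k F c', H ≠ opp L F v i → w ∈ H ∧ w' ∈ H := by
    intro H hH hHb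
    rcases (hZ' H).mp hH with rfl | ⟨h1, h2⟩
    · exact ⟨ha, ha'⟩
    · exact ⟨(hwt H h1).mpr ⟨hHb, h2⟩, (hwt' H h1).mpr ⟨hHb, h2⟩⟩
  have hE : ∀ H, (H ∈ Zs L M lab k F c ∧ H ≠ opp L F v i') ↔
      (H ∈ Zs L M lab k F c' ∧ H ≠ opp L F v i) := by
    intro H
    rw [hZ, hZ']
    constructor
    · rintro ⟨rfl | ⟨h1, h2⟩, h3⟩
      · exact ⟨Or.inl rfl, hao⟩
      · exact ⟨Or.inr ⟨h1, h3⟩, h2⟩
    · rintro ⟨rfl | ⟨h1, h2⟩, h3⟩
      · exact ⟨Or.inl rfl, hao'⟩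
      · exact ⟨Or.inr ⟨h1, h3⟩, h2⟩
  refine ⟨mem_inner.mpr ⟨hwF, hw⟩, mem_inner.mpr ⟨hwF', hw'⟩, ?_, ?_, mem_eqSeen.mpr hs,
    mem_eqSeen.mpr hs', hN, opp L F v i', hb, hwb, hall⟩
  · exact b7b_key hF hne hN hN' hb hb' hE hw hwF hw' hwF' hwb hwb'
      (fun H h1 h2 => (hall H h1 h2).2) hs hs'
  · exact b7b_key hF hne.symm hN' hN hb' hb (fun H => (hE H).symm) hw' hwF' hw hwF hw'b' hw'b
      (fun H h1 h2 => (hall' H h1 h2).1) hs' hs

private theorem b7b_cases (hF : IsFace L (k + 1) F) (hlab : LabOn G M lab F) {p : Λ × Λ} (hp : p ∈ prs L M lab k F) :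
    (∃ w a, Alpha L M lab k F p.1 p.2 w a) ∨ (∃ w a, Alpha L M lab k F p.2 p.1 w a) ∨
      ∃ w w', Beta L M lab k F p.1 p.2 w w' := by
  obtain ⟨-, hne, v, a, hc, hc'⟩ := mem_prs.mp hp
  obtain ⟨-, -, hg, -⟩ := mem_cls.mp hc
  obtain ⟨-, -, hg', -⟩ := mem_cls.mp hc'
  obtain ⟨hv, -, i, hi, hM, hl⟩ := mem_seers.mp (mem_gs.mp hg).1
  obtain ⟨-, -, i', hi', hM', hl'⟩ := mem_seers.mp (mem_gs.mp hg').1
  have hlne : lab (L.nb v i) ≠ lab (L.nb v i') := by rw [hl, hl']; exact hne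
  obtain ⟨w, hw, hwv, hwQ, hs⟩ := exists_sep hlab hF hv hi hi' hM hM' hlne
  obtain ⟨w', hw', hwv', hwQ', hs'⟩ := exists_sep hlab hF hv hi' hi hM' hM hlne.symm
  rw [hl] at hs
  rw [hl'] at hs'
  by_cases ha : w ∈ a
  · by_cases ha' : w' ∈ a
    · rw [Finset.pair_comm] at hwQ'
      exact Or.inr (Or.inr ⟨w, w', b7b_beta hF hne hc hc' hi hi' hM hM' hl hl' hw hwv hwQ hs ha
        hw' hwv' hwQ' hs' ha'⟩)
    · exact Or.inr (Or.inl ⟨w', a, b7b_alpha hF hne.symm hc' hc hi' hi hM' hM hl' hl hw' hwv'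
        hwQ' hs' ha'⟩)
  · exact Or.inl ⟨w, a, b7b_alpha hF hne hc hc' hi hi' hM hM' hl hl' hw hwv hwQ hs ha⟩

theorem card_prs_le' (hF : IsFace L (k + 1) F) (hlab : LabOn G M lab F) :
    (prs L M lab k F).card ≤ 16 * (inner M F).card := by
  classical
  have hsub : prs L M lab k F ⊆
      ((prs L M lab k F).filter fun p => ∃ w a, Alpha L M lab k F p.1 p.2 w a) ∪
        (((prs L M lab k F).filter fun p => ∃ w a, Alpha L M lab k F p.2 p.1 w a) ∪
          ((prs L M lab k F).filter fun p => ∃ w w', Beta L M lab k F p.1 p.2 w w')) := by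
    intro p hp
    rw [Finset.mem_union, Finset.mem_union, Finset.mem_filter, Finset.mem_filter,
      Finset.mem_filter]
    rcases b7b_cases hF hlab hp with h1 | h1 | h1
    · exact Or.inl ⟨hp, h1⟩
    · exact Or.inr (Or.inl ⟨hp, h1⟩)
    · exact Or.inr (Or.inr ⟨hp, h1⟩)
  have hA : ((prs L M lab k F).filter fun p => ∃ w a, Alpha L M lab k F p.1 p.2 w a).card ≤
      4 * (inner M F).card :=
    card_alpha_le hF _ fun p hp => (Finset.mem_filter.1 hp).2
  have hB : ((prs L M lab k F).filter fun p => ∃ w a, Alpha L M lab k F p.2 p.1 w a).card ≤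
      4 * (inner M F).card := by
    rw [← Finset.card_image_of_injective _ (Prod.swap_injective (α := Λ) (β := Λ))]
    refine card_alpha_le (lab := lab) hF _ fun p hp => ?_
    obtain ⟨q, hq, rfl⟩ := Finset.mem_image.1 hp
    exact (Finset.mem_filter.1 hq).2
  have hC : ((prs L M lab k F).filter fun p => ∃ w w', Beta L M lab k F p.1 p.2 w w').card ≤
      8 * (inner M F).card :=
    card_beta_le hF _ fun p hp => (Finset.mem_filter.1 hp).2
  have h1 := Finset.card_le_card hsub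
  have h2 := (Finset.card_union_le
    ((prs L M lab k F).filter fun p => ∃ w a, Alpha L M lab k F p.1 p.2 w a)
      (((prs L M lab k F).filter fun p => ∃ w a, Alpha L M lab k F p.2 p.1 w a) ∪
          ((prs L M lab k F).filter fun p => ∃ w w', Beta L M lab k F p.1 p.2 w w')))
  have h3 := (Finset.card_union_le
    ((prs L M lab k F).filter fun p => ∃ w a, Alpha L M lab k F p.2 p.1 w a)
      ((prs L M lab k F).filter fun p => ∃ w w', Beta L M lab k F p.1 p.2 w w'))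
  omega

end Pool.Agent.Helper13.TSE
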