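import Mathlib
import Pool.Agent.Helper13.TSE.B7b

/-!
# TSE-B7c: the excess of the classes inside a face
-/

namespace Pool.Agent.Helper13.TSE

open Finset Pool.Agent.Helper82.TotSep Pool.Agent.Helper13.TSD

variable {V : Type*} [Fintype V] {G : SimpleGraph V} {d : ℕ} {Λ : Type*} {L : FaceData G d}
  {M : Finset V} {lab : V → Λ} {k : ℕ} {F : Finset V}

/-- At a node `v`, with `x a = |cls v a|`, `m a = ent v a`: `x a - 1 ≤ √(m a + 1) *
√(x a (x a - 1) / (m a + 1))` if `x a ≥ 1`; Cauchy-Schwarz and `∑ (m a + 1) ≤ 2 (k + 1)` over the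
`a` with `x a ≥ 1` (see the proof of `TSD.sum_cls_big_le`, DB1). -/
theorem excess_node (hF : IsFace L (k + 1) F) {v : V} (hv : v ∈ F) :
    ∑ a ∈ facets L k F, (((cls L M lab k F v a).card - 1 : ℕ) : ℝ) ≤
      √(2 * (k + 1) * ∑ a ∈ facets L k F, ((cls L M lab k F v a).card : ℝ) *
          ((cls L M lab k F v a).card - 1) / (ent L F v a + 1)) := by
  classical
  set P : Finset (Finset V) := (facets L k F).filter fun a => 1 ≤ (cls L M lab k F v a).card
    with hP
  have hPmem : ∀ a ∈ P, a ∈ facets L k F ∧ v ∉ a := by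
    intro a ha
    rw [hP, Finset.mem_filter] at ha
    obtain ⟨c, hc⟩ := Finset.card_pos.mp ha.2
    exact ⟨ha.1, (mem_cls.mp hc).2.2.2.2.1⟩
  have h1 : (∑ a ∈ facets L k F, (((cls L M lab k F v a).card - 1 : ℕ) : ℝ)) =
      ∑ a ∈ P, (((cls L M lab k F v a).card : ℝ) - 1) := by
    rw [hP, Finset.sum_filter]
    refine Finset.sum_congr rfl fun a _ => ?_
    split_ifs with h
    · rw [Nat.cast_sub h, Nat.cast_one]
    · have : (cls L M lab k F v a).card - 1 = 0 := by omega
      rw [this]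
      simp
  have h4 : (∑ a ∈ P, ((ent L F v a : ℝ) + 1)) ≤ 2 * (k + 1) := by
    rw [Finset.sum_add_distrib, Finset.sum_const, nsmul_eq_mul, mul_one]
    have e1 : (∑ a ∈ P, (ent L F v a : ℝ)) ≤ k + 1 := by
      exact_mod_cast sum_ent hF hv P hPmem
    have e2 : (P.card : ℝ) ≤ k + 1 := by
      have e3 : P.card ≤ ∑ a ∈ P, (cls L M lab k F v a).card := by
        rw [Finset.card_eq_sum_ones]
        refine Finset.sum_le_sum fun a ha => ?_
        rw [hP, Finset.mem_filter] at ha
        exact ha.2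
      exact_mod_cast e3.trans (sum_cls_le hF hv P)
    linarith
  have hterm : ∀ a : Finset V, 0 ≤ ((cls L M lab k F v a).card : ℝ) *
      ((cls L M lab k F v a).card - 1) / (ent L F v a + 1) := by
    intro a
    apply div_nonneg _ (by positivity)
    rcases Nat.eq_zero_or_pos (cls L M lab k F v a).card with h | h
    · rw [h]
      simp
    · have : (1 : ℝ) ≤ (cls L M lab k F v a).card := by exact_mod_cast h
      apply mul_nonneg (by positivity)
      linarith
  have h5 : (∑ a ∈ P, (((cls L M lab k F v a).card : ℝ) - 1) ^ 2 / (ent L F v a + 1)) ≤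
      ∑ a ∈ facets L k F, ((cls L M lab k F v a).card : ℝ) *
          ((cls L M lab k F v a).card - 1) / (ent L F v a + 1) := by
    refine le_trans (Finset.sum_le_sum fun a ha => ?_)
      (Finset.sum_le_sum_of_subset_of_nonneg (fun a ha => (hPmem a ha).1) fun a _ _ => hterm a)
    rw [hP, Finset.mem_filter] at ha
    have hx : (1 : ℝ) ≤ (cls L M lab k F v a).card := by exact_mod_cast ha.2
    apply div_le_div_of_nonneg_right _ (by positivity)
    nlinarith
  have h6 : (∑ a ∈ P, (((cls L M lab k F v a).card : ℝ) - 1)) ^ 2 ≤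
      (∑ a ∈ P, ((ent L F v a : ℝ) + 1)) *
        ∑ a ∈ P, (((cls L M lab k F v a).card : ℝ) - 1) ^ 2 / (ent L F v a + 1) := by
    apply Finset.sum_sq_le_sum_mul_sum_of_sq_le_mul
    · intro a _
      positivity
    · intro a _
      positivity
    · intro a _
      have : (ent L F v a : ℝ) + 1 ≠ 0 := by positivity
      apply le_of_eq
      field_simp
  rw [h1]
  apply Real.le_sqrt_of_sq_le
  refine h6.trans ?_
  refine mul_le_mul h4 h5 ?_ (by positivity)
  exact Finset.sum_nonneg fun a _ => by positivity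

/-- Sum over `v`: Cauchy-Schwarz, `weight_le`, `card_prs_le'` (see `TSD.sum_sum_cls_le`, DB2). -/
theorem excess_face (hF : IsFace L (k + 1) F) (hlab : LabOn G M lab F) :
    ∑ v ∈ inner M F, ∑ a ∈ facets L k F, (((cls L M lab k F v a).card - 1 : ℕ) : ℝ) ≤
      6 * √((k : ℝ) + 1) * (inner M F).card := by
  classical
  set e : V → ℝ := fun v => ∑ a ∈ facets L k F, ((cls L M lab k F v a).card : ℝ) *
          ((cls L M lab k F v a).card - 1) / (ent L F v a + 1) with he
  have he0 : ∀ v, 0 ≤ e v := by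
    intro v
    refine sum_nonneg fun a _ => ?_
    refine div_nonneg ?_ (by positivity)
    rcases Nat.eq_zero_or_pos (cls L M lab k F v a).card with h0 | h0
    · rw [h0]; simp
    · have h1 : (1 : ℝ) ≤ (cls L M lab k F v a).card := by exact_mod_cast h0
      exact mul_nonneg (by linarith) (by linarith)
  have h1 : ∑ v ∈ inner M F, ∑ a ∈ facets L k F,
      (((cls L M lab k F v a).card - 1 : ℕ) : ℝ) ≤
      ∑ v ∈ inner M F, √(2 * (k + 1) * e v) :=
    sum_le_sum fun v hv => excess_node hF (mem_inner.mp hv).1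
  have h3 : ∑ v ∈ inner M F, e v ≤ 16 * ((inner M F).card : ℝ) := by
    refine (weight_le hF).trans ?_
    exact_mod_cast card_prs_le' hF hlab
  have h4 : (∑ v ∈ inner M F, √(2 * ((k : ℝ) + 1) * e v)) ^ 2 ≤
      (6 * √((k : ℝ) + 1) * (inner M F).card) ^ 2 := by
    refine (sq_sum_le_card_mul_sum_sq).trans ?_
    have h5 : ∑ v ∈ inner M F, √(2 * ((k : ℝ) + 1) * e v) ^ 2 =
        2 * ((k : ℝ) + 1) * ∑ v ∈ inner M F, e v := by
      rw [mul_sum]
      refine sum_congr rfl fun v _ => ?_
      rw [Real.sq_sqrt]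
      have := he0 v
      positivity
    rw [h5, mul_pow, mul_pow, Real.sq_sqrt (by positivity)]
    have hn : (0 : ℝ) ≤ (inner M F).card := Nat.cast_nonneg _
    have hk : (0 : ℝ) ≤ (k : ℝ) + 1 := by positivity
    have h6 : 2 * ((k : ℝ) + 1) * ∑ v ∈ inner M F, e v ≤
        2 * ((k : ℝ) + 1) * (16 * ((inner M F).card : ℝ)) :=
      mul_le_mul_of_nonneg_left h3 (by positivity)
    calc ((inner M F).card : ℝ) * (2 * ((k : ℝ) + 1) * ∑ v ∈ inner M F, e v)
        ≤ ((inner M F).card : ℝ) * (2 * ((k : ℝ) + 1) * (16 * ((inner M F).card : ℝ))) :=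
          mul_le_mul_of_nonneg_left h6 hn
      _ = 32 * (((k : ℝ) + 1) * ((inner M F).card : ℝ) ^ 2) := by ring
      _ ≤ 36 * (((k : ℝ) + 1) * ((inner M F).card : ℝ) ^ 2) := by
          have : 0 ≤ ((k : ℝ) + 1) * ((inner M F).card : ℝ) ^ 2 := by positivity
          linarith
      _ = 6 ^ 2 * ((k : ℝ) + 1) * ((inner M F).card : ℝ) ^ 2 := by ring
  have h7 : ∑ v ∈ inner M F, √(2 * ((k : ℝ) + 1) * e v) ≤
      6 * √((k : ℝ) + 1) * (inner M F).card :=
    (pow_le_pow_iff_left₀ (sum_nonneg fun _ _ => Real.sqrt_nonneg _) (by positivity)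
      two_ne_zero).mp h4
  exact h1.trans h7

end Pool.Agent.Helper13.TSE
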