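import Mathlib
import Pool.Agent.Helper13.TSE.B7a
import Pool.Agent.Helper13.TSE.B7c

/-!
# TSE-B7d: the excess of the classes
-/

namespace Pool.Agent.Helper13.TSE

open Finset Pool.Agent.Helper82.TotSep Pool.Agent.Helper13.TSD

variable {V : Type*} [Fintype V] {G : SimpleGraph V} {d : ℕ} {Λ : Type*} {L : FaceData G d}
  {M : Finset V} {lab : V → Λ} {k : ℕ} {F : Finset V}

/-- `cl_subset_cls`, `ct_inj`, `facets_eq`: the `a` with `cl F v a` not empty are in
`ZZ F c ⊆ cuts F`, the others contribute `0`; map `a` to `ct a F`; `excess_face`. -/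
theorem sum_excess (hF : IsFace L (k + 1) F) (hlab : LabOn G M lab F) :
    ∑ v ∈ inner M F, ∑ a ∈ fc L, (((cl L M lab (k + 1) F v a).card - 1 : ℕ) : ℝ) ≤
      6 * √((k : ℝ) + 1) * (inner M F).card := by
  classical
  refine le_trans (Finset.sum_le_sum fun v hv => ?_) (excess_face hF hlab)
  have hvF : v ∈ F := (mem_inner.mp hv).1
  have hsub : cuts L F ⊆ fc L := fun a ha => (mem_cuts.mp ha).1
  have h0 : ∀ a ∈ fc L, a ∉ cuts L F →
      (((cl L M lab (k + 1) F v a).card - 1 : ℕ) : ℝ) = 0 := by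
    intro a _ ha
    have : (cl L M lab (k + 1) F v a).card = 0 := by
      rw [Finset.card_eq_zero, Finset.eq_empty_iff_forall_notMem]
      intro c hc
      exact ha (ZZ_subset_cuts c (mem_cl.mp hc).2.2.2.1)
    rw [this]
    simp
  rw [← Finset.sum_subset hsub h0]
  have h1 : ∑ a ∈ cuts L F, (((cl L M lab (k + 1) F v a).card - 1 : ℕ) : ℝ) ≤
      ∑ a ∈ cuts L F, (((cls L M lab k F v (ct a F)).card - 1 : ℕ) : ℝ) := by
    refine Finset.sum_le_sum fun a _ => ?_
    have := Finset.card_le_card (cl_subset_cls (M := M) (lab := lab) hF hvF a)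
    exact_mod_cast Nat.sub_le_sub_right this 1
  refine h1.trans (le_of_eq ?_)
  refine Finset.sum_bij (fun a _ => ct a F) ?_ ?_ ?_ ?_
  · intro a ha
    exact (facets_eq hF).mpr ⟨a, ha, rfl⟩
  · intro a ha b hb h
    exact ct_inj hF ha hb h
  · intro A hA
    obtain ⟨H, hH, h⟩ := (facets_eq hF).mp hA
    exact ⟨H, hH, h⟩
  · intro a _
    rfl

end Pool.Agent.Helper13.TSE
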