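import Mathlib
import Pool.Agent.Helper13.TSE.B2
import Pool.Agent.Helper13.TSE.B6

/-!
# TSE-D1: labels with at most one good seer
-/

namespace Pool.Agent.Helper13.TSE

open Finset Pool.Agent.Helper82.TotSep Pool.Agent.Helper13.TSD

variable {V : Type*} [Fintype V] {G : SimpleGraph V} {d : ℕ} {Λ : Type*} {L : FaceData G d}
  {M : Finset V} {lab : V → Λ} {j : ℕ} {F : Finset V}

/-- Every seer `v` of `c`, through `l`: the facets `hf v l'`, `l' ≠ l`, contain `nb v l`; those of
them which are real are in `ZZ F c`. -/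
theorem le_ZZ_add_nr (hF : IsFace L j F) {c : Λ} {v : V} (hv : v ∈ seers L M lab F c) :
    j ≤ (ZZ L M lab F c).card + 1 + nr L M lab F v := by
  classical
  obtain ⟨hvF, hvM, l, hl, hlM, hlc⟩ := mem_seers.mp hv
  have hsub : ((dir L F v).erase l).image (hf L v) ⊆
      ZZ L M lab F c ∪ (th L F v).filter fun H => ¬ Re M lab (ct H F) := by
    intro H hH
    obtain ⟨l', hl', rfl⟩ := Finset.mem_image.mp hH
    obtain ⟨hne, hl'd⟩ := Finset.mem_erase.mp hl'
    have hth : hf L v l' ∈ th L F v := hf_mem_th hF hvF hl'd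
    rw [Finset.mem_union]
    by_cases hR : Re M lab (ct (hf L v l') F)
    · left
      refine mem_ZZ.mpr ⟨(mem_th.mp hth).1, (mem_th.mp hth).2.1, hR, ?_⟩
      exact mem_labs.mpr ⟨L.nb v l, mem_ct.mpr ⟨mem_dir.mp hl, nb_mem_hf.mpr hne⟩, hlM, hlc⟩
    · right
      exact Finset.mem_filter.mpr ⟨hth, hR⟩
  have h1 := (Finset.card_le_card hsub).trans (Finset.card_union_le _ _)
  have h2 : (((dir L F v).erase l).image (hf L v)).card = j - 1 := by
    rw [Finset.card_image_of_injective _ (fun a b h => hf_inj h), Finset.card_erase_of_mem hl,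
      hF.card_dir hvF]
  have h3 : ((th L F v).filter fun H => ¬ Re M lab (ct H F)).card = nr L M lab F v := by
    unfold nr
    congr
  rw [h2, h3] at h1
  omega

/-- Mean over the seers of `c`, at least `j` of them (`TSD.card_seers`):
`j |seers| ≤ (|ZZ| + 1) |seers| + ∑ nr`; divide by `|seers| ≥ j`. -/
theorem le_ZZ_mean (hlab : LabOn G M lab F) (hF : IsFace L j F) (hj : 1 ≤ j)
    (hR : Re M lab F) {c : Λ} (hc : c ∈ labs M lab F) :
    (j : ℝ) ≤ (ZZ L M lab F c).card + 1 +
      (∑ v ∈ seers L M lab F c, (nr L M lab F v : ℝ)) / j := by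
  have hs : (j : ℝ) ≤ ((seers L M lab F c).card : ℝ) := by
    exact_mod_cast card_seers hlab hF hR hc
  have hj' : (0 : ℝ) < j := by exact_mod_cast hj
  have h1 : ((seers L M lab F c).card : ℝ) * ((j : ℝ) - (ZZ L M lab F c).card - 1) ≤
      ∑ v ∈ seers L M lab F c, (nr L M lab F v : ℝ) := by
    rw [← nsmul_eq_mul, ← Finset.sum_const]
    refine Finset.sum_le_sum fun v hv => ?_
    have h : (j : ℝ) ≤ (ZZ L M lab F c).card + 1 + nr L M lab F v := by
      exact_mod_cast le_ZZ_add_nr hF hv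
    linarith
  have h0 : 0 ≤ ∑ v ∈ seers L M lab F c, (nr L M lab F v : ℝ) :=
    Finset.sum_nonneg fun v _ => Nat.cast_nonneg _
  by_cases h2 : (j : ℝ) - (ZZ L M lab F c).card - 1 ≤ 0
  · have h3 := div_nonneg h0 hj'.le
    linarith
  · push Not at h2
    have h3 : (j : ℝ) - (ZZ L M lab F c).card - 1 ≤
        (∑ v ∈ seers L M lab F c, (nr L M lab F v : ℝ)) / j := by
      rw [le_div_iff₀ hj']
      refine le_trans ?_ h1
      rw [mul_comm]
      exact mul_le_mul_of_nonneg_right hs h2.le
    linarith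

omit [Fintype V] in
/-- Exchange of sums: `nr F v = 0` for nodes which see three labels (`nr_eq_zero`, taken here as
a hypothesis), the others see at most two labels. -/
theorem sum_nr_seers (S : Finset Λ) (x : V → ℝ) (hx : ∀ v, 0 ≤ x v)
    (h0 : ∀ v ∈ F, 3 ≤ (eqSeen L M lab F v).card → x v = 0) :
    ∑ c ∈ S, ∑ v ∈ seers L M lab F c, x v ≤ 2 * ∑ v ∈ inner M F, x v := by
  classical
  have h1 : ∀ c ∈ S, ∑ v ∈ seers L M lab F c, x v =
      ∑ v ∈ inner M F, if Sees L M lab F v c then x v else 0 := by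
    intro c _
    rw [← Finset.sum_filter]
    refine Finset.sum_congr ?_ fun _ _ => rfl
    ext w
    rw [mem_seers, Finset.mem_filter, mem_inner, and_assoc]
  rw [Finset.sum_congr rfl h1, Finset.sum_comm, Finset.mul_sum]
  refine Finset.sum_le_sum fun v hv => ?_
  by_cases h3 : 3 ≤ (eqSeen L M lab F v).card
  · rw [h0 v (mem_inner.mp hv).1 h3]
    simp
  · rw [← Finset.sum_filter, Finset.sum_const, nsmul_eq_mul]
    refine mul_le_mul_of_nonneg_right ?_ (hx v)
    have h4 : (S.filter fun c => Sees L M lab F v c) ⊆ eqSeen L M lab F v := fun c hc =>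
      mem_eqSeen.mpr (Finset.mem_filter.mp hc).2
    have h5 := Finset.card_le_card h4
    have h6 : (S.filter fun c => Sees L M lab F v c).card ≤ 2 := by omega
    exact_mod_cast h6

end Pool.Agent.Helper13.TSE
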