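import Mathlib
import Pool.Agent.Helper13.TSE.D1
import Pool.Agent.Helper13.TSE.A3

/-!
# TSE-D2: the main inequality in a face
-/

namespace Pool.Agent.Helper13.TSE

open Finset Pool.Agent.Helper82.TotSep Pool.Agent.Helper13.TSD

variable {V : Type*} [Fintype V] {G : SimpleGraph V} {d : ℕ} {Λ : Type*} {L : FaceData G d}
  {M : Finset V} {lab : V → Λ} {j : ℕ} {F : Finset V}

/-- `∑ c, |ZZ F c|` is the sum over the facets `H` which cut `F` of the number of labels of
`F ∩ H`, if it is real (`ZZ_subset_cuts`). -/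
theorem sum_card_ZZ : ∑ c ∈ labs M lab F, ((ZZ L M lab F c).card : ℝ) =
    ∑ H ∈ cuts L F, KR M lab (ct H F) := by
  classical
  have h1 : ∀ c ∈ labs M lab F, ((ZZ L M lab F c).card : ℝ) =
      ∑ H ∈ cuts L F, if Re M lab (ct H F) ∧ c ∈ labs M lab (ct H F) then (1 : ℝ) else 0 := by
    intro c _
    have h : ZZ L M lab F c =
        (cuts L F).filter fun H => Re M lab (ct H F) ∧ c ∈ labs M lab (ct H F) := by
      ext H
      rw [Finset.mem_filter]
      constructor
      · intro hH
        exact ⟨ZZ_subset_cuts c hH, (mem_ZZ.mp hH).2.2⟩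
      · rintro ⟨hH, h2⟩
        exact mem_ZZ.mpr ⟨(mem_cuts.mp hH).1, (mem_cuts.mp hH).2.1, h2⟩
    rw [h, Finset.card_filter]
    push_cast
    rfl
  rw [Finset.sum_congr rfl h1, Finset.sum_comm]
  refine Finset.sum_congr rfl fun H _ => ?_
  unfold KR
  by_cases hR : Re M lab (ct H F)
  · simp only [hR, true_and, if_true]
    rw [← Finset.sum_filter, Finset.sum_const, nsmul_eq_mul, mul_one]
    congr 2
    ext c
    rw [Finset.mem_filter]
    exact ⟨fun h => h.2, fun h => ⟨labs_mono ct_subset h, h⟩⟩
  · simp [hR]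

omit [Fintype V] in
private lemma d2_KR_nonneg (A : Finset V) : 0 ≤ KR M lab A := by
  unfold KR
  split_ifs
  · positivity
  · exact le_rfl

private lemma d2_NR_nonneg (A : Finset V) : 0 ≤ NR L M lab A := by
  unfold NR
  split_ifs
  · exact Finset.sum_nonneg fun v _ => Nat.cast_nonneg _
  · exact le_rfl

/-- For `c` with at least two good seers, `j + 1 ≤ |ZZ| + [c is nice]` (`card_ZZ_ge`), and the
nice labels which are not strongly nice are counted in `card_nic_not_sn`; for the other labels
`le_ZZ_mean`, `sum_nr_seers`, `nr_eq_zero`, `card_poor`. -/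
theorem face_ineq (hlab : LabOn G M lab F) (hF : IsFace L j F) (hj : 2 ≤ j) :
    ((j : ℝ) + 1) * KR M lab F ≤ ∑ H ∈ cuts L F, KR M lab (ct H F) +
      (sn L M lab j F).card + (8 / (j : ℝ) + 4 / ((j : ℝ) - 1)) * (inner M F).card +
      2 / (j : ℝ) * NR L M lab F := by
  classical
  have hj0 : (0 : ℝ) < j := by exact_mod_cast (by omega : 0 < j)
  have hj1 : (0 : ℝ) < (j : ℝ) - 1 := by
    have : (2 : ℝ) ≤ j := by exact_mod_cast hj
    linarith
  have hS0 : 0 ≤ ∑ H ∈ cuts L F, KR M lab (ct H F) :=
    Finset.sum_nonneg fun H _ => d2_KR_nonneg _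
  by_cases hR : Re M lab F
  swap
  · have h1 : KR M lab F = 0 := by unfold KR; rw [if_neg hR]
    rw [h1, mul_zero]
    have h2 := d2_NR_nonneg (L := L) (M := M) (lab := lab) F
    positivity
  have hKR : KR M lab F = ((labs M lab F).card : ℝ) := by unfold KR; rw [if_pos hR]
  have hNR : NR L M lab F = ∑ v ∈ inner M F, (nr L M lab F v : ℝ) := by unfold NR; rw [if_pos hR]
  set B := (labs M lab F).filter fun c => (gs L M lab F c).card ≤ 1 with hB
  set S := (labs M lab F).filter fun c => Nic L M lab j F c ∧ j < 4 * (bs L M lab F c).card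
    with hS
  have hterm : ∀ c ∈ labs M lab F, (j : ℝ) + 1 ≤ ((ZZ L M lab F c).card : ℝ) +
      (if SN L M lab j F c then 1 else 0) +
      (if Nic L M lab j F c ∧ j < 4 * (bs L M lab F c).card then 1 else 0) +
      (if (gs L M lab F c).card ≤ 1 then
        2 + (∑ v ∈ seers L M lab F c, (nr L M lab F v : ℝ)) / j else 0) := by
    intro c hc
    by_cases hg : (gs L M lab F c).card ≤ 1
    · rw [if_pos hg]
      have h1 := le_ZZ_mean hlab hF (by omega) hR hc
      have h2 : (0 : ℝ) ≤ (if SN L M lab j F c then 1 else 0) := by split_ifs <;> norm_num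
      have h3 : (0 : ℝ) ≤
          (if Nic L M lab j F c ∧ j < 4 * (bs L M lab F c).card then 1 else 0) := by
        split_ifs <;> norm_num
      linarith
    · rw [if_neg hg]
      have hg2 : 2 ≤ (gs L M lab F c).card := by omega
      have h1 := card_ZZ_ge hF hg2
      by_cases hz : (ZZ L M lab F c).card = j
      · have hN : Nic L M lab j F c := ⟨hz, hg2⟩
        by_cases hb : 4 * (bs L M lab F c).card ≤ j
        · have hSN : SN L M lab j F c := ⟨hc, hN, hb⟩
          rw [if_pos hSN, if_neg (by intro h; omega), hz]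
          linarith
        · have hnSN : ¬ SN L M lab j F c := fun h => hb h.2.2
          rw [if_neg hnSN, if_pos ⟨hN, by omega⟩, hz]
          linarith
      · have h2 : j + 1 ≤ (ZZ L M lab F c).card := by omega
        have h2' : (j : ℝ) + 1 ≤ ((ZZ L M lab F c).card : ℝ) := by exact_mod_cast h2
        have h3 : (0 : ℝ) ≤ (if SN L M lab j F c then 1 else 0) := by split_ifs <;> norm_num
        have h4 : (0 : ℝ) ≤
            (if Nic L M lab j F c ∧ j < 4 * (bs L M lab F c).card then 1 else 0) := by
          split_ifs <;> norm_num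
        linarith
  have hsum := Finset.sum_le_sum hterm
  rw [Finset.sum_const, nsmul_eq_mul] at hsum
  simp only [Finset.sum_add_distrib] at hsum
  rw [← Finset.sum_filter, ← Finset.sum_filter, ← Finset.sum_filter, Finset.sum_const,
    Finset.sum_const, nsmul_eq_mul, nsmul_eq_mul, mul_one, mul_one, Finset.sum_add_distrib,
    Finset.sum_const, nsmul_eq_mul, sum_card_ZZ, ← hB, ← hS] at hsum
  have hsn : ((labs M lab F).filter fun c => SN L M lab j F c) = sn L M lab j F := rfl
  rw [hsn, ← Finset.sum_div] at hsum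
  have h1 : (S.card : ℝ) ≤ 8 / (j : ℝ) * (inner M F).card := by
    have h := card_nic_not_sn (L := L) (M := M) (lab := lab) (j := j) (F := F) S
      (fun c hc => (Finset.mem_filter.mp hc).2.2)
    have h' : (j : ℝ) * S.card ≤ 8 * (inner M F).card := by exact_mod_cast h
    rw [div_mul_eq_mul_div, le_div_iff₀ hj0]
    linarith
  have h2 : (B.card : ℝ) * 2 ≤ 4 / ((j : ℝ) - 1) * (inner M F).card := by
    have h := card_poor hlab hF hR B (fun c hc => Finset.mem_filter.mp hc)
    have h' : ((j : ℝ) - 1) * B.card ≤ 2 * (inner M F).card := by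
      have h3 : (((j - 1 : ℕ) * B.card : ℕ) : ℝ) ≤ ((2 * (inner M F).card : ℕ) : ℝ) := by
        exact_mod_cast h
      push_cast at h3
      rwa [Nat.cast_sub (by omega), Nat.cast_one] at h3
    rw [div_mul_eq_mul_div, le_div_iff₀ hj1]
    linarith
  have h3 : (∑ c ∈ B, ∑ v ∈ seers L M lab F c, (nr L M lab F v : ℝ)) / j ≤
      2 / (j : ℝ) * NR L M lab F := by
    have h := sum_nr_seers (L := L) (M := M) (lab := lab) (F := F) B
      (fun v => (nr L M lab F v : ℝ)) (fun v => Nat.cast_nonneg _)
      (fun v hv h3 => by exact_mod_cast nr_eq_zero hF hv h3)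
    rw [hNR, div_mul_eq_mul_div, div_le_div_iff_of_pos_right hj0]
    exact h
  rw [hKR]
  linarith

end Pool.Agent.Helper13.TSE
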