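import Mathlib
import Pool.Agent.Helper13.TSE.A3

/-!
# TSE-E1: proportions
-/

namespace Pool.Agent.Helper13.TSE

open Finset Pool.Agent.Helper82.TotSep Pool.Agent.Helper13.TSD

variable {V : Type*} [Fintype V] {G : SimpleGraph V} {d : ℕ} {L : FaceData G d} {M : Finset V}
  {j : ℕ} {P F H : Finset V}

omit [Fintype V] in
private theorem inner_ct_subset : inner M (ct H P) ⊆ inner M P := by
  intro x hx
  rw [mem_inner] at hx ⊢
  exact ⟨ct_subset hx.1, hx.2⟩

omit [Fintype V] in
theorem pr_nonneg : 0 ≤ pr M P H := by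
  unfold pr
  positivity

omit [Fintype V] in
theorem pr_le_one : pr M P H ≤ 1 := by
  unfold pr
  refine div_le_one_of_le₀ ?_ (Nat.cast_nonneg _)
  exact_mod_cast Finset.card_le_card inner_ct_subset

omit [Fintype V] in
theorem pr_pos {v : V} (hv : v ∈ inner M P) (hH : v ∈ H) : 0 < pr M P H := by
  unfold pr
  have h1 : 0 < (inner M P).card := Finset.card_pos.mpr ⟨v, hv⟩
  have h2 : 0 < (inner M (ct H P)).card := by
    refine Finset.card_pos.mpr ⟨v, ?_⟩
    rw [mem_inner] at hv ⊢
    exact ⟨mem_ct.mpr ⟨hv.1, hH⟩, hv.2⟩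
  positivity

omit [Fintype V] in
theorem pr_mul : pr M P H * (inner M P).card = (inner M (ct H P)).card := by
  unfold pr
  by_cases h : (inner M P).card = 0
  · have h2 : (inner M (ct H P)).card = 0 :=
      Nat.le_zero.mp (h ▸ Finset.card_le_card inner_ct_subset)
    rw [h, h2]
    simp
  · have h3 : ((inner M P).card : ℝ) ≠ 0 := by exact_mod_cast h
    field_simp

omit [Fintype V] in
theorem pr_eq_one (hn : (inner M P).Nonempty) (h : P ⊆ H) : pr M P H = 1 := by
  have h1 : inner M (ct H P) = inner M P := by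
    refine Finset.Subset.antisymm inner_ct_subset ?_
    intro x hx
    rw [mem_inner] at hx ⊢
    exact ⟨mem_ct.mpr ⟨hx.1, h hx.1⟩, hx.2⟩
  unfold pr
  rw [h1]
  have h2 : ((inner M P).card : ℝ) ≠ 0 := by
    exact_mod_cast (Finset.card_pos.mpr hn).ne'
  exact div_self h2

omit [Fintype V] in
private theorem log_pr_nonneg : 0 ≤ Real.log (1 / pr M P H) := by
  rcases eq_or_lt_of_le (pr_nonneg (M := M) (P := P) (H := H)) with h | h
  · rw [← h]
    simp
  · refine Real.log_nonneg ?_
    rw [le_div_iff₀ h, one_mul]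
    exact pr_le_one

theorem lv_nonneg (v : V) : 0 ≤ lv L M P v := by
  unfold lv
  exact Finset.sum_nonneg fun H _ => log_pr_nonneg

theorem SS_nonneg : 0 ≤ SS L M P := by
  unfold SS
  refine Finset.sum_nonneg fun H _ => ?_
  refine mul_nonneg pr_nonneg ?_
  have h := pr_le_one (M := M) (P := P) (H := H)
  linarith

theorem SL_nonneg : 0 ≤ SL L M P := by
  unfold SL
  exact Finset.sum_nonneg fun v _ => lv_nonneg v

private theorem SL_eq : SL L M P =
    ∑ H ∈ fc L, ((inner M (ct H P)).card : ℝ) * Real.log (1 / pr M P H) := by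
  classical
  unfold SL lv
  have h1 : ∀ v ∈ inner M P,
      ∑ H ∈ (fc L).filter (fun H => v ∈ H), Real.log (1 / pr M P H) =
        ∑ H ∈ fc L, if v ∈ H then Real.log (1 / pr M P H) else 0 := by
    intro v _
    rw [Finset.sum_filter]
  have h2 : ∑ v ∈ inner M P,
      ∑ H ∈ (fc L).filter (fun H => v ∈ H), Real.log (1 / pr M P H) =
        ∑ v ∈ inner M P, ∑ H ∈ fc L, if v ∈ H then Real.log (1 / pr M P H) else 0 :=
    Finset.sum_congr rfl h1
  have h3 : ∑ v ∈ inner M P, ∑ H ∈ fc L, (if v ∈ H then Real.log (1 / pr M P H) else 0) =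
      ∑ H ∈ fc L, ((inner M (ct H P)).card : ℝ) * Real.log (1 / pr M P H) := by
    rw [Finset.sum_comm]
    refine Finset.sum_congr rfl fun H _ => ?_
    rw [← Finset.sum_filter, Finset.sum_const, nsmul_eq_mul]
    have h4 : (inner M P).filter (fun v => v ∈ H) = inner M (ct H P) := by
      ext x
      simp only [Finset.mem_filter, mem_inner, mem_ct]
      tauto
    rw [h4]
  rw [← h3, ← h2]

/-- `p (1 - p) ≤ p log (1 / p)` and `∑ v ∈ H, log (1 / p) = n p log (1 / p)`. -/
theorem SS_mul_le : SS L M P * (inner M P).card ≤ SL L M P := by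
  rw [SL_eq]
  unfold SS
  rw [Finset.sum_mul]
  refine Finset.sum_le_sum fun H _ => ?_
  rw [← pr_mul]
  set p := pr M P H with hp
  set n : ℝ := ((inner M P).card : ℝ) with hn
  have hp0 : 0 ≤ p := pr_nonneg
  have hn0 : 0 ≤ n := Nat.cast_nonneg _
  have key : p * (1 - p) ≤ p * Real.log (1 / p) := by
    rcases eq_or_lt_of_le hp0 with h | h
    · rw [← h]
      simp
    · refine mul_le_mul_of_nonneg_left ?_ hp0
      rw [one_div, Real.log_inv]
      have := Real.log_le_sub_one_of_pos h
      linarith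
  calc p * (1 - p) * n ≤ p * Real.log (1 / p) * n := mul_le_mul_of_nonneg_right key hn0
    _ = p * n * Real.log (1 / p) := by ring

/-- The facets through `v` with small proportion: `sf * log (1 / ε) ≤ lv` (facets through
`v ∈ inner M P` with `pr ≤ ε`; `sf` for `F = P`). -/
theorem sf_mul_log_le {ε : ℝ} (h0 : 0 < ε) (h1 : ε ≤ 1) {v : V} (hv : v ∈ inner M P) :
    (sf L M P P ε v : ℝ) * Real.log (1 / ε) ≤ lv L M P v := by
  classical
  unfold sf lv
  have hsub : (th L P v).filter (fun H => pr M P H ≤ ε) ⊆ (fc L).filter (fun H => v ∈ H) := by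
    intro H hH
    rw [Finset.mem_filter, mem_th] at hH
    rw [Finset.mem_filter]
    exact ⟨hH.1.1, hH.1.2.2⟩
  have h2 : ∑ H ∈ (th L P v).filter (fun H => pr M P H ≤ ε), Real.log (1 / pr M P H) ≤
      ∑ H ∈ (fc L).filter (fun H => v ∈ H), Real.log (1 / pr M P H) :=
    Finset.sum_le_sum_of_subset_of_nonneg hsub fun H _ _ => log_pr_nonneg
  have h3 : (((th L P v).filter (fun H => pr M P H ≤ ε)).card : ℝ) * Real.log (1 / ε) ≤
      ∑ H ∈ (th L P v).filter (fun H => pr M P H ≤ ε), Real.log (1 / pr M P H) := by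
    rw [← nsmul_eq_mul]
    refine Finset.card_nsmul_le_sum _ _ _ fun H hH => ?_
    rw [Finset.mem_filter, mem_th] at hH
    have hpos : 0 < pr M P H := pr_pos hv hH.1.2.2
    refine Real.log_le_log (by positivity) ?_
    exact one_div_le_one_div_of_le hpos hH.2
  exact h3.trans h2

end Pool.Agent.Helper13.TSE
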