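import Mathlib
import Pool.Agent.Helper13.TSE.A3

/-!
# TSE-L1: sums over the faces of a face
-/

namespace Pool.Agent.Helper13.TSE

open Finset Pool.Agent.Helper82.TotSep Pool.Agent.Helper13.TSD

variable {V : Type*} [Fintype V] {G : SimpleGraph V} {d : ℕ} {L : FaceData G d} {r j : ℕ}
  {P : Finset V}

/-- Pairs of a face `F` of dimension `j` of `P` and a node `v ∈ M` of `F` correspond to pairs of a
node `v` and a set `U` of `j` directions of `P` at `v`: `F = faceOf v U`, `U = dir F v`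
(`IsFace.eq_faceOf`, `dir_faceOf`, `isFace_faceOf`, `IsFace.faceOf_subset`). -/
theorem sum_fcs_inner (hP : IsFace L r P) (M : Finset V) (j : ℕ) (φ : V → Finset V → ℝ) :
    ∑ F ∈ fcs L j P, ∑ v ∈ inner M F, φ v F =
      ∑ v ∈ inner M P, ∑ U ∈ powersetCard j (dir L P v), φ v (faceOf L v U) := by
  classical
  rw [Finset.sum_sigma', Finset.sum_sigma']
  refine Finset.sum_bij' (fun x _ => (⟨x.2, dir L x.1 x.2⟩ : (_ : V) × Finset (Fin d)))
    (fun y _ => (⟨faceOf L y.1 y.2, y.1⟩ : (_ : Finset V) × V)) ?_ ?_ ?_ ?_ ?_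
  · rintro ⟨F, v⟩ hx
    simp only [Finset.mem_sigma, mem_fcs, mem_inner, Finset.mem_powersetCard] at hx ⊢
    obtain ⟨⟨hF, hFP⟩, hvF, hvM⟩ := hx
    exact ⟨⟨hFP hvF, hvM⟩, fun i hi => mem_dir.mpr (hFP (mem_dir.mp hi)), hF.card_dir hvF⟩
  · rintro ⟨v, U⟩ hy
    simp only [Finset.mem_sigma, mem_fcs, mem_inner, Finset.mem_powersetCard] at hy ⊢
    obtain ⟨⟨hvP, hvM⟩, hU, hUc⟩ := hy
    refine ⟨⟨?_, hP.faceOf_subset hvP hU⟩, self_mem_faceOf, hvM⟩
    have h := isFace_faceOf (L := L) v U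
    rwa [hUc] at h
  · rintro ⟨F, v⟩ hx
    simp only [Finset.mem_sigma, mem_fcs, mem_inner] at hx
    obtain ⟨⟨hF, hFP⟩, hvF, hvM⟩ := hx
    dsimp only
    rw [← hF.eq_faceOf hvF]
  · rintro ⟨v, U⟩ hy
    dsimp only
    rw [dir_faceOf]
  · rintro ⟨F, v⟩ hx
    simp only [Finset.mem_sigma, mem_fcs, mem_inner] at hx
    obtain ⟨⟨hF, hFP⟩, hvF, hvM⟩ := hx
    dsimp only
    rw [← hF.eq_faceOf hvF]

end Pool.Agent.Helper13.TSE
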