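import Mathlib
import Pool.Agent.Helper13.TSE.A3

/-!
# TSE-L1b: sums over the faces of a face
-/

namespace Pool.Agent.Helper13.TSE

open Finset Pool.Agent.Helper82.TotSep Pool.Agent.Helper13.TSD

variable {V : Type*} [Fintype V] {G : SimpleGraph V} {d : ℕ} {L : FaceData G d} {r j : ℕ}
  {P : Finset V}

open Classical in
private lemma card_over (hP : IsFace L r P) {A : Finset V} (hA : IsFace L j A) (hAP : A ⊆ P) :
    ((fcs L (j + 1) P).filter fun F => A ⊆ F).card = r - j := by
  obtain ⟨v, hv⟩ := hA.nonempty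
  have h1 : (fcs L (j + 1) P).filter (fun F => A ⊆ F) =
      (dir L P v \ dir L A v).image (fun l => faceOf L v (insert l (dir L A v))) := by
    ext F
    rw [Finset.mem_filter, mem_fcs, Finset.mem_image]
    constructor
    · rintro ⟨⟨hF, hFP⟩, hAF⟩
      obtain ⟨l, hl1, hl2, hd, hl3, hl4⟩ := hF.exists_out hA hAF hv
      refine ⟨l, ?_, ?_⟩
      · rw [Finset.mem_sdiff]
        exact ⟨mem_dir.mpr (hFP hl1), hl4⟩
      · rw [hd, Finset.insert_erase hl3]
        exact (hF.eq_faceOf (hAF hv)).symm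
    · rintro ⟨l, hl, rfl⟩
      rw [Finset.mem_sdiff] at hl
      refine ⟨⟨?_, ?_⟩, ?_⟩
      · have h := isFace_faceOf (L := L) v (insert l (dir L A v))
        rwa [Finset.card_insert_of_notMem hl.2, hA.card_dir hv] at h
      · apply hP.faceOf_subset (hAP hv)
        apply Finset.insert_subset hl.1
        intro i hi
        exact mem_dir.mpr (hAP (mem_dir.mp hi))
      · intro x hx
        rw [mem_faceOf]
        exact (hA.supp_subset hv hx).trans (Finset.subset_insert _ _)
  rw [h1, Finset.card_image_of_injOn, Finset.card_sdiff_of_subset, hP.card_dir (hAP hv),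
    hA.card_dir hv]
  · intro i hi
    exact mem_dir.mpr (hAP (mem_dir.mp hi))
  · intro l hl l' hl' h
    have h2 := congrArg (fun F => dir L F v) h
    simp only [dir_faceOf] at h2
    rw [Finset.mem_coe, Finset.mem_sdiff] at hl hl'
    have h3 : l ∈ insert l' (dir L A v) := by
      rw [← h2]
      exact Finset.mem_insert_self _ _
    rcases Finset.mem_insert.mp h3 with h4 | h4
    · exact h4
    · exact absurd h4 hl.2

/-- Every face `A` of dimension `j` of `P` is a facet of exactly `r - j` faces of dimension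
`j + 1` of `P` (at `v ∈ A` they are `faceOf v (insert l (dir A v))`, `l ∈ dir P v \ dir A v`). -/
theorem sum_fcs_facets (hP : IsFace L r P) (hj : j < r) (f : Finset V → ℝ) :
    ∑ F ∈ fcs L (j + 1) P, ∑ A ∈ facets L j F, f A = ((r : ℝ) - j) * ∑ A ∈ fcs L j P, f A := by
  classical
  rw [Finset.sum_comm' (s' := fun A => (fcs L (j + 1) P).filter fun F => A ⊆ F)
    (t' := fcs L j P), Finset.mul_sum]
  · apply Finset.sum_congr rfl
    intro A hA
    rw [mem_fcs] at hA
    rw [Finset.sum_const, card_over hP hA.1 hA.2, nsmul_eq_mul, Nat.cast_sub hj.le]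
  · intro F A
    rw [Finset.mem_filter, mem_fcs, mem_fcs, mem_facets]
    constructor
    · rintro ⟨⟨hF, hFP⟩, hAF, hA⟩
      exact ⟨⟨⟨hF, hFP⟩, hAF⟩, hA, hAF.trans hFP⟩
    · rintro ⟨⟨⟨hF, hFP⟩, hAF⟩, hA, hAP⟩
      exact ⟨⟨hF, hFP⟩, hAF, hA⟩

end Pool.Agent.Helper13.TSE
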