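import Mathlib
import Pool.Agent.Helper13.TSE.L1
import Pool.Agent.Helper13.TSE.L1b

/-!
# TSE-L2: means over the faces of a face
-/

namespace Pool.Agent.Helper13.TSE

open Finset Pool.Agent.Helper82.TotSep Pool.Agent.Helper13.TSD

variable {V : Type*} [Fintype V] {G : SimpleGraph V} {d : ℕ} {L : FaceData G d} {r j : ℕ}
  {P : Finset V}

theorem fcs_self (hP : IsFace L r P) : fcs L r P = {P} := by
  ext F
  rw [mem_fcs, mem_singleton]
  constructor
  · rintro ⟨hF, hFP⟩
    obtain ⟨w, hw⟩ := hF.nonempty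
    apply hF.eq_of_dir_eq hP hw (hFP hw)
    apply Finset.eq_of_subset_of_card_le
    · intro l hl
      rw [mem_dir] at hl ⊢
      exact hFP hl
    · rw [hF.card_dir hw, hP.card_dir (hFP hw)]
  · rintro rfl
    exact ⟨hP, subset_rfl⟩

theorem av_self (hP : IsFace L r P) (f : Finset V → ℝ) : av L r P r f = f P := by
  unfold av
  rw [fcs_self hP, sum_singleton, Nat.choose_self, Nat.cast_one, div_one]

theorem av_mono {f g : Finset V → ℝ} (h : ∀ F ∈ fcs L j P, f F ≤ g F) :
    av L r P j f ≤ av L r P j g := by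
  unfold av
  exact div_le_div_of_nonneg_right (sum_le_sum h) (Nat.cast_nonneg _)

theorem av_nonneg {f : Finset V → ℝ} (h : ∀ F ∈ fcs L j P, 0 ≤ f F) : 0 ≤ av L r P j f := by
  unfold av
  exact div_nonneg (sum_nonneg h) (Nat.cast_nonneg _)

theorem av_add (f g : Finset V → ℝ) :
    av L r P j (fun F => f F + g F) = av L r P j f + av L r P j g := by
  unfold av
  rw [sum_add_distrib, add_div]

theorem av_mul (c : ℝ) (f : Finset V → ℝ) :
    av L r P j (fun F => c * f F) = c * av L r P j f := by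
  unfold av
  rw [← mul_sum, mul_div_assoc]

/-- `sum_fcs_inner` with `φ = 1`. -/
theorem av_inner (hP : IsFace L r P) (hj : j ≤ r) (M : Finset V) :
    av L r P j (fun F => ((inner M F).card : ℝ)) = (inner M P).card := by
  have hc : (r.choose j : ℝ) ≠ 0 := by
    exact_mod_cast (Nat.choose_pos hj).ne'
  have h := sum_fcs_inner hP M j (fun _ _ => (1 : ℝ))
  unfold av
  rw [div_eq_iff hc]
  simp only [sum_const, nsmul_eq_mul, mul_one, card_powersetCard] at h
  rw [h]
  rw [sum_congr rfl (g := fun _ => (r.choose j : ℝ)), sum_const, nsmul_eq_mul]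
  intro v hv
  rw [hP.card_dir (mem_inner.mp hv).1]

/-- `sum_fcs_inner`: a function of the node, summed over the nodes. -/
theorem av_node (hP : IsFace L r P) (hj : j ≤ r) (M : Finset V) (x : V → ℝ) :
    av L r P j (fun F => ∑ v ∈ inner M F, x v) = ∑ v ∈ inner M P, x v := by
  have hc : (r.choose j : ℝ) ≠ 0 := by
    exact_mod_cast (Nat.choose_pos hj).ne'
  have h := sum_fcs_inner hP M j (fun v _ => x v)
  unfold av
  rw [div_eq_iff hc, h, sum_mul]
  apply sum_congr rfl
  intro v hv
  rw [sum_const, card_powersetCard, hP.card_dir (mem_inner.mp hv).1, nsmul_eq_mul, mul_comm]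

/-- `sum_fcs_facets`, `(r - j) / C(r, j + 1) = (j + 1) / C(r, j)`. -/
theorem av_facets (hP : IsFace L r P) (hj : j < r) (f : Finset V → ℝ) :
    av L r P (j + 1) (fun F => ∑ A ∈ facets L j F, f A) = ((j : ℝ) + 1) * av L r P j f := by
  have hc : (r.choose j : ℝ) ≠ 0 := by
    exact_mod_cast (Nat.choose_pos hj.le).ne'
  have hc' : (r.choose (j + 1) : ℝ) ≠ 0 := by
    exact_mod_cast (Nat.choose_pos (show j + 1 ≤ r from hj)).ne'
  have h := sum_fcs_facets hP hj f
  have h1 : (r.choose (j + 1) : ℝ) * ((j : ℝ) + 1) = (r.choose j : ℝ) * ((r : ℝ) - j) := by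
    have := Nat.choose_succ_right_eq r j
    have h2 := congrArg (fun n : ℕ => (n : ℝ)) this
    simp only [Nat.cast_mul, Nat.cast_add, Nat.cast_one, Nat.cast_sub hj.le] at h2
    exact h2
  unfold av
  rw [h, div_eq_iff hc', mul_div_assoc', div_mul_eq_mul_div, eq_div_iff hc]
  linear_combination (-(∑ A ∈ fcs L j P, f A)) * h1

end Pool.Agent.Helper13.TSE
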