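import Mathlib
import Pool.Agent.Helper13.TSE.E1
import Pool.Agent.Helper13.TSE.L2

/-!
# TSE-E2: entropy along the faces
-/

namespace Pool.Agent.Helper13.TSE

open Finset Pool.Agent.Helper82.TotSep Pool.Agent.Helper13.TSD

variable {V : Type*} [Fintype V] {G : SimpleGraph V} {d : ℕ} {L : FaceData G d} {M : Finset V}
  {r j : ℕ} {P F : Finset V}

private theorem inner_ct_eq {H : Finset V} [DecidablePred fun v => v ∈ H] :
    inner M (ct H F) = (inner M F).filter fun v => v ∈ H := by
  ext x
  simp only [mem_inner, mem_ct, Finset.mem_filter]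
  tauto

/-- `lv` at a node of `M` in `F` in terms of the numbers of nodes. -/
private theorem lv_eq (hF : IsFace L (j + 1) F) {v : V} (hv : v ∈ inner M F) :
    lv L M F v = ((j : ℝ) + 1) * Real.log ((inner M F).card : ℝ) -
      ∑ H ∈ th L F v, Real.log ((inner M (ct H F)).card : ℝ) := by
  classical
  have hvF : v ∈ F := (mem_inner.mp hv).1
  have hvM : v ∈ M := (mem_inner.mp hv).2
  have hne : (inner M F).Nonempty := ⟨v, hv⟩
  have hn : ((inner M F).card : ℝ) ≠ 0 := by
    have := Finset.card_pos.mpr hne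
    positivity
  have h1 : lv L M F v = ∑ H ∈ th L F v, Real.log (1 / pr M F H) := by
    unfold lv
    symm
    refine Finset.sum_subset_zero_on_sdiff ?_ ?_ ?_
    · intro H hH
      have := mem_th.mp hH
      simp only [Finset.mem_filter]
      exact ⟨this.1, this.2.2⟩
    · intro H hH
      simp only [Finset.mem_sdiff, Finset.mem_filter, mem_th] at hH
      have hsub : F ⊆ H := by
        by_contra hcon
        exact hH.2 ⟨hH.1.1, hcon, hH.1.2⟩
      rw [pr_eq_one hne hsub]
      simp
    · intro H _
      rfl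
  rw [h1]
  have h2 : ∀ H ∈ th L F v, Real.log (1 / pr M F H) =
      Real.log ((inner M F).card : ℝ) - Real.log ((inner M (ct H F)).card : ℝ) := by
    intro H hH
    have hvH : v ∈ H := (mem_th.mp hH).2.2
    have hpos : 0 < (inner M (ct H F)).card :=
      Finset.card_pos.mpr ⟨v, mem_inner.mpr ⟨mem_ct.mpr ⟨hvF, hvH⟩, hvM⟩⟩
    have hm : ((inner M (ct H F)).card : ℝ) ≠ 0 := by positivity
    unfold pr
    rw [one_div_div, Real.log_div hn hm]
  rw [Finset.sum_congr rfl h2, Finset.sum_sub_distrib, Finset.sum_const, card_th hF hvF,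
    nsmul_eq_mul]
  push_cast
  ring

/-- `n_H log n_H = ∑ v ∈ H, (log n_F - log (1 / p))` for each facet `H` cutting `F`; each `v`
lies in `j + 1` of them, and the facets containing `F` contribute `log 1 = 0` to `lv`. -/
theorem face_entropy (hF : IsFace L (j + 1) F) :
    ∑ H ∈ cuts L F, ((inner M (ct H F)).card : ℝ) * Real.log ((inner M (ct H F)).card : ℝ) =
      ((j : ℝ) + 1) * ((inner M F).card * Real.log ((inner M F).card : ℝ)) - SL L M F := by
  classical
  have h1 : SL L M F = ∑ v ∈ inner M F, (((j : ℝ) + 1) * Real.log ((inner M F).card : ℝ) -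
      ∑ H ∈ th L F v, Real.log ((inner M (ct H F)).card : ℝ)) :=
    Finset.sum_congr rfl fun v hv => lv_eq hF hv
  have h2 : ∑ v ∈ inner M F, ∑ H ∈ th L F v, Real.log ((inner M (ct H F)).card : ℝ) =
      ∑ H ∈ cuts L F, ((inner M (ct H F)).card : ℝ) *
        Real.log ((inner M (ct H F)).card : ℝ) := by
    have h3 : ∀ v ∈ inner M F, ∑ H ∈ th L F v, Real.log ((inner M (ct H F)).card : ℝ) =
        ∑ H ∈ cuts L F, if v ∈ H then Real.log ((inner M (ct H F)).card : ℝ) else 0 := by
      intro v hv
      rw [th_eq_cuts_filter hF (mem_inner.mp hv).1, Finset.sum_filter]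
    rw [Finset.sum_congr rfl h3, Finset.sum_comm]
    refine Finset.sum_congr rfl fun H _ => ?_
    rw [← Finset.sum_filter, Finset.sum_const, nsmul_eq_mul, inner_ct_eq]
  rw [h1, Finset.sum_sub_distrib, h2, Finset.sum_const, nsmul_eq_mul]
  ring

/-- Mean of `face_entropy` (`sum_cuts`, `av_facets`). -/
theorem av_entropy (hP : IsFace L r P) (hj : j < r) :
    av L r P (j + 1) (SL L M) = ((j : ℝ) + 1) *
      (av L r P (j + 1) (fun F => ((inner M F).card : ℝ) * Real.log ((inner M F).card : ℝ)) -
        av L r P j (fun F => ((inner M F).card : ℝ) * Real.log ((inner M F).card : ℝ))) := by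
  set f : Finset V → ℝ := fun F => ((inner M F).card : ℝ) * Real.log ((inner M F).card : ℝ)
    with hf
  have h1 : ∀ F ∈ fcs L (j + 1) P, SL L M F =
      ((j : ℝ) + 1) * f F - ∑ A ∈ facets L j F, f A := by
    intro F hF
    have hF' : IsFace L (j + 1) F := (mem_fcs.mp hF).1
    have h2 := face_entropy (M := M) hF'
    have h3 := sum_cuts hF' f
    simp only [hf] at h3 ⊢
    rw [h3] at h2
    linarith
  have h4 : av L r P (j + 1) (SL L M) =
      av L r P (j + 1) (fun F => ((j : ℝ) + 1) * f F) -
        av L r P (j + 1) (fun F => ∑ A ∈ facets L j F, f A) := by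
    unfold av
    rw [Finset.sum_congr rfl h1, Finset.sum_sub_distrib, sub_div]
  rw [h4, av_mul, av_facets hP hj]
  ring

/-- Faces of dimension zero have one node. -/
theorem av_entropy_zero :
    av L r P 0 (fun F => ((inner M F).card : ℝ) * Real.log ((inner M F).card : ℝ)) = 0 := by
  unfold av
  rw [Finset.sum_eq_zero, zero_div]
  intro F hF
  obtain ⟨v, S, hS, hv⟩ := (mem_fcs.mp hF).1
  have hS0 : S = ∅ := Finset.card_eq_zero.mp hS
  have hsub : inner M F ⊆ {v} := by
    intro x hx
    have h1 := (hv x).mp (mem_inner.mp hx).1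
    rw [hS0, Finset.subset_empty] at h1
    exact Finset.mem_singleton.mpr (L.eq_self v x h1)
  have hcard : (inner M F).card ≤ 1 := by
    have := Finset.card_le_card hsub
    simpa using this
  rcases Nat.le_one_iff_eq_zero_or_eq_one.mp hcard with h | h
  · rw [h]; simp
  · rw [h]; simp

/-- **Entropy.** Telescoping. -/
theorem sum_entropy (hP : IsFace L r P) :
    ∑ j ∈ range r, av L r P (j + 1) (SL L M) / ((j : ℝ) + 1) =
      (inner M P).card * Real.log ((inner M P).card : ℝ) := by
  have h1 : ∀ j ∈ range r, av L r P (j + 1) (SL L M) / ((j : ℝ) + 1) =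
      av L r P (j + 1) (fun F => ((inner M F).card : ℝ) * Real.log ((inner M F).card : ℝ)) -
        av L r P j (fun F => ((inner M F).card : ℝ) * Real.log ((inner M F).card : ℝ)) := by
    intro j hj
    rw [av_entropy hP (Finset.mem_range.mp hj)]
    have : ((j : ℝ) + 1) ≠ 0 := by positivity
    field_simp
  rw [Finset.sum_congr rfl h1, Finset.sum_range_sub
    (fun j => av L r P j (fun F => ((inner M F).card : ℝ) * Real.log ((inner M F).card : ℝ))),
    av_entropy_zero, sub_zero, av_self hP]

end Pool.Agent.Helper13.TSE
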