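import Mathlib
import Pool.Agent.Helper13.TSE.E1
import Pool.Agent.Helper13.TSE.A4

/-!
# TSE-E3: the facets next to a node
-/

namespace Pool.Agent.Helper13.TSE

open Finset Pool.Agent.Helper82.TotSep Pool.Agent.Helper13.TSD

variable {V : Type*} [Fintype V] {G : SimpleGraph V} {d : ℕ} {L : FaceData G d} {M : Finset V}
  {j : ℕ} {F : Finset V}

open Classical in
/-- the number of the facets which do not contain `v` but a neighbour of `v` in `F` and `M` -/
noncomputable def rv (L : FaceData G d) (M F : Finset V) (v : V) : ℕ :=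
  ((fc L).filter fun a => v ∉ a ∧ 1 ≤ mm L M F v a).card

/-- A node of a facet of the polytope has only one neighbour outside the facet. -/
private lemma out_unique {a : Finset V} (ha : a ∈ fc L) {v v' : V} {l l' : Fin d}
    (h1 : v ∉ a) (h1' : v' ∉ a) (h2 : L.nb v l ∈ a) (h3 : L.nb v' l' = L.nb v l) : v' = v := by
  obtain ⟨m, hm⟩ := exists_hf ha h2
  have key : ∀ x : V, x ∉ a → G.Adj (L.nb v l) x → x = L.nb (L.nb v l) m := by
    intro x hx hadj
    obtain ⟨i, hi⟩ := L.nb_surj _ _ hadj
    have h4 : ¬ L.nb (L.nb v l) i ∈ hf L (L.nb v l) m := by rw [hm, hi]; exact hx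
    rw [nb_mem_hf, not_not] at h4
    rw [← hi, h4]
  rw [key v h1 (L.adj_nb v l).symm, key v' h1' (h3 ▸ (L.adj_nb v' l').symm)]

open Classical in
/-- For a facet `a`, the number of the `v ∈ M`, `v ∈ F`, `v ∉ a` with a neighbour in `a`, `F`, `M`
is at most `n_{a ∩ F}`: every node of `a ∩ F` has only one neighbour in `F` outside `a`. -/
theorem card_next_le (hF : IsFace L j F) {a : Finset V} (ha : a ∈ fc L) :
    ((inner M F).filter fun v => v ∉ a ∧ 1 ≤ mm L M F v a).card ≤ (inner M (ct a F)).card := by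
  have hex : ∀ v : V, ∃ w : V, v ∈ (inner M F).filter (fun v => v ∉ a ∧ 1 ≤ mm L M F v a) →
      w ∈ inner M (ct a F) ∧ ∃ l, L.nb v l = w := by
    intro v
    by_cases hv : v ∈ (inner M F).filter (fun v => v ∉ a ∧ 1 ≤ mm L M F v a)
    · have h1 := (Finset.mem_filter.mp hv).2.2
      obtain ⟨l, hl⟩ := Finset.card_pos.mp (show 0 < ((dir L F v).filter fun l =>
        L.nb v l ∈ M ∧ L.nb v l ∈ a).card from h1)
      rw [Finset.mem_filter, mem_dir] at hl
      exact ⟨L.nb v l, fun _ => ⟨mem_inner.mpr ⟨mem_ct.mpr ⟨hl.1, hl.2.2⟩, hl.2.1⟩, l, rfl⟩⟩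
    · exact ⟨v, fun h => absurd h hv⟩
  choose f hf using hex
  refine Finset.card_le_card_of_injOn f (fun v hv => (hf v hv).1) ?_
  intro v hv v' hv' hvv
  obtain ⟨h1, l, hl⟩ := hf v hv
  obtain ⟨h1', l', hl'⟩ := hf v' hv'
  have hv2 := (Finset.mem_filter.mp hv).2.1
  have hv2' := (Finset.mem_filter.mp hv').2.1
  have hin : L.nb v l ∈ a := by rw [hl]; exact (mem_ct.mp (mem_inner.mp h1).1).2
  exact (out_unique ha hv2 hv2' hin (by rw [hl, hl', hvv])).symm

open Classical in
private lemma card_out (a : Finset V) :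
    ((inner M F).filter fun v => v ∉ a).card + (inner M (ct a F)).card = (inner M F).card := by
  have h1 : inner M (ct a F) = (inner M F).filter fun v => v ∈ a := by
    ext x
    simp only [mem_inner, mem_ct, Finset.mem_filter]
    tauto
  rw [h1, add_comm]
  exact Finset.card_filter_add_card_filter_not _

/-- For each facet the number of the `v` is at most `n p` and at most `n (1 - p)`, so at most
`2 n p (1 - p)`. -/
theorem sum_rv_le (hF : IsFace L j F) :
    ∑ v ∈ inner M F, (rv L M F v : ℝ) ≤ 2 * SS L M F * (inner M F).card := by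
  classical
  have h1 : ∑ v ∈ inner M F, (rv L M F v : ℝ) = ∑ a ∈ fc L,
      (((inner M F).filter fun v => v ∉ a ∧ 1 ≤ mm L M F v a).card : ℝ) := by
    simp only [rv, Finset.card_filter, Nat.cast_sum]
    exact Finset.sum_comm
  rw [h1, SS, Finset.mul_sum, Finset.sum_mul]
  refine Finset.sum_le_sum fun a ha => ?_
  have h2 := card_next_le (M := M) hF ha
  have h3 : ((inner M F).filter fun v => v ∉ a ∧ 1 ≤ mm L M F v a).card +
      (inner M (ct a F)).card ≤ (inner M F).card := by
    rw [← card_out (M := M) (F := F) a]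
    refine Nat.add_le_add_right (Finset.card_le_card fun v hv => ?_) _
    rw [Finset.mem_filter] at hv ⊢
    exact ⟨hv.1, hv.2.1⟩
  have h2' : (((inner M F).filter fun v => v ∉ a ∧ 1 ≤ mm L M F v a).card : ℝ) ≤
      ((inner M (ct a F)).card : ℝ) := by exact_mod_cast h2
  have h3' : (((inner M F).filter fun v => v ∉ a ∧ 1 ≤ mm L M F v a).card : ℝ) +
      ((inner M (ct a F)).card : ℝ) ≤ ((inner M F).card : ℝ) := by exact_mod_cast h3
  have h4 := pr_mul (M := M) (P := F) (H := a)
  have h5 := pr_nonneg (M := M) (P := F) (H := a)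
  have h6 := pr_le_one (M := M) (P := F) (H := a)
  rw [← h4] at h2' h3'
  generalize (((inner M F).filter fun v => v ∉ a ∧ 1 ≤ mm L M F v a).card : ℝ) = x at *
  generalize ((inner M F).card : ℝ) = n at *
  generalize pr M F a = p at *
  nlinarith [mul_le_mul_of_nonneg_right h2' (sub_nonneg.mpr h6),
    mul_le_mul_of_nonneg_right h3' h5]

end Pool.Agent.Helper13.TSE
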