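import Mathlib

/-!
# TSE-E4: a binomial identity
-/

namespace Pool.Agent.Helper13.TSE

open Finset

private theorem E4_swap (N m j : ℕ) :
    N.choose j * (N - j).choose m = N.choose m * (N - m).choose j := by
  have h1 := Nat.choose_mul (n := N) (k := j + m) (s := j) (by omega)
  have h2 := Nat.choose_mul (n := N) (k := j + m) (s := m) (by omega)
  have e1 : j + m - j = m := by omega
  have e2 : j + m - m = j := by omega
  have h3 : (j + m).choose j = (j + m).choose m := by
    rw [← Nat.choose_symm (show m ≤ j + m by omega)]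
    congr 1
    omega
  rw [e1] at h1
  rw [e2] at h2
  rw [← h1, ← h2, h3]

private theorem E4_hockey (m N : ℕ) : ∑ i ∈ range (N + 1), i.choose m = (N + 1).choose (m + 1) := by
  induction N with
  | zero =>
    cases m with
    | zero => simp
    | succ k => simp [Nat.choose_eq_zero_of_lt (show 1 < k + 1 + 1 by omega)]
  | succ n ih => rw [sum_range_succ, ih, Nat.choose_succ_succ (n + 1) m, add_comm]

private theorem E4_sum (N m : ℕ) (h : m ≤ N) :
    ∑ j ∈ range (N + 1), (((N - m).choose j : ℝ) / (N.choose j : ℝ)) = ((N : ℝ) + 1) / (m + 1) := by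
  have hm : (0 : ℝ) < (N.choose m : ℝ) := by exact_mod_cast Nat.choose_pos h
  have h1 : ∀ j ∈ range (N + 1), (((N - m).choose j : ℝ) / (N.choose j : ℝ)) =
      ((N - j).choose m : ℝ) / (N.choose m : ℝ) := by
    intro j hj
    have hj' : j ≤ N := by
      have := mem_range.1 hj
      omega
    have hjp : (0 : ℝ) < (N.choose j : ℝ) := by exact_mod_cast Nat.choose_pos hj'
    rw [div_eq_div_iff hjp.ne' hm.ne']
    have := E4_swap N m j
    have h2 : (N.choose j : ℝ) * ((N - j).choose m : ℝ) = (N.choose m : ℝ) * ((N - m).choose j : ℝ) := by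
      exact_mod_cast this
    linarith
  rw [sum_congr rfl h1, ← sum_div]
  have h2 : ∑ j ∈ range (N + 1), ((N - j).choose m : ℝ) = ((N + 1).choose (m + 1) : ℝ) := by
    rw [← E4_hockey m N]
    push_cast
    rw [← sum_range_reflect]
    apply sum_congr rfl
    intro j hj
    have hj' : j ≤ N := by
      have := mem_range.1 hj
      omega
    congr 2
    omega
  rw [h2]
  have h3 := Nat.add_one_mul_choose_eq N m
  have h4 : ((N : ℝ) + 1) * (N.choose m : ℝ) = ((N + 1).choose (m + 1) : ℝ) * ((m : ℝ) + 1) := by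
    exact_mod_cast h3
  have hm1 : (0 : ℝ) < (m : ℝ) + 1 := by positivity
  rw [div_eq_div_iff hm.ne' hm1.ne']
  linarith

/-- `∑ j, 1 / j (1 - C(d - m, j) / C(d, j))` is the harmonic number of `m`.  Induction on `m`: the
difference for `m + 1` and `m` is `∑ j, C(d - m - 1, j - 1) / (j C(d, j)) =
(1 / d) ∑ i, C(d - 1 - m, i) / C(d - 1, i) = 1 / (m + 1)`, as `j C(d, j) = d C(d - 1, j - 1)`,
`C(N - m, i) / C(N, i) = C(N - i, m) / C(N, m)` and the hockey stick identity. -/
theorem harmonic_identity {d m : ℕ} (hm : m ≤ d) :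
    ∑ j ∈ range d, (1 / ((j : ℝ) + 1)) * (1 - ((d - m).choose (j + 1) : ℝ) / (d.choose (j + 1))) =
      ∑ i ∈ range m, 1 / ((i : ℝ) + 1) := by
  induction m with
  | zero =>
    simp only [Nat.sub_zero, range_zero, sum_empty]
    apply sum_eq_zero
    intro j hj
    have hj' : j + 1 ≤ d := by
      have := mem_range.1 hj
      omega
    have hp : (0 : ℝ) < (d.choose (j + 1) : ℝ) := by exact_mod_cast Nat.choose_pos hj'
    rw [div_self hp.ne', sub_self, mul_zero]
  | succ m ih =>
    have ih' := ih (by omega)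
    rw [sum_range_succ, ← ih']
    obtain ⟨N, rfl⟩ : ∃ N, d = N + 1 := ⟨d - 1, by omega⟩
    have hmN : m ≤ N := by omega
    have hN : (0 : ℝ) < (N : ℝ) + 1 := by positivity
    have key : (1 : ℝ) / ((m : ℝ) + 1) =
        ∑ j ∈ range (N + 1), (1 / ((N : ℝ) + 1)) * (((N - m).choose j : ℝ) / (N.choose j : ℝ)) := by
      rw [← mul_sum, E4_sum N m hmN]
      have hm1 : (0 : ℝ) < (m : ℝ) + 1 := by positivity
      field_simp
    rw [key, ← sum_add_distrib]
    apply sum_congr rfl
    intro j hj
    have hj' : j ≤ N := by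
      have := mem_range.1 hj
      omega
    have hp : (0 : ℝ) < (N.choose j : ℝ) := by exact_mod_cast Nat.choose_pos hj'
    have hp1 : (0 : ℝ) < ((N + 1).choose (j + 1) : ℝ) := by
      exact_mod_cast Nat.choose_pos (show j + 1 ≤ N + 1 by omega)
    have hj1 : (0 : ℝ) < (j : ℝ) + 1 := by positivity
    have e1 : N + 1 - (m + 1) = N - m := by omega
    have e2 : N + 1 - m = (N - m) + 1 := by omega
    rw [e1, e2, Nat.choose_succ_succ (N - m) j]
    have h3 := Nat.add_one_mul_choose_eq N j
    have h4 : ((N : ℝ) + 1) * (N.choose j : ℝ) =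
        ((N + 1).choose (j + 1) : ℝ) * ((j : ℝ) + 1) := by
      exact_mod_cast h3
    have h5 : (1 / ((N : ℝ) + 1)) * (((N - m).choose j : ℝ) / (N.choose j : ℝ)) =
        (1 / ((j : ℝ) + 1)) * (((N - m).choose j : ℝ) / ((N + 1).choose (j + 1) : ℝ)) := by
      rw [one_div_mul_eq_div, one_div_mul_eq_div, div_div, div_div]
      congr 1
      linarith
    rw [h5]
    push_cast
    field_simp
    ring

/-- `log (m + 1) ≤ ∑ i ∈ range m, 1 / (i + 1)`. -/
theorem log_le_harmonic (m : ℕ) : Real.log (m + 1) ≤ ∑ i ∈ range m, 1 / ((i : ℝ) + 1) := by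
  have h := log_add_one_le_harmonic m
  have e : ((harmonic m : ℚ) : ℝ) = ∑ i ∈ range m, 1 / ((i : ℝ) + 1) := by
    simp [harmonic]
  rw [← e]
  exact_mod_cast h

theorem harmonic_ge_one {m : ℕ} (hm : 1 ≤ m) : 1 ≤ ∑ i ∈ range m, 1 / ((i : ℝ) + 1) := by
  have h : ∑ i ∈ range 1, 1 / ((i : ℝ) + 1) ≤ ∑ i ∈ range m, 1 / ((i : ℝ) + 1) := by
    apply sum_le_sum_of_subset_of_nonneg
    · intro x hx
      simp only [mem_range] at hx ⊢
      omega
    · intro i _ _
      positivity
  simpa using h

end Pool.Agent.Helper13.TSE
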