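import Mathlib
import Pool.Agent.Helper13.TSE.E2
import Pool.Agent.Helper13.TSE.E3
import Pool.Agent.Helper13.TSE.E4

/-!
# TSE-E5: the sum of the harmonic numbers of the classes
-/

namespace Pool.Agent.Helper13.TSE

open Finset Pool.Agent.Helper82.TotSep Pool.Agent.Helper13.TSD

variable {V : Type*} [Fintype V] {G : SimpleGraph V} {d : ℕ} {L : FaceData G d} {M : Finset V}

open Classical in
/-- `rv` of the face `faceOf v U` is the number of the facets `a` such that `U` meets
`{l | nb v l ∈ M ∩ a}` (`mm_faceOf`). -/
theorem rv_faceOf (v : V) (U : Finset (Fin d)) :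
    rv L M (faceOf L v U) v = ((fc L).filter fun a => v ∉ a ∧
      (U.filter fun l => L.nb v l ∈ M ∧ L.nb v l ∈ a).Nonempty).card := by
  unfold rv
  congr 1
  apply Finset.filter_congr
  intro a _
  rw [mm_faceOf, Nat.one_le_iff_ne_zero, Finset.card_ne_zero]

/-- the number of the sets of `j` directions which meet a set `D` -/
private lemma card_meet (D : Finset (Fin d)) (j : ℕ) :
    (((powersetCard j (univ : Finset (Fin d))).filter fun U => (U.filter fun l => l ∈ D).Nonempty).card : ℝ)
      = (d.choose j : ℝ) - ((d - D.card).choose j : ℝ) := by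
  classical
  have h1 := Finset.card_filter_add_card_filter_not (s := powersetCard j (univ : Finset (Fin d)))
    (fun U => (U.filter fun l => l ∈ D).Nonempty)
  rw [Finset.card_powersetCard, Finset.card_univ, Fintype.card_fin] at h1
  have h2 : ((powersetCard j (univ : Finset (Fin d))).filter
      fun U => ¬ (U.filter fun l => l ∈ D).Nonempty) = powersetCard j (Dᶜ) := by
    ext U
    simp only [Finset.mem_filter, Finset.mem_powersetCard, Finset.subset_univ, true_and,
      Finset.not_nonempty_iff_eq_empty, Finset.filter_eq_empty_iff]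
    constructor
    · rintro ⟨hc, h⟩
      exact ⟨fun l hl => Finset.mem_compl.mpr (h hl), hc⟩
    · rintro ⟨h, hc⟩
      exact ⟨hc, fun l hl => Finset.mem_compl.mp (h hl)⟩
  rw [h2, Finset.card_powersetCard, Finset.card_compl, Fintype.card_fin] at h1
  have h3 : ((((powersetCard j (univ : Finset (Fin d))).filter
      fun U => (U.filter fun l => l ∈ D).Nonempty).card : ℝ)) + ((d - D.card).choose j : ℝ)
      = (d.choose j : ℝ) := by exact_mod_cast h1
  linarith

open Classical in
/-- The number of the `U` with `j + 1` elements which do not meet a set of `m` directions is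
`C(d - m, j + 1)`; `sum_fcs_inner` for `P = univ`. -/
theorem av_rv (j : ℕ) (hj : j < d) :
    av L d univ (j + 1) (fun F => ∑ v ∈ inner M F, (rv L M F v : ℝ)) =
      ∑ v ∈ M, ∑ a ∈ (fc L).filter (fun a => v ∉ a),
        (1 - ((d - mm L M univ v a).choose (j + 1) : ℝ) / (d.choose (j + 1))) := by
  rcases isEmpty_or_nonempty V with hV | hV
  · have hM : M = ∅ := Finset.eq_empty_of_isEmpty M
    subst hM
    unfold av
    rw [Finset.sum_empty]
    have : ∀ F ∈ fcs L (j + 1) univ, ∑ v ∈ inner ∅ F, (rv L ∅ F v : ℝ) = 0 := by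
      intro F _
      have hi : inner (∅ : Finset V) F = ∅ := Finset.eq_empty_of_isEmpty _
      rw [hi, Finset.sum_empty]
    rw [Finset.sum_congr rfl this]
    simp
  · have hC : (0 : ℝ) < (d.choose (j + 1) : ℝ) := by
      exact_mod_cast Nat.choose_pos (by omega)
    unfold av
    rw [sum_fcs_inner isFace_univ M (j + 1) (fun v F => (rv L M F v : ℝ))]
    have hin : inner M (univ : Finset V) = M := by
      ext x; simp [Pool.Agent.Helper82.TotSep.inner]
    have hdir : ∀ v : V, dir L (univ : Finset V) v = univ := by
      intro v; ext l; simp [mem_dir]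
    rw [hin, Finset.sum_div]
    apply Finset.sum_congr rfl
    intro v _
    rw [hdir]
    have h1 : ∀ U ∈ powersetCard (j + 1) (univ : Finset (Fin d)),
        (rv L M (faceOf L v U) v : ℝ) = ∑ a ∈ (fc L).filter (fun a => v ∉ a),
          (if (U.filter fun l => L.nb v l ∈ M ∧ L.nb v l ∈ a).Nonempty then (1 : ℝ) else 0) := by
      intro U _
      rw [rv_faceOf, ← Finset.sum_filter, Finset.filter_filter]
      simp
    rw [Finset.sum_congr rfl h1, Finset.sum_comm, Finset.sum_div]
    apply Finset.sum_congr rfl
    intro a _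
    rw [← Finset.sum_filter, Finset.sum_const, nsmul_eq_mul, mul_one]
    have h2 : (((powersetCard (j + 1) (univ : Finset (Fin d))).filter
        fun U => (U.filter fun l => L.nb v l ∈ M ∧ L.nb v l ∈ a).Nonempty).card : ℝ)
        = (d.choose (j + 1) : ℝ) - ((d - mm L M univ v a).choose (j + 1) : ℝ) := by
      have h3 := card_meet (univ.filter fun l : Fin d => L.nb v l ∈ M ∧ L.nb v l ∈ a) (j + 1)
      have h4 : mm L M univ v a
          = (univ.filter fun l : Fin d => L.nb v l ∈ M ∧ L.nb v l ∈ a).card := by
        unfold mm; rw [hdir]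
      rw [h4, ← h3]
      simp only [Finset.mem_filter, Finset.mem_univ, true_and]
    rw [h2, sub_div, div_self hC.ne']

end Pool.Agent.Helper13.TSE
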