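import Mathlib
import Pool.Agent.Helper13.TSE.E5

/-!
# TSE-E5b: the sum of the harmonic numbers of the classes
-/

namespace Pool.Agent.Helper13.TSE

open Finset Pool.Agent.Helper82.TotSep Pool.Agent.Helper13.TSD

variable {V : Type*} [Fintype V] {G : SimpleGraph V} {d : ℕ} {L : FaceData G d} {M : Finset V}

private lemma mm_le (v : V) (a : Finset V) : mm L M univ v a ≤ d := by
  classical
  unfold mm
  refine (Finset.card_le_univ _).trans ?_
  simp

private lemma harmonic_nonneg (m : ℕ) : 0 ≤ ∑ i ∈ range m, 1 / ((i : ℝ) + 1) :=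
  Finset.sum_nonneg fun i _ => by positivity

open Classical in
/-- `sum_rv_le`, `SS_mul_le`, `sum_entropy`, `av_rv`, `harmonic_identity`. -/
theorem sum_harmonic_le :
    ∑ v ∈ M, ∑ a ∈ (fc L).filter (fun a => v ∉ a),
      (∑ i ∈ range (mm L M univ v a), 1 / ((i : ℝ) + 1)) ≤ 2 * (M.card * Real.log M.card) := by
  rcases isEmpty_or_nonempty V with hV | hV
  · have hM : M = ∅ := Finset.eq_empty_of_isEmpty M
    subst hM
    simp
  · have hin : Pool.Agent.Helper82.TotSep.inner M (univ : Finset V) = M := by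
      ext x; simp [Pool.Agent.Helper82.TotSep.inner]
    have hent := sum_entropy (L := L) (M := M) (isFace_univ (L := L))
    rw [hin] at hent
    rw [← hent]
    have h1 : ∑ v ∈ M, ∑ a ∈ (fc L).filter (fun a => v ∉ a),
        (∑ i ∈ range (mm L M univ v a), 1 / ((i : ℝ) + 1))
        = ∑ j ∈ range d, (1 / ((j : ℝ) + 1)) *
          av L d univ (j + 1) (fun F => ∑ v ∈ Pool.Agent.Helper82.TotSep.inner M F,
            (rv L M F v : ℝ)) := by
      have e1 : ∀ j ∈ range d, (1 / ((j : ℝ) + 1)) *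
          av L d univ (j + 1) (fun F => ∑ v ∈ Pool.Agent.Helper82.TotSep.inner M F,
            (rv L M F v : ℝ)) = ∑ v ∈ M, ∑ a ∈ (fc L).filter (fun a => v ∉ a),
            (1 / ((j : ℝ) + 1)) *
            (1 - ((d - mm L M univ v a).choose (j + 1) : ℝ) / (d.choose (j + 1))) := by
        intro j hj
        rw [av_rv j (Finset.mem_range.mp hj), Finset.mul_sum]
        refine Finset.sum_congr rfl fun v _ => ?_
        rw [Finset.mul_sum]
      rw [Finset.sum_congr rfl e1, Finset.sum_comm]
      refine Finset.sum_congr rfl fun v _ => ?_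
      rw [Finset.sum_comm]
      refine Finset.sum_congr rfl fun a _ => ?_
      rw [harmonic_identity (mm_le v a)]
    rw [h1, Finset.mul_sum]
    refine Finset.sum_le_sum fun j hj => ?_
    have hj' : j < d := Finset.mem_range.mp hj
    have h2 : av L d univ (j + 1) (fun F => ∑ v ∈ Pool.Agent.Helper82.TotSep.inner M F,
        (rv L M F v : ℝ)) ≤ 2 * av L d univ (j + 1) (SL L M) := by
      rw [← av_mul]
      refine av_mono fun F hF => ?_
      have hF' := (mem_fcs.mp hF).1
      refine (sum_rv_le hF').trans ?_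
      have := SS_mul_le (L := L) (M := M) (P := F)
      nlinarith
    have h3 : 0 < 1 / ((j : ℝ) + 1) := by positivity
    calc (1 / ((j : ℝ) + 1)) * av L d univ (j + 1) (fun F =>
          ∑ v ∈ Pool.Agent.Helper82.TotSep.inner M F, (rv L M F v : ℝ))
        ≤ (1 / ((j : ℝ) + 1)) * (2 * av L d univ (j + 1) (SL L M)) :=
          mul_le_mul_of_nonneg_left h2 h3.le
      _ = 2 * (av L d univ (j + 1) (SL L M) / ((j : ℝ) + 1)) := by ring

open Classical in
/-- The number of the facets `a` not through `v` with `mm univ v a ≥ m`. -/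
noncomputable def rel (L : FaceData G d) (M : Finset V) (m : ℕ) (v : V) : Finset (Finset V) :=
  (fc L).filter fun a => v ∉ a ∧ m ≤ mm L M univ v a

/-- `log m ≤` harmonic number of `mm univ v a` for `a ∈ rel m v`. -/
theorem sum_rel_le {m : ℕ} (hm : 2 ≤ m) :
    Real.log m * ∑ v ∈ M, ((rel L M m v).card : ℝ) ≤ 2 * (M.card * Real.log M.card) := by
  classical
  refine le_trans ?_ (sum_harmonic_le (L := L) (M := M))
  rw [Finset.mul_sum]
  refine Finset.sum_le_sum fun v _ => ?_
  have hsub : rel L M m v ⊆ (fc L).filter (fun a => v ∉ a) := by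
    intro a ha
    simp only [rel, Finset.mem_filter] at ha ⊢
    exact ⟨ha.1, ha.2.1⟩
  refine le_trans ?_ (Finset.sum_le_sum_of_subset_of_nonneg hsub fun a _ _ => harmonic_nonneg _)
  rw [mul_comm, ← nsmul_eq_mul]
  refine Finset.card_nsmul_le_sum _ _ _ fun a ha => ?_
  simp only [rel, Finset.mem_filter] at ha
  refine le_trans ?_ (log_le_harmonic _)
  apply Real.log_le_log (by positivity)
  have : (m : ℝ) ≤ (mm L M univ v a : ℝ) := by exact_mod_cast ha.2.2
  linarith

open Classical in
/-- `mm ≤ m * harmonic number` for `1 ≤ mm < m`. -/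
theorem sum_nonrel_le (m : ℕ) :
    ∑ v ∈ M, ∑ a ∈ (fc L).filter (fun a => v ∉ a ∧ mm L M univ v a < m),
      (mm L M univ v a : ℝ) ≤ 2 * m * (M.card * Real.log M.card) := by
  have h0 := sum_harmonic_le (L := L) (M := M)
  have h1 : ∑ v ∈ M, ∑ a ∈ (fc L).filter (fun a => v ∉ a ∧ mm L M univ v a < m),
      (mm L M univ v a : ℝ) ≤ (m : ℝ) * ∑ v ∈ M, ∑ a ∈ (fc L).filter (fun a => v ∉ a),
      (∑ i ∈ range (mm L M univ v a), 1 / ((i : ℝ) + 1)) := by
    rw [Finset.mul_sum]
    refine Finset.sum_le_sum fun v _ => ?_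
    rw [Finset.mul_sum]
    have hsub : (fc L).filter (fun a => v ∉ a ∧ mm L M univ v a < m) ⊆
        (fc L).filter (fun a => v ∉ a) := by
      intro a ha
      simp only [Finset.mem_filter] at ha ⊢
      exact ⟨ha.1, ha.2.1⟩
    refine le_trans ?_ (Finset.sum_le_sum_of_subset_of_nonneg hsub fun a _ _ =>
      mul_nonneg (Nat.cast_nonneg m) (harmonic_nonneg _))
    refine Finset.sum_le_sum fun a ha => ?_
    simp only [Finset.mem_filter] at ha
    rcases Nat.eq_zero_or_pos (mm L M univ v a) with h | h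
    · rw [h]; simp
    · have h2 := harmonic_ge_one h
      have h3 : (mm L M univ v a : ℝ) ≤ (m : ℝ) := by exact_mod_cast ha.2.2.le
      calc (mm L M univ v a : ℝ) ≤ (m : ℝ) * 1 := by linarith
        _ ≤ _ := mul_le_mul_of_nonneg_left h2 (Nat.cast_nonneg m)
  calc _ ≤ _ := h1
    _ ≤ (m : ℝ) * (2 * (M.card * Real.log M.card)) :=
      mul_le_mul_of_nonneg_left h0 (Nat.cast_nonneg m)
    _ = _ := by ring

end Pool.Agent.Helper13.TSE
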