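import Mathlib
import Pool.Agent.Helper13.TSE.B4
import Pool.Agent.Helper13.TSE.B5
import Pool.Agent.Helper13.TSE.E1

/-!
# TSE-F0: kinds of strongly nice labels (definitions)

`F` is a face of dimension `j` of `P`; proportions are taken in `P`.
-/

namespace Pool.Agent.Helper13.TSE

open Finset Pool.Agent.Helper82.TotSep Pool.Agent.Helper13.TSD

variable {V : Type*} [Fintype V] {G : SimpleGraph V} {d : ℕ} {Λ : Type*}

open Classical in
/-- at least a quarter of `j` good seers `v` have a facet of `F` through `v`, outside `ZZ F c`, with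
small proportion -/
noncomputable def KA (L : FaceData G d) (M : Finset V) (lab : V → Λ) (j : ℕ) (P F : Finset V)
    (ε : ℝ) : Finset Λ :=
  (sn L M lab j F).filter fun c => j ≤ 4 * ((gs L M lab F c).filter fun v =>
    ∃ H ∈ th L F v, H ∉ ZZ L M lab F c ∧ pr M P H ≤ ε).card

open Classical in
/-- more than a quarter of `j` facets of `ZZ F c` are not big -/
noncomputable def K2 (L : FaceData G d) (M : Finset V) (lab : V → Λ) (j : ℕ) (P F : Finset V) :
    Finset Λ :=
  (sn L M lab j F).filter fun c => j < 4 * ((ZZ L M lab F c).filter fun H =>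
    pr M P H ≤ 1 / 2).card

open Classical in
/-- most facets of `ZZ F c` are big, and each good seer misses many big facets of `P` -/
noncomputable def K1 (L : FaceData G d) (M : Finset V) (lab : V → Λ) (j : ℕ) (P F : Finset V)
    (θ : ℝ) : Finset Λ :=
  (sn L M lab j F).filter fun c => 4 * ((ZZ L M lab F c).filter fun H =>
    pr M P H ≤ 1 / 2).card ≤ j ∧ ∀ v ∈ gs L M lab F c, θ ≤ (qq L M P v : ℝ)

open Classical in
/-- the number of the big facets missed by `v`, if it is at least `θ` -/
noncomputable def qv (L : FaceData G d) (M P : Finset V) (θ : ℝ) (v : V) : ℝ :=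
  if θ ≤ (qq L M P v : ℝ) then (qq L M P v : ℝ) else 0

end Pool.Agent.Helper13.TSE
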