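import Mathlib
import Pool.Agent.Helper13.TSE.F0
import Pool.Agent.Helper13.TSE.L2

/-!
# TSE-F1: the number of small facets through the nodes, in the mean
-/

namespace Pool.Agent.Helper13.TSE

open Finset Pool.Agent.Helper82.TotSep Pool.Agent.Helper13.TSD

variable {V : Type*} [Fintype V] {G : SimpleGraph V} {d : ℕ} {L : FaceData G d} {M : Finset V}
  {r j : ℕ} {P : Finset V}

open Classical in
private theorem F1_card_mem {α : Type*} {D : Finset α} {l : α} (hl : l ∈ D) (k : ℕ) :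
    ((powersetCard (k + 1) D).filter fun U => l ∈ U).card = (D.card - 1).choose k := by
  have h1 : ((powersetCard (k + 1) D).filter fun U => l ∈ U) =
      (powersetCard k (D.erase l)).image (insert l) := by
    ext U
    simp only [mem_filter, mem_powersetCard, mem_image]
    constructor
    · rintro ⟨⟨hU, hc⟩, hlU⟩
      refine ⟨U.erase l, ⟨erase_subset_erase _ hU, ?_⟩, insert_erase hlU⟩
      rw [card_erase_of_mem hlU, hc, Nat.add_sub_cancel]
    · rintro ⟨W, ⟨hW, hc⟩, rfl⟩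
      have hlW : l ∉ W := fun h => (mem_erase.mp (hW h)).1 rfl
      refine ⟨⟨insert_subset hl (hW.trans (erase_subset _ _)), ?_⟩, mem_insert_self _ _⟩
      rw [card_insert_of_notMem hlW, hc]
  rw [h1, card_image_of_injOn, card_powersetCard, card_erase_of_mem hl]
  intro W hW W' hW' h
  rw [mem_coe, mem_powersetCard] at hW hW'
  have hlW : l ∉ W := fun h => (mem_erase.mp (hW.1 h)).1 rfl
  have hlW' : l ∉ W' := fun h => (mem_erase.mp (hW'.1 h)).1 rfl
  rw [← erase_insert hlW, ← erase_insert hlW']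
  exact congrArg (fun S => erase S l) h

open Classical in
private theorem F1_sf {k : ℕ} {F : Finset V} (hF : IsFace L k F) {v : V} (hv : v ∈ F) (ε : ℝ) :
    sf L M P F ε v = ((dir L F v).filter fun l => pr M P (hf L v l) ≤ ε).card := by
  have h1 : (th L F v).filter (fun H => pr M P H ≤ ε) =
      ((dir L F v).filter fun l => pr M P (hf L v l) ≤ ε).image (hf L v) := by
    ext H
    simp only [mem_filter, mem_image, mem_th_iff hF hv]
    constructor
    · rintro ⟨⟨l, hl, rfl⟩, h⟩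
      exact ⟨l, ⟨hl, h⟩, rfl⟩
    · rintro ⟨l, ⟨hl, h⟩, rfl⟩
      exact ⟨⟨l, hl, rfl⟩, h⟩
  unfold sf
  rw [h1]
  exact card_image_of_injective _ fun l m h => hf_inj h

/-- `sum_fcs_inner`: `sf` in the face `faceOf v U` is the number of the `l ∈ U` with
`pr P (hf v l) ≤ ε` (`mem_th_iff`, `hf_inj`, `dir_faceOf`); each `l ∈ dir P v` lies in
`C(r - 1, j - 1)` sets `U`, and `C(r - 1, j - 1) / C(r, j) = j / r`. -/
theorem av_sf (hP : IsFace L r P) (hj : 1 ≤ j) (hjr : j ≤ r) (ε : ℝ) :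
    av L r P j (fun F => ∑ v ∈ inner M F, (sf L M P F ε v : ℝ)) =
      (j : ℝ) / r * ∑ v ∈ inner M P, (sf L M P P ε v : ℝ) := by
  classical
  obtain ⟨k, rfl⟩ : ∃ k, j = k + 1 := ⟨j - 1, by omega⟩
  obtain ⟨s, rfl⟩ : ∃ s, r = s + 1 := ⟨r - 1, by omega⟩
  unfold av
  rw [sum_fcs_inner hP M (k + 1) (fun v F => (sf L M P F ε v : ℝ))]
  have hv1 : ∀ v ∈ inner M P, ∑ U ∈ powersetCard (k + 1) (dir L P v),
      (sf L M P (faceOf L v U) ε v : ℝ) = (s.choose k : ℝ) * (sf L M P P ε v : ℝ) := by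
    intro v hv
    have hvP : v ∈ P := (mem_inner.mp hv).1
    have h2 : ∀ U ∈ powersetCard (k + 1) (dir L P v), (sf L M P (faceOf L v U) ε v : ℝ) =
        ∑ l ∈ (dir L P v).filter (fun l => pr M P (hf L v l) ≤ ε), if l ∈ U then (1 : ℝ) else 0 := by
      intro U hU
      rw [F1_sf (isFace_faceOf v U) self_mem_faceOf, dir_faceOf, ← sum_filter, sum_const,
        nsmul_eq_mul, mul_one]
      congr 2
      ext l
      simp only [mem_filter]
      rw [mem_powersetCard] at hU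
      constructor
      · rintro ⟨h, h'⟩
        exact ⟨⟨hU.1 h, h'⟩, h⟩
      · rintro ⟨⟨_, h'⟩, h⟩
        exact ⟨h, h'⟩
    rw [sum_congr rfl h2, sum_comm]
    have h3 : ∀ l ∈ (dir L P v).filter (fun l => pr M P (hf L v l) ≤ ε),
        ∑ U ∈ powersetCard (k + 1) (dir L P v), (if l ∈ U then (1 : ℝ) else 0) =
          (s.choose k : ℝ) := by
      intro l hl
      have h4 := F1_card_mem (mem_filter.mp hl).1 k
      rw [hP.card_dir hvP, Nat.add_sub_cancel] at h4
      rw [← sum_filter, sum_const, nsmul_eq_mul, mul_one, ← h4]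
      congr
    rw [sum_congr rfl h3, sum_const, nsmul_eq_mul, F1_sf hP hvP, mul_comm]
  rw [sum_congr rfl hv1, ← mul_sum]
  have h4 : ((s + 1 : ℕ) : ℝ) * (s.choose k : ℝ) =
      ((s + 1).choose (k + 1) : ℝ) * ((k + 1 : ℕ) : ℝ) := by
    exact_mod_cast Nat.add_one_mul_choose_eq s k
  have h5 : (0 : ℝ) < ((s + 1).choose (k + 1) : ℝ) := by
    exact_mod_cast Nat.choose_pos hjr
  have h6 : (0 : ℝ) < ((s + 1 : ℕ) : ℝ) := by positivity
  rw [div_eq_iff h5.ne', div_mul_eq_mul_div, div_mul_eq_mul_div, eq_div_iff h6.ne']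
  linear_combination (∑ v ∈ inner M P, (sf L M P P ε v : ℝ)) * h4

/-- `sf_mul_log_le`. -/
theorem av_sf_le (hP : IsFace L r P) (hj : 1 ≤ j) (hjr : j ≤ r) {ε : ℝ} (h0 : 0 < ε)
    (h1 : ε < 1) :
    av L r P j (fun F => ∑ v ∈ inner M F, (sf L M P F ε v : ℝ)) ≤
      (j : ℝ) / (r * Real.log (1 / ε)) * SL L M P := by
  rw [av_sf hP hj hjr]
  have hlog : 0 < Real.log (1 / ε) := Real.log_pos (by rw [lt_div_iff₀ h0]; linarith)
  have h2 : ∑ v ∈ inner M P, (sf L M P P ε v : ℝ) ≤ SL L M P / Real.log (1 / ε) := by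
    rw [le_div_iff₀ hlog, sum_mul]
    exact sum_le_sum fun v hv => sf_mul_log_le h0 h1.le hv
  calc (j : ℝ) / r * ∑ v ∈ inner M P, (sf L M P P ε v : ℝ)
      ≤ (j : ℝ) / r * (SL L M P / Real.log (1 / ε)) :=
        mul_le_mul_of_nonneg_left h2 (by positivity)
    _ = (j : ℝ) / (r * Real.log (1 / ε)) * SL L M P := by
        rw [div_mul_div_comm, div_mul_eq_mul_div]

end Pool.Agent.Helper13.TSE
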