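import Mathlib
import Pool.Agent.Helper13.TSE.F0

/-!
# TSE-F2: the labels of kind `KA`
-/

namespace Pool.Agent.Helper13.TSE

open Finset Pool.Agent.Helper82.TotSep Pool.Agent.Helper13.TSD

variable {V : Type*} [Fintype V] {G : SimpleGraph V} {d : ℕ} {Λ : Type*} {L : FaceData G d}
  {M : Finset V} {lab : V → Λ} {j : ℕ} {P F : Finset V}

/-- For a nice label `c` and a good seer `v` of `c` through `l`, the only facet of `th F v`
outside `ZZ F c` is `hf v l`, and it determines `c`. -/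
theorem th_notMem (hF : IsFace L j F) {c : Λ} (hc : Nic L M lab j F c) {v : V}
    (hv : v ∈ gs L M lab F c) {l : Fin d} (hl : l ∈ dir L F v) (hM : L.nb v l ∉ M)
    (hlc : lab (L.nb v l) = c) {H : Finset V} (hH : H ∈ th L F v) :
    H ∉ ZZ L M lab F c ↔ H = hf L v l := by
  have hv' := mem_gs.mp hv
  have hvF : v ∈ F := (mem_seers.mp hv'.1).1
  obtain ⟨l', hl', rfl⟩ := (mem_th_iff hF hvF).mp hH
  constructor
  · intro h
    by_contra hne
    have hne' : l' ≠ l := fun h' => hne (by rw [h'])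
    have h1 := good_mem_ZZ hF hvF hv'.2 hl hM hl' hne'
    rw [hlc] at h1
    exact h h1
  · intro h
    rw [h]
    exact hc.notMem hF hv hl hM hlc

open Classical in
private lemma F2_card_le (hF : IsFace L j F) (ε : ℝ) {v : V} :
    ((KA L M lab j P F ε).filter fun c => v ∈ gs L M lab F c ∧
      ∃ H ∈ th L F v, H ∉ ZZ L M lab F c ∧ pr M P H ≤ ε).card ≤ sf L M P F ε v := by
  unfold sf
  refine Finset.card_le_card_of_forall_subsingleton
    (fun c H => H ∈ th L F v ∧ H ∉ ZZ L M lab F c) ?_ ?_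
  · intro c hc
    obtain ⟨_, _, H, hH, hHZ, hHp⟩ := Finset.mem_filter.mp hc
    exact ⟨H, Finset.mem_filter.mpr ⟨hH, hHp⟩, hH, hHZ⟩
  · rintro H hH c ⟨hc, hcH⟩ c' ⟨hc', hcH'⟩
    obtain ⟨hcK, hcv, -⟩ := Finset.mem_filter.mp (Finset.mem_coe.mp hc)
    obtain ⟨hcK', hcv', -⟩ := Finset.mem_filter.mp (Finset.mem_coe.mp hc')
    have hn : Nic L M lab j F c := (mem_sn.mp (Finset.mem_filter.mp hcK).1).2.1
    have hn' : Nic L M lab j F c' := (mem_sn.mp (Finset.mem_filter.mp hcK').1).2.1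
    obtain ⟨_, _, l, hl, hM, hlc⟩ := mem_seers.mp (mem_gs.mp hcv).1
    obtain ⟨_, _, l', hl', hM', hlc'⟩ := mem_seers.mp (mem_gs.mp hcv').1
    have h1 := (th_notMem hF hn hcv hl hM hlc hcH.1).mp hcH.2
    have h2 := (th_notMem hF hn' hcv' hl' hM' hlc' hcH'.1).mp hcH'.2
    have h3 : l = l' := hf_inj (h1.symm.trans h2)
    rw [← hlc, ← hlc', h3]

/-- `sum_card_gs`: `j / 4 |KA| ≤ ∑ c, #{v} ≤ ∑ v, #{H ∈ th F v, pr ≤ ε}`. -/
theorem card_KA (hF : IsFace L j F) (ε : ℝ) :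
    (j : ℝ) * (KA L M lab j P F ε).card ≤ 4 * ∑ v ∈ inner M F, (sf L M P F ε v : ℝ) := by
  classical
  have h1 : j * (KA L M lab j P F ε).card ≤
      4 * ∑ c ∈ KA L M lab j P F ε, ((gs L M lab F c).filter fun v =>
        ∃ H ∈ th L F v, H ∉ ZZ L M lab F c ∧ pr M P H ≤ ε).card := by
    rw [mul_comm, ← smul_eq_mul, ← Finset.sum_const, Finset.mul_sum]
    refine Finset.sum_le_sum fun c hc => ?_
    exact (Finset.mem_filter.mp hc).2
  have h2 : ∑ c ∈ KA L M lab j P F ε, ((gs L M lab F c).filter fun v =>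
      ∃ H ∈ th L F v, H ∉ ZZ L M lab F c ∧ pr M P H ≤ ε).card =
      ∑ v ∈ inner M F, ((KA L M lab j P F ε).filter fun c => v ∈ gs L M lab F c ∧
        ∃ H ∈ th L F v, H ∉ ZZ L M lab F c ∧ pr M P H ≤ ε).card := by
    convert sum_card_gs (L := L) (M := M) (lab := lab) (F := F) (KA L M lab j P F ε)
      (fun c v => ∃ H ∈ th L F v, H ∉ ZZ L M lab F c ∧ pr M P H ≤ ε)
  have h3 : ∑ v ∈ inner M F, ((KA L M lab j P F ε).filter fun c => v ∈ gs L M lab F c ∧
      ∃ H ∈ th L F v, H ∉ ZZ L M lab F c ∧ pr M P H ≤ ε).card ≤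
      ∑ v ∈ inner M F, sf L M P F ε v :=
    Finset.sum_le_sum fun v _ => by convert F2_card_le hF ε
  rw [h2] at h1
  have h4 := h1.trans (Nat.mul_le_mul_left 4 h3)
  exact_mod_cast h4

end Pool.Agent.Helper13.TSE
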