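import Mathlib
import Pool.Agent.Helper13.TSE.F0

/-!
# TSE-F3: the labels of kind `K2`
-/

namespace Pool.Agent.Helper13.TSE

open Finset Pool.Agent.Helper82.TotSep Pool.Agent.Helper13.TSD

variable {V : Type*} [Fintype V] {G : SimpleGraph V} {d : ℕ} {Λ : Type*} {L : FaceData G d}
  {M : Finset V} {lab : V → Λ} {j : ℕ} {P F : Finset V}

open Classical in
/-- The facets with `ε < pr ≤ 1 / 2`: each has `pr (1 - pr) ≥ ε / 2`. -/
theorem card_medium {ε : ℝ} (h0 : 0 < ε) (S : Finset (Finset V))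
    (hS : ∀ H ∈ S, H ∈ fc L ∧ ε < pr M P H ∧ pr M P H ≤ 1 / 2) :
    ε * S.card ≤ 2 * SS L M P := by
  have h1 : ∑ _H ∈ S, ε / 2 ≤ ∑ H ∈ fc L, pr M P H * (1 - pr M P H) := by
    refine (Finset.sum_le_sum fun H hH => ?_).trans
      (Finset.sum_le_sum_of_subset_of_nonneg (f := fun H => pr M P H * (1 - pr M P H))
        (fun H hH => (hS H hH).1) fun H _ _ => ?_)
    · obtain ⟨-, h2, h3⟩ := hS H hH
      show ε / 2 ≤ pr M P H * (1 - pr M P H)
      nlinarith
    · exact mul_nonneg pr_nonneg (by linarith [pr_le_one (M := M) (P := P) (H := H)])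
  rw [Finset.sum_const, nsmul_eq_mul] at h1
  unfold SS
  linarith

open Classical in
/-- the number of small facets through a good seer -/
private theorem F3_sf (hF : IsFace L j F) (hj : 16 ≤ j) {ε : ℝ}
    (h0 : 0 < ε) (hS : 16 * SS L M P ≤ ε * j) {c : Λ} (hc : c ∈ K2 L M lab j P F) {v : V}
    (hv : v ∈ gs L M lab F c) : j ≤ 16 * sf L M P F ε v := by
  unfold K2 at hc
  rw [Finset.mem_filter, mem_sn] at hc
  obtain ⟨hsn, hlt⟩ := hc
  have hnic : Nic L M lab j F c := hsn.2.1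
  have hmed := card_medium (L := L) (M := M) (P := P) h0
    ((ZZ L M lab F c).filter fun H => pr M P H ≤ 1 / 2 ∧ ¬ pr M P H ≤ ε) (by
      intro H hH
      rw [Finset.mem_filter, mem_ZZ] at hH
      exact ⟨hH.1.1, not_le.1 hH.2.2, hH.2.1⟩)
  have hsplit : ((ZZ L M lab F c).filter fun H => pr M P H ≤ 1 / 2).card ≤
      ((ZZ L M lab F c).filter fun H => pr M P H ≤ ε).card +
      ((ZZ L M lab F c).filter fun H => pr M P H ≤ 1 / 2 ∧ ¬ pr M P H ≤ ε).card := by
    refine (Finset.card_le_card fun H hH => ?_).trans (Finset.card_union_le _ _)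
    rw [Finset.mem_filter] at hH
    rw [Finset.mem_union, Finset.mem_filter, Finset.mem_filter]
    by_cases h : pr M P H ≤ ε
    · exact Or.inl ⟨hH.1, h⟩
    · exact Or.inr ⟨hH.1, hH.2, h⟩
  have hsmall : ((ZZ L M lab F c).filter fun H => pr M P H ≤ ε).card ≤
      sf L M P F ε v + 1 := by
    unfold sf
    have h1 : ((ZZ L M lab F c).filter fun H => pr M P H ≤ ε).card ≤
        ((th L F v).filter fun H => pr M P H ≤ ε).card +
        ((ZZ L M lab F c).filter fun H => v ∉ H).card := by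
      refine (Finset.card_le_card fun H hH => ?_).trans (Finset.card_union_le _ _)
      rw [Finset.mem_filter] at hH
      rw [Finset.mem_union, Finset.mem_filter, Finset.mem_filter]
      by_cases h : v ∈ H
      · have h3 := mem_ZZ.1 hH.1
        exact Or.inl ⟨mem_th.2 ⟨h3.1, h3.2.1, h⟩, hH.2⟩
      · exact Or.inr ⟨hH.1, h⟩
    have h2 : ((ZZ L M lab F c).filter fun H => v ∉ H).card ≤ 1 := by
      rw [Finset.card_le_one]
      intro H hH H' hH'
      rw [Finset.mem_filter] at hH hH'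
      exact hnic.miss_unique hF hv hH.1 hH.2 hH'.1 hH'.2
    omega
  have hmed' : 8 * ((ZZ L M lab F c).filter fun H => pr M P H ≤ 1 / 2 ∧
      ¬ pr M P H ≤ ε).card ≤ j := by
    have h1 : ε * (8 * (((ZZ L M lab F c).filter fun H => pr M P H ≤ 1 / 2 ∧
        ¬ pr M P H ≤ ε).card : ℝ)) ≤ ε * j := by linarith
    have h2 := le_of_mul_le_mul_left h1 h0
    exact_mod_cast h2
  omega

/-- For `c ∈ K2` more than `j / 8` facets of `ZZ F c` have `pr ≤ ε` (`card_medium`: at most
`j / 8` are between `ε` and `1 / 2`), and each good seer `v` lies in all but one of the facets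
of `ZZ F c`: `sf P F ε v ≥ j / 8 - 1 ≥ j / 16`.  Hence
`3 / 4 j |K2| ≤ ∑ c, |gs| ≤ ∑ {v : 16 sf ≥ j} j ≤ 16 ∑ v, sf` (`SN.card_gs`, `card_seen_le`). -/
theorem card_K2 (hlab : LabOn G M lab F) (hF : IsFace L j F) (hj : 16 ≤ j) {ε : ℝ} (h0 : 0 < ε)
    (hS : 16 * SS L M P ≤ ε * j) :
    (j : ℝ) * (K2 L M lab j P F).card ≤ 22 * ∑ v ∈ inner M F, (sf L M P F ε v : ℝ) := by
  classical
  have h1 : ∑ c ∈ K2 L M lab j P F,
      ((gs L M lab F c).filter fun v => j ≤ 16 * sf L M P F ε v).card =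
      ∑ v ∈ inner M F, ((K2 L M lab j P F).filter fun c => v ∈ gs L M lab F c ∧
        j ≤ 16 * sf L M P F ε v).card := by
    convert sum_card_gs (L := L) (M := M) (lab := lab) (F := F) (K2 L M lab j P F)
      (fun _ v => j ≤ 16 * sf L M P F ε v)
  have h2 : ∀ c ∈ K2 L M lab j P F,
      3 * j ≤ 4 * ((gs L M lab F c).filter fun v => j ≤ 16 * sf L M P F ε v).card := by
    intro c hc
    have h3 : (gs L M lab F c).filter (fun v => j ≤ 16 * sf L M P F ε v) = gs L M lab F c :=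
      Finset.filter_true_of_mem fun v hv => F3_sf hF hj h0 hS hc hv
    rw [h3]
    unfold K2 at hc
    rw [Finset.mem_filter, mem_sn] at hc
    exact hc.1.card_gs hlab hF
  have h4 : (K2 L M lab j P F).card * (3 * j) ≤
      4 * ∑ c ∈ K2 L M lab j P F,
        ((gs L M lab F c).filter fun v => j ≤ 16 * sf L M P F ε v).card := by
    rw [Finset.mul_sum, ← smul_eq_mul, ← Finset.sum_const]
    exact Finset.sum_le_sum h2
  have h5 : ∑ v ∈ inner M F, ((K2 L M lab j P F).filter fun c => v ∈ gs L M lab F c ∧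
      j ≤ 16 * sf L M P F ε v).card ≤ ∑ v ∈ inner M F, 16 * sf L M P F ε v := by
    refine Finset.sum_le_sum fun v hv => ?_
    by_cases h6 : j ≤ 16 * sf L M P F ε v
    · exact (card_seen_le hF (mem_inner.1 hv).1 _ fun c hc =>
        (Finset.mem_filter.1 hc).2.1).trans h6
    · have h7 : ((K2 L M lab j P F).filter fun c => v ∈ gs L M lab F c ∧
          j ≤ 16 * sf L M P F ε v) = ∅ := by
        rw [Finset.filter_eq_empty_iff]
        intro c _ h8
        exact h6 h8.2
      rw [h7]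
      simp
  rw [h1] at h4
  have h9 : (K2 L M lab j P F).card * (3 * j) ≤ 64 * ∑ v ∈ inner M F, sf L M P F ε v := by
    rw [← Finset.mul_sum] at h5
    omega
  have h10 : ((K2 L M lab j P F).card : ℝ) * (3 * j) ≤
      64 * ∑ v ∈ inner M F, (sf L M P F ε v : ℝ) := by exact_mod_cast h9
  have h11 : (0 : ℝ) ≤ ∑ v ∈ inner M F, (sf L M P F ε v : ℝ) :=
    Finset.sum_nonneg fun _ _ => Nat.cast_nonneg _
  linarith

end Pool.Agent.Helper13.TSE
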