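import Mathlib
import Pool.Agent.Helper13.TSE.F0

/-!
# TSE-F4: the labels of kind `K1`
-/

namespace Pool.Agent.Helper13.TSE

open Finset Pool.Agent.Helper82.TotSep Pool.Agent.Helper13.TSD

variable {V : Type*} [Fintype V] {G : SimpleGraph V} {d : ℕ} {Λ : Type*} {L : FaceData G d}
  {M : Finset V} {lab : V → Λ} {j : ℕ} {P F : Finset V}

open Classical in
/-- The missing facets of different good seers are different (`Nic.seer_unique`), so at most
`j / 4` good seers have a missing facet which is not big; at least `j / 2` have a big one. -/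
theorem half_big (hlab : LabOn G M lab F) (hF : IsFace L j F) {θ : ℝ} {c : Λ}
    (hc : c ∈ K1 L M lab j P F θ) :
    j ≤ 2 * ((gs L M lab F c).filter fun v =>
      ∃ a ∈ ZZ L M lab F c, v ∉ a ∧ 1 / 2 < pr M P a).card := by
  rw [K1, Finset.mem_filter] at hc
  obtain ⟨hsn, hsmall, -⟩ := hc
  have hSN : SN L M lab j F c := mem_sn.mp hsn
  have hN : Nic L M lab j F c := hSN.2.1
  have h3 := hSN.card_gs hlab hF
  set S := (gs L M lab F c).filter fun v => ∃ a ∈ ZZ L M lab F c, v ∉ a ∧ 1 / 2 < pr M P a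
    with hS
  set T := (ZZ L M lab F c).filter fun H => pr M P H ≤ 1 / 2 with hT
  have hcomp : ((gs L M lab F c) \ S).card ≤ T.card := by
    have key : ∀ v ∈ (gs L M lab F c) \ S, ∃ a ∈ T, v ∉ a := by
      intro v hv
      rw [Finset.mem_sdiff] at hv
      obtain ⟨a, ha, hva⟩ := hN.exists_miss hF hv.1
      refine ⟨a, ?_, hva⟩
      rw [hT, Finset.mem_filter]
      refine ⟨ha, ?_⟩
      by_contra hbig
      push Not at hbig
      exact hv.2 (by rw [hS, Finset.mem_filter]; exact ⟨hv.1, a, ha, hva, hbig⟩)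
    choose! g hg using key
    refine Finset.card_le_card_of_injOn g (fun v hv => (hg v hv).1) ?_
    intro v hv v' hv' h
    have h1 := hg v hv
    have h2 := hg v' hv'
    have hv1 : v ∈ gs L M lab F c := (Finset.mem_sdiff.mp hv).1
    have hv2 : v' ∈ gs L M lab F c := (Finset.mem_sdiff.mp hv').1
    have ha : g v ∈ ZZ L M lab F c := (Finset.mem_filter.mp h1.1).1
    exact hN.seer_unique hF hv1 hv2 ha h1.2 (h ▸ h2.2)
  have h4 : (gs L M lab F c).card ≤ ((gs L M lab F c) \ S).card + S.card := by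
    rw [← Finset.card_sdiff_add_card_eq_card (Finset.filter_subset _ _ : S ⊆ gs L M lab F c)]
  omega

/-- `j / 2 |K1| ≤ ∑ v with θ ≤ qq v, ∑ {a big, v ∉ a} |cl v a|`, and
`|cl| ≤ 1 + (|cl| - 1)`. -/
theorem card_K1 (hlab : LabOn G M lab F) (hF : IsFace L j F) (θ : ℝ) :
    (j : ℝ) * (K1 L M lab j P F θ).card ≤ 2 * (∑ v ∈ inner M F, qv L M P θ v +
      ∑ v ∈ inner M F, ∑ a ∈ fc L, (((cl L M lab j F v a).card - 1 : ℕ) : ℝ)) := by
  classical
  set S := K1 L M lab j P F θ with hS
  let p : Λ → V → Prop := fun c v => ∃ a ∈ ZZ L M lab F c, v ∉ a ∧ 1 / 2 < pr M P a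
  have h1 : j * S.card ≤ 2 * ∑ c ∈ S, ((gs L M lab F c).filter fun v => p c v).card := by
    rw [Finset.mul_sum, mul_comm, ← smul_eq_mul, ← Finset.sum_const]
    exact Finset.sum_le_sum fun c hc => half_big hlab hF hc
  have h2 := sum_card_gs (L := L) (M := M) (lab := lab) (F := F) S p
  have h3 : ∀ v ∈ inner M F, ((S.filter fun c => v ∈ gs L M lab F c ∧ p c v).card : ℝ) ≤
      qv L M P θ v + ∑ a ∈ fc L, (((cl L M lab j F v a).card - 1 : ℕ) : ℝ) := by
    intro v _
    have hnn : 0 ≤ ∑ a ∈ fc L, (((cl L M lab j F v a).card - 1 : ℕ) : ℝ) :=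
      Finset.sum_nonneg fun a _ => Nat.cast_nonneg _
    rcases (S.filter fun c => v ∈ gs L M lab F c ∧ p c v).eq_empty_or_nonempty with h0 | h0
    · rw [h0, Finset.card_empty, Nat.cast_zero]
      have : 0 ≤ qv L M P θ v := by
        unfold qv
        split_ifs
        · exact Nat.cast_nonneg _
        · exact le_rfl
      linarith
    · obtain ⟨c0, hc0⟩ := h0
      rw [Finset.mem_filter] at hc0
      have hθ : θ ≤ (qq L M P v : ℝ) := by
        have h5 := hc0.1
        rw [hS, K1, Finset.mem_filter] at h5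
        exact h5.2.2 v hc0.2.1
      have hqv : qv L M P θ v = (qq L M P v : ℝ) := by
        unfold qv
        rw [if_pos hθ]
      set Q := (fc L).filter fun H => 1 / 2 < pr M P H ∧ v ∉ H with hQ
      have hsub : (S.filter fun c => v ∈ gs L M lab F c ∧ p c v) ⊆
          Q.biUnion fun a => cl L M lab j F v a := by
        intro c hc
        rw [Finset.mem_filter] at hc
        obtain ⟨hcS, hvg, a, ha, hva, hbig⟩ := hc
        rw [hS, K1, Finset.mem_filter] at hcS
        have hSN : SN L M lab j F c := mem_sn.mp hcS.1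
        rw [Finset.mem_biUnion]
        refine ⟨a, ?_, ?_⟩
        · rw [hQ, Finset.mem_filter]
          exact ⟨(mem_ZZ.mp ha).1, hbig, hva⟩
        · exact mem_cl.mpr ⟨hSN.1, hSN.2.1, hvg, ha, hva⟩
      have h6 : (S.filter fun c => v ∈ gs L M lab F c ∧ p c v).card ≤
          ∑ a ∈ Q, (cl L M lab j F v a).card :=
        (Finset.card_le_card hsub).trans Finset.card_biUnion_le
      have h7 : ∑ a ∈ Q, (cl L M lab j F v a).card ≤
          Q.card + ∑ a ∈ fc L, ((cl L M lab j F v a).card - 1) := by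
        calc ∑ a ∈ Q, (cl L M lab j F v a).card
            ≤ ∑ a ∈ Q, (1 + ((cl L M lab j F v a).card - 1)) :=
              Finset.sum_le_sum fun a _ => by omega
          _ = Q.card + ∑ a ∈ Q, ((cl L M lab j F v a).card - 1) := by
              rw [Finset.sum_add_distrib, Finset.sum_const, smul_eq_mul, mul_one]
          _ ≤ Q.card + ∑ a ∈ fc L, ((cl L M lab j F v a).card - 1) := by
              gcongr
              exact Finset.filter_subset _ _
      have h8 : (qq L M P v) = Q.card := rfl
      rw [hqv, h8]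
      have h9 := h6.trans h7
      have h10 : ((S.filter fun c => v ∈ gs L M lab F c ∧ p c v).card : ℝ) ≤
          ((Q.card + ∑ a ∈ fc L, ((cl L M lab j F v a).card - 1) : ℕ) : ℝ) := by
        exact_mod_cast h9
      rw [Nat.cast_add, Nat.cast_sum] at h10
      exact h10
  have h4 : (j : ℝ) * S.card ≤ 2 * ∑ v ∈ inner M F,
      ((S.filter fun c => v ∈ gs L M lab F c ∧ p c v).card : ℝ) := by
    have h5 : j * S.card ≤ 2 * ∑ v ∈ inner M F,
        (S.filter fun c => v ∈ gs L M lab F c ∧ p c v).card := by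
      refine h1.trans (le_of_eq ?_)
      congr 1
      convert h2
    exact_mod_cast h5
  refine h4.trans ?_
  rw [← Finset.sum_add_distrib]
  exact mul_le_mul_of_nonneg_left (Finset.sum_le_sum h3) (by norm_num)

end Pool.Agent.Helper13.TSE
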