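import Mathlib
import Pool.Agent.Helper13.TSE.F2
import Pool.Agent.Helper13.TSE.F3

/-!
# TSE-F5: every strongly nice label is of one of the kinds
-/

namespace Pool.Agent.Helper13.TSE

open Finset Pool.Agent.Helper82.TotSep Pool.Agent.Helper13.TSD

variable {V : Type*} [Fintype V] {G : SimpleGraph V} {d : ℕ} {Λ : Type*} {L : FaceData G d}
  {M : Finset V} {lab : V → Λ} {j : ℕ} {P F : Finset V}

open Classical in
/-- If `c` is in neither of `KA`, `KQ`, then more than `j / 4` good seers `v` of `c` (`SN.card_gs`)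
have `pr P (hf v l) > ε` and `mm F v a + 1 ≤ m`, where `l` is the direction to `c` and `a` the
missing facet; by `Nic.card_class_le` at most `m` of them have the same `hf v l`.  So the set of
the facets `e ∈ fc`, `e ∉ ZZ F c`, `e ∈ th F v` for some good seer `v`, with `pr P e > ε`, has at
least `j / (4 m)` elements. -/
theorem many_facets (hlab : LabOn G M lab F) (hF : IsFace L j F) {m : ℕ} {ε : ℝ} {c : Λ}
    (hc : c ∈ sn L M lab j F) (hQ : c ∉ KQ L M lab j F m) (hA : c ∉ KA L M lab j P F ε) :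
    j ≤ 4 * m * ((fc L).filter fun e => e ∉ ZZ L M lab F c ∧ ε < pr M P e ∧
      ∃ v ∈ gs L M lab F c, e ∈ th L F v).card := by
  have hSN : SN L M lab j F c := mem_sn.mp hc
  have hN : Nic L M lab j F c := hSN.2.1
  have h1 := SN.card_gs hlab hF hSN
  have hA1 : 4 * ((gs L M lab F c).filter fun v =>
      ∃ a ∈ ZZ L M lab F c, v ∉ a ∧ m ≤ mm L M F v a).card < j := by
    by_contra hcon
    exact hQ (by rw [KQ, Finset.mem_filter]; exact ⟨hc, not_lt.mp hcon⟩)
  have hB1 : 4 * ((gs L M lab F c).filter fun v =>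
      ∃ H ∈ th L F v, H ∉ ZZ L M lab F c ∧ pr M P H ≤ ε).card < j := by
    by_contra hcon
    exact hA (by rw [KA, Finset.mem_filter]; exact ⟨hc, not_lt.mp hcon⟩)
  set A := (gs L M lab F c).filter fun v =>
      ∃ a ∈ ZZ L M lab F c, v ∉ a ∧ m ≤ mm L M F v a with hAd
  set B := (gs L M lab F c).filter fun v =>
      ∃ H ∈ th L F v, H ∉ ZZ L M lab F c ∧ pr M P H ≤ ε with hBd
  set E := (fc L).filter fun e => e ∉ ZZ L M lab F c ∧ ε < pr M P e ∧
      ∃ v ∈ gs L M lab F c, e ∈ th L F v with hEd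
  set S := gs L M lab F c \ (A ∪ B) with hSd
  have hS : (gs L M lab F c).card ≤ S.card + (A.card + B.card) := by
    have h2 : (gs L M lab F c).card ≤ S.card + (A ∪ B).card := by
      have h3 : gs L M lab F c ⊆ S ∪ (A ∪ B) := by
        intro v hv
        by_cases hv2 : v ∈ A ∪ B
        · exact Finset.mem_union_right _ hv2
        · exact Finset.mem_union_left _ (Finset.mem_sdiff.mpr ⟨hv, hv2⟩)
      exact (Finset.card_le_card h3).trans (Finset.card_union_le _ _)
    have h4 := Finset.card_union_le A B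
    omega
  have key : ∀ v ∈ gs L M lab F c, ∃ e : Finset V, ∃ l ∈ dir L F v, L.nb v l ∉ M ∧
      lab (L.nb v l) = c ∧ hf L v l = e := by
    intro v hv
    obtain ⟨l, hl, hlM, hlc⟩ := (mem_seers.mp (mem_gs.mp hv).1).2.2
    exact ⟨hf L v l, l, hl, hlM, hlc, rfl⟩
  choose! g hg using key
  have hmaps : ∀ v ∈ S, g v ∈ E := by
    intro v hv
    obtain ⟨hv1, hv2⟩ := Finset.mem_sdiff.mp hv
    obtain ⟨l, hl, hlM, hlc, hge⟩ := hg v hv1
    have hvF : v ∈ F := (mem_seers.mp (mem_gs.mp hv1).1).1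
    have hth : g v ∈ th L F v := by rw [← hge]; exact hf_mem_th hF hvF hl
    have hnZ : g v ∉ ZZ L M lab F c := by
      rw [← hge]; exact hN.notMem hF hv1 hl hlM hlc
    have hpr : ε < pr M P (g v) := by
      by_contra hcon
      exact hv2 (Finset.mem_union_right _ (by
        rw [hBd, Finset.mem_filter]
        exact ⟨hv1, g v, hth, hnZ, not_lt.mp hcon⟩))
    rw [hEd, Finset.mem_filter]
    exact ⟨(mem_th.mp hth).1, hnZ, hpr, v, hv1, hth⟩
  have hfib : ∀ e ∈ E, (S.filter fun v => g v = e).card ≤ m := by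
    intro e he
    by_cases hne : (S.filter fun v => g v = e).Nonempty
    · obtain ⟨v, hv⟩ := hne
      obtain ⟨hvS, hve⟩ := Finset.mem_filter.mp hv
      obtain ⟨hv1, hv2⟩ := Finset.mem_sdiff.mp hvS
      obtain ⟨l, hl, hlM, hlc, hge⟩ := hg v hv1
      obtain ⟨a, haZ, hva⟩ := hN.exists_miss hF hv1
      have hmm : mm L M F v a + 1 ≤ m := by
        by_contra hcon
        exact hv2 (Finset.mem_union_left _ (by
          rw [hAd, Finset.mem_filter]
          exact ⟨hv1, a, haZ, hva, by omega⟩))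
      refine le_trans (Finset.card_le_card ?_)
        ((hN.card_class_le hF hv1 hl hlM hlc haZ hva).trans hmm)
      intro v' hv'
      obtain ⟨hv'S, hv'e⟩ := Finset.mem_filter.mp hv'
      obtain ⟨hv'1, -⟩ := Finset.mem_sdiff.mp hv'S
      obtain ⟨l', hl', hlM', hlc', hge'⟩ := hg v' hv'1
      rw [Finset.mem_filter]
      exact ⟨hv'1, l', hl', hlM', hlc', by rw [hge', hv'e, hge, hve]⟩
    · rw [Finset.not_nonempty_iff_eq_empty] at hne
      rw [hne]; simp
  have hcard : S.card ≤ m * E.card :=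
    Finset.card_le_mul_card_image_of_maps_to hmaps m hfib
  have h5 : 4 * m * E.card = 4 * (m * E.card) := by ring
  rw [h5]
  omega

end Pool.Agent.Helper13.TSE
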