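import Mathlib
import Pool.Agent.Helper13.TSE.F5

/-!
# TSE-F5b: every strongly nice label is of one of the kinds
-/

namespace Pool.Agent.Helper13.TSE

open Finset Pool.Agent.Helper82.TotSep Pool.Agent.Helper13.TSD

variable {V : Type*} [Fintype V] {G : SimpleGraph V} {d : ℕ} {Λ : Type*} {L : FaceData G d}
  {M : Finset V} {lab : V → Λ} {j : ℕ} {P F : Finset V}

/-- Among these facets at most `2 SS / ε ≤ j / (8 m)` have `pr ≤ 1 / 2` (`card_medium`), and at
most one contains a given good seer `v` (`th_notMem`): so `qq P v ≥ j / (8 m) - 1`. -/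
theorem kinds (hlab : LabOn G M lab F) (hF : IsFace L j F) {m : ℕ} (hm : 1 ≤ m) {ε θ : ℝ}
    (h0 : 0 < ε) (hS : 16 * m * SS L M P ≤ ε * j) (hθ : 8 * m * (θ + 1) ≤ j) {c : Λ}
    (hc : c ∈ sn L M lab j F) :
    c ∈ KQ L M lab j F m ∨ c ∈ KA L M lab j P F ε ∨ c ∈ K2 L M lab j P F ∨
      c ∈ K1 L M lab j P F θ := by
  classical
  by_cases hQ : c ∈ KQ L M lab j F m
  · exact Or.inl hQ
  by_cases hA : c ∈ KA L M lab j P F ε
  · exact Or.inr (Or.inl hA)
  by_cases h2 : c ∈ K2 L M lab j P F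
  · exact Or.inr (Or.inr (Or.inl h2))
  refine Or.inr (Or.inr (Or.inr ?_))
  have hsn : SN L M lab j F c := mem_sn.1 hc
  unfold K2 at h2
  rw [Finset.mem_filter, not_and] at h2
  have h3 := not_lt.1 (h2 hc)
  unfold K1
  rw [Finset.mem_filter]
  refine ⟨hc, h3, fun v hv => ?_⟩
  set S := (fc L).filter fun e => e ∉ ZZ L M lab F c ∧ ε < pr M P e ∧
      ∃ v ∈ gs L M lab F c, e ∈ th L F v with hSdef
  have hmany : j ≤ 4 * m * S.card := by
    have h := many_facets (L := L) (M := M) (lab := lab) (P := P) hlab hF hc hQ hA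
    convert h
  set S1 := S.filter fun e => pr M P e ≤ 1 / 2 with hS1
  set S2 := S.filter fun e => ¬ pr M P e ≤ 1 / 2 with hS2
  have hcard : S1.card + S2.card = S.card := by
    rw [hS1, hS2]
    exact Finset.card_filter_add_card_filter_not _
  have hmed : ε * S1.card ≤ 2 * SS L M P := by
    refine card_medium (L := L) (M := M) (P := P) h0 S1 fun H hH => ?_
    rw [hS1, Finset.mem_filter, hSdef, Finset.mem_filter] at hH
    exact ⟨hH.1.1, hH.1.2.2.1, hH.2⟩
  have hm0 : (0 : ℝ) < m := by exact_mod_cast hm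
  have h4 : 8 * (m : ℝ) * S1.card ≤ j := by
    have h5 : ε * (8 * (m : ℝ) * S1.card) ≤ ε * j := by
      have h6 : 8 * (m : ℝ) * (ε * S1.card) ≤ 8 * (m : ℝ) * (2 * SS L M P) :=
        mul_le_mul_of_nonneg_left hmed (by positivity)
      linarith
    exact le_of_mul_le_mul_left h5 h0
  have h5 : (j : ℝ) ≤ 8 * m * S2.card := by
    have h6 : (j : ℝ) ≤ 4 * m * S.card := by exact_mod_cast hmany
    have h7 : (S.card : ℝ) = S1.card + S2.card := by exact_mod_cast hcard.symm
    rw [h7] at h6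
    linarith
  have h6 : θ + 1 ≤ S2.card := by
    have h7 : 8 * (m : ℝ) * (θ + 1) ≤ 8 * (m : ℝ) * S2.card := hθ.trans h5
    exact le_of_mul_le_mul_left h7 (by positivity)
  have h7 : S2.card ≤ qq L M P v + 1 := by
    obtain ⟨hvF, hvM, l, hl, hlM, hlc⟩ := mem_seers.1 (Finset.mem_filter.1 hv).1
    unfold qq
    have h8 : S2.card ≤ ((fc L).filter fun H => 1 / 2 < pr M P H ∧ v ∉ H).card +
        (S2.filter fun e => v ∈ e).card := by
      refine (Finset.card_le_card fun e he => ?_).trans (Finset.card_union_le _ _)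
      rw [Finset.mem_union, Finset.mem_filter, Finset.mem_filter]
      by_cases h9 : v ∈ e
      · exact Or.inr ⟨he, h9⟩
      · rw [hS2, Finset.mem_filter, hSdef, Finset.mem_filter] at he
        exact Or.inl ⟨he.1.1, not_le.1 he.2, h9⟩
    have h10 : (S2.filter fun e => v ∈ e).card ≤ 1 := by
      rw [Finset.card_le_one]
      have key : ∀ e ∈ S2.filter (fun e => v ∈ e), e = hf L v l := by
        intro e he
        rw [Finset.mem_filter, hS2, Finset.mem_filter, hSdef, Finset.mem_filter] at he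
        obtain ⟨⟨⟨hfc, hZ, -, v', -, hth⟩, -⟩, hve⟩ := he
        have hth' : e ∈ th L F v := mem_th.2 ⟨hfc, (mem_th.1 hth).2.1, hve⟩
        exact (th_notMem hF hsn.2.1 hv hl hlM hlc hth').1 hZ
      intro e he e' he'
      rw [key e he, key e' he']
    omega
  have h8 : (S2.card : ℝ) ≤ qq L M P v + 1 := by exact_mod_cast h7
  linarith

end Pool.Agent.Helper13.TSE
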