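import Mathlib
import Pool.Agent.Helper13.TSE.E1
import Pool.Agent.Helper13.TSE.A2

/-!
# TSE-F6: a node which misses many big facets has large `lv`
-/

namespace Pool.Agent.Helper13.TSE

open Finset Pool.Agent.Helper82.TotSep Pool.Agent.Helper13.TSD

variable {V : Type*} [Fintype V] {G : SimpleGraph V} {d : ℕ} {L : FaceData G d} {M : Finset V}
  {r : ℕ} {P : Finset V}

open Classical in
private lemma F6_key (hP : IsFace L r P) {v : V} (hv : v ∈ P) :
    qq L M P v + r = ((fc L).filter fun H => ¬ P ⊆ H ∧ 1 / 2 < pr M P H).card +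
      sf L M P P (1 / 2) v := by
  have h1 := Finset.card_filter_add_card_filter_not (s := (fc L).filter fun H => ¬ P ⊆ H ∧ 1 / 2 < pr M P H)
    (fun H => v ∈ H)
  have h2 : (((fc L).filter fun H => ¬ P ⊆ H ∧ 1 / 2 < pr M P H).filter fun H => ¬ v ∈ H).card =
      qq L M P v := by
    unfold qq
    congr 1
    ext H
    simp only [Finset.mem_filter]
    constructor
    · rintro ⟨⟨h1, h2, h3⟩, h4⟩
      exact ⟨h1, h3, h4⟩
    · rintro ⟨h1, h3, h4⟩
      exact ⟨⟨h1, fun h => h4 (h hv), h3⟩, h4⟩
  have h3 : (((fc L).filter fun H => ¬ P ⊆ H ∧ 1 / 2 < pr M P H).filter fun H => v ∈ H) =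
      (th L P v).filter fun H => ¬ pr M P H ≤ 1 / 2 := by
    ext H
    simp only [Finset.mem_filter, mem_th, not_le]
    tauto
  have h4 := Finset.card_filter_add_card_filter_not (s := th L P v) (fun H => pr M P H ≤ 1 / 2)
  have h5 : ((th L P v).filter fun H => pr M P H ≤ 1 / 2).card = sf L M P P (1 / 2) v := by
    unfold sf
    congr 1
  rw [card_th hP hv, h5] at h4
  rw [h2, h3] at h1
  omega

private lemma F6_sum : (∑ u ∈ inner M P, (qq L M P u : ℝ)) ≤ 2 * SS L M P * (inner M P).card := by
  classical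
  have h1 : (∑ u ∈ inner M P, (qq L M P u : ℝ)) =
      ∑ H ∈ fc L, ∑ u ∈ inner M P, (if 1 / 2 < pr M P H ∧ u ∉ H then (1 : ℝ) else 0) := by
    rw [Finset.sum_comm]
    refine Finset.sum_congr rfl fun u _ => ?_
    unfold qq
    rw [Finset.card_filter]
    push_cast
    refine Finset.sum_congr rfl fun H _ => ?_
    split_ifs <;> rfl
  rw [h1]
  unfold SS
  rw [Finset.mul_sum, Finset.sum_mul]
  refine Finset.sum_le_sum fun H _ => ?_
  have hm := pr_mul (M := M) (P := P) (H := H)
  have h0 := pr_nonneg (M := M) (P := P) (H := H)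
  have h1 := pr_le_one (M := M) (P := P) (H := H)
  have hn : (0 : ℝ) ≤ (inner M P).card := by positivity
  by_cases hb : 1 / 2 < pr M P H
  · have e : ∑ u ∈ inner M P, (if 1 / 2 < pr M P H ∧ u ∉ H then (1 : ℝ) else 0) =
        (inner M P).card - (inner M (ct H P)).card := by
      have e1 : ∑ u ∈ inner M P, (if 1 / 2 < pr M P H ∧ u ∉ H then (1 : ℝ) else 0) =
          (((inner M P).filter fun u => ¬ u ∈ H).card : ℝ) := by
        rw [Finset.card_filter]
        push_cast
        refine Finset.sum_congr rfl fun u _ => ?_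
        by_cases hu : u ∈ H
        · rw [if_neg (fun h => h.2 hu), if_neg (not_not.2 hu)]
        · rw [if_pos ⟨hb, hu⟩, if_pos hu]
      have e2 := Finset.card_filter_add_card_filter_not (s := inner M P) (fun u => u ∈ H)
      have e3 : (inner M P).filter (fun u => u ∈ H) = inner M (ct H P) := by
        ext x
        simp only [Finset.mem_filter, mem_inner, mem_ct]
        tauto
      rw [e3] at e2
      rw [e1, ← e2]
      push_cast
      ring
    rw [e, ← hm]
    nlinarith [mul_nonneg (mul_nonneg hn (sub_nonneg.2 h1)) (sub_nonneg.2 hb.le)]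
  · have e : ∑ u ∈ inner M P, (if 1 / 2 < pr M P H ∧ u ∉ H then (1 : ℝ) else 0) = 0 := by
      refine Finset.sum_eq_zero fun u _ => ?_
      rw [if_neg (fun h => hb h.1)]
    rw [e]
    have := mul_nonneg h0 (sub_nonneg.2 h1)
    positivity

/-- Let `t v` be the number of the facets in `th P v` which are not big.  Every `v` lies in `r`
facets of `th P v`, so `qq v - t v = B - r` does not depend on `v` (`B` is the number of the big
facets not containing `P`; the facets containing `P` contain `v`).  The mean of `qq` is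
`∑ (1 - p) ≤ 2 SS` over the big facets, and `t ≥ 0`, so `B - r ≤ 2 SS`. -/
theorem qq_le (hP : IsFace L r P) {v : V} (hv : v ∈ inner M P) :
    (qq L M P v : ℝ) ≤ (sf L M P P (1 / 2) v : ℝ) + 2 * SS L M P := by
  classical
  have hn : (0 : ℝ) < (inner M P).card := by
    exact_mod_cast Finset.card_pos.2 ⟨v, hv⟩
  have hk : ∀ u ∈ inner M P, (qq L M P u : ℝ) + r =
      (((fc L).filter fun H => ¬ P ⊆ H ∧ 1 / 2 < pr M P H).card : ℝ) +
        sf L M P P (1 / 2) u := by
    intro u hu
    exact_mod_cast F6_key hP (mem_inner.1 hu).1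
  have h1 : ((((fc L).filter fun H => ¬ P ⊆ H ∧ 1 / 2 < pr M P H).card : ℝ) - r) *
      (inner M P).card ≤ ∑ u ∈ inner M P, (qq L M P u : ℝ) := by
    have : ∑ _u ∈ inner M P, ((((fc L).filter fun H => ¬ P ⊆ H ∧ 1 / 2 < pr M P H).card : ℝ) - r) ≤
        ∑ u ∈ inner M P, (qq L M P u : ℝ) := by
      refine Finset.sum_le_sum fun u hu => ?_
      have h2 := hk u hu
      have h3 : (0 : ℝ) ≤ sf L M P P (1 / 2) u := by positivity
      linarith
    rw [Finset.sum_const, nsmul_eq_mul] at this
    linarith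
  have h2 := F6_sum (L := L) (M := M) (P := P)
  have h3 : (((fc L).filter fun H => ¬ P ⊆ H ∧ 1 / 2 < pr M P H).card : ℝ) - r ≤
      2 * SS L M P := by
    have := h1.trans h2
    exact le_of_mul_le_mul_right this hn
  have h4 := hk v hv
  linarith

end Pool.Agent.Helper13.TSE
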