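import Mathlib
import Pool.Agent.Helper13.TSE.F6

/-!
# TSE-F6b: a node which misses many big facets has large `lv`
-/

namespace Pool.Agent.Helper13.TSE

open Finset Pool.Agent.Helper82.TotSep Pool.Agent.Helper13.TSD

variable {V : Type*} [Fintype V] {G : SimpleGraph V} {d : ℕ} {L : FaceData G d} {M : Finset V}
  {r : ℕ} {P : Finset V}

/-- Let `S` be the set of the `t` facets of `th P v` with `pr ≤ 1 / 2`.  `qq_le` gives
`t ≥ qq - 2 SS ≥ 3 / 4 qq`, and `∑ p ≤ 2 SS` over `S` (as `p ≤ 2 p (1 - p)`).  Since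
`log (1 / p) ≥ log B + 1 - B p` (`Real.add_one_le_exp` or `Real.log_le_sub_one_of_pos` for
`B p`), `lv ≥ t (log B + 1) - 2 B SS ≥ t log B + 3 / 4 qq - qq / 4 ≥ 3 / 4 qq log B`. -/
theorem qq_log (hP : IsFace L r P) {v : V} (hv : v ∈ inner M P) {B : ℝ} (hB : 1 ≤ B)
    (h : 8 * SS L M P * B ≤ qq L M P v) :
    (qq L M P v : ℝ) * Real.log B ≤ 2 * lv L M P v := by
  classical
  have hB0 : (0 : ℝ) < B := by linarith
  have hlB : 0 ≤ Real.log B := Real.log_nonneg hB
  have hSS : 0 ≤ SS L M P := SS_nonneg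
  have hq := qq_le hP hv
  set S : Finset (Finset V) := (th L P v).filter fun H => pr M P H ≤ 1 / 2 with hS
  have hsf : (sf L M P P (1 / 2) v : ℝ) = (S.card : ℝ) := by
    rw [hS]
    unfold sf
    congr!
  rw [hsf] at hq
  have hSub : S ⊆ (fc L).filter (fun H => v ∈ H) := by
    intro H hH
    rw [hS, mem_filter, mem_th] at hH
    rw [mem_filter]
    exact ⟨hH.1.1, hH.1.2.2⟩
  -- the sum of the proportions
  have hp : ∑ H ∈ S, pr M P H ≤ 2 * SS L M P := by
    unfold SS
    rw [mul_sum]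
    calc ∑ H ∈ S, pr M P H ≤ ∑ H ∈ S, 2 * (pr M P H * (1 - pr M P H)) := by
          refine sum_le_sum fun H hH => ?_
          rw [hS, mem_filter] at hH
          have h0 : 0 ≤ pr M P H := pr_nonneg
          nlinarith [hH.2]
      _ ≤ ∑ H ∈ fc L, 2 * (pr M P H * (1 - pr M P H)) := by
          refine sum_le_sum_of_subset_of_nonneg
            (fun H hH => (mem_filter.1 (hSub hH)).1) fun H _ _ => ?_
          have h0 : 0 ≤ pr M P H := pr_nonneg
          have h1 : pr M P H ≤ 1 := pr_le_one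
          have h2 : 0 ≤ pr M P H * (1 - pr M P H) := mul_nonneg h0 (by linarith)
          linarith
  -- the lower bound of `lv`
  have hl : (S.card : ℝ) * (Real.log B + 1) - B * ∑ H ∈ S, pr M P H ≤ lv L M P v := by
    have e : (S.card : ℝ) * (Real.log B + 1) - B * ∑ H ∈ S, pr M P H =
        ∑ H ∈ S, (Real.log B + 1 - B * pr M P H) := by
      rw [sum_sub_distrib, sum_const, nsmul_eq_mul, ← mul_sum]
    rw [e]
    calc ∑ H ∈ S, (Real.log B + 1 - B * pr M P H) ≤ ∑ H ∈ S, Real.log (1 / pr M P H) := by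
          refine sum_le_sum fun H hH => ?_
          have hvH : v ∈ H := (mem_filter.1 (hSub hH)).2
          have h0 : 0 < pr M P H := pr_pos hv hvH
          have h1 : Real.log (B * pr M P H) ≤ B * pr M P H - 1 :=
            Real.log_le_sub_one_of_pos (mul_pos hB0 h0)
          rw [Real.log_mul hB0.ne' h0.ne'] at h1
          rw [one_div, Real.log_inv]
          linarith
      _ ≤ ∑ H ∈ (fc L).filter (fun H => v ∈ H), Real.log (1 / pr M P H) := by
          refine sum_le_sum_of_subset_of_nonneg hSub fun H hH _ => ?_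
          have h0 : 0 < pr M P H := pr_pos hv (mem_filter.1 hH).2
          refine Real.log_nonneg ?_
          rw [le_div_iff₀ h0, one_mul]
          exact pr_le_one
      _ = lv L M P v := by
          unfold lv
          congr!
  have h1 : B * ∑ H ∈ S, pr M P H ≤ B * (2 * SS L M P) := mul_le_mul_of_nonneg_left hp hB0.le
  have h2 : SS L M P ≤ SS L M P * B := le_mul_of_one_le_right hSS hB
  have h3 : (3 / 4 : ℝ) * qq L M P v ≤ S.card := by nlinarith
  have h4 : (3 / 4 : ℝ) * qq L M P v * (Real.log B + 1) ≤ S.card * (Real.log B + 1) :=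
    mul_le_mul_of_nonneg_right h3 (by linarith)
  have h5 : (0 : ℝ) ≤ qq L M P v := Nat.cast_nonneg _
  have h6 : 0 ≤ (qq L M P v : ℝ) * Real.log B := mul_nonneg h5 hlB
  nlinarith

end Pool.Agent.Helper13.TSE
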