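import Mathlib
import Pool.Agent.Helper13.TSE.B7d
import Pool.Agent.Helper13.TSE.F1
import Pool.Agent.Helper13.TSE.F4
import Pool.Agent.Helper13.TSE.F5b

/-!
# TSE-F7: the number of strongly nice labels
-/

namespace Pool.Agent.Helper13.TSE

open Finset Pool.Agent.Helper82.TotSep Pool.Agent.Helper13.TSD

variable {V : Type*} [Fintype V] {G : SimpleGraph V} {d : ℕ} {Λ : Type*} {L : FaceData G d}
  {M : Finset V} {lab : V → Λ} {r j : ℕ} {P F : Finset V}

/-- `kinds`, `card_KA`, `card_K2`, `card_K1`, `sum_excess`. -/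
theorem card_sn_le (hlab : LabOn G M lab F) (hF : IsFace L j F) (hj : 16 ≤ j) {m : ℕ}
    (hm : 1 ≤ m) {ε θ : ℝ} (h0 : 0 < ε) (hS : 16 * m * SS L M P ≤ ε * j)
    (hθ : 8 * m * (θ + 1) ≤ j) :
    ((sn L M lab j F).card : ℝ) ≤ (KQ L M lab j F m).card +
      26 / (j : ℝ) * ∑ v ∈ inner M F, (sf L M P F ε v : ℝ) +
      2 / (j : ℝ) * ∑ v ∈ inner M F, qv L M P θ v +
      12 / √(j : ℝ) * (inner M F).card := by
  classical
  obtain ⟨k, rfl⟩ : ∃ k, j = k + 1 := ⟨j - 1, by omega⟩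
  have hj0 : (0 : ℝ) < ((k + 1 : ℕ) : ℝ) := by positivity
  have hSS : 0 ≤ SS L M P := SS_nonneg
  have hm1 : (1 : ℝ) ≤ m := by exact_mod_cast hm
  have hS' : 16 * SS L M P ≤ ε * ((k + 1 : ℕ) : ℝ) := by
    refine le_trans ?_ hS
    nlinarith [mul_nonneg (sub_nonneg.2 hm1) hSS]
  have hsub : sn L M lab (k + 1) F ⊆ KQ L M lab (k + 1) F m ∪ (KA L M lab (k + 1) P F ε ∪
      (K2 L M lab (k + 1) P F ∪ K1 L M lab (k + 1) P F θ)) := by
    intro c hc
    simp only [Finset.mem_union]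
    exact kinds hlab hF hm h0 hS hθ hc
  have hcard : ((sn L M lab (k + 1) F).card : ℝ) ≤ (KQ L M lab (k + 1) F m).card +
      (KA L M lab (k + 1) P F ε).card + (K2 L M lab (k + 1) P F).card +
      (K1 L M lab (k + 1) P F θ).card := by
    have h := Finset.card_le_card hsub
    have h1 := Finset.card_union_le (KQ L M lab (k + 1) F m) (KA L M lab (k + 1) P F ε ∪
      (K2 L M lab (k + 1) P F ∪ K1 L M lab (k + 1) P F θ))
    have h2 := Finset.card_union_le (KA L M lab (k + 1) P F ε)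
      (K2 L M lab (k + 1) P F ∪ K1 L M lab (k + 1) P F θ)
    have h3 := Finset.card_union_le (K2 L M lab (k + 1) P F) (K1 L M lab (k + 1) P F θ)
    have h4 : (sn L M lab (k + 1) F).card ≤ (KQ L M lab (k + 1) F m).card +
      (KA L M lab (k + 1) P F ε).card + (K2 L M lab (k + 1) P F).card +
      (K1 L M lab (k + 1) P F θ).card := by omega
    exact_mod_cast h4
  have hA := card_KA (M := M) (lab := lab) (P := P) hF ε
  have h2 := card_K2 (P := P) hlab hF hj h0 hS'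
  have h1 := card_K1 (P := P) hlab hF θ
  have he := sum_excess hF hlab
  have hs0 : 0 < √((k + 1 : ℕ) : ℝ) := Real.sqrt_pos.2 hj0
  have hss : √((k + 1 : ℕ) : ℝ) / ((k + 1 : ℕ) : ℝ) = 1 / √((k + 1 : ℕ) : ℝ) := by
    rw [div_eq_div_iff hj0.ne' hs0.ne', one_mul, Real.mul_self_sqrt hj0.le]
  have he' : ∑ v ∈ inner M F, ∑ a ∈ fc L, (((cl L M lab (k + 1) F v a).card - 1 : ℕ) : ℝ) ≤
      6 * √((k + 1 : ℕ) : ℝ) * (inner M F).card := by
    refine he.trans_eq ?_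
    push_cast
    ring
  have hA' : ((KA L M lab (k + 1) P F ε).card : ℝ) ≤
      4 * (∑ v ∈ inner M F, (sf L M P F ε v : ℝ)) / ((k + 1 : ℕ) : ℝ) := by
    rw [le_div_iff₀ hj0, mul_comm]
    exact hA
  have h2' : ((K2 L M lab (k + 1) P F).card : ℝ) ≤
      22 * (∑ v ∈ inner M F, (sf L M P F ε v : ℝ)) / ((k + 1 : ℕ) : ℝ) := by
    rw [le_div_iff₀ hj0, mul_comm]
    exact h2
  have h1' : ((K1 L M lab (k + 1) P F θ).card : ℝ) ≤
      2 * (∑ v ∈ inner M F, qv L M P θ v + 6 * √((k + 1 : ℕ) : ℝ) * (inner M F).card) /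
        ((k + 1 : ℕ) : ℝ) := by
    rw [le_div_iff₀ hj0, mul_comm]
    refine h1.trans ?_
    linarith
  have e1 : 2 * (∑ v ∈ inner M F, qv L M P θ v + 6 * √((k + 1 : ℕ) : ℝ) * (inner M F).card) /
        ((k + 1 : ℕ) : ℝ) = 2 / ((k + 1 : ℕ) : ℝ) * ∑ v ∈ inner M F, qv L M P θ v +
      12 / √((k + 1 : ℕ) : ℝ) * (inner M F).card := by
    have e2 : 12 / √((k + 1 : ℕ) : ℝ) = 12 * (√((k + 1 : ℕ) : ℝ) / ((k + 1 : ℕ) : ℝ)) := by
      rw [hss]
      ring
    rw [e2]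
    ring
  have e3 : 4 * (∑ v ∈ inner M F, (sf L M P F ε v : ℝ)) / ((k + 1 : ℕ) : ℝ) +
      22 * (∑ v ∈ inner M F, (sf L M P F ε v : ℝ)) / ((k + 1 : ℕ) : ℝ) =
      26 / ((k + 1 : ℕ) : ℝ) * ∑ v ∈ inner M F, (sf L M P F ε v : ℝ) := by
    ring
  rw [e1] at h1'
  linarith

/-- Mean over the faces of dimension `j` of `P` (`av_sf_le`, `av_node`, `av_inner`). -/
theorem av_sn_le (hP : IsFace L r P) (hlab : LabOn G M lab P) (hj : 16 ≤ j) (hjr : j ≤ r)
    {m : ℕ} (hm : 1 ≤ m) {ε θ : ℝ} (h0 : 0 < ε) (h1 : ε < 1)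
    (hS : 16 * m * SS L M P ≤ ε * j) (hθ : 8 * m * (θ + 1) ≤ j) :
    av L r P j (fun F => ((sn L M lab j F).card : ℝ)) ≤
      av L r P j (fun F => ((KQ L M lab j F m).card : ℝ)) +
      26 / (r * Real.log (1 / ε)) * SL L M P +
      2 / (j : ℝ) * ∑ v ∈ inner M P, qv L M P θ v +
      12 / √(j : ℝ) * (inner M P).card := by
  have hj0 : (0 : ℝ) < (j : ℝ) := by exact_mod_cast (by omega : 0 < j)
  have hmono : av L r P j (fun F => ((sn L M lab j F).card : ℝ)) ≤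
      av L r P j (fun F => ((KQ L M lab j F m).card : ℝ) +
        26 / (j : ℝ) * ∑ v ∈ inner M F, (sf L M P F ε v : ℝ) +
        2 / (j : ℝ) * ∑ v ∈ inner M F, qv L M P θ v +
        12 / √(j : ℝ) * ((inner M F).card : ℝ)) :=
    av_mono fun F hF => card_sn_le (hlab.mono (mem_fcs.1 hF).2) (mem_fcs.1 hF).1 hj hm h0 hS hθ
  refine hmono.trans ?_
  rw [av_add, av_add, av_add, av_mul, av_mul, av_mul, av_node hP hjr, av_inner hP hjr]
  have h2 := av_sf_le (M := M) hP (by omega : 1 ≤ j) hjr h0 h1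
  have h3 : 26 / (j : ℝ) * av L r P j (fun F => ∑ v ∈ inner M F, (sf L M P F ε v : ℝ)) ≤
      26 / (j : ℝ) * ((j : ℝ) / (r * Real.log (1 / ε)) * SL L M P) :=
    mul_le_mul_of_nonneg_left h2 (by positivity)
  have e : 26 / (j : ℝ) * ((j : ℝ) / (r * Real.log (1 / ε)) * SL L M P) =
      26 / (r * Real.log (1 / ε)) * SL L M P := by
    rw [show 26 / (j : ℝ) * ((j : ℝ) / (r * Real.log (1 / ε)) * SL L M P) =
      ((j : ℝ) / j) * (26 / (r * Real.log (1 / ε)) * SL L M P) by ring, div_self hj0.ne', one_mul]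
  linarith

end Pool.Agent.Helper13.TSE
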