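import Mathlib

/-!
# TSE-Z7b: numbers
-/

namespace Pool.Agent.Helper13.TSE

theorem poly_log_le : ∃ C : ℝ, 0 < C ∧ ∀ d : ℕ, 1 ≤ d →
    (1 + Real.log d) ^ 3 * (d : ℝ) ^ ((1 : ℝ) / 16) ≤ C * √(d : ℝ) := by
  refine ⟨729, by norm_num, fun d hd => ?_⟩
  have hd1 : (1 : ℝ) ≤ d := by exact_mod_cast hd
  have hd0 : (0 : ℝ) < d := by linarith
  have h1 : Real.log d ≤ (d : ℝ) ^ ((1 : ℝ) / 8) / (1 / 8) :=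
    Real.log_le_rpow_div hd0.le (by norm_num)
  have h2 : 1 ≤ (d : ℝ) ^ ((1 : ℝ) / 8) := Real.one_le_rpow hd1 (by norm_num)
  have h3 : 1 + Real.log d ≤ 9 * (d : ℝ) ^ ((1 : ℝ) / 8) := by linarith
  have h4 : 0 ≤ 1 + Real.log d := by
    have := Real.log_nonneg hd1
    linarith
  have h5 : (1 + Real.log d) ^ 3 ≤ (9 * (d : ℝ) ^ ((1 : ℝ) / 8)) ^ 3 := pow_le_pow_left₀ h4 h3 3
  have h6 : 0 ≤ (d : ℝ) ^ ((1 : ℝ) / 16) := Real.rpow_nonneg hd0.le _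
  have h7 : ((d : ℝ) ^ ((1 : ℝ) / 8)) ^ 3 * (d : ℝ) ^ ((1 : ℝ) / 16) =
      (d : ℝ) ^ ((7 : ℝ) / 16) := by
    rw [← Real.rpow_natCast, ← Real.rpow_mul hd0.le, ← Real.rpow_add hd0]
    norm_num
  have h8 : (d : ℝ) ^ ((7 : ℝ) / 16) ≤ √(d : ℝ) := by
    rw [Real.sqrt_eq_rpow]
    exact Real.rpow_le_rpow_of_exponent_le hd1 (by norm_num)
  calc (1 + Real.log d) ^ 3 * (d : ℝ) ^ ((1 : ℝ) / 16)
      ≤ (9 * (d : ℝ) ^ ((1 : ℝ) / 8)) ^ 3 * (d : ℝ) ^ ((1 : ℝ) / 16) :=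
        mul_le_mul_of_nonneg_right h5 h6
    _ = 729 * (((d : ℝ) ^ ((1 : ℝ) / 8)) ^ 3 * (d : ℝ) ^ ((1 : ℝ) / 16)) := by ring
    _ = 729 * (d : ℝ) ^ ((7 : ℝ) / 16) := by rw [h7]
    _ ≤ 729 * √(d : ℝ) := by linarith

end Pool.Agent.Helper13.TSE
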