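import Mathlib
import Pool.Agent.Helper13.TSE.Defs

/-!
# TSE-P1: sums over permutations of functions of an initial set
-/

namespace Pool.Agent.Helper13.TSE

open Finset

variable {d : ℕ}

theorem card_ini (σ : Equiv.Perm (Fin d)) {j : ℕ} (hj : j ≤ d) : (ini σ j).card = j := by
  have h : (ini σ j).card = (univ.filter fun l : Fin d => (l : ℕ) < j).card := by
    apply Finset.card_equiv σ
    intro l
    simp [ini]
  rw [h, Fin.card_filter_val_lt]
  exact min_eq_right hj

theorem ini_mono (σ : Equiv.Perm (Fin d)) {i j : ℕ} (h : i ≤ j) : ini σ i ⊆ ini σ j := by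
  intro l hl
  rw [mem_ini] at hl ⊢
  omega

theorem ini_succ (σ : Equiv.Perm (Fin d)) (t : Fin d) :
    ini σ (t + 1) = insert (σ.symm t) (ini σ t) ∧ σ.symm t ∉ ini σ t := by
  constructor
  · ext l
    rw [mem_insert, mem_ini, mem_ini, Equiv.eq_symm_apply, Fin.ext_iff]
    omega
  · rw [mem_ini, Equiv.apply_symm_apply]
    omega

/-- for two sets of the same size there is a permutation which maps the first to the second -/
private lemma P1_perm {U U' : Finset (Fin d)} (h : U.card = U'.card) :
    ∃ π : Equiv.Perm (Fin d), ∀ l, π l ∈ U' ↔ l ∈ U := by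
  classical
  let e : {x // x ∈ U} ≃ {x // x ∈ U'} := Finset.equivOfCardEq h
  refine ⟨e.extendSubtype, fun l => ?_⟩
  constructor
  · intro h1
    by_contra h2
    exact e.extendSubtype_not_mem l h2 h1
  · intro h1
    exact e.extendSubtype_mem l h1

private lemma P1_card {j : ℕ} {U U' : Finset (Fin d)} (h : U.card = U'.card) :
    (univ.filter fun σ : Equiv.Perm (Fin d) => ini σ j = U).card =
      (univ.filter fun σ : Equiv.Perm (Fin d) => ini σ j = U').card := by
  obtain ⟨π, hπ⟩ := P1_perm h
  apply Finset.card_equiv (Equiv.mulRight π⁻¹)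
  intro σ
  simp only [mem_filter, mem_univ, true_and, Equiv.coe_mulRight]
  constructor
  · intro h1
    ext l
    have h2 : (π⁻¹ l ∈ ini σ j) ↔ π⁻¹ l ∈ U := by rw [h1]
    rw [mem_ini] at h2
    rw [mem_ini, Equiv.Perm.mul_apply, h2, ← hπ, Equiv.Perm.inv_def, Equiv.apply_symm_apply]
  · intro h1
    ext l
    have h2 : (π l ∈ ini (σ * π⁻¹) j) ↔ π l ∈ U' := by rw [h1]
    rw [mem_ini, Equiv.Perm.mul_apply, Equiv.Perm.inv_def, Equiv.symm_apply_apply, hπ] at h2
    rw [mem_ini, h2]

/-- Every set of `j` directions is `ini σ j` for `j! (d - j)!` permutations (the number does not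
depend on the set: for two sets `U`, `U'` of `j` elements there is a permutation `π` with
`π U = U'`, use `σ ↦ σ * π⁻¹`; then count the total). -/
theorem sum_perm_ini {j : ℕ} (hj : j ≤ d) (g : Finset (Fin d) → ℝ) :
    (∑ σ : Equiv.Perm (Fin d), g (ini σ j)) / (Nat.factorial d : ℝ) =
      (∑ U ∈ powersetCard j univ, g U) / (d.choose j : ℝ) := by
  classical
  obtain ⟨U₀, hU₀⟩ : ∃ U₀ : Finset (Fin d), U₀.card = j :=
    ⟨ini 1 j, card_ini 1 hj⟩
  set N : ℕ := (univ.filter fun σ : Equiv.Perm (Fin d) => ini σ j = U₀).card with hN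
  have key : ∀ f : Finset (Fin d) → ℝ, (∑ σ : Equiv.Perm (Fin d), f (ini σ j)) =
      N * ∑ U ∈ powersetCard j univ, f U := by
    intro f
    rw [← Finset.sum_fiberwise_of_maps_to (s := univ) (t := powersetCard j univ)
      (g := fun σ : Equiv.Perm (Fin d) => ini σ j)
      (fun σ _ => mem_powersetCard.mpr ⟨subset_univ _, card_ini σ hj⟩), Finset.mul_sum]
    apply Finset.sum_congr rfl
    intro U hU
    have h1 : (univ.filter fun σ : Equiv.Perm (Fin d) => ini σ j = U).card = N := by
      apply P1_card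
      rw [hU₀, (mem_powersetCard.mp hU).2]
    rw [← h1, ← nsmul_eq_mul, ← Finset.sum_const]
    apply Finset.sum_congr rfl
    intro σ hσ
    rw [(mem_filter.mp hσ).2]
  have h1 := key (fun _ => 1)
  simp only [sum_const, card_univ, Fintype.card_perm, Fintype.card_fin, nsmul_eq_mul, mul_one,
    card_powersetCard] at h1
  have hd : ((Nat.factorial d : ℕ) : ℝ) ≠ 0 := by
    exact_mod_cast Nat.factorial_ne_zero d
  have hN0 : (N : ℝ) ≠ 0 := by
    intro h
    rw [h, zero_mul] at h1
    exact hd h1
  rw [key g, h1, mul_div_mul_left _ _ hN0]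

end Pool.Agent.Helper13.TSE
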