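import Mathlib
import Pool.Agent.Helper13.TSE.B3
import Pool.Agent.Helper13.TSE.P1

/-!
# TSE-G1: two uses with the same missing facet give a configuration
-/

namespace Pool.Agent.Helper13.TSE

open Finset Pool.Agent.Helper82.TotSep Pool.Agent.Helper13.TSD

variable {V : Type*} [Fintype V] {G : SimpleGraph V} {d : ℕ} {Λ : Type*} {L : FaceData G d}
  {M : Finset V} {lab : V → Λ}

/-- With `U = ini σ (j + 1)`, `l1 = σ.symm i`, `l2 = σ.symm j`, `F = faceOf v (insert l1 U)`,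
`F ⊆ faceOf v (ini σ (i + 1))`, `ct (hf v l1) F = faceOf v U`.  `sub`: `v` sees three labels in
`faceOf v U ⊆ F`, `good_mem_ZZ`.  `sup`: `ZZ_mono` to `faceOf v (ini σ (i + 1))`, `Nic.mem_ZZ_iff`
there, and `¬ F ⊆ H` (`not_subset_hf`).  `lne`: `Nic.dir_unique` in `faceOf v (ini σ (i + 1))`. -/
theorem cfg_of_uses {v : V} {σ : Equiv.Perm (Fin d)} {i j : Fin d} (hji : j < i) (hv : v ∈ M)
    {a : Finset V} (hi : Uz L M lab v σ i a) (hj : Uz L M lab v σ j a) :
    Cfg L M lab (j + 1) (faceOf L v (insert (σ.symm i) (ini σ (j + 1)))) v (σ.symm i)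
      (σ.symm j) a := by
  have hl2 : σ.symm j ∈ ini σ (j + 1) := by rw [mem_ini, Equiv.apply_symm_apply]; omega
  have hl1 : σ.symm i ∉ ini σ (j + 1) := by
    rw [mem_ini, Equiv.apply_symm_apply]
    have : (j : ℕ) < i := hji
    omega
  have hl1W : σ.symm i ∈ ini σ (i + 1) := by rw [mem_ini, Equiv.apply_symm_apply]; omega
  have hUW : ini σ (j + 1) ⊆ ini σ (i + 1) := by
    have : (j : ℕ) < i := hji
    exact ini_mono σ (by omega)
  have hne : σ.symm i ≠ σ.symm j := fun h => hl1 (h ▸ hl2)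
  have hsubW : insert (σ.symm i) (ini σ (j + 1)) ⊆ ini σ (i + 1) :=
    Finset.insert_subset hl1W hUW
  have hcard : (ini σ ((j : ℕ) + 1)).card = (j : ℕ) + 1 := card_ini σ (by omega)
  have hF := isFace_faceOf (L := L) v (insert (σ.symm i) (ini σ (j + 1)))
  have hW := isFace_faceOf (L := L) v (ini σ (i + 1))
  have hvF : v ∈ faceOf L v (insert (σ.symm i) (ini σ (j + 1))) := self_mem_faceOf
  have hFW : faceOf L v (insert (σ.symm i) (ini σ (j + 1))) ⊆ faceOf L v (ini σ (i + 1)) := by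
    intro x hx
    rw [mem_faceOf] at hx ⊢
    exact hx.trans hsubW
  have hUF : faceOf L v (ini σ (j + 1)) ⊆ faceOf L v (insert (σ.symm i) (ini σ (j + 1))) := by
    intro x hx
    rw [mem_faceOf] at hx ⊢
    exact hx.trans (Finset.subset_insert _ _)
  have hct : ct (hf L v (σ.symm i)) (faceOf L v (insert (σ.symm i) (ini σ (j + 1)))) =
      faceOf L v (ini σ (j + 1)) := by
    rw [ct_hf hF hvF, dir_faceOf, Finset.erase_insert hl1]
  have hd1 : σ.symm i ∈ dir L (faceOf L v (insert (σ.symm i) (ini σ (j + 1)))) v := by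
    rw [dir_faceOf]; exact Finset.mem_insert_self _ _
  have hd2 : σ.symm j ∈ dir L (faceOf L v (insert (σ.symm i) (ini σ (j + 1)))) v := by
    rw [dir_faceOf]; exact Finset.mem_insert_of_mem hl2
  have hdW1 : σ.symm i ∈ dir L (faceOf L v (ini σ (i + 1))) v := by
    rw [dir_faceOf]; exact hl1W
  have hdW2 : σ.symm j ∈ dir L (faceOf L v (ini σ (i + 1))) v := by
    rw [dir_faceOf]; exact hUW hl2
  have h3 : 3 ≤ (eqSeen L M lab (faceOf L v (insert (σ.symm i) (ini σ (j + 1)))) v).card := by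
    refine (mem_gs.mp hj.good).2.trans (Finset.card_le_card fun c hc => ?_)
    exact mem_eqSeen.mpr ((mem_eqSeen.mp hc).mono hUF)
  refine ⟨hvF, hv, hd1, hd2, hne, hi.out, hj.out, ?_, hi.av, ?_, ?_, ?_, ?_, ?_⟩
  · intro h
    exact hne (Nic.dir_unique hW hi.nice.2.1 hi.good hdW1 hi.out rfl hdW2 hj.out h.symm)
  · intro l hl hll
    exact good_mem_ZZ hF hvF h3 hd1 hi.out hl hll
  · intro H hH
    have hH2 := ZZ_mono hFW _ hH
    rw [Nic.mem_ZZ_iff hW hi.nice.2.1 hi.good hdW1 hi.out rfl hi.miss hi.av] at hH2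
    rcases hH2 with rfl | ⟨l, _, hl2, rfl⟩
    · exact Or.inl rfl
    · exact Or.inr ⟨l, (not_subset_hf hF hvF).mp (mem_ZZ.mp hH).2.1, hl2, rfl⟩
  · rw [hct]
    have h := hj.nice
    rwa [hcard] at h
  · rw [hct]
    exact hj.good
  · rw [hct]
    exact hj.miss

end Pool.Agent.Helper13.TSE
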