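import Mathlib
import Pool.Agent.Helper13.TSE.B4

/-!
# TSE-G2: first facts about configurations
-/

namespace Pool.Agent.Helper13.TSE

open Finset Pool.Agent.Helper82.TotSep Pool.Agent.Helper13.TSD

variable {V : Type*} [Fintype V] {G : SimpleGraph V} {d : ℕ} {Λ : Type*} {L : FaceData G d}
  {M : Finset V} {lab : V → Λ} {k : ℕ} {F : Finset V} {v : V} {l1 l2 : Fin d} {a : Finset V}

theorem Cfg.a_mem_fc (h : Cfg L M lab k F v l1 l2 a) : a ∈ fc L := by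
  exact (mem_ZZ.mp h.miss).1

theorem Cfg.isFace (hF : IsFace L (k + 1) F) (h : Cfg L M lab k F v l1 l2 a) :
    IsFace L k (ct (hf L v l1) F) ∧ v ∈ ct (hf L v l1) F ∧ hf L v l1 ∈ cuts L F := by
  have h1 : hf L v l1 ∈ cuts L F := cuts_of_th hF h.mem (hf_mem_th hF h.mem h.d1)
  exact ⟨isFace_ct hF h1, mem_ct.mpr ⟨h.mem, self_mem_hf⟩, h1⟩

/-- `Nic.mem_ZZ_iff` in `ct (hf v l1) F`, `dir_ct_hf`. -/
theorem Cfg.mem_ZZ2 (hF : IsFace L (k + 1) F) (h : Cfg L M lab k F v l1 l2 a) {H : Finset V} :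
    H ∈ ZZ L M lab (ct (hf L v l1) F) (lab (L.nb v l2)) ↔
      H = a ∨ ∃ l ∈ dir L F v, l ≠ l1 ∧ l ≠ l2 ∧ hf L v l = H := by
  obtain ⟨hF', hv', -⟩ := h.isFace hF
  have hdir := dir_ct_hf hF h.mem l1
  have hl2 : l2 ∈ dir L (ct (hf L v l1) F) v := by
    rw [hdir, Finset.mem_erase]
    exact ⟨h.ne.symm, h.d2⟩
  rw [h.snice.2.1.mem_ZZ_iff hF' h.good hl2 h.o2 rfl h.miss h.av, hdir]
  simp only [Finset.mem_erase]
  constructor
  · rintro (h1 | ⟨l, ⟨h1, h2⟩, h3, h4⟩)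
    · exact Or.inl h1
    · exact Or.inr ⟨l, h2, h1, h3, h4⟩
  · rintro (h1 | ⟨l, h2, h1, h3, h4⟩)
    · exact Or.inl h1
    · exact Or.inr ⟨l, ⟨h1, h2⟩, h3, h4⟩

/-- If `a ∈ ZZ F c1`. -/
theorem Cfg.mem_ZZ1 (h : Cfg L M lab k F v l1 l2 a)
    (ha : a ∈ ZZ L M lab F (lab (L.nb v l1))) {H : Finset V} :
    H ∈ ZZ L M lab F (lab (L.nb v l1)) ↔ H = a ∨ ∃ l ∈ dir L F v, l ≠ l1 ∧ hf L v l = H := by
  constructor
  · exact h.sup H
  · rintro (rfl | ⟨l, h1, h2, rfl⟩)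
    · exact ha
    · exact h.sub l h1 h2

/-- `hf v l1 ∈ ZZ F c2` and `ZZ F' c2 ⊆ ZZ F c2` (`F' = ct (hf v l1) F`), so if
`|ZZ F c2| = k + 1` then `ZZ F c2 = insert (hf v l1) (ZZ F' c2)`. -/
theorem Cfg.mem_ZZ_cor (hF : IsFace L (k + 1) F) (h : Cfg L M lab k F v l1 l2 a)
    (hc : Cor L M lab k F v l2) {H : Finset V} :
    H ∈ ZZ L M lab F (lab (L.nb v l2)) ↔
      H = hf L v l1 ∨ H ∈ ZZ L M lab (ct (hf L v l1) F) (lab (L.nb v l2)) := by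
  classical
  have h1 : ZZ L M lab (ct (hf L v l1) F) (lab (L.nb v l2)) ⊆ ZZ L M lab F (lab (L.nb v l2)) :=
    ZZ_mono ct_subset _
  have h2 : hf L v l1 ∈ ZZ L M lab F (lab (L.nb v l2)) := by
    refine mem_ZZ.mpr ⟨hf_mem_fc, (not_subset_hf hF h.mem).mpr h.d1, ?_, h.snice.1⟩
    have h3 := (mem_gs.mp h.good).2
    have h4 := Finset.card_le_card (eqSeen_subset (L := L) (M := M) (lab := lab)
      (F := ct (hf L v l1) F) (w := v))
    unfold Re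
    omega
  have h3 : hf L v l1 ∉ ZZ L M lab (ct (hf L v l1) F) (lab (L.nb v l2)) := fun h4 =>
    (mem_ZZ.mp h4).2.1 fun x hx => (mem_ct.mp hx).2
  have h4 : insert (hf L v l1) (ZZ L M lab (ct (hf L v l1) F) (lab (L.nb v l2))) =
      ZZ L M lab F (lab (L.nb v l2)) := by
    apply Finset.eq_of_subset_of_card_le
    · exact Finset.insert_subset h2 h1
    · rw [Finset.card_insert_of_notMem h3, h.snice.2.1.1]
      exact hc.le
  rw [← h4, Finset.mem_insert]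

/-- `v` sees three labels in `F`. -/
theorem Cfg.three (h : Cfg L M lab k F v l1 l2 a) : 3 ≤ (eqSeen L M lab F v).card := by
  refine (mem_gs.mp h.good).2.trans (Finset.card_le_card fun c hc => ?_)
  rw [mem_eqSeen] at hc ⊢
  obtain ⟨i, h1, h2⟩ := hc
  exact ⟨i, mem_dir.mpr (ct_subset (mem_dir.mp h1)), h2⟩

end Pool.Agent.Helper13.TSE
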