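import Mathlib
import Pool.Agent.Helper13.TSE.G2

/-!
# TSE-G8: groups of configurations
-/

namespace Pool.Agent.Helper13.TSE

open Finset Pool.Agent.Helper82.TotSep Pool.Agent.Helper13.TSD

variable {V : Type*} [Fintype V] {G : SimpleGraph V} {d : ℕ} {Λ : Type*} {L : FaceData G d}
  {M : Finset V} {lab : V → Λ} {k : ℕ} {F : Finset V}

open Classical in
/-- the configurations `Tw` with given `hf v l1` and given labels -/
noncomputable def grp (L : FaceData G d) (M : Finset V) (lab : V → Λ) (k : ℕ) (F : Finset V)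
    (e : Finset V) (c1 c2 : Λ) : Finset (V × Fin d × Fin d × Finset V) :=
  (CF L M lab k F).filter fun x => Tw L M lab F x.1 x.2.1 x.2.2.1 x.2.2.2 ∧
    hf L x.1 x.2.1 = e ∧ lab (L.nb x.1 x.2.1) = c1 ∧ lab (L.nb x.1 x.2.2.1) = c2

private theorem mem_grp {e : Finset V} {c1 c2 : Λ} {x : V × Fin d × Fin d × Finset V} :
    x ∈ grp L M lab k F e c1 c2 ↔ Cfg L M lab k F x.1 x.2.1 x.2.2.1 x.2.2.2 ∧
      Tw L M lab F x.1 x.2.1 x.2.2.1 x.2.2.2 ∧
      hf L x.1 x.2.1 = e ∧ lab (L.nb x.1 x.2.1) = c1 ∧ lab (L.nb x.1 x.2.2.1) = c2 := by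
  simp [grp, CF]

/-- The facet `hf v l2` is not in `ZZ (ct e F) c2`. -/
private theorem hf2_notMem (hF : IsFace L (k + 1) F) {v : V} {l1 l2 : Fin d} {a : Finset V}
    (h : Cfg L M lab k F v l1 l2 a) :
    hf L v l2 ∉ ZZ L M lab (ct (hf L v l1) F) (lab (L.nb v l2)) := by
  intro h1
  rcases (h.mem_ZZ2 hF).mp h1 with h2 | ⟨l, _, _, hl2, h3⟩
  · exact h.av (h2 ▸ self_mem_hf)
  · exact hl2 (hf_inj h3)

/-- In a group also `hf v l2` is the same. -/
private theorem hf2_eq (hF : IsFace L (k + 1) F) {v v' : V} {l1 l2 l1' l2' : Fin d}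
    {a a' : Finset V} (h : Cfg L M lab k F v l1 l2 a) (h' : Cfg L M lab k F v' l1' l2' a')
    (ha : a ∈ ZZ L M lab F (lab (L.nb v l1))) (ha' : a' ∈ ZZ L M lab F (lab (L.nb v' l1')))
    (he : hf L v' l1' = hf L v l1) (h1 : lab (L.nb v' l1') = lab (L.nb v l1))
    (h2 : lab (L.nb v' l2') = lab (L.nb v l2)) : hf L v l2 = hf L v' l2' := by
  have h3 : hf L v l2 ∈ ZZ L M lab F (lab (L.nb v l1)) :=
    (h.mem_ZZ1 ha).mpr (Or.inr ⟨l2, h.d2, h.ne.symm, rfl⟩)
  have h4 := hf2_notMem hF h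
  rw [← h1] at h3
  rw [← he, ← h2] at h4
  rcases (h'.mem_ZZ1 ha').mp h3 with h5 | ⟨l, hl, hl1, h5⟩
  · exact absurd ((h'.mem_ZZ2 hF).mpr (Or.inl h5)) h4
  · by_cases hl2 : l = l2'
    · rw [← h5, hl2]
    · exact absurd ((h'.mem_ZZ2 hF).mpr (Or.inr ⟨l, hl, hl1, hl2, h5⟩)) h4

/-- In a group also `hf v l2` is the same: it is the only element of `ZZ F c1` which is not in
`ZZ (ct e F) c2` (`Cfg.mem_ZZ1`, `Cfg.mem_ZZ2`).  Two elements with the same `v` are equal
(`hf_inj`, `Nic.miss_unique`); if `v ≠ v'` then `Nic.adj` in `ct e F` (label `c2`) gives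
`v' ∈ a`, `v' = nb v m`. -/
theorem card_grp_le (hF : IsFace L (k + 1) F) (e : Finset V) (c1 c2 : Λ)
    {x : V × Fin d × Fin d × Finset V} (hx : x ∈ grp L M lab k F e c1 c2) :
    (grp L M lab k F e c1 c2).card ≤ mm L M F x.1 x.2.2.2 + 1 := by
  classical
  obtain ⟨v, l1, l2, a⟩ := x
  obtain ⟨h, hT, he, hc1, hc2⟩ := mem_grp.mp hx
  simp only at h hT he hc1 hc2
  -- the map to the node
  have hinj : ∀ y ∈ grp L M lab k F e c1 c2, ∀ z ∈ grp L M lab k F e c1 c2, y.1 = z.1 →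
      y = z := by
    rintro ⟨u, m1, m2, b⟩ hy ⟨u', m1', m2', b'⟩ hz huu
    obtain ⟨g, gT, ge, gc1, gc2⟩ := mem_grp.mp hy
    obtain ⟨g', gT', ge', gc1', gc2'⟩ := mem_grp.mp hz
    simp only at g gT ge gc1 gc2 g' gT' ge' gc1' gc2' huu
    subst huu
    have e1 : m1 = m1' := hf_inj (by rw [ge, ge'])
    subst e1
    have e2 : m2 = m2' := by
      apply hf_inj (L := L) (v := u)
      exact hf2_eq hF g g' gT.1 gT'.1 rfl rfl (by rw [gc2, gc2'])
    subst e2
    have e3 : b = b' := Nic.miss_unique (g.isFace hF).1 g.snice.2.1 g.good g.miss g.av g'.miss g'.av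
    rw [e3]
  have himg : (grp L M lab k F e c1 c2).image Prod.fst ⊆
      insert v (((dir L F v).filter fun l => L.nb v l ∈ M ∧ L.nb v l ∈ a).image
        fun l => L.nb v l) := by
    intro u hu
    rw [Finset.mem_image] at hu
    obtain ⟨⟨u', m1, m2, b⟩, hy, rfl⟩ := hu
    obtain ⟨g, gT, ge, gc1, gc2⟩ := mem_grp.mp hy
    simp only at g gT ge gc1 gc2 ⊢
    rw [Finset.mem_insert]
    by_cases hne : v = u'
    · exact Or.inl hne.symm
    · right
      have h2 := hf2_eq hF h g hT.1 gT.1 (by rw [he, ge]) (by rw [hc1, gc1]) (by rw [hc2, gc2])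
      have hf1 := h.isFace hF
      have e1 : ct (hf L u' m1) F = ct (hf L v l1) F := by rw [ge, he]
      have hd : l2 ∈ dir L (ct (hf L v l1) F) v := by
        rw [dir_ct_hf hF h.mem]
        exact Finset.mem_erase.mpr ⟨h.ne.symm, h.d2⟩
      have hd' : m2 ∈ dir L (ct (hf L v l1) F) u' := by
        rw [← e1, dir_ct_hf hF g.mem]
        exact Finset.mem_erase.mpr ⟨g.ne.symm, g.d2⟩
      have hgood' : u' ∈ gs L M lab (ct (hf L v l1) F) (lab (L.nb v l2)) := by
        rw [← e1, hc2, ← gc2]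
        exact g.good
      obtain ⟨h3, m, hm, hm'⟩ := Nic.adj hf1.1 h.snice.2.1 h.good hgood' hne hd h.o2 rfl hd' g.o2
        (by rw [gc2, hc2]) h2 h.miss h.av
      rw [Finset.mem_image]
      refine ⟨m, Finset.mem_filter.mpr ⟨?_, ?_, ?_⟩, hm'⟩
      · exact mem_dir.mpr (ct_subset (mem_dir.mp hm))
      · rw [hm']; exact g.memM
      · rw [hm']; exact h3
  calc (grp L M lab k F e c1 c2).card = ((grp L M lab k F e c1 c2).image Prod.fst).card := by
        rw [Finset.card_image_of_injOn]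
        intro y hy z hz hyz
        exact hinj y hy z hz hyz
    _ ≤ _ := Finset.card_le_card himg
    _ ≤ _ := Finset.card_insert_le _ _
    _ ≤ mm L M F v a + 1 := by
        have := Finset.card_image_le (s := (dir L F v).filter fun l => L.nb v l ∈ M ∧ L.nb v l ∈ a)
          (f := fun l => L.nb v l)
        unfold mm
        omega

/-- So the sum of the weights of a group is at most `1`. -/
theorem sum_grp_le (hF : IsFace L (k + 1) F) (e : Finset V) (c1 c2 : Λ) :
    ∑ x ∈ grp L M lab k F e c1 c2, 1 / (1 + (mm L M F x.1 x.2.2.2 : ℝ)) ≤ 1 := by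
  rcases Finset.eq_empty_or_nonempty (grp L M lab k F e c1 c2) with h0 | h0
  · rw [h0, Finset.sum_empty]; exact zero_le_one
  · have hpos : (0 : ℝ) < (grp L M lab k F e c1 c2).card := by
      exact_mod_cast Finset.card_pos.mpr h0
    calc ∑ x ∈ grp L M lab k F e c1 c2, 1 / (1 + (mm L M F x.1 x.2.2.2 : ℝ)) ≤
        ∑ _x ∈ grp L M lab k F e c1 c2, 1 / ((grp L M lab k F e c1 c2).card : ℝ) := by
          apply Finset.sum_le_sum
          intro x hx
          apply one_div_le_one_div_of_le hpos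
          have := card_grp_le hF e c1 c2 hx
          have h2 : ((grp L M lab k F e c1 c2).card : ℝ) ≤ (mm L M F x.1 x.2.2.2 + 1 : ℕ) := by
            exact_mod_cast this
          push_cast at h2
          linarith
      _ = 1 := by
          rw [Finset.sum_const, nsmul_eq_mul, mul_one_div_cancel hpos.ne']

end Pool.Agent.Helper13.TSE
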