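import Mathlib
import Pool.Agent.Helper13.TSE.G2

/-!
# TSE-G3: nodes of `M` in the face of dimension two
-/

namespace Pool.Agent.Helper13.TSE

open Finset Pool.Agent.Helper82.TotSep Pool.Agent.Helper13.TSD

variable {V : Type*} [Fintype V] {G : SimpleGraph V} {d : ℕ} {Λ : Type*} {L : FaceData G d}
  {M : Finset V} {lab : V → Λ} {k : ℕ} {F : Finset V} {v : V} {l1 l2 : Fin d} {a : Finset V}

/-- A node of `faceOf v {l1, l2}` different from `v`, `nb v l1`, `nb v l2` (`TSD.two_face` or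
directly: `supp v w = {l1, l2}`). -/
theorem inQ_of_mem (hF : IsFace L (k + 1) F) (hv : v ∈ F) (h1 : l1 ∈ dir L F v)
    (h2 : l2 ∈ dir L F v) (hne : l1 ≠ l2) {w : V} (hw : w ∈ faceOf L v {l1, l2}) (h3 : w ≠ v)
    (h4 : w ≠ L.nb v l1) (h5 : w ≠ L.nb v l2) : InQ L F v l1 l2 w := by
  have hs : L.supp v w ⊆ {l1, l2} := mem_faceOf.mp hw
  have hm : ∀ l, w ∈ hf L v l ↔ l ∉ L.supp v w := by
    intro l
    unfold hf
    rw [mem_faceOf]
    constructor
    · intro h hl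
      exact (Finset.mem_erase.mp (h hl)).1 rfl
    · intro h m hm
      refine Finset.mem_erase.mpr ⟨fun h' => h (h' ▸ hm), Finset.mem_univ _⟩
  have e1 : l1 ∈ L.supp v w := by
    by_contra hc
    have h6 : L.supp v w ⊆ {l2} := by
      intro l hl
      rcases Finset.mem_insert.mp (hs hl) with h7 | h7
      · exact absurd (h7 ▸ hl) hc
      · exact h7
    rcases Finset.subset_singleton_iff.mp h6 with h7 | h7
    · exact h3 (L.eq_self v w h7)
    · exact h5 (L.eq_nb v w l2 h7)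
  have e2 : l2 ∈ L.supp v w := by
    by_contra hc
    have h6 : L.supp v w ⊆ {l1} := by
      intro l hl
      rcases Finset.mem_insert.mp (hs hl) with h7 | h7
      · exact Finset.mem_singleton.mpr h7
      · exact absurd ((Finset.mem_singleton.mp h7) ▸ hl) hc
    rcases Finset.subset_singleton_iff.mp h6 with h7 | h7
    · exact h3 (L.eq_self v w h7)
    · exact h4 (L.eq_nb v w l1 h7)
  refine ⟨?_, ?_, fun h => (hm l1).mp h e1, fun h => (hm l2).mp h e2⟩
  · refine hF.faceOf_subset hv (S := {l1, l2}) ?_ hw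
    intro l hl
    rcases Finset.mem_insert.mp hl with h7 | h7
    · rw [h7]; exact h1
    · rw [Finset.mem_singleton.mp h7]; exact h2
  · intro l _ hl1 hl2
    rw [hm]
    intro hl
    rcases Finset.mem_insert.mp (hs hl) with h7 | h7
    · exact hl1 h7
    · exact hl2 (Finset.mem_singleton.mp h7)

/-- `TSD.exists_sep` for `l1`, `l2`. -/
theorem Cfg.exists_w (hF : IsFace L (k + 1) F) (hlab : LabOn G M lab F)
    (h : Cfg L M lab k F v l1 l2 a) :
    ∃ w ∈ M, InQ L F v l1 l2 w ∧ lab (L.nb v l1) ∈ eqSeen L M lab F w := by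
  obtain ⟨w, hw, hwv, hwf, hs⟩ := exists_sep hlab hF h.mem h.d1 h.d2 h.o1 h.o2 h.lne
  refine ⟨w, hw, inQ_of_mem hF h.mem h.d1 h.d2 h.ne hwf hwv ?_ ?_, mem_eqSeen.mpr hs⟩
  · intro h'
    exact h.o1 (h' ▸ hw)
  · intro h'
    exact h.o2 (h' ▸ hw)

theorem Cfg.exists_w' (hF : IsFace L (k + 1) F) (hlab : LabOn G M lab F)
    (h : Cfg L M lab k F v l1 l2 a) :
    ∃ w ∈ M, InQ L F v l1 l2 w ∧ lab (L.nb v l2) ∈ eqSeen L M lab F w := by
  obtain ⟨w, hw, hwv, hwf, hs⟩ := exists_sep hlab hF h.mem h.d2 h.d1 h.o2 h.o1 h.lne.symm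
  rw [Finset.pair_comm] at hwf
  refine ⟨w, hw, inQ_of_mem hF h.mem h.d1 h.d2 h.ne hwf hwv ?_ ?_, mem_eqSeen.mpr hs⟩
  · intro h'
    exact h.o1 (h' ▸ hw)
  · intro h'
    exact h.o2 (h' ▸ hw)

end Pool.Agent.Helper13.TSE
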