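import Mathlib
import Pool.Agent.Helper13.TSE.G3

/-!
# TSE-G4: `T1` or `Tw`
-/

namespace Pool.Agent.Helper13.TSE

open Finset Pool.Agent.Helper82.TotSep Pool.Agent.Helper13.TSD

variable {V : Type*} [Fintype V] {G : SimpleGraph V} {d : ℕ} {Λ : Type*} {L : FaceData G d}
  {M : Finset V} {lab : V → Λ} {k : ℕ} {F : Finset V} {v : V} {l1 l2 : Fin d} {a : Finset V}

/-- A node `w` with `InQ` which sees three labels of `F`, among them `c = lab (nb w m)`, and such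
that all elements of `ZZ F c` are `a`, a facet `e` with `w ∉ e`, or one of the `k - 1` facets
`hf v l`, `l ≠ l1`, `l ≠ l2`: `th F w` has `k + 1` elements, all but `hf w m` are in `ZZ F c`, so
they are these `k - 1` facets and `a`.  Hence `a ∈ ZZ F c`, `w ∈ a`, and `nb w m` lies in `a` and
in all these facets. -/
theorem good_w (hF : IsFace L (k + 1) F) (hv : v ∈ F) (h1 : l1 ∈ dir L F v)
    (h2 : l2 ∈ dir L F v) (hne : l1 ≠ l2) {x : V} (hx : InQ L F v l1 l2 x)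
    {E : Finset V} (hE : x ∉ E) (h3 : 3 ≤ (eqSeen L M lab F x).card) {m : Fin d}
    (hm : m ∈ dir L F x) (hM : L.nb x m ∉ M)
    (hZ : ∀ H ∈ ZZ L M lab F (lab (L.nb x m)), H = a ∨ H = E ∨
      ∃ l ∈ dir L F v, l ≠ l1 ∧ l ≠ l2 ∧ hf L v l = H) :
    a ∈ ZZ L M lab F (lab (L.nb x m)) ∧ x ∈ a ∧ L.nb x m ∈ a ∧
      ∀ l ∈ dir L F v, l ≠ l1 → l ≠ l2 → L.nb x m ∈ hf L v l := by
  classical
  have hxF : x ∈ F := hx.1
  have hc1 : (((dir L F x).erase m).image (hf L x)).card = k := by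
    rw [Finset.card_image_of_injOn fun l _ l' _ hll => hf_inj hll,
      Finset.card_erase_of_mem hm, hF.card_dir hxF, Nat.add_sub_cancel]
  have hl2 : l2 ∈ (dir L F v).erase l1 := Finset.mem_erase.mpr ⟨hne.symm, h2⟩
  have hpos : 0 < ((dir L F v).erase l1).card := Finset.card_pos.mpr ⟨l2, hl2⟩
  have hk : ((dir L F v).erase l1).card = k := by
    rw [Finset.card_erase_of_mem h1, hF.card_dir hv, Nat.add_sub_cancel]
  have hc2 : (insert a ((((dir L F v).erase l1).erase l2).image (hf L v))).card ≤ k := by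
    refine (Finset.card_insert_le _ _).trans ?_
    have h4 : ((((dir L F v).erase l1).erase l2).image (hf L v)).card ≤
        (((dir L F v).erase l1).erase l2).card := Finset.card_image_le
    rw [Finset.card_erase_of_mem hl2] at h4
    omega
  have hsub : ((dir L F x).erase m).image (hf L x) ⊆
      insert a ((((dir L F v).erase l1).erase l2).image (hf L v)) := by
    intro H hH
    obtain ⟨l, hl, rfl⟩ := Finset.mem_image.mp hH
    obtain ⟨hlm, hlD⟩ := Finset.mem_erase.mp hl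
    rcases hZ _ (good_mem_ZZ hF hxF h3 hm hM hlD hlm) with h | h | ⟨l', hl', hn1, hn2, h⟩
    · rw [h]
      exact Finset.mem_insert_self _ _
    · exact absurd (h ▸ self_mem_hf) hE
    · refine Finset.mem_insert_of_mem (Finset.mem_image.mpr ⟨l', ?_, h⟩)
      exact Finset.mem_erase.mpr ⟨hn2, Finset.mem_erase.mpr ⟨hn1, hl'⟩⟩
  have heq := Finset.eq_of_subset_of_card_le hsub (by rw [hc1]; exact hc2)
  have key : ∀ H ∈ insert a ((((dir L F v).erase l1).erase l2).image (hf L v)),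
      H ∈ ZZ L M lab F (lab (L.nb x m)) ∧ x ∈ H ∧ L.nb x m ∈ H := by
    intro H hH
    rw [← heq] at hH
    obtain ⟨l, hl, rfl⟩ := Finset.mem_image.mp hH
    obtain ⟨hlm, hlD⟩ := Finset.mem_erase.mp hl
    exact ⟨good_mem_ZZ hF hxF h3 hm hM hlD hlm, self_mem_hf, nb_mem_hf.mpr hlm⟩
  obtain ⟨k1, k2, k3⟩ := key a (Finset.mem_insert_self _ _)
  refine ⟨k1, k2, k3, fun l hl hn1 hn2 => ?_⟩
  exact (key _ (Finset.mem_insert_of_mem (Finset.mem_image.mpr
    ⟨l, Finset.mem_erase.mpr ⟨hn2, Finset.mem_erase.mpr ⟨hn1, hl⟩⟩, rfl⟩))).2.2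

/-- The node `w` of `Cfg.exists_w` is bad, and `T1` or `Tw` according to `w ∉ a ∨ a ∉ ZZ`; or it
is good, and `good_w` with `E = hf v l2` (`Cfg.sup`) gives `Tw`. -/
theorem T1_or_Tw (hF : IsFace L (k + 1) F) (hlab : LabOn G M lab F)
    (h : Cfg L M lab k F v l1 l2 a) : T1 L M lab F v l1 l2 a ∨ Tw L M lab F v l1 l2 a := by
  obtain ⟨w, hwM, hQ, hs⟩ := h.exists_w hF hlab
  by_cases h3 : (eqSeen L M lab F w).card ≤ 2
  · by_cases h4 : w ∉ a ∨ a ∉ ZZ L M lab F (lab (L.nb v l1))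
    · exact Or.inl ⟨w, hwM, hQ, h3, hs, h4⟩
    · rw [not_or, not_not, not_not] at h4
      exact Or.inr ⟨h4.2, w, hwM, hQ, h4.1, Or.inl ⟨h3, hs⟩⟩
  · have h3' : 3 ≤ (eqSeen L M lab F w).card := by omega
    obtain ⟨m, hm, hmM, hlm⟩ := mem_eqSeen.mp hs
    have hZ : ∀ H ∈ ZZ L M lab F (lab (L.nb w m)), H = a ∨ H = hf L v l2 ∨
        ∃ l ∈ dir L F v, l ≠ l1 ∧ l ≠ l2 ∧ hf L v l = H := by
      intro H hH
      rw [hlm] at hH
      rcases h.sup H hH with h5 | ⟨l, hl, hn, h5⟩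
      · exact Or.inl h5
      · by_cases h6 : l = l2
        · exact Or.inr (Or.inl (by rw [← h5, h6]))
        · exact Or.inr (Or.inr ⟨l, hl, hn, h6, h5⟩)
    obtain ⟨k1, k2, k3, k4⟩ := good_w hF h.mem h.d1 h.d2 h.ne hQ hQ.2.2.2 h3' hm hmM hZ
    rw [hlm] at k1
    refine Or.inr ⟨k1, w, hwM, hQ, k2, Or.inr ⟨h3', m, hm, hmM, hlm, fun H hH => ?_⟩⟩
    rcases (h.mem_ZZ2 hF).mp hH with rfl | ⟨l, hl, hn1, hn2, rfl⟩
    · exact k3
    · exact k4 l hl hn1 hn2

end Pool.Agent.Helper13.TSE
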