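import Mathlib
import Pool.Agent.Helper13.TSE.G4

/-!
# TSE-G5: `T3` or `T4`
-/

namespace Pool.Agent.Helper13.TSE

open Finset Pool.Agent.Helper82.TotSep Pool.Agent.Helper13.TSD

variable {V : Type*} [Fintype V] {G : SimpleGraph V} {d : ℕ} {Λ : Type*} {L : FaceData G d}
  {M : Finset V} {lab : V → Λ} {k : ℕ} {F : Finset V} {v : V} {l1 l2 : Fin d} {a : Finset V}

/-- The nodes of `F` in all facets of `ZZ F' c2` (`F' = ct (hf v l1) F`) are `w` and `nb w m`, for
each such node `w` which lies in none of `hf v l1`, `hf v l2`, with `m` the direction of the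
facet `hf w m` which is none of these facets. -/
theorem edge_eq (hF : IsFace L (k + 1) F) (h : Cfg L M lab k F v l1 l2 a) {w : V}
    (hw : InQ L F v l1 l2 w) (hwa : w ∈ a) :
    ∃ m ∈ dir L F w, hf L w m ∉ ZZ L M lab (ct (hf L v l1) F) (lab (L.nb v l2)) ∧
      (∀ l ∈ dir L F w, l ≠ m →
        hf L w l ∈ ZZ L M lab (ct (hf L v l1) F) (lab (L.nb v l2))) ∧
      ∀ x ∈ F, (∀ H ∈ ZZ L M lab (ct (hf L v l1) F) (lab (L.nb v l2)), x ∈ H) →
        x = w ∨ x = L.nb w m := by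
  classical
  obtain ⟨hwF, hwl, -, -⟩ := hw
  have hsub : ZZ L M lab (ct (hf L v l1) F) (lab (L.nb v l2)) ⊆ th L F w := by
    intro H hH
    have h1 := mem_ZZ.mp hH
    refine mem_th.mpr ⟨h1.1, fun h2 => h1.2.1 (ct_subset.trans h2), ?_⟩
    rcases (h.mem_ZZ2 hF).mp hH with h2 | ⟨l, hl, hl1, hl2, h2⟩
    · rw [h2]
      exact hwa
    · rw [← h2]
      exact hwl l hl hl1 hl2
  have hcard : (th L F w \ ZZ L M lab (ct (hf L v l1) F) (lab (L.nb v l2))).card = 1 := by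
    rw [Finset.card_sdiff_of_subset hsub, card_th hF hwF, h.snice.2.1.1]
    omega
  obtain ⟨E, hE⟩ := Finset.card_eq_one.mp hcard
  have hEm : E ∈ th L F w \ ZZ L M lab (ct (hf L v l1) F) (lab (L.nb v l2)) := by
    rw [hE]
    exact Finset.mem_singleton_self E
  rw [Finset.mem_sdiff] at hEm
  obtain ⟨m, hm, rfl⟩ := (mem_th_iff hF hwF).mp hEm.1
  have key : ∀ l ∈ dir L F w, l ≠ m →
      hf L w l ∈ ZZ L M lab (ct (hf L v l1) F) (lab (L.nb v l2)) := by
    intro l hl hlm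
    by_contra hc
    have h1 : hf L w l ∈ th L F w \ ZZ L M lab (ct (hf L v l1) F) (lab (L.nb v l2)) :=
      Finset.mem_sdiff.mpr ⟨hf_mem_th hF hwF hl, hc⟩
    rw [hE, Finset.mem_singleton] at h1
    exact hlm (hf_inj h1)
  refine ⟨m, hm, hEm.2, key, fun x hx hxH => ?_⟩
  exact eq_or_eq_nb' hF hwF hx fun l hl hlm => hxH _ (key l hl hlm)

end Pool.Agent.Helper13.TSE
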