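import Mathlib
import Pool.Agent.Helper13.TSE.G5

/-!
# TSE-G9: the candidates for the first label
-/

namespace Pool.Agent.Helper13.TSE

open Finset Pool.Agent.Helper82.TotSep Pool.Agent.Helper13.TSD

variable {V : Type*} [Fintype V] {G : SimpleGraph V} {d : ℕ} {Λ : Type*} {L : FaceData G d}
  {M : Finset V} {lab : V → Λ} {k : ℕ} {F : Finset V} {v : V} {l1 l2 : Fin d} {a : Finset V}

omit [Fintype V] in
theorem card_cand_le (E : Finset V) : (cand L M lab F E).card ≤ 2 * E.card := by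
  classical
  unfold cand
  rw [mul_comm]
  apply Finset.card_biUnion_le_card_mul
  intro x _
  split_ifs with h1 h2
  · exact h2
  · simp
  · simp

/-- The node `w` of `Tw` is in all elements of `ZZ`. -/
private theorem mem_eds_w (hF : IsFace L (k + 1) F) (h : Cfg L M lab k F v l1 l2 a) {w : V}
    (hw : InQ L F v l1 l2 w) (hwa : w ∈ a) :
    w ∈ eds F (ZZ L M lab (ct (hf L v l1) F) (lab (L.nb v l2))) := by
  refine mem_eds.mpr ⟨hw.1, fun H hH => ?_⟩
  rcases (h.mem_ZZ2 hF).mp hH with rfl | ⟨l, hl, hl1, hl2, rfl⟩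
  · exact hwa
  · exact hw.2.1 l hl hl1 hl2

/-- The node `w` of `Tw`, or the other end `nb w m`. -/
theorem mem_cand (hF : IsFace L (k + 1) F) (h : Cfg L M lab k F v l1 l2 a)
    (hT : Tw L M lab F v l1 l2 a) :
    lab (L.nb v l1) ∈ cand L M lab F
      (eds F (ZZ L M lab (ct (hf L v l1) F) (lab (L.nb v l2)))) := by
  classical
  obtain ⟨_, w, hwM, hw, hwa, h1 | ⟨_, m, hm, hM, hlm, hall⟩⟩ := hT
  · unfold cand
    rw [Finset.mem_biUnion]
    refine ⟨w, mem_eds_w hF h hw hwa, ?_⟩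
    rw [if_pos hwM, if_pos h1.1]
    exact h1.2
  · unfold cand
    rw [Finset.mem_biUnion]
    refine ⟨L.nb w m, mem_eds.mpr ⟨mem_dir.mp hm, hall⟩, ?_⟩
    rw [if_neg hM, Finset.mem_singleton]
    exact hlm.symm

/-- `edge_eq` for the node `w` of `Tw`. -/
theorem card_eds_cfg (hF : IsFace L (k + 1) F) (h : Cfg L M lab k F v l1 l2 a)
    (hT : Tw L M lab F v l1 l2 a) :
    (eds F (ZZ L M lab (ct (hf L v l1) F) (lab (L.nb v l2)))).card ≤ 2 := by
  classical
  obtain ⟨_, w, hwM, hw, hwa, _⟩ := hT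
  obtain ⟨m, hm, _, _, h3⟩ := edge_eq hF h hw hwa
  refine le_trans (Finset.card_le_card (t := {w, L.nb w m}) ?_) Finset.card_le_two
  intro x hx
  obtain ⟨hxF, hx2⟩ := mem_eds.mp hx
  rw [Finset.mem_insert, Finset.mem_singleton]
  exact h3 x hxF hx2

end Pool.Agent.Helper13.TSE
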