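import Mathlib
import Pool.Agent.Helper13.TSE.G8
import Pool.Agent.Helper13.TSE.G9

/-!
# TSE-G10: the configurations whose second label is not nice in `F`
-/

namespace Pool.Agent.Helper13.TSE

open Finset Pool.Agent.Helper82.TotSep Pool.Agent.Helper13.TSD

variable {V : Type*} [Fintype V] {G : SimpleGraph V} {d : ℕ} {Λ : Type*} {L : FaceData G d}
  {M : Finset V} {lab : V → Λ} {k : ℕ} {F : Finset V}

open Classical in
/-- the triples `(e, c1, c2)` with their second label in a given set -/
private noncomputable def trip (L : FaceData G d) (M : Finset V) (lab : V → Λ) (k : ℕ)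
    (F e : Finset V) (c2 : Λ) : Finset (Finset V × Λ × Λ) :=
  if (eds F (ZZ L M lab (ct e F) c2)).card ≤ 2 then
    (cand L M lab F (eds F (ZZ L M lab (ct e F) c2))).image fun c1 => (e, c1, c2)
  else ∅

private theorem card_trip (e : Finset V) (c2 : Λ) : (trip L M lab k F e c2).card ≤ 4 := by
  classical
  unfold trip
  split_ifs with h
  · refine (Finset.card_image_le).trans ((card_cand_le _).trans ?_)
    omega
  · simp

open Classical in
/-- all triples -/
private noncomputable def trips (L : FaceData G d) (M : Finset V) (lab : V → Λ) (k : ℕ)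
    (F : Finset V) : Finset (Finset V × Λ × Λ) :=
  (cuts L F).biUnion fun e =>
    ((sn L M lab k (ct e F)).filter fun c => (ZZ L M lab F c).card ≠ k + 1).biUnion fun c2 =>
      trip L M lab k F e c2

private theorem card_trips : (trips L M lab k F).card ≤ 4 * N2 L M lab k F := by
  classical
  unfold trips N2
  rw [Finset.mul_sum]
  refine (Finset.card_biUnion_le).trans (Finset.sum_le_sum fun e _ => ?_)
  refine (Finset.card_biUnion_le).trans ((Finset.sum_le_sum fun c2 _ => card_trip e c2).trans ?_)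
  rw [Finset.sum_const, smul_eq_mul, mul_comm]

open Classical in
/-- These configurations are covered by the groups of the triples `(e, c1, c2)` with
`e ∈ cuts F`, `c2 ∈ sn k (ct e F)`, `|ZZ F c2| ≠ k + 1`, and `c1` in
`cand (eds F (ZZ (ct e F) c2))` where only the `(e, c2)` with at most two elements in `eds` are
used (`mem_cand`, `card_eds_cfg`, `card_cand_le`): at most `4 N2` groups; `sum_grp_le`. -/
theorem sum_not_cor (hF : IsFace L (k + 1) F) :
    ∑ x ∈ (CF L M lab k F).filter (fun x => Tw L M lab F x.1 x.2.1 x.2.2.1 x.2.2.2 ∧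
        ¬ Cor L M lab k F x.1 x.2.2.1), 1 / (1 + (mm L M F x.1 x.2.2.2 : ℝ)) ≤
      4 * (N2 L M lab k F : ℝ) := by
  have hmaps : ∀ x ∈ (CF L M lab k F).filter (fun x => Tw L M lab F x.1 x.2.1 x.2.2.1 x.2.2.2 ∧
        ¬ Cor L M lab k F x.1 x.2.2.1),
      ((hf L x.1 x.2.1, lab (L.nb x.1 x.2.1), lab (L.nb x.1 x.2.2.1)) :
        Finset V × Λ × Λ) ∈ trips L M lab k F := by
    intro x hx
    rw [Finset.mem_filter] at hx
    obtain ⟨hx, hT, hC⟩ := hx
    have h : Cfg L M lab k F x.1 x.2.1 x.2.2.1 x.2.2.2 := (Finset.mem_filter.mp hx).2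
    unfold trips
    rw [Finset.mem_biUnion]
    refine ⟨hf L x.1 x.2.1, (h.isFace hF).2.2, ?_⟩
    rw [Finset.mem_biUnion]
    refine ⟨lab (L.nb x.1 x.2.2.1), ?_, ?_⟩
    · rw [Finset.mem_filter]
      exact ⟨mem_sn.mpr h.snice, hC⟩
    · unfold trip
      rw [if_pos (card_eds_cfg hF h hT), Finset.mem_image]
      exact ⟨_, mem_cand hF h hT, rfl⟩
  rw [← Finset.sum_fiberwise_of_maps_to hmaps]
  refine (Finset.sum_le_sum (g := fun _ => (1 : ℝ)) fun y _ => ?_).trans ?_
  · refine le_trans ?_ (sum_grp_le (M := M) (lab := lab) (L := L) hF y.1 y.2.1 y.2.2)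
    refine Finset.sum_le_sum_of_subset_of_nonneg ?_ ?_
    · intro x hx
      rw [Finset.mem_filter, Finset.mem_filter] at hx
      obtain ⟨⟨hx, hT, -⟩, hy⟩ := hx
      unfold grp
      rw [Finset.mem_filter]
      refine ⟨hx, hT, ?_, ?_, ?_⟩
      · exact congrArg Prod.fst hy
      · exact congrArg (fun z => z.2.1) hy
      · exact congrArg (fun z => z.2.2) hy
    · intro x _ _
      positivity
  · rw [Finset.sum_const, nsmul_eq_mul, mul_one]
    exact_mod_cast card_trips

end Pool.Agent.Helper13.TSE
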