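import Mathlib
import Pool.Agent.Helper13.TSE.G8
import Pool.Agent.Helper13.TSE.G9

/-!
# TSE-G11: the configurations `T4`
-/

namespace Pool.Agent.Helper13.TSE

open Finset Pool.Agent.Helper82.TotSep Pool.Agent.Helper13.TSD

variable {V : Type*} [Fintype V] {G : SimpleGraph V} {d : ℕ} {Λ : Type*} {L : FaceData G d}
  {M : Finset V} {lab : V → Λ} {k : ℕ} {F : Finset V}

private lemma g11_cover {α β : Type*} [DecidableEq α] (S : Finset α) (f : α → ℝ)
    (hf : ∀ x, 0 ≤ f x) (I : Finset β) (g : β → Finset α) (h : ∀ x ∈ S, ∃ i ∈ I, x ∈ g i) :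
    ∑ x ∈ S, f x ≤ ∑ i ∈ I, ∑ x ∈ g i, f x := by
  calc ∑ x ∈ S, f x ≤ ∑ x ∈ S, ∑ i ∈ I, (if x ∈ g i then f x else 0) := by
        refine Finset.sum_le_sum fun x hx => ?_
        obtain ⟨i, hi, hxi⟩ := h x hx
        have h1 := Finset.single_le_sum (f := fun i => if x ∈ g i then f x else 0)
          (fun j _ => by
            split_ifs
            · exact hf x
            · exact le_rfl) hi
        simpa [hxi] using h1
    _ = ∑ i ∈ I, ∑ x ∈ S, (if x ∈ g i then f x else 0) := Finset.sum_comm
    _ ≤ ∑ i ∈ I, ∑ x ∈ g i, f x := by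
        refine Finset.sum_le_sum fun i _ => ?_
        rw [← Finset.sum_filter]
        exact Finset.sum_le_sum_of_subset_of_nonneg (fun x hx => (Finset.mem_filter.mp hx).2)
          (fun x _ _ => hf x)

open Classical in
/-- Let `w` be the node of `T4`: `w ∈ inner M F`, `nr F w = 1`, and the second label `c2` is one of
at most two labels seen by `w`.  The facet `e = hf v l1` is the only element of `ZZ F c2` which
does not contain `w` (`Cfg.mem_ZZ_cor`, `Cfg.mem_ZZ2`), and `ZZ (ct e F) c2` is `ZZ F c2` without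
`e`; so `w` and `c2` determine `e` and the edge `eds F (ZZ (ct e F) c2)` with at most two nodes, and
the first label is one of at most four (`mem_cand`, `card_cand_le`): at most `8 N3` groups;
`sum_grp_le`.  `F` is real, as it contains two labels (`Cfg.three`). -/
theorem sum_T4 (hF : IsFace L (k + 1) F) :
    ∑ x ∈ (CF L M lab k F).filter (fun x => Tw L M lab F x.1 x.2.1 x.2.2.1 x.2.2.2 ∧
        T4 L M lab k F x.1 x.2.1 x.2.2.1 x.2.2.2), 1 / (1 + (mm L M F x.1 x.2.2.2 : ℝ)) ≤
      8 * (N3 L M lab F : ℝ) := by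
  by_cases hRe : Re M lab F
  · set W := (inner M F).filter fun w => nr L M lab F w = 1 with hW
    have hN : N3 L M lab F = W.card := by rw [N3, if_pos hRe]
    let e : V → Λ → Finset V := fun w c =>
      if h : ∃ H ∈ ZZ L M lab F c, w ∉ H then h.choose else ∅
    let A : V → Finset Λ := fun w =>
      if (eqSeen L M lab F w).card ≤ 2 then eqSeen L M lab F w else ∅
    let B : V → Λ → Finset Λ := fun w c =>
      if (eds F (ZZ L M lab (ct (e w c) F) c)).card ≤ 2 then
        cand L M lab F (eds F (ZZ L M lab (ct (e w c) F) c)) else ∅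
    let I : Finset (Σ _ : V, Σ _ : Λ, Λ) := W.sigma fun w => (A w).sigma fun c => B w c
    have hA : ∀ w, (A w).card ≤ 2 := by
      intro w
      simp only [A]
      split_ifs with h
      · exact h
      · simp
    have hB : ∀ w c, (B w c).card ≤ 4 := by
      intro w c
      simp only [B]
      split_ifs with h
      · exact (card_cand_le _).trans (by omega)
      · simp
    have hI : I.card ≤ 8 * W.card := by
      calc I.card = ∑ w ∈ W, ∑ c ∈ A w, (B w c).card := by
            simp only [I, Finset.card_sigma]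
        _ ≤ ∑ w ∈ W, ∑ c ∈ A w, 4 :=
            Finset.sum_le_sum fun w _ => Finset.sum_le_sum fun c _ => hB w c
        _ = ∑ w ∈ W, (A w).card * 4 := by simp
        _ ≤ ∑ w ∈ W, 8 := Finset.sum_le_sum fun w _ => by have := hA w; omega
        _ = 8 * W.card := by rw [Finset.sum_const, smul_eq_mul, mul_comm]
    refine (g11_cover _ _ (fun x => by positivity) I
      (fun i => grp L M lab k F (e i.1 i.2.1) i.2.2 i.2.1) ?_).trans ?_
    · rintro x hx
      rw [Finset.mem_filter] at hx
      obtain ⟨hxC, hTw, hcor, w, hwM, hQ, hw2, hsee, hwa, hnr⟩ := hx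
      have hcfg : Cfg L M lab k F x.1 x.2.1 x.2.2.1 x.2.2.2 := by
        simpa [CF] using hxC
      have hchar : ∀ H ∈ ZZ L M lab F (lab (L.nb x.1 x.2.2.1)), w ∉ H → H = hf L x.1 x.2.1 := by
        intro H hH hwH
        rcases (hcfg.mem_ZZ_cor hF hcor).mp hH with h1 | h1
        · exact h1
        · exfalso
          rcases (hcfg.mem_ZZ2 hF).mp h1 with h2 | ⟨l, hl, hl1, hl2, h2⟩
          · exact hwH (h2 ▸ hwa)
          · exact hwH (h2 ▸ hQ.2.1 l hl hl1 hl2)
      have hex : ∃ H ∈ ZZ L M lab F (lab (L.nb x.1 x.2.2.1)), w ∉ H :=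
        ⟨hf L x.1 x.2.1, (hcfg.mem_ZZ_cor hF hcor).mpr (Or.inl rfl), hQ.2.2.1⟩
      have he : e w (lab (L.nb x.1 x.2.2.1)) = hf L x.1 x.2.1 := by
        simp only [e]
        rw [dif_pos hex]
        exact hchar _ hex.choose_spec.1 hex.choose_spec.2
      refine ⟨⟨w, lab (L.nb x.1 x.2.2.1), lab (L.nb x.1 x.2.1)⟩, ?_, ?_⟩
      · simp only [I, Finset.mem_sigma]
        refine ⟨?_, ?_, ?_⟩
        · rw [hW, Finset.mem_filter, mem_inner]
          exact ⟨⟨hQ.1, hwM⟩, hnr⟩
        · simp only [A]
          rw [if_pos hw2]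
          exact hsee
        · simp only [B]
          rw [he, if_pos (card_eds_cfg hF hcfg hTw)]
          exact mem_cand hF hcfg hTw
      · simp only [grp, Finset.mem_filter]
        exact ⟨hxC, hTw, he.symm, trivial, trivial⟩
    · calc ∑ i ∈ I, ∑ x ∈ grp L M lab k F (e i.1 i.2.1) i.2.2 i.2.1,
            1 / (1 + (mm L M F x.1 x.2.2.2 : ℝ)) ≤ ∑ i ∈ I, (1 : ℝ) :=
            Finset.sum_le_sum fun i _ => sum_grp_le hF _ _ _
        _ = (I.card : ℝ) := by simp
        _ ≤ 8 * (N3 L M lab F : ℝ) := by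
            rw [hN]
            exact_mod_cast hI
  · have hemp : (CF L M lab k F).filter (fun x => Tw L M lab F x.1 x.2.1 x.2.2.1 x.2.2.2 ∧
        T4 L M lab k F x.1 x.2.1 x.2.2.1 x.2.2.2) = ∅ := by
      rw [Finset.filter_eq_empty_iff]
      intro x hx
      exfalso
      have hcfg : Cfg L M lab k F x.1 x.2.1 x.2.2.1 x.2.2.2 := by
        simpa [CF] using hx
      have h3 := hcfg.three
      have h4 := Finset.card_le_card (eqSeen_subset (L := L) (M := M) (lab := lab) (F := F)
        (w := x.1))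
      apply hRe
      unfold Re
      omega
    rw [hemp, Finset.sum_empty]
    positivity

end Pool.Agent.Helper13.TSE
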