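import Mathlib
import Pool.Agent.Helper13.TSE.G4
import Pool.Agent.Helper13.TSE.G5

/-!
# TSE-G5b: `T3` or `T4`
-/

namespace Pool.Agent.Helper13.TSE

open Finset Pool.Agent.Helper82.TotSep Pool.Agent.Helper13.TSD

variable {V : Type*} [Fintype V] {G : SimpleGraph V} {d : ℕ} {Λ : Type*} {L : FaceData G d}
  {M : Finset V} {lab : V → Λ} {k : ℕ} {F : Finset V} {v : V} {l1 l2 : Fin d} {a : Finset V}

/-- A node `w'` with `InQ` which sees the second label is bad, if `Tw` and `Cor` hold.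
Otherwise `good_w` with `E = hf v l1` (`Cfg.mem_ZZ_cor`, `Cfg.mem_ZZ2`): `w' ∈ a` and the edge of
`edge_eq` is `{w', nb w' m'}`, `nb w' m' ∉ M` with the second label.  The node `w ∈ M` of `Tw` is
on this edge, so `w = w'`, so `w` sees three labels, and by `Tw` some `nb w m ∉ M` of the edge has
the first label: `nb w m = nb w' m'`, against `Cfg.lne`. -/
theorem bad_w' (hF : IsFace L (k + 1) F) (h : Cfg L M lab k F v l1 l2 a)
    (hT : Tw L M lab F v l1 l2 a) (hc : Cor L M lab k F v l2) {w' : V} (hM : w' ∈ M)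
    (hw' : InQ L F v l1 l2 w') (hs : lab (L.nb v l2) ∈ eqSeen L M lab F w') :
    (eqSeen L M lab F w').card ≤ 2 := by
  by_contra hcard
  have h3 : 3 ≤ (eqSeen L M lab F w').card := by omega
  obtain ⟨m', hm', hm'M, hm'c⟩ := mem_eqSeen.mp hs
  have hg := good_w (a := a) (lab := lab) (M := M) hF h.mem h.d1 h.d2 h.ne hw'
    (E := hf L v l1) hw'.2.2.1 h3 hm' hm'M (fun H hH => by
      rw [hm'c] at hH
      rcases (h.mem_ZZ_cor hF hc).mp hH with h4 | h4
      · exact Or.inr (Or.inl h4)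
      · rcases (h.mem_ZZ2 hF).mp h4 with h5 | h5
        · exact Or.inl h5
        · exact Or.inr (Or.inr h5))
  obtain ⟨-, hw'a, hna, hnl⟩ := hg
  obtain ⟨m, hm, -, -, hedge⟩ := edge_eq hF h hw' hw'a
  have hall : ∀ x, x ∈ a → (∀ l ∈ dir L F v, l ≠ l1 → l ≠ l2 → x ∈ hf L v l) →
      ∀ H ∈ ZZ L M lab (ct (hf L v l1) F) (lab (L.nb v l2)), x ∈ H := by
    intro x hxa hxl H hH
    rcases (h.mem_ZZ2 hF).mp hH with h5 | ⟨l, hl, hl1, hl2, rfl⟩
    · rw [h5]
      exact hxa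
    · exact hxl l hl hl1 hl2
  have hnb : L.nb w' m = L.nb w' m' := by
    rcases hedge (L.nb w' m') (mem_dir.mp hm') (hall _ hna hnl) with h5 | h5
    · exact absurd (show L.nb w' m' ∈ M by rw [h5]; exact hM) hm'M
    · exact h5.symm
  obtain ⟨-, w, hwM, hwQ, hwa, hor⟩ := hT
  have hww : w = w' := by
    rcases hedge w hwQ.1 (hall _ hwa hwQ.2.1) with h5 | h5
    · exact h5
    · rw [h5, hnb] at hwM
      exact absurd hwM hm'M
  subst hww
  rcases hor with ⟨h5, -⟩ | ⟨-, m0, hm0, hm0M, hm0c, hm0H⟩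
  · omega
  · rcases hedge (L.nb w m0) (mem_dir.mp hm0) hm0H with h5 | h5
    · exact hm0M (by rw [h5]; exact hwM)
    · apply h.lne
      rw [← hm0c, ← hm'c, h5, hnb]

end Pool.Agent.Helper13.TSE
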