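import Mathlib
import Pool.Agent.Helper13.TSE.G5b

/-!
# TSE-G5c: `T3` or `T4`
-/

namespace Pool.Agent.Helper13.TSE

open Finset Pool.Agent.Helper82.TotSep Pool.Agent.Helper13.TSD

variable {V : Type*} [Fintype V] {G : SimpleGraph V} {d : ℕ} {Λ : Type*} {L : FaceData G d}
  {M : Finset V} {lab : V → Λ} {k : ℕ} {F : Finset V} {v : V} {l1 l2 : Fin d} {a : Finset V}

/-- a label seen in the real facet `hf w m` -/
private lemma nr_aux_ZZ (hF : IsFace L (k + 1) F) {w : V} (hw : w ∈ F) {m i : Fin d}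
    (hm : m ∈ dir L F w) (hi : i ∈ dir L F w) (hne : i ≠ m) (hM : L.nb w i ∉ M)
    (hR : Re M lab (ct (hf L w m) F)) :
    hf L w m ∈ ZZ L M lab F (lab (L.nb w i)) := by
  classical
  rw [mem_ZZ]
  refine ⟨hf_mem_fc, (not_subset_hf hF hw).mpr hm, hR, ?_⟩
  unfold labs
  rw [Finset.mem_image]
  refine ⟨L.nb w i, ?_, rfl⟩
  rw [Finset.mem_filter, mem_ct]
  exact ⟨⟨mem_dir.mp hi, nb_mem_hf.mpr (Ne.symm hne)⟩, hM⟩

/-- If moreover `w' ∈ a` then exactly one facet of `F` through `w'` is not real.  By `edge_eq` for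
`w'` all facets through `w'` except `f = hf w' m` are in `ZZ F' c2 ⊆ ZZ F c2`, so real.  Let `f` be
real.  If `w'` sees the second label through a direction different from `m`, then `f` contains
it, so `f ∈ ZZ F c2`, and by `Cfg.mem_ZZ_cor` `f = hf v l1`, but `w' ∉ hf v l1`.  If it sees it
through `m`: `nb w' m ∉ M`, and the node `w ∈ M` of `Tw` on the edge is `w'`; `w'` is bad, so `w'`
sees the first label, through a direction `≠ m` (`Cfg.lne`), so `f` contains the first label,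
`f ∈ ZZ F c1`, and by `Cfg.sup` `f = a` or `f = hf v l`, `l ≠ l1`: `f ∉ ZZ F' c2` leaves
`f = hf v l2`, but `w' ∉ hf v l2`. -/
theorem nr_eq_one (hF : IsFace L (k + 1) F) (h : Cfg L M lab k F v l1 l2 a)
    (hT : Tw L M lab F v l1 l2 a) (hc : Cor L M lab k F v l2) {w' : V} (hM : w' ∈ M)
    (hw' : InQ L F v l1 l2 w') (hs : lab (L.nb v l2) ∈ eqSeen L M lab F w') (ha : w' ∈ a) :
    nr L M lab F w' = 1 := by
  classical
  obtain ⟨m, hm, hmZ, hlZ, hedge⟩ := edge_eq hF h hw' ha
  have hw'F : w' ∈ F := hw'.1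
  have hnot : ¬ Re M lab (ct (hf L w' m) F) := by
    intro hR
    obtain ⟨i, hi, hiM, hilab⟩ := mem_eqSeen.mp hs
    by_cases him : i = m
    · subst him
      obtain ⟨haZ, w, hwM, hwQ, hwa, hor⟩ := hT
      have hall : ∀ H ∈ ZZ L M lab (ct (hf L v l1) F) (lab (L.nb v l2)), w ∈ H := by
        intro H hH
        rcases (h.mem_ZZ2 hF).mp hH with rfl | ⟨l, hl, hl1, hl2, rfl⟩
        · exact hwa
        · exact hwQ.2.1 l hl hl1 hl2
      have hww : w = w' := by
        rcases hedge w hwQ.1 hall with h1 | h1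
        · exact h1
        · exact absurd (h1 ▸ hwM) hiM
      subst hww
      have hbad := bad_w' hF h ⟨haZ, w, hwM, hwQ, hwa, hor⟩ hc hM hw' hs
      have hc1 : lab (L.nb v l1) ∈ eqSeen L M lab F w := by
        rcases hor with h1 | h1
        · exact h1.2
        · exact absurd h1.1 (by omega)
      obtain ⟨j, hj, hjM, hjlab⟩ := mem_eqSeen.mp hc1
      have hji : j ≠ i := by
        rintro rfl
        exact h.lne (hjlab.symm.trans hilab)
      have hfZ := nr_aux_ZZ (lab := lab) hF hw'F hm hj hji hjM hR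
      rw [hjlab] at hfZ
      have hself : w ∈ hf L w i := self_mem_hf
      rcases h.sup _ hfZ with h1 | ⟨l, hl, hl1, hlf⟩
      · exact hmZ ((h.mem_ZZ2 hF).mpr (Or.inl h1))
      · by_cases hl2 : l = l2
        · subst hl2
          exact hw'.2.2.2 (hlf ▸ hself)
        · exact hmZ ((h.mem_ZZ2 hF).mpr (Or.inr ⟨l, hl, hl1, hl2, hlf⟩))
    · have hfZ := nr_aux_ZZ (lab := lab) hF hw'F hm hi him hiM hR
      rw [hilab] at hfZ
      have hself : w' ∈ hf L w' m := self_mem_hf
      rcases (h.mem_ZZ_cor hF hc).mp hfZ with h1 | h1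
      · exact hw'.2.2.1 (h1 ▸ hself)
      · exact hmZ h1
  unfold nr
  rw [Finset.card_eq_one]
  refine ⟨hf L w' m, ?_⟩
  ext H
  rw [Finset.mem_filter, Finset.mem_singleton]
  constructor
  · rintro ⟨hH, hHR⟩
    obtain ⟨l, hl, rfl⟩ := (mem_th_iff hF hw'F).mp hH
    by_cases hlm : l = m
    · rw [hlm]
    · have h1 := ZZ_mono (L := L) (M := M) (lab := lab) (F' := ct (hf L v l1) F) (F := F)
        ct_subset _ (hlZ l hl hlm)
      exact absurd (mem_ZZ.mp h1).2.2.1 hHR
  · rintro rfl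
    exact ⟨hf_mem_th hF hw'F hm, hnot⟩

end Pool.Agent.Helper13.TSE
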