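import Mathlib
import Pool.Agent.Helper13.TSE.G5c

/-!
# TSE-G5d: `T3` or `T4`
-/

namespace Pool.Agent.Helper13.TSE

open Finset Pool.Agent.Helper82.TotSep Pool.Agent.Helper13.TSD

variable {V : Type*} [Fintype V] {G : SimpleGraph V} {d : ℕ} {Λ : Type*} {L : FaceData G d}
  {M : Finset V} {lab : V → Λ} {k : ℕ} {F : Finset V} {v : V} {l1 l2 : Fin d} {a : Finset V}

/-- `Cfg.exists_w'`, `bad_w'`, `nr_eq_one`. -/
theorem T3_or_T4 (hF : IsFace L (k + 1) F) (hlab : LabOn G M lab F)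
    (h : Cfg L M lab k F v l1 l2 a) (hT : Tw L M lab F v l1 l2 a)
    (hc : Cor L M lab k F v l2) :
    T3 L M lab k F v l1 l2 a ∨ T4 L M lab k F v l1 l2 a := by
  obtain ⟨w, hM, hQ, hs⟩ := Cfg.exists_w' hF hlab h
  have hb := bad_w' hF h hT hc hM hQ hs
  by_cases ha : w ∈ a
  · exact Or.inr ⟨hc, w, hM, hQ, hb, hs, ha, nr_eq_one hF h hT hc hM hQ hs ha⟩
  · exact Or.inl ⟨hc, w, hM, hQ, hb, hs, ha⟩

end Pool.Agent.Helper13.TSE
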