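import Mathlib
import Pool.Agent.Helper13.TSE.G2

/-!
# TSE-G6: the number of the configurations `T1`
-/

namespace Pool.Agent.Helper13.TSE

open Finset Pool.Agent.Helper82.TotSep Pool.Agent.Helper13.TSD

variable {V : Type*} [Fintype V] {G : SimpleGraph V} {d : ℕ} {Λ : Type*} {L : FaceData G d}
  {M : Finset V} {lab : V → Λ} {k : ℕ} {F : Finset V}

/-- Two configurations with the same first label and the same set `{hf v l | l ≠ l1}` and the
same `hf v l2` are equal: the other node `v'` lies in all `hf v l`, `l ≠ l1`, so `v' = v` or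
`v' = nb v l1`, which is not in `M`; `l1`, `l2` by `hf_inj`; `a` is the missing facet of the second
label (`Nic.miss_unique` in `ct (hf v l1) F`). -/
theorem Cfg.eq_of_eq (hF : IsFace L (k + 1) F) {v v' : V} {l1 l1' l2 l2' : Fin d}
    {a a' : Finset V} (h : Cfg L M lab k F v l1 l2 a) (h' : Cfg L M lab k F v' l1' l2' a')
    (hc : ∀ H, (∃ l ∈ dir L F v, l ≠ l1 ∧ hf L v l = H) ↔
      (∃ l ∈ dir L F v', l ≠ l1' ∧ hf L v' l = H))
    (h2 : hf L v l2 = hf L v' l2') : v = v' ∧ l1 = l1' ∧ l2 = l2' ∧ a = a' := by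
  have hv : v' = v := by
    rcases eq_or_eq_nb' hF h.mem (m := l1) h'.mem (fun l hl hne => by
      obtain ⟨l', _, _, he⟩ := (hc (hf L v l)).mp ⟨l, hl, hne, rfl⟩
      rw [← he]
      exact self_mem_hf) with e | e
    · exact e
    · exact absurd (e ▸ h'.memM) h.o1
  subst hv
  have hl1 : l1 = l1' := by
    by_contra hne
    obtain ⟨l, _, hl, he⟩ := (hc (hf L v' l1')).mp ⟨l1', h'.d1, fun e => hne e.symm, rfl⟩
    exact hl (hf_inj he)
  subst hl1
  have hl2 : l2 = l2' := hf_inj h2
  subst hl2
  refine ⟨rfl, rfl, rfl, ?_⟩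
  exact h.snice.2.1.miss_unique (h.isFace hF).1 h.good h.miss h.av h'.miss h'.av

open Classical in
/-- For a bad node `w` and a label `c` seen by it (at most two labels) at most three
configurations `T1` with first label `c` and this `w`: if `a ∉ ZZ F c` then
`ZZ F c = {hf v l | l ≠ l1}` and `hf v l2` is the only element of `ZZ F c` which does not contain
`w`; if `a ∈ ZZ F c`, `w ∉ a`, then `a` and `hf v l2` are the two elements of `ZZ F c` which do not
contain `w`: two choices. -/
theorem card_T1 (hF : IsFace L (k + 1) F) :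
    ((CF L M lab k F).filter fun x => T1 L M lab F x.1 x.2.1 x.2.2.1 x.2.2.2).card ≤
      6 * (inner M F).card := by
  have hw : ∀ x : V × Fin d × Fin d × Finset V, ∃ w : V,
      T1 L M lab F x.1 x.2.1 x.2.2.1 x.2.2.2 → w ∈ M ∧ InQ L F x.1 x.2.1 x.2.2.1 w ∧
        (eqSeen L M lab F w).card ≤ 2 ∧ lab (L.nb x.1 x.2.1) ∈ eqSeen L M lab F w ∧
        (w ∉ x.2.2.2 ∨ x.2.2.2 ∉ ZZ L M lab F (lab (L.nb x.1 x.2.1))) := by
    intro x
    by_cases h : T1 L M lab F x.1 x.2.1 x.2.2.1 x.2.2.2
    · obtain ⟨w, h1⟩ := h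
      exact ⟨w, fun _ => h1⟩
    · exact ⟨x.1, fun h' => absurd h' h⟩
  choose wf hwf using hw
  set S := (CF L M lab k F).filter fun x => T1 L M lab F x.1 x.2.1 x.2.2.1 x.2.2.2 with hS
  have hmem : ∀ x ∈ S, Cfg L M lab k F x.1 x.2.1 x.2.2.1 x.2.2.2 ∧ wf x ∈ M ∧
      InQ L F x.1 x.2.1 x.2.2.1 (wf x) ∧
        (eqSeen L M lab F (wf x)).card ≤ 2 ∧
        lab (L.nb x.1 x.2.1) ∈ eqSeen L M lab F (wf x) ∧
        (wf x ∉ x.2.2.2 ∨ x.2.2.2 ∉ ZZ L M lab F (lab (L.nb x.1 x.2.1))) := by
    intro x hx
    rw [hS, Finset.mem_filter, CF, Finset.mem_filter] at hx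
    exact ⟨hx.1.2, hwf x hx.2⟩
  refine Finset.card_le_mul_card_image_of_maps_to (f := wf) (s := S) (t := inner M F)
    (fun x hx => mem_inner.mpr ⟨(hmem x hx).2.2.1.1, (hmem x hx).2.1⟩) 6 ?_
  intro w _
  rcases (S.filter fun x => wf x = w).eq_empty_or_nonempty with h0 | ⟨x0, hx0⟩
  · rw [h0]
    simp
  have hcard : (eqSeen L M lab F w).card ≤ 2 := by
    rw [Finset.mem_filter] at hx0
    rw [← hx0.2]
    exact (hmem x0 hx0.1).2.2.2.1
  have h3 : (S.filter fun x => wf x = w).card ≤ 3 * (eqSeen L M lab F w).card := by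
    refine Finset.card_le_mul_card_image_of_maps_to
      (f := fun x : V × Fin d × Fin d × Finset V => lab (L.nb x.1 x.2.1)) (fun x hx => ?_) 3 ?_
    · rw [Finset.mem_filter] at hx
      rw [← hx.2]
      exact (hmem x hx.1).2.2.2.2.1
    · intro c _
      rcases ((S.filter fun x => wf x = w).filter fun x => lab (L.nb x.1 x.2.1) = c).eq_empty_or_nonempty
        with h0 | ⟨y, hy⟩
      · rw [h0]
        simp
      rw [Finset.mem_filter, Finset.mem_filter] at hy
      obtain ⟨⟨hyS, hyw⟩, hyc⟩ := hy
      obtain ⟨yC, yM, yQ, _, _, yT⟩ := hmem y hyS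
      rw [hyw] at yM yQ yT
      rw [hyc] at yT
      have hle : (((S.filter fun x => wf x = w).filter fun x => lab (L.nb x.1 x.2.1) = c)).card ≤
          ({y.2.2.2, hf L y.1 y.2.2.1} : Finset (Finset V)).card := by
        refine Finset.card_le_card_of_injOn
          (fun x : V × Fin d × Fin d × Finset V => hf L x.1 x.2.2.1) ?_ ?_
        · intro x hx
          rw [Finset.mem_coe, Finset.mem_filter, Finset.mem_filter] at hx
          obtain ⟨⟨hxS, hxw⟩, hxc⟩ := hx
          obtain ⟨xC, xM, xQ, _, _, xT⟩ := hmem x hxS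
          rw [hxw] at xM xQ xT
          rw [hxc] at xT
          have h5 := xC.sub x.2.2.1 xC.d2 (fun e => xC.ne e.symm)
          rw [hxc, ← hyc] at h5
          rw [Finset.mem_coe, Finset.mem_insert, Finset.mem_singleton]
          rcases yC.sup _ h5 with h6 | ⟨l, hl, hl1, he⟩
          · exact Or.inl h6
          · right
            by_cases hl2 : l = y.2.2.1
            · rw [← hl2]
              exact he.symm
            · exfalso
              have h7 := yQ.2.1 l hl hl1 hl2
              rw [he] at h7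
              exact xQ.2.2.2 h7
        · intro x hx x' hx' he
          rw [Finset.mem_coe, Finset.mem_filter, Finset.mem_filter] at hx hx'
          obtain ⟨⟨hxS, hxw⟩, hxc⟩ := hx
          obtain ⟨⟨hxS', hxw'⟩, hxc'⟩ := hx'
          obtain ⟨xC, xM, xQ, _, _, xT⟩ := hmem x hxS
          obtain ⟨xC', xM', xQ', _, _, xT'⟩ := hmem x' hxS'
          rw [hxw] at xM xQ xT
          rw [hxw'] at xM' xQ' xT'
          have key : ∀ z : V × Fin d × Fin d × Finset V, Cfg L M lab k F z.1 z.2.1 z.2.2.1 z.2.2.2 →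
              InQ L F z.1 z.2.1 z.2.2.1 w → lab (L.nb z.1 z.2.1) = c →
              (w ∉ z.2.2.2 ∨ z.2.2.2 ∉ ZZ L M lab F (lab (L.nb z.1 z.2.1))) → ∀ H,
              ((∃ l ∈ dir L F z.1, l ≠ z.2.1 ∧ hf L z.1 l = H) ↔
                (H ∈ ZZ L M lab F c ∧ (w ∈ H ∨ H = hf L z.1 z.2.2.1))) := by
            intro z zC zQ zc zT H
            rw [zc] at zT
            constructor
            · rintro ⟨l, hl, hl1, rfl⟩
              refine ⟨?_, ?_⟩
              · have := zC.sub l hl hl1
                rwa [zc] at this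
              · by_cases hl2 : l = z.2.2.1
                · right
                  rw [hl2]
                · left
                  exact zQ.2.1 l hl hl1 hl2
            · rintro ⟨hH, hH2⟩
              have hH' := hH
              rw [← zc] at hH'
              rcases zC.sup H hH' with h6 | h6
              · exfalso
                rw [h6] at hH hH2
                rcases zT with h7 | h7
                · rcases hH2 with h8 | h8
                  · exact h7 h8
                  · exact zC.av (by rw [h8]; exact self_mem_hf)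
                · exact h7 hH
              · exact h6
          have he' : hf L x.1 x.2.2.1 = hf L x'.1 x'.2.2.1 := he
          have hres := xC.eq_of_eq hF xC' (fun H => by
            rw [key x xC xQ hxc xT H, key x' xC' xQ' hxc' xT' H, he']) he'
          obtain ⟨e1, e2, e3, e4⟩ := hres
          exact Prod.ext e1 (Prod.ext e2 (Prod.ext e3 e4))
      exact hle.trans (Finset.card_le_two.trans (by norm_num))
  exact h3.trans (by omega)

end Pool.Agent.Helper13.TSE
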