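import Mathlib
import Pool.Agent.Helper13.TSE.G2

/-!
# TSE-G7: the number of the configurations `T3`
-/

namespace Pool.Agent.Helper13.TSE

open Finset Pool.Agent.Helper82.TotSep Pool.Agent.Helper13.TSD

variable {V : Type*} [Fintype V] {G : SimpleGraph V} {d : ℕ} {Λ : Type*} {L : FaceData G d}
  {M : Finset V} {lab : V → Λ} {k : ℕ} {F : Finset V}

/-- the configurations `T3` with the node `w` and the second label `c` -/
private def PT3 (L : FaceData G d) (M : Finset V) (lab : V → Λ) (k : ℕ) (F : Finset V) (w : V)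
    (c : Λ) (x : V × Fin d × Fin d × Finset V) : Prop :=
  Cfg L M lab k F x.1 x.2.1 x.2.2.1 x.2.2.2 ∧ Cor L M lab k F x.1 x.2.2.1 ∧
    InQ L F x.1 x.2.1 x.2.2.1 w ∧ lab (L.nb x.1 x.2.2.1) = c ∧ w ∉ x.2.2.2

/-- the elements of `ZZ F c` -/
private theorem mem_ZZ3 (hF : IsFace L (k + 1) F) {w : V} {c : Λ} {v : V} {l1 l2 : Fin d}
    {a : Finset V} (h : PT3 L M lab k F w c (v, l1, l2, a)) {H : Finset V} :
    H ∈ ZZ L M lab F c ↔ H = hf L v l1 ∨ H = a ∨
      ∃ l ∈ dir L F v, l ≠ l1 ∧ l ≠ l2 ∧ hf L v l = H := by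
  obtain ⟨hc, hcor, hw, hl, ha⟩ := h
  simp only at hc hcor hw hl ha
  rw [← hl, hc.mem_ZZ_cor hF hcor, hc.mem_ZZ2 hF]

/-- the elements of `ZZ F c` without `w` -/
private theorem out_iff (hF : IsFace L (k + 1) F) {w : V} {c : Λ} {v : V} {l1 l2 : Fin d}
    {a : Finset V} (h : PT3 L M lab k F w c (v, l1, l2, a)) {H : Finset V} :
    (H ∈ ZZ L M lab F c ∧ w ∉ H) ↔ H = hf L v l1 ∨ H = a := by
  rw [mem_ZZ3 hF h]
  obtain ⟨hc, hcor, hw, hl, ha⟩ := h
  simp only at hc hcor hw hl ha
  constructor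
  · rintro ⟨h1 | h1 | ⟨l, hl3, hl1, hl2, rfl⟩, h2⟩
    · exact Or.inl h1
    · exact Or.inr h1
    · exact absurd (hw.2.1 l hl3 hl1 hl2) h2
  · rintro (h1 | h1)
    · exact ⟨Or.inl h1, h1 ▸ hw.2.2.1⟩
    · exact ⟨Or.inr (Or.inl h1), h1 ▸ ha⟩

/-- The configuration is determined by `w`, `c` and `hf v l1`. -/
private theorem inj3 (hF : IsFace L (k + 1) F) {w : V} {c : Λ} {v v' : V} {l1 l2 l1' l2' : Fin d}
    {a a' : Finset V} (h : PT3 L M lab k F w c (v, l1, l2, a))
    (h' : PT3 L M lab k F w c (v', l1', l2', a')) (he : hf L v l1 = hf L v' l1') :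
    v = v' ∧ l1 = l1' ∧ l2 = l2' ∧ a = a' := by
  have hc := h.1
  have hc' := h'.1
  simp only at hc hc'
  have haa : a = a' := by
    have h1 := (out_iff hF h').mp ((out_iff hF h).mpr (Or.inr rfl : a = hf L v l1 ∨ a = a))
    rcases h1 with h1 | h1
    · exact absurd (show v ∈ a by rw [h1, ← he]; exact self_mem_hf) hc.av
    · exact h1
  have hv : v = v' := by
    by_contra hne
    have h2 := exists_nb_of_th hF hc.mem hc'.mem (fun h => hne h.symm) (m := l2) (by
      intro l hl hl2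
      have h3 : hf L v l ∈ ZZ L M lab F c := by
        by_cases hl1 : l = l1
        · rw [hl1]; exact (mem_ZZ3 hF h).mpr (Or.inl rfl)
        · exact (mem_ZZ3 hF h).mpr (Or.inr (Or.inr ⟨l, hl, hl1, hl2, rfl⟩))
      rcases (mem_ZZ3 hF h').mp h3 with h4 | h4 | ⟨l', _, _, _, h4⟩
      · rw [h4]; exact self_mem_hf
      · exact absurd (show v ∈ a by rw [haa, ← h4]; exact self_mem_hf) hc.av
      · rw [← h4]; exact self_mem_hf)
    exact hc.o2 (h2.2.1 ▸ hc'.memM)
  subst hv
  subst haa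
  have e1 : l1 = l1' := hf_inj he
  subst e1
  refine ⟨rfl, rfl, ?_, rfl⟩
  by_contra hne
  have h3 : hf L v l2 ∈ ZZ L M lab F c :=
    (mem_ZZ3 hF h').mpr (Or.inr (Or.inr ⟨l2, hc.d2, hc.ne.symm, hne, rfl⟩))
  rcases (mem_ZZ3 hF h).mp h3 with h4 | h4 | ⟨l', _, _, hl2, h4⟩
  · exact hc.ne (hf_inj h4).symm
  · exact hc.av (h4 ▸ self_mem_hf)
  · exact hl2 (hf_inj h4)

open Classical in
/-- For a bad node `w` and a label `c` seen by it, the configurations `T3` with second label `c`
and this `w`: `ZZ F c` consists of `hf v l1`, `a` and the `hf v l`, `l ≠ l1`, `l ≠ l2`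
(`Cfg.mem_ZZ_cor`, `Cfg.mem_ZZ2`), and exactly `hf v l1` and `a` do not contain `w`: two choices.
Given `hf v l1` and `a`, the node `v ∈ M` lies in all elements of `ZZ F c` except `a`: two such
configurations have the same `v` (otherwise `v' = nb v l2`, not in `M`), and then the same `l1`,
`l2`. -/
theorem card_T3 (hF : IsFace L (k + 1) F) :
    ((CF L M lab k F).filter fun x => T3 L M lab k F x.1 x.2.1 x.2.2.1 x.2.2.2).card ≤
      4 * (inner M F).card := by
  -- two choices for given `w`, `c`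
  have h2 : ∀ (w : V) (c : Λ), ((CF L M lab k F).filter fun x => PT3 L M lab k F w c x).card ≤ 2 := by
    intro w c
    rcases Finset.eq_empty_or_nonempty ((CF L M lab k F).filter fun x => PT3 L M lab k F w c x)
      with h0 | ⟨⟨v, l1, l2, a⟩, hx⟩
    · rw [h0]; simp
    · have hx' := (Finset.mem_filter.mp hx).2
      calc ((CF L M lab k F).filter fun x => PT3 L M lab k F w c x).card ≤
          ({hf L v l1, a} : Finset (Finset V)).card := by
            apply Finset.card_le_card_of_injOn (fun x => hf L x.1 x.2.1)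
            · rintro ⟨v', l1', l2', a'⟩ hy
              have hy' := (Finset.mem_filter.mp hy).2
              have h3 := (out_iff hF hx').mp ((out_iff hF hy').mpr
                (Or.inl rfl : hf L v' l1' = hf L v' l1' ∨ hf L v' l1' = a'))
              simpa using h3
            · rintro ⟨v', l1', l2', a'⟩ hy ⟨v'', l1'', l2'', a''⟩ hz he
              have hy' := (Finset.mem_filter.mp hy).2
              have hz' := (Finset.mem_filter.mp hz).2
              obtain ⟨e1, e2, e3, e4⟩ := inj3 hF hy' hz' he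
              rw [e1, e2, e3, e4]
        _ ≤ 2 := Finset.card_le_two
  have h4 : ∀ w : V, (if (eqSeen L M lab F w).card ≤ 2 then (eqSeen L M lab F w).biUnion fun c =>
      (CF L M lab k F).filter fun x => PT3 L M lab k F w c x else ∅).card ≤ 4 := by
    intro w
    split_ifs with h
    · calc _ ≤ (eqSeen L M lab F w).card * 2 :=
            Finset.card_biUnion_le_card_mul _ _ _ fun c _ => h2 w c
        _ ≤ 4 := by omega
    · simp
  have hsub : ((CF L M lab k F).filter fun x => T3 L M lab k F x.1 x.2.1 x.2.2.1 x.2.2.2) ⊆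
      (inner M F).biUnion fun w => if (eqSeen L M lab F w).card ≤ 2 then
        (eqSeen L M lab F w).biUnion fun c =>
          (CF L M lab k F).filter fun x => PT3 L M lab k F w c x else ∅ := by
    intro x hx
    obtain ⟨hx1, hcor, w, hwM, hw, hb, hc, hwa⟩ := Finset.mem_filter.mp hx
    rw [Finset.mem_biUnion]
    refine ⟨w, mem_inner.mpr ⟨hw.1, hwM⟩, ?_⟩
    rw [if_pos hb, Finset.mem_biUnion]
    refine ⟨_, hc, Finset.mem_filter.mpr ⟨hx1, ?_, hcor, hw, rfl, hwa⟩⟩
    exact (Finset.mem_filter.mp hx1).2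
  calc _ ≤ _ := Finset.card_le_card hsub
    _ ≤ (inner M F).card * 4 := Finset.card_biUnion_le_card_mul _ _ _ fun w _ => h4 w
    _ = 4 * (inner M F).card := mul_comm _ _

end Pool.Agent.Helper13.TSE
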