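import Mathlib
import Pool.Agent.Helper13.TSE.G5d
import Pool.Agent.Helper13.TSE.G6
import Pool.Agent.Helper13.TSE.G7
import Pool.Agent.Helper13.TSE.G10
import Pool.Agent.Helper13.TSE.G11

/-!
# TSE-G12: the weights of all configurations in a face
-/

namespace Pool.Agent.Helper13.TSE

open Finset Pool.Agent.Helper82.TotSep Pool.Agent.Helper13.TSD

variable {V : Type*} [Fintype V] {G : SimpleGraph V} {d : ℕ} {Λ : Type*} {L : FaceData G d}
  {M : Finset V} {lab : V → Λ} {k : ℕ} {F : Finset V}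

private lemma mem_CF12 {x : V × Fin d × Fin d × Finset V} :
    x ∈ CF L M lab k F ↔ Cfg L M lab k F x.1 x.2.1 x.2.2.1 x.2.2.2 := by
  simp [CF]

/-- `card_T1`, `card_T3`. -/
theorem sum_s1 (hF : IsFace L (k + 1) F) :
    ∑ x ∈ CF L M lab k F, s1 L M lab k F x.1 x.2.1 x.2.2.1 x.2.2.2 ≤
      10 * ((inner M F).card : ℝ) := by
  classical
  have h1 : ∑ x ∈ CF L M lab k F, s1 L M lab k F x.1 x.2.1 x.2.2.1 x.2.2.2 ≤
      ∑ x ∈ CF L M lab k F, ((if T1 L M lab F x.1 x.2.1 x.2.2.1 x.2.2.2 then (1 : ℝ) else 0) +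
        (if T3 L M lab k F x.1 x.2.1 x.2.2.1 x.2.2.2 then (1 : ℝ) else 0)) := by
    apply Finset.sum_le_sum
    intro x _
    unfold s1
    by_cases a1 : T1 L M lab F x.1 x.2.1 x.2.2.1 x.2.2.2 <;>
      by_cases a3 : T3 L M lab k F x.1 x.2.1 x.2.2.1 x.2.2.2 <;>
      by_cases a0 : Cfg L M lab k F x.1 x.2.1 x.2.2.1 x.2.2.2 <;>
      simp [a1, a3, a0]
  refine h1.trans ?_
  rw [Finset.sum_add_distrib, Finset.sum_boole, Finset.sum_boole]
  have c1 := card_T1 (M := M) (lab := lab) hF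
  have c3 := card_T3 (M := M) (lab := lab) hF
  have c1' : ((((CF L M lab k F).filter fun x => T1 L M lab F x.1 x.2.1 x.2.2.1 x.2.2.2).card : ℕ) : ℝ)
      ≤ 6 * ((inner M F).card : ℝ) := by
    have : (((CF L M lab k F).filter fun x => T1 L M lab F x.1 x.2.1 x.2.2.1 x.2.2.2).card) ≤
      6 * (inner M F).card := by convert c1
    exact_mod_cast this
  have c3' : ((((CF L M lab k F).filter fun x => T3 L M lab k F x.1 x.2.1 x.2.2.1 x.2.2.2).card : ℕ) : ℝ)
      ≤ 4 * ((inner M F).card : ℝ) := by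
    have : (((CF L M lab k F).filter fun x => T3 L M lab k F x.1 x.2.1 x.2.2.1 x.2.2.2).card) ≤
      4 * (inner M F).card := by convert c3
    exact_mod_cast this
  linarith

/-- `T1_or_Tw`, `T3_or_T4`, `sum_not_cor`, `sum_T4`. -/
theorem sum_s2 (hF : IsFace L (k + 1) F) (hlab : LabOn G M lab F) :
    ∑ x ∈ CF L M lab k F, s2 L M lab k F x.1 x.2.1 x.2.2.1 x.2.2.2 ≤
      4 * (N2 L M lab k F : ℝ) + 8 * (N3 L M lab F : ℝ) := by
  classical
  have hw : ∀ x : V × Fin d × Fin d × Finset V, 0 ≤ 1 / (1 + (mm L M F x.1 x.2.2.2 : ℝ)) :=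
    fun x => by positivity
  have h1 : ∑ x ∈ CF L M lab k F, s2 L M lab k F x.1 x.2.1 x.2.2.1 x.2.2.2 ≤
      ∑ x ∈ CF L M lab k F,
        ((if Tw L M lab F x.1 x.2.1 x.2.2.1 x.2.2.2 ∧ ¬ Cor L M lab k F x.1 x.2.2.1 then
            1 / (1 + (mm L M F x.1 x.2.2.2 : ℝ)) else 0) +
        (if Tw L M lab F x.1 x.2.1 x.2.2.1 x.2.2.2 ∧ T4 L M lab k F x.1 x.2.1 x.2.2.1 x.2.2.2 then
            1 / (1 + (mm L M F x.1 x.2.2.2 : ℝ)) else 0)) := by
    apply Finset.sum_le_sum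
    intro x hx
    have hc := mem_CF12.mp hx
    have hx0 := hw x
    unfold s2
    split_ifs with g1 g2 g3 g3 g2 g3 g3
    all_goals first
      | linarith
      | skip
    exfalso
    rcases T1_or_Tw hF hlab hc with ht | ht
    · exact g1.2 (Or.inl ht)
    · by_cases hcor : Cor L M lab k F x.1 x.2.2.1
      · rcases T3_or_T4 hF hlab hc ht hcor with h3 | h4
        · exact g1.2 (Or.inr h3)
        · exact g3 ⟨ht, h4⟩
      · exact g2 ⟨ht, hcor⟩
  refine h1.trans ?_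
  rw [Finset.sum_add_distrib, ← Finset.sum_filter, ← Finset.sum_filter]
  have c1 := sum_not_cor (M := M) (lab := lab) hF
  have c3 := sum_T4 (M := M) (lab := lab) hF
  refine add_le_add ?_ ?_
  · convert c1
  · convert c3

theorem s1_nonneg (v : V) (l1 l2 : Fin d) (a : Finset V) :
    0 ≤ s1 L M lab k F v l1 l2 a := by
  unfold s1
  split_ifs <;> norm_num

theorem s2_nonneg (v : V) (l1 l2 : Fin d) (a : Finset V) :
    0 ≤ s2 L M lab k F v l1 l2 a := by
  unfold s2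
  split_ifs
  · positivity
  · exact le_rfl

theorem one_le_s (v : V) (l1 l2 : Fin d) (a : Finset V) (h : Cfg L M lab k F v l1 l2 a) :
    1 ≤ s1 L M lab k F v l1 l2 a + (1 + (mm L M F v a : ℝ)) * s2 L M lab k F v l1 l2 a := by
  by_cases hT : T1 L M lab F v l1 l2 a ∨ T3 L M lab k F v l1 l2 a
  · have e1 : s1 L M lab k F v l1 l2 a = 1 := by
      unfold s1
      rw [if_pos ⟨h, hT⟩]
    have h2 := s2_nonneg (L := L) (M := M) (lab := lab) (k := k) (F := F) v l1 l2 a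
    rw [e1]
    have : 0 ≤ (1 + (mm L M F v a : ℝ)) * s2 L M lab k F v l1 l2 a := by positivity
    linarith
  · have e1 : s1 L M lab k F v l1 l2 a = 0 := by
      unfold s1
      rw [if_neg (fun hh => hT hh.2)]
    have e2 : s2 L M lab k F v l1 l2 a = 1 / (1 + (mm L M F v a : ℝ)) := by
      unfold s2
      rw [if_pos ⟨h, hT⟩]
    rw [e1, e2]
    have : (0 : ℝ) < 1 + (mm L M F v a : ℝ) := by positivity
    rw [mul_one_div_cancel this.ne']
    linarith

/-- The sums over `CF` as sums over `v`, `l1`, `l2`, `a`. -/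
theorem sum_CF (hF : IsFace L (k + 1) F) (f : V → Fin d → Fin d → Finset V → ℝ)
    (hf : ∀ v l1 l2 a, ¬ Cfg L M lab k F v l1 l2 a → f v l1 l2 a = 0) :
    ∑ v ∈ inner M F, ∑ l1 ∈ dir L F v, ∑ l2 ∈ (dir L F v).erase l1, ∑ a ∈ fc L, f v l1 l2 a =
      ∑ x ∈ CF L M lab k F, f x.1 x.2.1 x.2.2.1 x.2.2.2 := by
  classical
  have hR : ∑ x ∈ CF L M lab k F, f x.1 x.2.1 x.2.2.1 x.2.2.2 =
      ∑ v : V, ∑ l1 : Fin d, ∑ l2 : Fin d, ∑ a : Finset V, f v l1 l2 a := by
    rw [Finset.sum_subset (Finset.subset_univ (CF L M lab k F))]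
    · rw [Fintype.sum_prod_type]
      apply Finset.sum_congr rfl
      intro v _
      rw [Fintype.sum_prod_type]
      apply Finset.sum_congr rfl
      intro l1 _
      rw [Fintype.sum_prod_type]
    · intro x _ hx
      exact hf _ _ _ _ (fun h => hx (mem_CF12.mpr h))
  rw [hR]
  have z1 : ∀ v, v ∉ inner M F → ∀ l1 l2 a, f v l1 l2 a = 0 := by
    intro v hv l1 l2 a
    exact hf _ _ _ _ (fun h => hv (mem_inner.mpr ⟨h.mem, h.memM⟩))
  rw [← Finset.sum_subset (Finset.subset_univ (inner M F)) (fun v _ hv => by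
    simp [z1 v hv])]
  apply Finset.sum_congr rfl
  intro v _
  rw [← Finset.sum_subset (Finset.subset_univ (dir L F v)) (fun l1 _ hl => by
    have : ∀ l2 a, f v l1 l2 a = 0 := fun l2 a => hf _ _ _ _ (fun h => hl h.d1)
    simp [this])]
  apply Finset.sum_congr rfl
  intro l1 _
  rw [← Finset.sum_subset (Finset.subset_univ ((dir L F v).erase l1)) (fun l2 _ hl => by
    have : ∀ a, f v l1 l2 a = 0 := fun a => hf _ _ _ _ (fun h =>
      hl (Finset.mem_erase.mpr ⟨h.ne.symm, h.d2⟩))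
    simp [this])]
  apply Finset.sum_congr rfl
  intro l2 _
  exact Finset.sum_subset (Finset.subset_univ (fc L)) (fun a _ ha =>
    hf _ _ _ _ (fun h => ha h.a_mem_fc))

end Pool.Agent.Helper13.TSE
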