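import Mathlib

/-!
# TSE-K1: a set of levels with few near pairs is small
-/

namespace Pool.Agent.Helper13.TSE

open Finset

private theorem two_mul_card_lt (S : Finset ℕ) :
    2 * ((S ×ˢ S).filter fun p => p.1 < p.2).card = S.card * (S.card - 1) := by
  have h1 : ((S ×ˢ S).filter fun p => p.1 < p.2).card
      = ((S ×ˢ S).filter fun p => p.2 < p.1).card := by
    apply Finset.card_bij (fun p _ => (p.2, p.1))
    · intro p hp
      simp only [mem_filter, mem_product] at hp ⊢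
      exact ⟨⟨hp.1.2, hp.1.1⟩, hp.2⟩
    · intro p _ p' _ h
      simp only [Prod.mk.injEq] at h
      exact Prod.ext h.2 h.1
    · intro p hp
      simp only [mem_filter, mem_product] at hp
      exact ⟨(p.2, p.1), by simp only [mem_filter, mem_product]; exact ⟨⟨hp.1.2, hp.1.1⟩, hp.2⟩, rfl⟩
  have h2 : S.offDiag = ((S ×ˢ S).filter fun p => p.1 < p.2)
      ∪ ((S ×ˢ S).filter fun p => p.2 < p.1) := by
    ext p
    simp only [mem_offDiag, mem_union, mem_filter, mem_product]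
    constructor
    · rintro ⟨a, b, c⟩
      rcases lt_or_gt_of_ne c with h | h
      · exact Or.inl ⟨⟨a, b⟩, h⟩
      · exact Or.inr ⟨⟨a, b⟩, h⟩
    · rintro (⟨⟨a, b⟩, h⟩ | ⟨⟨a, b⟩, h⟩)
      · exact ⟨a, b, h.ne⟩
      · exact ⟨a, b, h.ne'⟩
  have h3 : Disjoint ((S ×ˢ S).filter fun p => p.1 < p.2)
      ((S ×ˢ S).filter fun p => p.2 < p.1) := by
    rw [Finset.disjoint_left]
    intro p h1 h2
    simp only [mem_filter] at h1 h2
    omega
  have h4 := congrArg Finset.card h2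
  rw [Finset.offDiag_card, Finset.card_union_of_disjoint h3, ← h1] at h4
  have h5 : S.card * (S.card - 1) = S.card * S.card - S.card := by
    rw [Nat.mul_sub, mul_one]
  omega

open Classical in
/-- Blocks: `t` is in the block `q < B` if `λ ^ q (J0 + 1) ≤ t + 1 ≤ λ ^ (q + 1) (J0 + 1)` (choose the
smallest such `q`); two elements of the same block are near.  With `r q` elements in the block,
`|A| = ∑ r q ≤ B + ∑ (r q - 1) ≤ B + √(B ∑ r q (r q - 1)) ≤ B + √(2 B #pairs)`. -/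
theorem card_le_near (A : Finset ℕ) (lam : ℝ) (h1 : 1 < lam) (B J0 : ℕ) (hB : 1 ≤ B)
    (hA : ∀ t ∈ A, J0 ≤ t ∧ ((t : ℝ) + 1) ≤ lam ^ B * ((J0 : ℝ) + 1)) :
    (A.card : ℝ) ≤ B + √(2 * B * ((A ×ˢ A).filter fun p => p.1 < p.2 ∧
      ((p.2 : ℝ) + 1) ≤ lam * ((p.1 : ℝ) + 1)).card) := by
  -- the block of `t`
  let blk : ℕ → ℕ := fun t =>
    if h : ∃ q : ℕ, ((t : ℝ) + 1) ≤ lam ^ (q + 1) * ((J0 : ℝ) + 1) then Nat.find h else 0
  have hex : ∀ t ∈ A, ∃ q : ℕ, ((t : ℝ) + 1) ≤ lam ^ (q + 1) * ((J0 : ℝ) + 1) := by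
    intro t ht
    refine ⟨B - 1, ?_⟩
    rw [Nat.sub_add_cancel hB]
    exact (hA t ht).2
  have hblk_up : ∀ t ∈ A, ((t : ℝ) + 1) ≤ lam ^ (blk t + 1) * ((J0 : ℝ) + 1) := by
    intro t ht
    have h := hex t ht
    simp only [blk, dif_pos h]
    exact Nat.find_spec h
  have hblk_lt : ∀ t ∈ A, blk t < B := by
    intro t ht
    have h := hex t ht
    have h2 : Nat.find h ≤ B - 1 := Nat.find_min' h (by
      rw [Nat.sub_add_cancel hB]; exact (hA t ht).2)
    simp only [blk, dif_pos h]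
    omega
  have hblk_lo : ∀ t ∈ A, lam ^ (blk t) * ((J0 : ℝ) + 1) ≤ (t : ℝ) + 1 := by
    intro t ht
    have h := hex t ht
    rcases Nat.eq_zero_or_pos (blk t) with h0 | h0
    · rw [h0, pow_zero, one_mul]
      have : (J0 : ℝ) ≤ t := by exact_mod_cast (hA t ht).1
      linarith
    · have hb : blk t = Nat.find h := by simp only [blk, dif_pos h]
      have h3 : blk t - 1 < Nat.find h := by omega
      have h4 := Nat.find_min h h3
      rw [Nat.sub_add_cancel h0] at h4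
      push Not at h4
      exact h4.le
  have hnear : ∀ t ∈ A, ∀ t' ∈ A, blk t = blk t' →
      ((t' : ℝ) + 1) ≤ lam * ((t : ℝ) + 1) := by
    intro t ht t' ht' hb
    calc ((t' : ℝ) + 1) ≤ lam ^ (blk t' + 1) * ((J0 : ℝ) + 1) := hblk_up t' ht'
      _ = lam * (lam ^ (blk t) * ((J0 : ℝ) + 1)) := by rw [hb, pow_succ]; ring
      _ ≤ lam * ((t : ℝ) + 1) := mul_le_mul_of_nonneg_left (hblk_lo t ht) (by linarith)
  set F : ℕ → Finset ℕ := fun q => A.filter fun t => blk t = q with hF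
  set N : Finset (ℕ × ℕ) := (A ×ˢ A).filter fun p => p.1 < p.2 ∧
      ((p.2 : ℝ) + 1) ≤ lam * ((p.1 : ℝ) + 1) with hN
  have hcard : A.card = ∑ q ∈ range B, (F q).card :=
    Finset.card_eq_sum_card_fiberwise (fun t ht => by
      simp only [coe_range, Set.mem_Iio]
      exact hblk_lt t ht)
  -- the pairs
  have hpairs : ∑ q ∈ range B, (((F q) ×ˢ (F q)).filter fun p => p.1 < p.2).card ≤ N.card := by
    rw [← Finset.card_biUnion]
    · apply Finset.card_le_card
      intro p hp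
      simp only [mem_biUnion, mem_filter, mem_product, hF] at hp
      obtain ⟨q, _, ⟨⟨a1, b1⟩, a2, b2⟩, hlt⟩ := hp
      simp only [hN, mem_filter, mem_product]
      exact ⟨⟨a1, a2⟩, hlt, hnear _ a1 _ a2 (b1.trans b2.symm)⟩
    · intro q _ q' _ hqq'
      rw [Function.onFun, Finset.disjoint_left]
      intro p hp hp'
      simp only [mem_filter, mem_product, hF] at hp hp'
      exact hqq' (hp.1.1.2.symm.trans hp'.1.1.2)
  have hsum2 : ∑ q ∈ range B, (F q).card * ((F q).card - 1) ≤ 2 * N.card := by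
    calc ∑ q ∈ range B, (F q).card * ((F q).card - 1)
        = ∑ q ∈ range B, 2 * (((F q) ×ˢ (F q)).filter fun p => p.1 < p.2).card :=
          Finset.sum_congr rfl (fun q _ => (two_mul_card_lt (F q)).symm)
      _ = 2 * ∑ q ∈ range B, (((F q) ×ˢ (F q)).filter fun p => p.1 < p.2).card := by
          rw [Finset.mul_sum]
      _ ≤ 2 * N.card := Nat.mul_le_mul_left 2 hpairs
  -- Cauchy-Schwarz
  have hcs : (∑ q ∈ range B, (((F q).card - 1 : ℕ) : ℝ)) ^ 2
      ≤ B * ∑ q ∈ range B, (((F q).card - 1 : ℕ) : ℝ) ^ 2 := by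
    have := sq_sum_le_card_mul_sum_sq (s := range B) (f := fun q => (((F q).card - 1 : ℕ) : ℝ))
    rwa [card_range] at this
  have hsq : ∑ q ∈ range B, (((F q).card - 1 : ℕ) : ℝ) ^ 2 ≤ 2 * (N.card : ℝ) := by
    calc ∑ q ∈ range B, (((F q).card - 1 : ℕ) : ℝ) ^ 2
        ≤ ∑ q ∈ range B, (((F q).card * ((F q).card - 1) : ℕ) : ℝ) := by
          apply Finset.sum_le_sum
          intro q _
          rw [sq]
          exact_mod_cast Nat.mul_le_mul_right _ (Nat.sub_le _ _)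
      _ = ((∑ q ∈ range B, (F q).card * ((F q).card - 1) : ℕ) : ℝ) := by push_cast; rfl
      _ ≤ ((2 * N.card : ℕ) : ℝ) := by exact_mod_cast hsum2
      _ = 2 * (N.card : ℝ) := by push_cast; rfl
  have hB0 : (0:ℝ) ≤ B := by positivity
  have hS : (∑ q ∈ range B, (((F q).card - 1 : ℕ) : ℝ)) ≤ √(2 * B * N.card) := by
    apply Real.le_sqrt_of_sq_le
    calc (∑ q ∈ range B, (((F q).card - 1 : ℕ) : ℝ)) ^ 2
        ≤ B * ∑ q ∈ range B, (((F q).card - 1 : ℕ) : ℝ) ^ 2 := hcs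
      _ ≤ B * (2 * (N.card : ℝ)) := mul_le_mul_of_nonneg_left hsq hB0
      _ = 2 * B * N.card := by ring
  have hle : (A.card : ℝ) ≤ B + ∑ q ∈ range B, (((F q).card - 1 : ℕ) : ℝ) := by
    have h5 : A.card ≤ ∑ q ∈ range B, (1 + ((F q).card - 1)) := by
      rw [hcard]
      exact Finset.sum_le_sum (fun q _ => by omega)
    rw [Finset.sum_add_distrib, Finset.sum_const, card_range, smul_eq_mul, mul_one] at h5
    exact_mod_cast h5
  linarith

end Pool.Agent.Helper13.TSE
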