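import Mathlib
import Pool.Agent.Helper13.TSE.P1

/-!
# TSE-P4: intersection of a set of directions with an initial set
-/

namespace Pool.Agent.Helper13.TSE

open Finset

variable {d : ℕ}

private theorem desc_le {J d : ℕ} (hJ : J ≤ d) (b : ℕ) :
    J.descFactorial b * d ^ b ≤ d.descFactorial b * J ^ b := by
  induction b with
  | zero => simp
  | succ b ih =>
    rw [Nat.descFactorial_succ, Nat.descFactorial_succ, pow_succ, pow_succ]
    have h1 : (J - b) * d ≤ (d - b) * J := by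
      rcases le_total J b with h | h
      · rw [Nat.sub_eq_zero_of_le h, zero_mul]
        exact Nat.zero_le _
      · obtain ⟨x, rfl⟩ := Nat.exists_eq_add_of_le h
        obtain ⟨y, rfl⟩ := Nat.exists_eq_add_of_le hJ
        rw [Nat.add_sub_cancel_left, show b + x + y - b = x + y by omega]
        nlinarith
    calc (J - b) * J.descFactorial b * (d ^ b * d)
        = ((J - b) * d) * (J.descFactorial b * d ^ b) := by ring
      _ ≤ ((d - b) * J) * (d.descFactorial b * J ^ b) := Nat.mul_le_mul h1 ih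
      _ = (d - b) * d.descFactorial b * (J ^ b * J) := by ring

private theorem ratio_le {J d b : ℕ} (hJ : J ≤ d) (hb : b ≤ J) (hd : 1 ≤ d) :
    (((d - b).choose (J - b) : ℕ) : ℝ) / (d.choose J : ℝ) ≤ ((J : ℝ) / d) ^ b := by
  have hY : (0 : ℝ) < (d.choose J : ℝ) := by exact_mod_cast Nat.choose_pos hJ
  have hQ : (0 : ℝ) < (d.choose b : ℝ) := by exact_mod_cast Nat.choose_pos (hb.trans hJ)
  have hf : (0 : ℝ) < (b.factorial : ℝ) := by exact_mod_cast Nat.factorial_pos b
  have hd0 : (0 : ℝ) < (d : ℝ) := by exact_mod_cast hd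
  have h1 : (d.choose J : ℝ) * (J.choose b : ℝ) =
      (d.choose b : ℝ) * (((d - b).choose (J - b) : ℕ) : ℝ) := by
    exact_mod_cast Nat.choose_mul (n := d) (k := J) (s := b) hb
  have h2 : (b.factorial : ℝ) * (J.choose b : ℝ) * (d : ℝ) ^ b ≤
      (b.factorial : ℝ) * (d.choose b : ℝ) * (J : ℝ) ^ b := by
    have h3 := desc_le hJ b
    rw [Nat.descFactorial_eq_factorial_mul_choose, Nat.descFactorial_eq_factorial_mul_choose] at h3
    exact_mod_cast h3
  have h4 : (J.choose b : ℝ) * (d : ℝ) ^ b ≤ (d.choose b : ℝ) * (J : ℝ) ^ b := by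
    rw [mul_assoc, mul_assoc] at h2
    exact le_of_mul_le_mul_left h2 hf
  have h5 : (((d - b).choose (J - b) : ℕ) : ℝ) / (d.choose J : ℝ) =
      (J.choose b : ℝ) / (d.choose b : ℝ) := by
    rw [div_eq_div_iff hY.ne' hQ.ne']
    linarith
  rw [h5, div_pow, div_le_div_iff₀ hQ (pow_pos hd0 b)]
  linarith

/-- `C(d - b, J - b) / C(d, J) ≤ (J / d)^b`; `sum_perm_ini`. -/
theorem perm_subset_le (B : Finset (Fin d)) {J : ℕ} (hJ : J ≤ d) (hd : 1 ≤ d) :
    ((univ.filter fun σ : Equiv.Perm (Fin d) => B ⊆ ini σ J).card : ℝ) /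
      (Nat.factorial d : ℝ) ≤ ((J : ℝ) / d) ^ B.card := by
  have h1 := sum_perm_ini hJ (fun U : Finset (Fin d) => if B ⊆ U then (1 : ℝ) else 0)
  have h2 : ((univ.filter fun σ : Equiv.Perm (Fin d) => B ⊆ ini σ J).card : ℝ) =
      ∑ σ : Equiv.Perm (Fin d), if B ⊆ ini σ J then (1 : ℝ) else 0 := by
    rw [Finset.sum_boole]
  rw [h2, h1, Finset.sum_boole]
  have hY : (0 : ℝ) < (d.choose J : ℝ) := by exact_mod_cast Nat.choose_pos hJ
  rcases lt_or_ge J B.card with hB | hB
  · have h3 : (powersetCard J (univ : Finset (Fin d))).filter (fun U => B ⊆ U) = ∅ := by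
      rw [Finset.filter_eq_empty_iff]
      intro U hU hBU
      rw [mem_powersetCard] at hU
      have := card_le_card hBU
      omega
    rw [h3]
    simp only [card_empty, Nat.cast_zero, zero_div]
    positivity
  · refine le_trans ?_ (ratio_le hJ hB hd)
    refine div_le_div_of_nonneg_right ?_ hY.le
    have h4 : ((powersetCard J (univ : Finset (Fin d))).filter (fun U => B ⊆ U)).card ≤
        (powersetCard (J - B.card) (univ \ B)).card := by
      refine card_le_card_of_injOn (fun U => U \ B) ?_ ?_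
      · intro U hU
        simp only [coe_filter, mem_powersetCard, Set.mem_ofPred_eq] at hU
        simp only [mem_coe, mem_powersetCard]
        refine ⟨sdiff_subset_sdiff hU.1.1 (Subset.refl B), ?_⟩
        rw [card_sdiff_of_subset hU.2, hU.1.2]
      · intro U hU U' hU' h
        simp only [coe_filter, mem_powersetCard, Set.mem_ofPred_eq] at hU hU'
        have h' : U \ B = U' \ B := h
        rw [← sdiff_union_of_subset hU.2, h', sdiff_union_of_subset hU'.2]
    rw [card_powersetCard, card_sdiff_of_subset (subset_univ B), card_univ, Fintype.card_fin] at h4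
    exact_mod_cast h4

/-- `2 ^ |b ∩ ini σ J|` is the number of the subsets `B ⊆ b` with `B ⊆ ini σ J`; sum of
`perm_subset_le` over `B`: `∑ (J / d)^|B| = (1 + J / d)^|b| ≤ exp (J |b| / d)`. -/
theorem perm_pow_le (b : Finset (Fin d)) {J : ℕ} (hJ : J ≤ d) (hd : 1 ≤ d) :
    (∑ σ : Equiv.Perm (Fin d), (2 : ℝ) ^ (b ∩ ini σ J).card) / (Nat.factorial d : ℝ) ≤
      Real.exp ((J : ℝ) * b.card / d) := by
  have hd0 : (0 : ℝ) < (d : ℝ) := by exact_mod_cast hd
  have h1 : ∀ σ : Equiv.Perm (Fin d), (2 : ℝ) ^ (b ∩ ini σ J).card =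
      ∑ B ∈ b.powerset, if B ⊆ ini σ J then (1 : ℝ) else 0 := by
    intro σ
    rw [Finset.sum_boole]
    have h2 : b.powerset.filter (fun B => B ⊆ ini σ J) = (b ∩ ini σ J).powerset := by
      ext B
      simp only [mem_filter, mem_powerset, subset_inter_iff]
    rw [h2, card_powerset]
    norm_num
  have h2 : (∑ σ : Equiv.Perm (Fin d), (2 : ℝ) ^ (b ∩ ini σ J).card) / (Nat.factorial d : ℝ) =
      ∑ B ∈ b.powerset, ((univ.filter fun σ : Equiv.Perm (Fin d) => B ⊆ ini σ J).card : ℝ) /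
        (Nat.factorial d : ℝ) := by
    rw [← Finset.sum_div]
    congr 1
    rw [Finset.sum_congr rfl (fun σ _ => h1 σ), Finset.sum_comm]
    refine Finset.sum_congr rfl fun B _ => ?_
    rw [Finset.sum_boole]
  rw [h2]
  calc ∑ B ∈ b.powerset, ((univ.filter fun σ : Equiv.Perm (Fin d) => B ⊆ ini σ J).card : ℝ) /
        (Nat.factorial d : ℝ)
      ≤ ∑ B ∈ b.powerset, ((J : ℝ) / d) ^ B.card :=
        Finset.sum_le_sum fun B _ => perm_subset_le B hJ hd
    _ = ∑ B ∈ b.powerset, ((J : ℝ) / d) ^ B.card * 1 ^ (b.card - B.card) := by simp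
    _ = ((J : ℝ) / d + 1) ^ b.card := Finset.sum_pow_mul_eq_add_pow _ _ _
    _ ≤ (Real.exp ((J : ℝ) / d)) ^ b.card :=
        pow_le_pow_left₀ (by positivity) (Real.add_one_le_exp _) _
    _ = Real.exp ((J : ℝ) * b.card / d) := by
        rw [← Real.exp_nat_mul]
        congr 1
        ring

/-- `2 ^ x ≥ 2 ^ (8 J |b| / d + Λ)` on the event, and `exp (J |b| / d) ≤ 2 ^ (8 J |b| / d)`. -/
theorem perm_tail (b : Finset (Fin d)) {J : ℕ} (hJ : J ≤ d) (hd : 1 ≤ d) (Λ : ℕ) :
    ((univ.filter fun σ : Equiv.Perm (Fin d) =>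
        8 * ((J : ℝ) * b.card / d) + Λ ≤ ((b ∩ ini σ J).card : ℝ)).card : ℝ) /
      (Nat.factorial d : ℝ) ≤ 1 / 2 ^ Λ := by
  have hd0 : (0 : ℝ) < (d : ℝ) := by exact_mod_cast hd
  set x : ℝ := (J : ℝ) * b.card / d with hx
  have hx0 : 0 ≤ x := by positivity
  have hF : (0 : ℝ) < (Nat.factorial d : ℝ) := by exact_mod_cast Nat.factorial_pos d
  have h1 : ((univ.filter fun σ : Equiv.Perm (Fin d) =>
        8 * x + Λ ≤ ((b ∩ ini σ J).card : ℝ)).card : ℝ) * (2 : ℝ) ^ (8 * x + Λ) ≤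
      ∑ σ : Equiv.Perm (Fin d), (2 : ℝ) ^ (b ∩ ini σ J).card := by
    rw [← nsmul_eq_mul, ← Finset.sum_const]
    refine le_trans (Finset.sum_le_sum fun σ hσ => ?_)
      (Finset.sum_le_sum_of_subset_of_nonneg (Finset.filter_subset _ _) fun _ _ _ => by positivity)
    rw [mem_filter] at hσ
    rw [← Real.rpow_natCast]
    exact Real.rpow_le_rpow_of_exponent_le (by norm_num) hσ.2
  have h2 := perm_pow_le b hJ hd
  rw [div_le_iff₀ hF] at h2
  have h3 : Real.exp x ≤ (2 : ℝ) ^ (8 * x) := by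
    rw [Real.rpow_def_of_pos (by norm_num)]
    refine Real.exp_le_exp.2 ?_
    have := Real.log_two_gt_d9
    nlinarith
  have h4 : (0 : ℝ) < (2 : ℝ) ^ (8 * x) := Real.rpow_pos_of_pos (by norm_num) _
  have h5 : (2 : ℝ) ^ (8 * x + Λ) = (2 : ℝ) ^ (8 * x) * 2 ^ Λ := by
    rw [Real.rpow_add (by norm_num), Real.rpow_natCast]
  rw [div_le_div_iff₀ hF (by positivity), one_mul]
  rw [h5] at h1
  refine le_of_mul_le_mul_left ?_ h4
  calc (2 : ℝ) ^ (8 * x) * (((univ.filter fun σ : Equiv.Perm (Fin d) =>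
        8 * x + Λ ≤ ((b ∩ ini σ J).card : ℝ)).card : ℝ) * 2 ^ Λ)
      = ((univ.filter fun σ : Equiv.Perm (Fin d) =>
        8 * x + Λ ≤ ((b ∩ ini σ J).card : ℝ)).card : ℝ) * ((2 : ℝ) ^ (8 * x) * 2 ^ Λ) := by ring
    _ ≤ Real.exp x * (Nat.factorial d : ℝ) := h1.trans h2
    _ ≤ (2 : ℝ) ^ (8 * x) * (Nat.factorial d : ℝ) := mul_le_mul_of_nonneg_right h3 hF.le

end Pool.Agent.Helper13.TSE
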