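import Mathlib
import Pool.Agent.Helper13.TSE.A4
import Pool.Agent.Helper13.TSE.P4

/-!
# TSE-K2: regular orderings
-/

namespace Pool.Agent.Helper13.TSE

open Finset Pool.Agent.Helper82.TotSep Pool.Agent.Helper13.TSD

variable {V : Type*} [Fintype V] {G : SimpleGraph V} {d : ℕ} {L : FaceData G d} {M : Finset V}

/-- For each facet `a` not through `v` and each face of the flag the number of the neighbours of
`v` in `a ∩ M` is not much larger than expected. -/
def Rg (L : FaceData G d) (M : Finset V) (Λ : ℕ) (v : V) (σ : Equiv.Perm (Fin d)) : Prop :=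
  ∀ a ∈ fc L, v ∉ a → ∀ J ≤ d,
    (mm L M (fl L v σ J) v a : ℝ) < 8 * ((J : ℝ) * mm L M univ v a / d) + Λ

open Classical in
/-- `perm_tail` for each of the at most `d` facets `a` with `mm univ v a ≥ 1` (`sum_mm_le`) and each
`J ≤ d`; for `mm univ v a = 0` there is nothing to do.  `mm (fl v σ J) v a` is the number of the
elements of `ini σ J` in `b = {l | nb v l ∈ M ∩ a}`. -/
theorem card_not_Rg {Λ : ℕ} (hΛ : 1 ≤ Λ) (hd : 1 ≤ d) (v : V) :
    ((univ.filter fun σ : Equiv.Perm (Fin d) => ¬ Rg L M Λ v σ).card : ℝ) /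
      (Nat.factorial d : ℝ) ≤ (d : ℝ) * (d + 1) / 2 ^ Λ := by
  haveI : Nonempty V := ⟨v⟩
  have hfac : (0 : ℝ) < (Nat.factorial d : ℝ) := by exact_mod_cast Nat.factorial_pos d
  -- the directions of the neighbours in `a`
  set b : Finset V → Finset (Fin d) := fun a =>
    univ.filter fun l => L.nb v l ∈ M ∧ L.nb v l ∈ a with hb
  have hmmu : ∀ a, mm L M univ v a = (b a).card := by
    intro a
    have h1 : dir L (univ : Finset V) v = univ := by
      ext i; simp [mem_dir]
    unfold mm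
    rw [h1]
  have hmmf : ∀ (σ : Equiv.Perm (Fin d)) (J : ℕ) (a : Finset V),
      mm L M (fl L v σ J) v a = (b a ∩ ini σ J).card := by
    intro σ J a
    unfold fl
    rw [mm_faceOf]
    apply congrArg Finset.card
    ext l
    simp only [mem_filter, mem_inter, hb, mem_univ, true_and]
    tauto
  set S : Finset (Finset V) := (fc L).filter fun a => v ∉ a ∧ 1 ≤ mm L M univ v a with hS
  have hScard : S.card ≤ d := by
    have h1 : ∑ a ∈ S, mm L M univ v a ≤ d :=
      sum_mm_le (L := L) isFace_univ (mem_univ v) S (fun a ha => by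
        rw [hS, mem_filter] at ha
        exact ⟨ha.1, ha.2.1⟩)
    calc S.card = ∑ a ∈ S, 1 := by simp
      _ ≤ ∑ a ∈ S, mm L M univ v a := Finset.sum_le_sum (fun a ha => by
        rw [hS, mem_filter] at ha
        exact ha.2.2)
      _ ≤ d := h1
  set T : Finset V → ℕ → Finset (Equiv.Perm (Fin d)) := fun a J =>
    univ.filter fun σ => 8 * ((J : ℝ) * (b a).card / d) + Λ ≤ ((b a ∩ ini σ J).card : ℝ) with hT
  have hsub : (univ.filter fun σ : Equiv.Perm (Fin d) => ¬ Rg L M Λ v σ) ⊆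
      S.biUnion fun a => (range (d + 1)).biUnion fun J => T a J := by
    intro σ hσ
    rw [mem_filter] at hσ
    have h1 := hσ.2
    unfold Rg at h1
    push Not at h1
    obtain ⟨a, ha, hva, J, hJ, hle⟩ := h1
    rw [mem_biUnion]
    have h2 : 1 ≤ mm L M univ v a := by
      have h3 : mm L M (fl L v σ J) v a ≤ mm L M univ v a := mm_mono (subset_univ _) v a
      have h4 : (1 : ℝ) ≤ mm L M (fl L v σ J) v a := by
        have h5 : (1 : ℝ) ≤ Λ := by exact_mod_cast hΛ
        have h6 : (0 : ℝ) ≤ 8 * ((J : ℝ) * mm L M univ v a / d) := by positivity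
        linarith
      have h5 : 1 ≤ mm L M (fl L v σ J) v a := by exact_mod_cast h4
      omega
    refine ⟨a, by rw [hS, mem_filter]; exact ⟨ha, hva, h2⟩, ?_⟩
    rw [mem_biUnion]
    refine ⟨J, by rw [mem_range]; omega, ?_⟩
    rw [hT, mem_filter]
    refine ⟨mem_univ _, ?_⟩
    rw [hmmu, hmmf] at hle
    exact hle
  have hTcard : ∀ a ∈ S, ∀ J ∈ range (d + 1),
      ((T a J).card : ℝ) ≤ (Nat.factorial d : ℝ) / 2 ^ Λ := by
    intro a _ J hJ
    have h1 := perm_tail (b a) (J := J) (by rw [mem_range] at hJ; omega) hd Λ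
    rw [div_le_iff₀ hfac] at h1
    calc ((T a J).card : ℝ) ≤ 1 / 2 ^ Λ * (Nat.factorial d : ℝ) := by
          refine le_trans (le_of_eq ?_) h1
          congr 2
      _ = (Nat.factorial d : ℝ) / 2 ^ Λ := by ring
  have hcard : ((univ.filter fun σ : Equiv.Perm (Fin d) => ¬ Rg L M Λ v σ).card : ℝ) ≤
      (d : ℝ) * ((d + 1) * ((Nat.factorial d : ℝ) / 2 ^ Λ)) := by
    have h1 : (univ.filter fun σ : Equiv.Perm (Fin d) => ¬ Rg L M Λ v σ).card ≤
        ∑ a ∈ S, ∑ J ∈ range (d + 1), (T a J).card :=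
      (Finset.card_le_card hsub).trans (Finset.card_biUnion_le.trans
        (Finset.sum_le_sum fun a _ => Finset.card_biUnion_le))
    calc ((univ.filter fun σ : Equiv.Perm (Fin d) => ¬ Rg L M Λ v σ).card : ℝ)
        ≤ ((∑ a ∈ S, ∑ J ∈ range (d + 1), (T a J).card : ℕ) : ℝ) := by exact_mod_cast h1
      _ = ∑ a ∈ S, ∑ J ∈ range (d + 1), ((T a J).card : ℝ) := by push_cast; rfl
      _ ≤ ∑ a ∈ S, ∑ J ∈ range (d + 1), (Nat.factorial d : ℝ) / 2 ^ Λ :=
          Finset.sum_le_sum fun a ha => Finset.sum_le_sum fun J hJ => hTcard a ha J hJ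
      _ = (S.card : ℝ) * ((d + 1) * ((Nat.factorial d : ℝ) / 2 ^ Λ)) := by
          rw [Finset.sum_const, Finset.sum_const, card_range, nsmul_eq_mul, nsmul_eq_mul]
          push_cast; ring
      _ ≤ (d : ℝ) * ((d + 1) * ((Nat.factorial d : ℝ) / 2 ^ Λ)) := by
          apply mul_le_mul_of_nonneg_right
          · exact_mod_cast hScard
          · positivity
  rw [div_le_iff₀ hfac]
  calc ((univ.filter fun σ : Equiv.Perm (Fin d) => ¬ Rg L M Λ v σ).card : ℝ)
      ≤ (d : ℝ) * ((d + 1) * ((Nat.factorial d : ℝ) / 2 ^ Λ)) := hcard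
    _ = (d : ℝ) * (d + 1) / 2 ^ Λ * (Nat.factorial d : ℝ) := by ring

/-- One more direction adds at most one neighbour. -/
theorem mm_insert_lt {Λ : ℕ} {v : V} {σ : Equiv.Perm (Fin d)} (h : Rg L M Λ v σ)
    {a : Finset V} (ha : a ∈ fc L) (hv : v ∉ a) {j : ℕ} (hj : j + 1 ≤ d) (l : Fin d) :
    1 + (mm L M (faceOf L v (insert l (ini σ (j + 1)))) v a : ℝ) ≤
      8 * (((j : ℝ) + 1) * mm L M univ v a / d) + (Λ + 2) := by
  classical
  have h1 := h a ha hv (j + 1) hj
  have h2 : mm L M (faceOf L v (insert l (ini σ (j + 1)))) v a ≤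
      mm L M (fl L v σ (j + 1)) v a + 1 := by
    unfold fl
    rw [mm_faceOf, mm_faceOf, Finset.filter_insert]
    split_ifs
    · exact Finset.card_insert_le _ _
    · omega
  have h3 : (mm L M (faceOf L v (insert l (ini σ (j + 1)))) v a : ℝ) ≤
      mm L M (fl L v σ (j + 1)) v a + 1 := by exact_mod_cast h2
  push_cast at h1
  linarith

end Pool.Agent.Helper13.TSE
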