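import Mathlib
import Pool.Agent.Helper13.TSE.K1
import Pool.Agent.Helper13.TSE.K2
import Pool.Agent.Helper13.TSE.G1
import Pool.Agent.Helper13.TSE.G12
import Pool.Agent.Helper13.TSE.E5b

/-!
# TSE-K3: the number of uses, for a regular ordering
-/

namespace Pool.Agent.Helper13.TSE

open Finset Pool.Agent.Helper82.TotSep Pool.Agent.Helper13.TSD

variable {V : Type*} [Fintype V] {G : SimpleGraph V} {d : ℕ} {Λ' : Type*} {L : FaceData G d}
  {M : Finset V} {lab : V → Λ'}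

open Classical in
/-- the near pairs of ranks from `J0` on -/
noncomputable def np (d : ℕ) (lam : ℝ) (J0 : ℕ) : Finset (Fin d × Fin d) :=
  univ.filter fun p => J0 ≤ (p.1 : ℕ) ∧ p.1 < p.2 ∧ ((p.2 : ℝ) + 1) ≤ lam * ((p.1 : ℝ) + 1)

/-- the face of the configuration of the ranks `i > j` -/
noncomputable def FF (L : FaceData G d) (v : V) (σ : Equiv.Perm (Fin d)) (i j : Fin d) :
    Finset V :=
  faceOf L v (insert (σ.symm i) (ini σ (j + 1)))

open Classical in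
/-- the number of the ranks from `J0` on which are used with the missing facet `a` -/
noncomputable def us (L : FaceData G d) (M : Finset V) (lab : V → Λ') (J0 : ℕ) (v : V)
    (σ : Equiv.Perm (Fin d)) (a : Finset V) : ℕ :=
  (univ.filter fun t : Fin d => J0 ≤ (t : ℕ) ∧ Uz L M lab v σ t a).card

open Classical in
/-- The near pairs of used ranks with the missing facet `a` are configurations (`cfg_of_uses`),
each has `1 ≤ s1 + (1 + mm) s2` (`one_le_s`) and `1 + mm ≤ 8 (j + 1) mm univ v a / d + (Λ + 2)`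
(`mm_insert_lt`). -/
theorem pairs_le {Λ : ℕ} {lam : ℝ} {J0 : ℕ} {v : V} (hv : v ∈ M) {σ : Equiv.Perm (Fin d)}
    (h : Rg L M Λ v σ) {a : Finset V} (ha : a ∈ fc L) (hva : v ∉ a) :
    (((np d lam J0).filter fun p => Uz L M lab v σ p.1 a ∧ Uz L M lab v σ p.2 a).card : ℝ) ≤
      (∑ p ∈ np d lam J0,
        (s1 L M lab (p.1 + 1) (FF L v σ p.2 p.1) v (σ.symm p.2) (σ.symm p.1) a +
        ((Λ : ℝ) + 2) * s2 L M lab (p.1 + 1) (FF L v σ p.2 p.1) v (σ.symm p.2) (σ.symm p.1) a)) +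
      8 * mm L M univ v a / d * ∑ p ∈ np d lam J0, ((p.1 : ℝ) + 1) *
        s2 L M lab (p.1 + 1) (FF L v σ p.2 p.1) v (σ.symm p.2) (σ.symm p.1) a := by
  rw [Finset.mul_sum, ← Finset.sum_add_distrib, Finset.card_filter, Nat.cast_sum]
  refine Finset.sum_le_sum fun p hp => ?_
  have h1 : 0 ≤ s1 L M lab (p.1 + 1) (FF L v σ p.2 p.1) v (σ.symm p.2) (σ.symm p.1) a :=
    s1_nonneg _ _ _ _
  have h2 : 0 ≤ s2 L M lab (p.1 + 1) (FF L v σ p.2 p.1) v (σ.symm p.2) (σ.symm p.1) a :=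
    s2_nonneg _ _ _ _
  by_cases hu : Uz L M lab v σ p.1 a ∧ Uz L M lab v σ p.2 a
  · rw [if_pos hu, Nat.cast_one]
    have hlt : p.1 < p.2 := by
      simp only [np, Finset.mem_filter] at hp
      exact hp.2.2.1
    have hc : Cfg L M lab (p.1 + 1) (FF L v σ p.2 p.1) v (σ.symm p.2) (σ.symm p.1) a :=
      cfg_of_uses hlt hv hu.2 hu.1
    have h3 := one_le_s v (σ.symm p.2) (σ.symm p.1) a hc
    have h4 := mm_insert_lt h ha hva (j := p.1) p.1.isLt (σ.symm p.2)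
    have h5 := mul_le_mul_of_nonneg_right h4 h2
    refine h3.trans ?_
    have h6 : (8 * ((((p.1 : ℕ) : ℝ) + 1) * (mm L M univ v a : ℝ) / d) + ((Λ : ℝ) + 2)) *
        s2 L M lab (p.1 + 1) (FF L v σ p.2 p.1) v (σ.symm p.2) (σ.symm p.1) a =
      ((Λ : ℝ) + 2) * s2 L M lab (p.1 + 1) (FF L v σ p.2 p.1) v (σ.symm p.2) (σ.symm p.1) a +
      8 * (mm L M univ v a : ℝ) / d * ((((p.1 : ℕ) : ℝ) + 1) *
        s2 L M lab (p.1 + 1) (FF L v σ p.2 p.1) v (σ.symm p.2) (σ.symm p.1) a) := by ring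
    rw [h6] at h5
    rw [add_assoc]
    exact add_le_add_right h5 _
  · rw [if_neg hu, Nat.cast_zero]
    positivity

/-- the sum of the weights in `pairs_le`, first part -/
noncomputable def XX (L : FaceData G d) (M : Finset V) (lab : V → Λ') (Λ : ℕ) (lam : ℝ) (J0 : ℕ)
    (v : V) (σ : Equiv.Perm (Fin d)) : ℝ :=
  ∑ p ∈ np d lam J0, ∑ a ∈ fc L,
    (s1 L M lab (p.1 + 1) (FF L v σ p.2 p.1) v (σ.symm p.2) (σ.symm p.1) a +
    ((Λ : ℝ) + 2) * s2 L M lab (p.1 + 1) (FF L v σ p.2 p.1) v (σ.symm p.2) (σ.symm p.1) a)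

/-- the sum of the weights in `pairs_le`, second part -/
noncomputable def YY (L : FaceData G d) (M : Finset V) (lab : V → Λ') (lam : ℝ) (J0 : ℕ)
    (v : V) (σ : Equiv.Perm (Fin d)) : ℝ :=
  ∑ p ∈ np d lam J0, ((p.1 : ℝ) + 1) * ∑ a ∈ fc L,
    s2 L M lab (p.1 + 1) (FF L v σ p.2 p.1) v (σ.symm p.2) (σ.symm p.1) a

end Pool.Agent.Helper13.TSE
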