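import Mathlib
import Pool.Agent.Helper13.TSE.K3

/-!
# TSE-K3b: the number of uses, for a regular ordering
-/

namespace Pool.Agent.Helper13.TSE

open Finset Pool.Agent.Helper82.TotSep Pool.Agent.Helper13.TSD

variable {V : Type*} [Fintype V] {G : SimpleGraph V} {d : ℕ} {Λ' : Type*} {L : FaceData G d}
  {M : Finset V} {lab : V → Λ'}

open Classical in
/-- For each `a`, with `Π` near pairs, `us ≤ B + √(2 B Π)` (`card_le_near`), `Π ≤ X + 8 m Y / d`
(`pairs_le`, `m = mm univ v a`), `√(2 B X) ≤ B / 2 + X`, and by Cauchy-Schwarz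
`∑ √(16 B (m / d) Y) ≤ 4 √B √(∑ m / d) √(∑ Y)`, `∑ m ≤ d` (`sum_mm_le`). -/
theorem us_le {Λ : ℕ} {lam : ℝ} (h1 : 1 < lam) {B J0 : ℕ} (hB1 : 1 ≤ B) (hd : 1 ≤ d)
    (hB : (d : ℝ) ≤ lam ^ B * ((J0 : ℝ) + 1)) (m : ℕ) {v : V} (hv : v ∈ M)
    {σ : Equiv.Perm (Fin d)} (h : Rg L M Λ v σ) :
    ∑ a ∈ rel L M m v, (us L M lab J0 v σ a : ℝ) ≤ 3 / 2 * B * (rel L M m v).card +
      XX L M lab Λ lam J0 v σ + 4 * √(B : ℝ) * √(YY L M lab lam J0 v σ) := by
  have hs1 : ∀ (k : ℕ) (F : Finset V) (l1 l2 : Fin d) (a : Finset V),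
      0 ≤ s1 L M lab k F v l1 l2 a := by
    intro k F l1 l2 a
    unfold s1
    split_ifs <;> norm_num
  have hs2 : ∀ (k : ℕ) (F : Finset V) (l1 l2 : Fin d) (a : Finset V),
      0 ≤ s2 L M lab k F v l1 l2 a := by
    intro k F l1 l2 a
    unfold s2
    split_ifs
    · positivity
    · exact le_refl 0
  have hd0 : (0 : ℝ) < d := by exact_mod_cast hd
  have hB0 : (0 : ℝ) ≤ B := Nat.cast_nonneg B
  set X : Finset V → ℝ := fun a => ∑ p ∈ np d lam J0,
        (s1 L M lab (p.1 + 1) (FF L v σ p.2 p.1) v (σ.symm p.2) (σ.symm p.1) a +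
        ((Λ : ℝ) + 2) * s2 L M lab (p.1 + 1) (FF L v σ p.2 p.1) v (σ.symm p.2) (σ.symm p.1) a)
    with hX
  set Y : Finset V → ℝ := fun a => ∑ p ∈ np d lam J0, ((p.1 : ℝ) + 1) *
        s2 L M lab (p.1 + 1) (FF L v σ p.2 p.1) v (σ.symm p.2) (σ.symm p.1) a with hY
  have hX0 : ∀ a, 0 ≤ X a := by
    intro a
    refine Finset.sum_nonneg fun p _ => add_nonneg (hs1 _ _ _ _ _) (mul_nonneg ?_ (hs2 _ _ _ _ _))
    positivity
  have hY0 : ∀ a, 0 ≤ Y a := by
    intro a
    refine Finset.sum_nonneg fun p _ => mul_nonneg ?_ (hs2 _ _ _ _ _)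
    positivity
  have hrel : ∀ a ∈ rel L M m v, a ∈ fc L ∧ v ∉ a := by
    intro a ha
    rw [rel, Finset.mem_filter] at ha
    exact ⟨ha.1, ha.2.1⟩
  have key : ∀ a ∈ rel L M m v, (us L M lab J0 v σ a : ℝ) ≤
      3 / 2 * B + X a + 4 * √(B : ℝ) * (√((mm L M univ v a : ℝ) / d) * √(Y a)) := by
    intro a ha
    obtain ⟨hafc, hva⟩ := hrel a ha
    have hp := pairs_le (lab := lab) (lam := lam) (J0 := J0) hv h hafc hva
    set A : Finset ℕ := (univ.filter fun t : Fin d => J0 ≤ (t : ℕ) ∧ Uz L M lab v σ t a).map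
      Fin.valEmbedding with hAd
    have hAc : A.card = us L M lab J0 v σ a := by
      rw [hAd, Finset.card_map, us]
    have hA : ∀ t ∈ A, J0 ≤ t ∧ ((t : ℝ) + 1) ≤ lam ^ B * ((J0 : ℝ) + 1) := by
      intro t ht
      obtain ⟨s, hs, rfl⟩ := Finset.mem_map.mp ht
      rw [Finset.mem_filter] at hs
      refine ⟨hs.2.1, le_trans ?_ hB⟩
      have := s.2
      simp only [Fin.valEmbedding_apply]
      exact_mod_cast this
    have hnear := card_le_near A lam h1 B J0 hB1 hA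
    have hpc : ((A ×ˢ A).filter fun p => p.1 < p.2 ∧
        ((p.2 : ℝ) + 1) ≤ lam * ((p.1 : ℝ) + 1)).card ≤
        ((np d lam J0).filter fun p => Uz L M lab v σ p.1 a ∧ Uz L M lab v σ p.2 a).card := by
      rw [← Finset.card_map (Fin.valEmbedding.prodMap Fin.valEmbedding)]
      refine Finset.card_le_card ?_
      rintro ⟨x, y⟩ hxy
      rw [Finset.mem_filter, Finset.mem_product] at hxy
      obtain ⟨⟨hx, hy⟩, hlt, hle⟩ := hxy
      obtain ⟨s, hs, hsx⟩ := Finset.mem_map.mp hx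
      obtain ⟨t, ht, hty⟩ := Finset.mem_map.mp hy
      rw [Finset.mem_filter] at hs ht
      simp only [Fin.valEmbedding_apply] at hsx hty
      subst hsx; subst hty
      refine Finset.mem_map.mpr ⟨(s, t), ?_, rfl⟩
      rw [Finset.mem_filter, np, Finset.mem_filter]
      exact ⟨⟨Finset.mem_univ _, hs.2.1, hlt, hle⟩, hs.2.2, ht.2.2⟩
    have hpR : (((A ×ˢ A).filter fun p => p.1 < p.2 ∧
        ((p.2 : ℝ) + 1) ≤ lam * ((p.1 : ℝ) + 1)).card : ℝ) ≤
        X a + 8 * mm L M univ v a / d * Y a := le_trans (by exact_mod_cast hpc) hp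
    have hYm : 0 ≤ 8 * (mm L M univ v a : ℝ) / d * Y a :=
      mul_nonneg (by positivity) (hY0 a)
    have h3 : √(2 * B * (((A ×ˢ A).filter fun p => p.1 < p.2 ∧
        ((p.2 : ℝ) + 1) ≤ lam * ((p.1 : ℝ) + 1)).card : ℝ)) ≤
        √(2 * B * X a) + √(16 * B * ((mm L M univ v a : ℝ) / d * Y a)) := by
      refine (Real.sqrt_le_sqrt (mul_le_mul_of_nonneg_left hpR (by positivity))).trans ?_
      have h4 : 2 * (B : ℝ) * (X a + 8 * mm L M univ v a / d * Y a) =
          2 * B * X a + 16 * B * ((mm L M univ v a : ℝ) / d * Y a) := by ring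
      rw [h4]
      apply Real.sqrt_le_iff.mpr
      have hu : 0 ≤ 2 * (B : ℝ) * X a := mul_nonneg (by positivity) (hX0 a)
      have hw : 0 ≤ 16 * (B : ℝ) * ((mm L M univ v a : ℝ) / d * Y a) :=
        mul_nonneg (by positivity) (mul_nonneg (by positivity) (hY0 a))
      refine ⟨by positivity, ?_⟩
      nlinarith [Real.sq_sqrt hu, Real.sq_sqrt hw, mul_nonneg (Real.sqrt_nonneg (2 * (B : ℝ) * X a))
        (Real.sqrt_nonneg (16 * (B : ℝ) * ((mm L M univ v a : ℝ) / d * Y a)))]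
    have h5 : √(2 * B * X a) ≤ B / 2 + X a := by
      apply Real.sqrt_le_iff.mpr
      have := hX0 a
      refine ⟨by positivity, ?_⟩
      nlinarith [sq_nonneg ((B : ℝ) / 2 - X a)]
    have h6 : √(16 * B * ((mm L M univ v a : ℝ) / d * Y a)) =
        4 * √(B : ℝ) * (√((mm L M univ v a : ℝ) / d) * √(Y a)) := by
      rw [Real.sqrt_mul (by positivity), Real.sqrt_mul (by positivity) (Y a),
        Real.sqrt_mul (by norm_num)]
      have : √(16 : ℝ) = 4 := by
        rw [show (16 : ℝ) = 4 ^ 2 by norm_num]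
        exact Real.sqrt_sq (by norm_num)
      rw [this]
    rw [hAc] at hnear
    linarith
  refine (Finset.sum_le_sum key).trans ?_
  rw [Finset.sum_add_distrib, Finset.sum_add_distrib, Finset.sum_const, nsmul_eq_mul,
    ← Finset.mul_sum]
  have hXX : ∑ a ∈ rel L M m v, X a ≤ XX L M lab Λ lam J0 v σ := by
    have h10 : XX L M lab Λ lam J0 v σ = ∑ a ∈ fc L, X a := by
      rw [XX, Finset.sum_comm]
    rw [h10]
    exact Finset.sum_le_sum_of_subset_of_nonneg (fun a ha => (hrel a ha).1) fun a _ _ => hX0 a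
  have hYY : ∑ a ∈ rel L M m v, Y a ≤ YY L M lab lam J0 v σ := by
    have : YY L M lab lam J0 v σ = ∑ a ∈ fc L, Y a := by
      rw [YY, hY, Finset.sum_comm]
      exact Finset.sum_congr rfl fun p _ => Finset.mul_sum _ _ _
    rw [this]
    exact Finset.sum_le_sum_of_subset_of_nonneg (fun a ha => (hrel a ha).1) fun a _ _ => hY0 a
  have hmm : ∑ a ∈ rel L M m v, (mm L M univ v a : ℝ) / d ≤ 1 := by
    rw [← Finset.sum_div, div_le_one hd0]
    have : Nonempty V := ⟨v⟩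
    have := sum_mm_le (L := L) (M := M) (isFace_univ (L := L)) (Finset.mem_univ v)
      (rel L M m v) hrel
    exact_mod_cast this
  have hCS : ∑ a ∈ rel L M m v, √((mm L M univ v a : ℝ) / d) * √(Y a) ≤
      √(YY L M lab lam J0 v σ) := by
    refine (Real.sum_sqrt_mul_sqrt_le _ (fun a => by positivity) hY0).trans ?_
    have h7 : √(∑ a ∈ rel L M m v, (mm L M univ v a : ℝ) / d) ≤ 1 := by
      rw [← Real.sqrt_one]
      exact Real.sqrt_le_sqrt hmm
    calc _ ≤ 1 * √(YY L M lab lam J0 v σ) :=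
          mul_le_mul h7 (Real.sqrt_le_sqrt hYY) (Real.sqrt_nonneg _) zero_le_one
      _ = _ := one_mul _
  have h8 : 4 * √(B : ℝ) * ∑ a ∈ rel L M m v, √((mm L M univ v a : ℝ) / d) * √(Y a) ≤
      4 * √(B : ℝ) * √(YY L M lab lam J0 v σ) :=
    mul_le_mul_of_nonneg_left hCS (by positivity)
  have h9 : ((rel L M m v).card : ℝ) * (3 / 2 * B) = 3 / 2 * B * (rel L M m v).card := by ring
  linarith

end Pool.Agent.Helper13.TSE
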