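import Mathlib
import Pool.Agent.Helper13.TSE.P1

/-!
# TSE-P2: the last direction of an initial set
-/

namespace Pool.Agent.Helper13.TSE

open Finset

variable {d : ℕ}

private lemma p2_swap_lt {J : ℕ} {s t : Fin d} (h : (s : ℕ) < J ↔ (t : ℕ) < J) (x : Fin d) :
    ((Equiv.swap s t x : Fin d) : ℕ) < J ↔ (x : ℕ) < J := by
  rcases eq_or_ne x s with rfl | h1
  · rw [Equiv.swap_apply_left]
    exact h.symm
  · rcases eq_or_ne x t with rfl | h2
    · rw [Equiv.swap_apply_right]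
      exact h
    · rw [Equiv.swap_apply_of_ne_of_ne h1 h2]

/-- For `s, t < J`, left multiplication with `Equiv.swap s t` does not change `ini σ J`. -/
theorem ini_swap (σ : Equiv.Perm (Fin d)) {J : ℕ} {s t : Fin d} (hs : (s : ℕ) < J)
    (ht : (t : ℕ) < J) : ini (Equiv.swap s t * σ) J = ini σ J := by
  ext l
  rw [mem_ini, mem_ini, Equiv.Perm.mul_apply]
  exact p2_swap_lt (iff_of_true hs ht) (σ l)

/-- For `s, t ≥ J` too. -/
theorem ini_swap' (σ : Equiv.Perm (Fin d)) {J : ℕ} {s t : Fin d} (hs : J ≤ (s : ℕ))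
    (ht : J ≤ (t : ℕ)) : ini (Equiv.swap s t * σ) J = ini σ J := by
  ext l
  rw [mem_ini, mem_ini, Equiv.Perm.mul_apply]
  exact p2_swap_lt (iff_of_false (not_lt.2 hs) (not_lt.2 ht)) (σ l)

/-- Average over the swaps of `t` and `s ≤ t` (`ini_swap`, `Fintype.sum_equiv` with
`Equiv.mulLeft`). -/
theorem sum_perm_last (t : Fin d) (φ : Finset (Fin d) → Fin d → ℝ) :
    ((t : ℝ) + 1) * ∑ σ : Equiv.Perm (Fin d), φ (ini σ (t + 1)) (σ.symm t) =
      ∑ σ : Equiv.Perm (Fin d), ∑ l ∈ ini σ (t + 1), φ (ini σ (t + 1)) l := by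
  have h1 : ∀ σ : Equiv.Perm (Fin d), ∑ l ∈ ini σ (t + 1), φ (ini σ (t + 1)) l
      = ∑ s ∈ Finset.Iic t, φ (ini σ (t + 1)) (σ.symm s) := fun σ => by
    refine Finset.sum_bij' (fun l _ => σ l) (fun s _ => σ.symm s) ?_ ?_ ?_ ?_ ?_
    · intro l hl
      rw [mem_ini] at hl
      rw [Finset.mem_Iic, Fin.le_def]
      omega
    · intro s hs
      rw [Finset.mem_Iic, Fin.le_def] at hs
      rw [mem_ini, Equiv.apply_symm_apply]
      omega
    · intro l _
      simp
    · intro s _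
      simp
    · intro l _
      simp
  have h2 : ∀ s ∈ Finset.Iic t, ∑ σ : Equiv.Perm (Fin d), φ (ini σ (t + 1)) (σ.symm s)
      = ∑ σ : Equiv.Perm (Fin d), φ (ini σ (t + 1)) (σ.symm t) := fun s hs => by
    rw [Finset.mem_Iic, Fin.le_def] at hs
    refine Fintype.sum_equiv (Equiv.mulLeft (Equiv.swap s t)) _ _ fun σ => ?_
    have e : (Equiv.swap s t * σ).symm t = σ.symm s := by
      rw [Equiv.symm_apply_eq, Equiv.Perm.mul_apply, Equiv.apply_symm_apply,
        Equiv.swap_apply_left]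
    rw [Equiv.coe_mulLeft, ini_swap σ (show (s : ℕ) < t + 1 by omega) (Nat.lt_succ_self _), e]
  rw [Finset.sum_congr rfl fun σ _ => h1 σ, Finset.sum_comm, Finset.sum_congr rfl h2,
    Finset.sum_const, Fin.card_Iic, nsmul_eq_mul]
  push_cast
  rfl

end Pool.Agent.Helper13.TSE
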