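import Mathlib
import Pool.Agent.Helper13.TSE.P2

/-!
# TSE-P3: two directions
-/

namespace Pool.Agent.Helper13.TSE

open Finset

variable {d : ℕ}

/-- The swap of `i` and `j + 1` brings the direction of rank `i` to rank `j + 1` and does not
change `ini σ (j + 1)`, so one may take `i = j + 1`, and the set is `ini σ (j + 2)`. -/
theorem sum_perm_pair_adj (i j j' : Fin d) (hji : j < i) (hj' : (j' : ℕ) = j + 1)
    (φ : Finset (Fin d) → Fin d → Fin d → ℝ) :
    ∑ σ : Equiv.Perm (Fin d), φ (insert (σ.symm i) (ini σ (j + 1))) (σ.symm i) (σ.symm j) =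
      ∑ σ : Equiv.Perm (Fin d), φ (ini σ (j + 2)) (σ.symm j') (σ.symm j) := by
  rw [← Equiv.sum_comp (Equiv.mulLeft (Equiv.swap i j'))
    (fun σ : Equiv.Perm (Fin d) =>
      φ (insert (σ.symm i) (ini σ (j + 1))) (σ.symm i) (σ.symm j))]
  refine Finset.sum_congr rfl fun σ _ => ?_
  have hi : (j : ℕ) + 1 ≤ (i : ℕ) := hji
  have h1 : ini (Equiv.swap i j' * σ) (j + 1) = ini σ (j + 1) :=
    ini_swap' σ hi (by omega)
  have h2 : (Equiv.swap i j' * σ).symm i = σ.symm j' := by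
    show σ.symm ((Equiv.swap i j').symm i) = _
    rw [Equiv.symm_swap, Equiv.swap_apply_left]
  have h3 : (Equiv.swap i j' * σ).symm j = σ.symm j := by
    show σ.symm ((Equiv.swap i j').symm j) = _
    rw [Equiv.symm_swap, Equiv.swap_apply_of_ne_of_ne (ne_of_lt hji)
      (by intro h; rw [h] at hj'; omega)]
  have h4 : ini σ (j + 2) = insert (σ.symm j') (ini σ (j + 1)) := by
    have := (ini_succ σ j').1
    rw [hj'] at this
    exact this
  simp only [Equiv.coe_mulLeft, h1, h2, h3, h4]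

private theorem sum_avg (t : Fin d) (F : Equiv.Perm (Fin d) → Fin d → ℝ)
    (hF : ∀ s : Fin d, s ≤ t → ∀ σ l, F (Equiv.swap s t * σ) l = F σ l) :
    ((t : ℝ) + 1) * ∑ σ : Equiv.Perm (Fin d), F σ (σ.symm t) =
      ∑ σ : Equiv.Perm (Fin d), ∑ l ∈ ini σ (t + 1), F σ l := by
  have h1 : ∀ s ∈ Finset.Iic t, ∑ σ : Equiv.Perm (Fin d), F σ (σ.symm t)
      = ∑ σ : Equiv.Perm (Fin d), F σ (σ.symm s) := by
    intro s hs
    rw [← Equiv.sum_comp (Equiv.mulLeft (Equiv.swap s t))
      (fun σ : Equiv.Perm (Fin d) => F σ (σ.symm t))]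
    refine Finset.sum_congr rfl fun σ _ => ?_
    simp only [Equiv.coe_mulLeft]
    rw [hF s (Finset.mem_Iic.mp hs)]
    congr 1
    show σ.symm ((Equiv.swap s t).symm t) = _
    rw [Equiv.symm_swap, Equiv.swap_apply_right]
  have h2 : ((t : ℝ) + 1) * ∑ σ : Equiv.Perm (Fin d), F σ (σ.symm t)
      = ∑ s ∈ Finset.Iic t, ∑ σ : Equiv.Perm (Fin d), F σ (σ.symm s) := by
    rw [← Finset.sum_congr rfl h1, Finset.sum_const, Fin.card_Iic, nsmul_eq_mul]
    push_cast
    ring
  rw [h2, Finset.sum_comm]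
  refine Finset.sum_congr rfl fun σ _ => ?_
  apply Finset.sum_bij (fun s _ => σ.symm s)
  · intro s hs
    rw [Finset.mem_Iic] at hs
    simp only [ini, mem_filter, mem_univ, true_and, Equiv.apply_symm_apply]
    have : (s : ℕ) ≤ t := hs
    omega
  · intro s _ s' _ h
    exact σ.symm.injective h
  · intro l hl
    simp only [ini, mem_filter, mem_univ, true_and] at hl
    refine ⟨σ l, ?_, by simp⟩
    rw [Finset.mem_Iic, Fin.le_def]
    omega
  · intro s _
    rfl

/-- Average over the swaps: first of the last two directions among all (`l1`), then `l2` among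
the others; then `sum_perm_ini`. -/
theorem sum_perm_pair (i j : Fin d) (hji : j < i) (φ : Finset (Fin d) → Fin d → Fin d → ℝ) :
    (∑ σ : Equiv.Perm (Fin d),
        φ (insert (σ.symm i) (ini σ (j + 1))) (σ.symm i) (σ.symm j)) / (Nat.factorial d : ℝ) =
      (∑ U ∈ powersetCard (j + 2) univ, ∑ l1 ∈ U, ∑ l2 ∈ U.erase l1, φ U l1 l2) /
        (((j : ℝ) + 2) * ((j : ℝ) + 1) * (d.choose (j + 2) : ℝ)) := by
  have hi : (j : ℕ) + 1 ≤ (i : ℕ) := hji
  have hid := i.2
  set j' : Fin d := ⟨j + 1, by omega⟩ with hj'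
  have hj'1 : (j' : ℕ) = j + 1 := rfl
  rw [sum_perm_pair_adj i j j' hji hj'1]
  -- step A
  have hA := sum_avg j (fun σ l2 => φ (ini σ (j + 2)) (σ.symm j') l2) (by
    intro s hs σ l
    have hs' : (s : ℕ) ≤ j := hs
    have e1 : ini (Equiv.swap s j * σ) (j + 2) = ini σ (j + 2) :=
      ini_swap σ (by omega) (by omega)
    have e2 : (Equiv.swap s j * σ).symm j' = σ.symm j' := by
      show σ.symm ((Equiv.swap s j).symm j') = _
      rw [Equiv.symm_swap, Equiv.swap_apply_of_ne_of_ne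
        (by intro h; rw [← h] at hs'; omega)
        (by intro h; have := congrArg Fin.val h; omega)]
    simp only [e1, e2])
  -- step B
  set ψ : Finset (Fin d) → Fin d → ℝ := fun U l1 => ∑ l2 ∈ U.erase l1, φ U l1 l2 with hψ
  have hini : ∀ σ : Equiv.Perm (Fin d), ini σ (j + 1) = (ini σ (j + 2)).erase (σ.symm j') := by
    intro σ
    have h := ini_succ σ j'
    rw [hj'1] at h
    have h2 : ini σ (j + 2) = insert (σ.symm j') (ini σ (j + 1)) := h.1
    rw [h2, Finset.erase_insert h.2]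
  have hA' : ((j : ℝ) + 1) * ∑ σ : Equiv.Perm (Fin d), φ (ini σ (j + 2)) (σ.symm j') (σ.symm j)
      = ∑ σ : Equiv.Perm (Fin d), ψ (ini σ (j + 2)) (σ.symm j') := by
    rw [hA]
    refine Finset.sum_congr rfl fun σ _ => ?_
    rw [hψ]
    simp only
    rw [← hini σ]
  have hB := sum_perm_last j' ψ
  have hC := sum_perm_ini (j := j + 2) (by omega) (fun U : Finset (Fin d) => ∑ l1 ∈ U, ψ U l1)
  have hB' : ((j : ℝ) + 2) * ∑ σ : Equiv.Perm (Fin d), ψ (ini σ (j + 2)) (σ.symm j')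
      = ∑ σ : Equiv.Perm (Fin d), ∑ l ∈ ini σ (j + 2), ψ (ini σ (j + 2)) l := by
    have h5 : ((j' : ℝ) + 1) = (j : ℝ) + 2 := by
      rw [hj'1]; push_cast; ring
    rw [h5] at hB
    exact hB
  have hj1 : ((j : ℝ) + 1) ≠ 0 := by positivity
  have hj2 : ((j : ℝ) + 2) ≠ 0 := by positivity
  have hfac : (Nat.factorial d : ℝ) ≠ 0 := by exact_mod_cast Nat.factorial_ne_zero d
  have hch : (d.choose (j + 2) : ℝ) ≠ 0 := by
    exact_mod_cast (Nat.choose_pos (by omega)).ne'
  set X := ∑ σ : Equiv.Perm (Fin d), φ (ini σ (j + 2)) (σ.symm j') (σ.symm j)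
  set R := ∑ U ∈ powersetCard (j + 2) (univ : Finset (Fin d)), ∑ l1 ∈ U, ψ U l1
  rw [← hB', ← hA'] at hC
  show X / (Nat.factorial d : ℝ) = R / _
  rw [div_eq_div_iff hfac hch] at hC
  rw [div_eq_div_iff hfac (by positivity)]
  linear_combination hC

end Pool.Agent.Helper13.TSE
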