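import Mathlib
import Pool.Agent.Helper13.TSE.L2
import Pool.Agent.Helper13.TSE.P3

/-!
# TSE-H1: means over flags and over faces
-/

namespace Pool.Agent.Helper13.TSE

open Finset Pool.Agent.Helper82.TotSep Pool.Agent.Helper13.TSD

variable {V : Type*} [Fintype V] {G : SimpleGraph V} {d : ℕ} {L : FaceData G d} {M : Finset V}

theorem Es_mono {f g : V → Equiv.Perm (Fin d) → ℝ} (h : ∀ v ∈ M, ∀ σ, f v σ ≤ g v σ) :
    Es M f ≤ Es M g := by
  unfold Es
  refine Finset.sum_le_sum fun v hv => ?_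
  exact div_le_div_of_nonneg_right (Finset.sum_le_sum fun σ _ => h v hv σ) (Nat.cast_nonneg _)

theorem Es_nonneg {f : V → Equiv.Perm (Fin d) → ℝ} (h : ∀ v ∈ M, ∀ σ, 0 ≤ f v σ) :
    0 ≤ Es M f := by
  unfold Es
  refine Finset.sum_nonneg fun v hv => ?_
  exact div_nonneg (Finset.sum_nonneg fun σ _ => h v hv σ) (Nat.cast_nonneg _)

theorem Es_add (f g : V → Equiv.Perm (Fin d) → ℝ) :
    Es M (fun v σ => f v σ + g v σ) = Es M f + Es M g := by
  unfold Es
  rw [← Finset.sum_add_distrib]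
  refine Finset.sum_congr rfl fun v _ => ?_
  rw [Finset.sum_add_distrib, add_div]

theorem Es_mul (c : ℝ) (f : V → Equiv.Perm (Fin d) → ℝ) :
    Es M (fun v σ => c * f v σ) = c * Es M f := by
  unfold Es
  rw [Finset.mul_sum]
  refine Finset.sum_congr rfl fun v _ => ?_
  rw [← Finset.mul_sum, mul_div_assoc]

theorem Es_sum {ι : Type*} (S : Finset ι) (f : ι → V → Equiv.Perm (Fin d) → ℝ) :
    Es M (fun v σ => ∑ i ∈ S, f i v σ) = ∑ i ∈ S, Es M (f i) := by
  unfold Es
  rw [Finset.sum_comm]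
  refine Finset.sum_congr rfl fun v _ => ?_
  rw [Finset.sum_comm, Finset.sum_div]

theorem Es_node (x : V → ℝ) : Es (d := d) M (fun v _ => x v) = ∑ v ∈ M, x v := by
  unfold Es
  refine Finset.sum_congr rfl fun v _ => ?_
  have h : ((Nat.factorial d : ℕ) : ℝ) ≠ 0 := by exact_mod_cast Nat.factorial_ne_zero d
  rw [Finset.sum_const, Finset.card_univ, Fintype.card_perm, Fintype.card_fin, nsmul_eq_mul,
    mul_comm, mul_div_assoc, div_self h, mul_one]

private lemma H1_inner_univ (M : Finset V) : inner M (univ : Finset V) = M := by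
  ext x
  simp [Helper82.TotSep.inner]

private lemma H1_dir_univ (L : FaceData G d) (v : V) : dir L (univ : Finset V) v = univ := by
  ext l
  simp [mem_dir]

private lemma H1_av (M : Finset V) (j : ℕ) (φ : V → Finset V → ℝ) :
    av L d univ j (fun F => ∑ v ∈ inner M F, φ v F) =
      ∑ v ∈ M, (∑ U ∈ powersetCard j (univ : Finset (Fin d)), φ v (faceOf L v U)) /
        (d.choose j : ℝ) := by
  rcases isEmpty_or_nonempty V with hV | hV
  · have h1 : M = ∅ := Finset.eq_empty_of_isEmpty M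
    have h2 : fcs L j (univ : Finset V) = ∅ := by
      refine Finset.eq_empty_of_forall_notMem fun F hF => ?_
      obtain ⟨x, _⟩ := (mem_fcs.mp hF).1.nonempty
      exact hV.elim x
    rw [av, h1, h2, Finset.sum_empty, Finset.sum_empty, zero_div]
  · rw [av, sum_fcs_inner isFace_univ M j φ, H1_inner_univ, Finset.sum_div]
    refine Finset.sum_congr rfl fun v _ => ?_
    rw [H1_dir_univ]

/-- The face at step `j` (`sum_perm_ini`, `sum_fcs_inner` for `P = univ`). -/
theorem Es_fl {j : ℕ} (hj : j ≤ d) (ψ : V → Finset V → ℝ) :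
    Es M (fun v σ => ψ v (fl L v σ j)) =
      av L d univ j (fun F => ∑ v ∈ inner M F, ψ v F) := by
  rw [H1_av, Es]
  refine Finset.sum_congr rfl fun v _ => ?_
  exact sum_perm_ini hj fun U => ψ v (faceOf L v U)

/-- The last direction (`sum_perm_last`). -/
theorem Es_last (t : Fin d) (φ : V → Finset (Fin d) → Fin d → ℝ) :
    ((t : ℝ) + 1) * Es M (fun v σ => φ v (ini σ (t + 1)) (σ.symm t)) =
      Es M (fun v σ => ∑ l ∈ ini σ (t + 1), φ v (ini σ (t + 1)) l) := by
  unfold Es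
  rw [Finset.mul_sum]
  refine Finset.sum_congr rfl fun v _ => ?_
  rw [← mul_div_assoc, sum_perm_last t (φ v)]

/-- Two directions (`sum_perm_pair`, `sum_fcs_inner` for `P = univ`). -/
theorem Es_pair (i j : Fin d) (hji : j < i) (ψ : Finset V → V → Fin d → Fin d → ℝ) :
    Es M (fun v σ => ψ (faceOf L v (insert (σ.symm i) (ini σ (j + 1)))) v (σ.symm i)
        (σ.symm j)) =
      1 / (((j : ℝ) + 2) * ((j : ℝ) + 1)) * av L d univ (j + 2) (fun F =>
        ∑ v ∈ inner M F, ∑ l1 ∈ dir L F v, ∑ l2 ∈ (dir L F v).erase l1, ψ F v l1 l2) := by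
  rw [H1_av (L := L) M (j + 2)
    (fun v F => ∑ l1 ∈ dir L F v, ∑ l2 ∈ (dir L F v).erase l1, ψ F v l1 l2), Es, Finset.mul_sum]
  refine Finset.sum_congr rfl fun v _ => ?_
  rw [sum_perm_pair i j hji fun U l1 l2 => ψ (faceOf L v U) v l1 l2]
  have h : ∑ U ∈ powersetCard ((j : ℕ) + 2) (univ : Finset (Fin d)),
      ∑ l1 ∈ U, ∑ l2 ∈ U.erase l1, ψ (faceOf L v U) v l1 l2 =
      ∑ U ∈ powersetCard ((j : ℕ) + 2) (univ : Finset (Fin d)),
      ∑ l1 ∈ dir L (faceOf L v U) v, ∑ l2 ∈ (dir L (faceOf L v U) v).erase l1,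
        ψ (faceOf L v U) v l1 l2 := by
    refine Finset.sum_congr rfl fun U _ => ?_
    rw [dir_faceOf]
  rw [h]
  generalize (∑ U ∈ powersetCard ((j : ℕ) + 2) (univ : Finset (Fin d)),
      ∑ l1 ∈ dir L (faceOf L v U) v, ∑ l2 ∈ (dir L (faceOf L v U) v).erase l1,
        ψ (faceOf L v U) v l1 l2) = S
  rw [one_div, div_eq_mul_inv, div_eq_mul_inv, mul_inv]
  ring

end Pool.Agent.Helper13.TSE
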