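import Mathlib
import Pool.Agent.Helper13.TSE.H1

/-!
# TSE-K4d: the mean of the weights
-/

namespace Pool.Agent.Helper13.TSE

open Finset Pool.Agent.Helper82.TotSep Pool.Agent.Helper13.TSD

variable {V : Type*} [Fintype V] {G : SimpleGraph V} {d : ℕ} {Λ' : Type*} {L : FaceData G d}
  {M : Finset V} {lab : V → Λ'}

/-- Cauchy-Schwarz. -/
theorem Es_sqrt {f : V → Equiv.Perm (Fin d) → ℝ} (h : ∀ v σ, 0 ≤ f v σ) :
    Es M (fun v σ => √(f v σ)) ≤ √(M.card * Es M f) := by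
  classical
  have hN : (0 : ℝ) < (Nat.factorial d : ℝ) := by exact_mod_cast Nat.factorial_pos d
  have e1 : ∀ g : V → Equiv.Perm (Fin d) → ℝ,
      Es M g = (∑ p ∈ M ×ˢ (univ : Finset (Equiv.Perm (Fin d))), g p.1 p.2) /
        (Nat.factorial d : ℝ) := by
    intro g
    unfold Es
    rw [Finset.sum_product, ← Finset.sum_div]
  have hcard : ((M ×ˢ (univ : Finset (Equiv.Perm (Fin d)))).card : ℝ) =
      (M.card : ℝ) * (Nat.factorial d : ℝ) := by
    rw [Finset.card_product, Finset.card_univ, Fintype.card_perm, Fintype.card_fin]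
    push_cast
    rfl
  have hcs := sq_sum_le_card_mul_sum_sq (s := M ×ˢ (univ : Finset (Equiv.Perm (Fin d))))
    (f := fun p => √(f p.1 p.2))
  have hsq : ∑ p ∈ M ×ˢ (univ : Finset (Equiv.Perm (Fin d))), (√(f p.1 p.2)) ^ 2 =
      ∑ p ∈ M ×ˢ (univ : Finset (Equiv.Perm (Fin d))), f p.1 p.2 :=
    Finset.sum_congr rfl fun p _ => Real.sq_sqrt (h p.1 p.2)
  rw [hsq, hcard] at hcs
  apply Real.le_sqrt_of_sq_le
  rw [e1, e1, div_pow, div_le_iff₀ (by positivity)]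
  calc (∑ p ∈ M ×ˢ (univ : Finset (Equiv.Perm (Fin d))), √(f p.1 p.2)) ^ 2
      ≤ (M.card : ℝ) * (Nat.factorial d : ℝ) *
        ∑ p ∈ M ×ˢ (univ : Finset (Equiv.Perm (Fin d))), f p.1 p.2 := hcs
    _ = _ := by field_simp

end Pool.Agent.Helper13.TSE
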