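import Mathlib
import Pool.Agent.Helper13.TSE.K3b
import Pool.Agent.Helper13.TSE.K4d

/-!
# TSE-K5: the mean number of uses with relevant missing facets
-/

namespace Pool.Agent.Helper13.TSE

open Finset Pool.Agent.Helper82.TotSep Pool.Agent.Helper13.TSD

variable {V : Type*} [Fintype V] {G : SimpleGraph V} {d : ℕ} {Λ' : Type*} {L : FaceData G d}
  {M : Finset V} {lab : V → Λ'}

/-- In all cases `∑ us ≤ d²`: at most `d` facets (`sum_mm_le`), and `d` ranks. -/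
theorem sum_us_le_sq {m : ℕ} (hm : 1 ≤ m) (J0 : ℕ) (v : V) (σ : Equiv.Perm (Fin d)) :
    ∑ a ∈ rel L M m v, (us L M lab J0 v σ a : ℝ) ≤ (d : ℝ) ^ 2 := by
  classical
  have : Nonempty V := ⟨v⟩
  have hrel : (rel L M m v).card ≤ d := by
    have h1 : ∑ a ∈ rel L M m v, mm L M univ v a ≤ d := by
      refine sum_mm_le (isFace_univ (L := L)) (Finset.mem_univ v) (rel L M m v) fun a ha => ?_
      simp only [rel, Finset.mem_filter] at ha
      exact ⟨ha.1, ha.2.1⟩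
    refine le_trans ?_ h1
    rw [Finset.card_eq_sum_ones]
    refine Finset.sum_le_sum fun a ha => ?_
    simp only [rel, Finset.mem_filter] at ha
    exact hm.trans ha.2.2
  have hus : ∀ a, (us L M lab J0 v σ a : ℝ) ≤ d := by
    intro a
    have : us L M lab J0 v σ a ≤ d := by
      unfold us
      refine (Finset.card_le_univ _).trans ?_
      simp
    exact_mod_cast this
  calc ∑ a ∈ rel L M m v, (us L M lab J0 v σ a : ℝ) ≤ ∑ a ∈ rel L M m v, (d : ℝ) :=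
        Finset.sum_le_sum fun a _ => hus a
    _ = ((rel L M m v).card : ℝ) * d := by rw [Finset.sum_const, nsmul_eq_mul]
    _ ≤ (d : ℝ) * d := by
        refine mul_le_mul_of_nonneg_right ?_ (Nat.cast_nonneg d)
        exact_mod_cast hrel
    _ = (d : ℝ) ^ 2 := by ring

private lemma XX_nonneg' {Λ : ℕ} {lam : ℝ} {J0 : ℕ} (v : V) (σ : Equiv.Perm (Fin d)) :
    0 ≤ XX L M lab Λ lam J0 v σ := by
  unfold XX
  refine Finset.sum_nonneg fun p _ => Finset.sum_nonneg fun a _ => ?_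
  have h1 := s1_nonneg (L := L) (M := M) (lab := lab) (k := p.1 + 1)
    (F := FF L v σ p.2 p.1) v (σ.symm p.2) (σ.symm p.1) a
  have h2 := s2_nonneg (L := L) (M := M) (lab := lab) (k := p.1 + 1)
    (F := FF L v σ p.2 p.1) v (σ.symm p.2) (σ.symm p.1) a
  positivity

private lemma YY_nonneg' {lam : ℝ} {J0 : ℕ} (v : V) (σ : Equiv.Perm (Fin d)) :
    0 ≤ YY L M lab lam J0 v σ := by
  unfold YY
  refine Finset.sum_nonneg fun p _ => mul_nonneg (by positivity)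
    (Finset.sum_nonneg fun a _ => s2_nonneg _ _ _ _)

private lemma pow_bound (hd : 1 ≤ d) :
    (d : ℝ) ^ 2 * ((d : ℝ) * (d + 1) / 2 ^ (4 * (Nat.log 2 d + 1))) ≤ 1 := by
  have h1 : d + 1 ≤ 2 ^ (Nat.log 2 d + 1) := Nat.lt_pow_succ_log_self (by norm_num) d
  have h2 : ((d : ℝ) + 1) ≤ 2 ^ (Nat.log 2 d + 1) := by exact_mod_cast h1
  have h3 : ((d : ℝ) + 1) ^ 4 ≤ 2 ^ (4 * (Nat.log 2 d + 1)) := by
    rw [mul_comm 4, pow_mul]
    exact pow_le_pow_left₀ (by positivity) h2 4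
  rw [← mul_div_assoc, div_le_one (by positivity)]
  refine le_trans ?_ h3
  have hd0 : (0 : ℝ) ≤ d := Nat.cast_nonneg d
  nlinarith [mul_nonneg hd0 hd0, mul_nonneg (mul_nonneg hd0 hd0) hd0]

/-- The orderings which are not regular: with `Λ = 4 (Nat.log 2 d + 1)`,
`d² * d (d + 1) / 2 ^ Λ ≤ 1` (`card_not_Rg`); the others: `us_le`. -/
theorem Es_us (hd : 1 ≤ d) {lam : ℝ} (h1 : 1 < lam) {B J0 : ℕ} (hB1 : 1 ≤ B)
    (hB : (d : ℝ) ≤ lam ^ B * ((J0 : ℝ) + 1)) {m : ℕ} (hm : 1 ≤ m) :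
    Es M (fun v σ => ∑ a ∈ rel L M m v, (us L M lab J0 v σ a : ℝ)) ≤
      3 / 2 * B * ∑ v ∈ M, ((rel L M m v).card : ℝ) +
      Es M (XX L M lab (4 * (Nat.log 2 d + 1)) lam J0) +
      4 * √(B : ℝ) * √(M.card * Es M (YY L M lab lam J0)) + M.card := by
  classical
  set Λ : ℕ := 4 * (Nat.log 2 d + 1) with hΛ
  have hN : (0 : ℝ) < (Nat.factorial d : ℝ) := by exact_mod_cast Nat.factorial_pos d
  -- the pointwise bound
  have hpt : ∀ v ∈ M, ∀ σ : Equiv.Perm (Fin d),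
      ∑ a ∈ rel L M m v, (us L M lab J0 v σ a : ℝ) ≤
        ((3 / 2 * B * ((rel L M m v).card : ℝ) + XX L M lab Λ lam J0 v σ) +
        (4 * √(B : ℝ)) * √(YY L M lab lam J0 v σ)) +
        (d : ℝ) ^ 2 * (if ¬ Rg L M Λ v σ then (1 : ℝ) else 0) := by
    intro v hv σ
    by_cases h : Rg L M Λ v σ
    · have h2 := us_le (lab := lab) (Λ := Λ) h1 hB1 hd hB m hv h
      rw [if_neg (not_not.mpr h)]
      linarith
    · have h2 := sum_us_le_sq (L := L) (M := M) (lab := lab) hm J0 v σ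
      rw [if_pos h]
      have h3 := XX_nonneg' (L := L) (M := M) (lab := lab) (Λ := Λ) (lam := lam) (J0 := J0) v σ
      have h4 : 0 ≤ (4 * √(B : ℝ)) * √(YY L M lab lam J0 v σ) := by positivity
      have h5 : (0 : ℝ) ≤ 3 / 2 * B * ((rel L M m v).card : ℝ) := by positivity
      linarith
  refine (Es_mono hpt).trans ?_
  rw [Es_add (fun v σ => (3 / 2 * B * ((rel L M m v).card : ℝ) + XX L M lab Λ lam J0 v σ) +
        (4 * √(B : ℝ)) * √(YY L M lab lam J0 v σ))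
      (fun v σ => (d : ℝ) ^ 2 * (if ¬ Rg L M Λ v σ then (1 : ℝ) else 0)),
    Es_add (fun v σ => 3 / 2 * B * ((rel L M m v).card : ℝ) + XX L M lab Λ lam J0 v σ)
      (fun v σ => (4 * √(B : ℝ)) * √(YY L M lab lam J0 v σ)),
    Es_add (fun v _ => 3 / 2 * B * ((rel L M m v).card : ℝ)) (fun v σ => XX L M lab Λ lam J0 v σ),
    Es_mul (3 / 2 * (B : ℝ)) (fun v _ => ((rel L M m v).card : ℝ)),
    Es_mul (4 * √(B : ℝ)) (fun v σ => √(YY L M lab lam J0 v σ)),
    Es_mul ((d : ℝ) ^ 2) (fun v σ => (if ¬ Rg L M Λ v σ then (1 : ℝ) else 0)), Es_node]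
  have h6 : Es M (fun v σ => √(YY L M lab lam J0 v σ)) ≤ √(M.card * Es M (YY L M lab lam J0)) :=
    Es_sqrt fun v σ => YY_nonneg' v σ
  have h7 : (4 * √(B : ℝ)) * Es M (fun v σ => √(YY L M lab lam J0 v σ)) ≤
      4 * √(B : ℝ) * √(M.card * Es M (YY L M lab lam J0)) :=
    mul_le_mul_of_nonneg_left h6 (by positivity)
  have h8 : (d : ℝ) ^ 2 * Es M (fun v σ => (if ¬ Rg L M Λ v σ then (1 : ℝ) else 0)) ≤ M.card := by
    have h9 : Es M (fun v σ => (if ¬ Rg L M Λ v σ then (1 : ℝ) else 0)) ≤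
        ∑ v ∈ M, (d : ℝ) * (d + 1) / 2 ^ Λ := by
      unfold Es
      refine Finset.sum_le_sum fun v _ => ?_
      have h10 := card_not_Rg (L := L) (M := M) (Λ := Λ) (by omega) hd v
      refine le_trans (le_of_eq ?_) h10
      congr 1
      rw [Finset.sum_boole]
    rw [Finset.sum_const, nsmul_eq_mul] at h9
    calc (d : ℝ) ^ 2 * Es M (fun v σ => (if ¬ Rg L M Λ v σ then (1 : ℝ) else 0))
        ≤ (d : ℝ) ^ 2 * ((M.card : ℝ) * ((d : ℝ) * (d + 1) / 2 ^ Λ)) :=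
          mul_le_mul_of_nonneg_left h9 (by positivity)
      _ = (M.card : ℝ) * ((d : ℝ) ^ 2 * ((d : ℝ) * (d + 1) / 2 ^ Λ)) := by ring
      _ ≤ (M.card : ℝ) * 1 := mul_le_mul_of_nonneg_left (pow_bound hd) (Nat.cast_nonneg _)
      _ = M.card := mul_one _
  have h11 : Es M (fun v σ => XX L M lab Λ lam J0 v σ) = Es M (XX L M lab Λ lam J0) := rfl
  rw [h11]
  linarith

end Pool.Agent.Helper13.TSE
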