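import Mathlib
import Pool.Agent.Helper13.TSE.H1
import Pool.Agent.Helper13.TSE.B4
import Pool.Agent.Helper13.TSE.B5

/-!
# TSE-Q1: the labels `KQ` and the uses
-/

namespace Pool.Agent.Helper13.TSE

open Finset Pool.Agent.Helper82.TotSep Pool.Agent.Helper13.TSD

variable {V : Type*} [Fintype V] {G : SimpleGraph V} {d : ℕ} {Λ : Type*} {L : FaceData G d}
  {M : Finset V} {lab : V → Λ} {j : ℕ} {F : Finset V}

open Classical in
/-- Each label of `KQ` has at least `j / 4` good seers `v` with `m ≤ mm F v a`; each sees it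
through a direction `l` (exchange of the sums: `c` and `v` give `l`, and `l` gives `c`). -/
theorem card_KQ_le (hF : IsFace L j F) (m : ℕ) :
    (j : ℝ) * (KQ L M lab j F m).card ≤ 4 * ∑ v ∈ inner M F,
      (((dir L F v).filter fun l => ∃ a, Use L M lab v (dir L F v) l a ∧
        m ≤ mm L M F v a).card : ℝ) := by
  obtain ⟨p, hp⟩ : ∃ p : Λ → V → Prop, ∀ c v, p c v ↔
      ∃ a ∈ ZZ L M lab F c, v ∉ a ∧ m ≤ mm L M F v a := ⟨_, fun _ _ => Iff.rfl⟩
  have h1 : ∀ c ∈ KQ L M lab j F m, j ≤ 4 * ((gs L M lab F c).filter fun v => p c v).card := by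
    intro c hc
    rw [KQ, Finset.mem_filter] at hc
    refine hc.2.trans (Nat.mul_le_mul_left 4 (Finset.card_le_card ?_))
    intro v hv
    rw [Finset.mem_filter] at hv ⊢
    exact ⟨hv.1, (hp c v).mpr hv.2⟩
  have h2 : (KQ L M lab j F m).card * j ≤ ∑ c ∈ KQ L M lab j F m,
      4 * ((gs L M lab F c).filter fun v => p c v).card := by
    have := Finset.card_nsmul_le_sum _ _ _ h1
    simpa using this
  rw [← Finset.mul_sum, sum_card_gs (KQ L M lab j F m) p] at h2
  have h3 : ∀ v ∈ inner M F, ((KQ L M lab j F m).filter fun c => v ∈ gs L M lab F c ∧ p c v).card ≤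
      ((dir L F v).filter fun l => ∃ a, Use L M lab v (dir L F v) l a ∧
        m ≤ mm L M F v a).card := by
    intro v hv
    have hvF : v ∈ F := (mem_inner.mp hv).1
    have hFe := hF.eq_faceOf hvF
    refine (Finset.card_le_card (t := ((dir L F v).filter fun l => ∃ a,
      Use L M lab v (dir L F v) l a ∧ m ≤ mm L M F v a).image fun l => lab (L.nb v l)) ?_).trans
      Finset.card_image_le
    intro c hc
    rw [Finset.mem_filter] at hc
    obtain ⟨hcK, hg, hpc⟩ := hc
    obtain ⟨a, ha, hva, hm⟩ := (hp c v).mp hpc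
    obtain ⟨l, hl, hlM, hlc⟩ := (mem_seers.mp (mem_gs.mp hg).1).2.2
    rw [Finset.mem_image]
    refine ⟨l, Finset.mem_filter.mpr ⟨hl, a, ?_, hm⟩, hlc⟩
    rw [KQ, Finset.mem_filter, mem_sn] at hcK
    refine ⟨hl, hlM, ?_, ?_, ?_, hva⟩
    · rw [← hFe, hF.card_dir hvF, hlc]
      exact hcK.1
    · rw [← hFe, hlc]; exact hg
    · rw [← hFe, hlc]; exact ha
  have h4 := Finset.sum_le_sum h3
  have h5 : j * (KQ L M lab j F m).card ≤ 4 * ∑ v ∈ inner M F,
      ((dir L F v).filter fun l => ∃ a, Use L M lab v (dir L F v) l a ∧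
        m ≤ mm L M F v a).card := by
    rw [mul_comm]
    exact h2.trans (Nat.mul_le_mul_left 4 h4)
  exact_mod_cast h5

open Classical in
/-- the last direction of the face of step `t + 1` is used, with `m ≤ mm` -/
noncomputable def uq (L : FaceData G d) (M : Finset V) (lab : V → Λ) (m : ℕ) (t : Fin d)
    (v : V) (σ : Equiv.Perm (Fin d)) : ℝ :=
  if ∃ a, Uz L M lab v σ t a ∧ m ≤ mm L M (fl L v σ (t + 1)) v a then 1 else 0

/-- `card_KQ_le`, `Es_fl`, `Es_last`, `dir_faceOf`. -/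
theorem av_KQ_le (t : Fin d) (m : ℕ) :
    av L d univ (t + 1) (fun F => ((KQ L M lab (t + 1) F m).card : ℝ)) ≤
      4 * Es M (uq L M lab m t) := by
  classical
  have ht : (t : ℕ) + 1 ≤ d := t.2
  have h0 : (0 : ℝ) < (t : ℝ) + 1 := by positivity
  have e1 := Es_last (M := M) t (fun v U l =>
    if ∃ a, Use L M lab v U l a ∧ m ≤ mm L M (faceOf L v U) v a then (1 : ℝ) else 0)
  have e2 := Es_fl (L := L) (M := M) ht (fun v F => ∑ l ∈ dir L F v,
    if ∃ a, Use L M lab v (dir L F v) l a ∧ m ≤ mm L M (faceOf L v (dir L F v)) v a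
      then (1 : ℝ) else 0)
  have e3 : (fun (v : V) (σ : Equiv.Perm (Fin d)) => ∑ l ∈ dir L (fl L v σ (t + 1)) v,
      if ∃ a, Use L M lab v (dir L (fl L v σ (t + 1)) v) l a ∧
        m ≤ mm L M (faceOf L v (dir L (fl L v σ (t + 1)) v)) v a then (1 : ℝ) else 0) =
      fun v σ => ∑ l ∈ ini σ (t + 1), if ∃ a, Use L M lab v (ini σ (t + 1)) l a ∧
        m ≤ mm L M (faceOf L v (ini σ (t + 1))) v a then (1 : ℝ) else 0 := by
    funext v σ
    unfold fl
    rw [dir_faceOf]
  rw [e3] at e2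
  rw [e2] at e1
  have e4 : (fun (v : V) (σ : Equiv.Perm (Fin d)) =>
      if ∃ a, Use L M lab v (ini σ (t + 1)) (σ.symm t) a ∧
        m ≤ mm L M (faceOf L v (ini σ (t + 1))) v a then (1 : ℝ) else 0) = uq L M lab m t := rfl
  rw [e4] at e1
  have e5 : ((t : ℝ) + 1) * av L d univ (t + 1)
      (fun F => ((KQ L M lab (t + 1) F m).card : ℝ)) ≤ 4 * (((t : ℝ) + 1) *
        Es M (uq L M lab m t)) := by
    rw [e1]
    unfold av
    rw [← mul_div_assoc, ← mul_div_assoc]
    apply div_le_div_of_nonneg_right _ (by positivity)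
    rw [Finset.mul_sum, Finset.mul_sum]
    apply Finset.sum_le_sum
    intro F hF
    have hF1 := (mem_fcs.mp hF).1
    have h1 := card_KQ_le (M := M) (lab := lab) hF1 m
    push_cast at h1
    refine h1.trans (le_of_eq ?_)
    congr 1
    apply Finset.sum_congr rfl
    intro v hv
    rw [← hF1.eq_faceOf (mem_inner.mp hv).1, Finset.card_filter]
    push_cast
    rfl
  have e6 : 4 * (((t : ℝ) + 1) * Es M (uq L M lab m t)) =
      ((t : ℝ) + 1) * (4 * Es M (uq L M lab m t)) := by ring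
  rw [e6] at e5
  exact le_of_mul_le_mul_left e5 h0

theorem KQ_anti {m m' : ℕ} (h : m ≤ m') : KQ L M lab j F m' ⊆ KQ L M lab j F m := by
  classical
  intro c hc
  rw [KQ, Finset.mem_filter] at hc ⊢
  refine ⟨hc.1, hc.2.trans (Nat.mul_le_mul_left 4 (Finset.card_le_card ?_))⟩
  intro v hv
  rw [Finset.mem_filter] at hv ⊢
  obtain ⟨h1, a, ha, h2, h3⟩ := hv
  exact ⟨h1, a, ha, h2, h.trans h3⟩

end Pool.Agent.Helper13.TSE
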