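import Mathlib
import Pool.Agent.Helper13.TSE.Q1
import Pool.Agent.Helper13.TSE.K3
import Pool.Agent.Helper13.TSE.B7d

/-!
# TSE-Q2: relevant and other missing facets
-/

namespace Pool.Agent.Helper13.TSE

open Finset Pool.Agent.Helper82.TotSep Pool.Agent.Helper13.TSD

variable {V : Type*} [Fintype V] {G : SimpleGraph V} {d : ℕ} {Λ : Type*} {L : FaceData G d}
  {M : Finset V} {lab : V → Λ}

open Classical in
/-- the last direction of the face of step `t + 1` is used, with a missing facet which is not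
relevant, and with a neighbour in it -/
noncomputable def ur (L : FaceData G d) (M : Finset V) (lab : V → Λ) (m : ℕ) (t : Fin d)
    (v : V) (σ : Equiv.Perm (Fin d)) : ℝ :=
  if ∃ a, Uz L M lab v σ t a ∧ 1 ≤ mm L M (fl L v σ (t + 1)) v a ∧ mm L M univ v a < m then 1
  else 0

open Classical in
/-- `mm_mono`: if `m ≤ mm (fl ..) v a` then `a` is relevant. -/
theorem uq_le_rel (m : ℕ) (t : Fin d) (v : V) (σ : Equiv.Perm (Fin d)) :
    uq L M lab m t v σ ≤ (((rel L M m v).filter fun a => Uz L M lab v σ t a).card : ℝ) := by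
  unfold uq
  split_ifs with h
  · obtain ⟨a, h1, h2⟩ := h
    have h3 : 0 < ((rel L M m v).filter fun a => Uz L M lab v σ t a).card := by
      refine card_pos.2 ⟨a, ?_⟩
      rw [mem_filter, rel, mem_filter]
      exact ⟨⟨(mem_ZZ.1 h1.miss).1, h1.av, h2.trans (mm_mono (subset_univ _) v a)⟩, h1⟩
    exact_mod_cast h3
  · positivity

open Classical in
theorem uq_one_le (m : ℕ) (t : Fin d) (v : V) (σ : Equiv.Perm (Fin d)) :
    uq L M lab 1 t v σ ≤ (((rel L M m v).filter fun a => Uz L M lab v σ t a).card : ℝ) +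
      ur L M lab m t v σ := by
  have hc : (0 : ℝ) ≤ (((rel L M m v).filter fun a => Uz L M lab v σ t a).card : ℝ) := by
    positivity
  have hu : 0 ≤ ur L M lab m t v σ := by
    unfold ur
    split_ifs
    · exact zero_le_one
    · exact le_rfl
  unfold uq
  split_ifs with h
  · obtain ⟨a, h1, h2⟩ := h
    by_cases h4 : m ≤ mm L M univ v a
    · have h3 : 0 < ((rel L M m v).filter fun a => Uz L M lab v σ t a).card := by
        refine card_pos.2 ⟨a, ?_⟩
        rw [mem_filter, rel, mem_filter]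
        exact ⟨⟨(mem_ZZ.1 h1.miss).1, h1.av, h4⟩, h1⟩
      have h5 : (1 : ℝ) ≤ (((rel L M m v).filter fun a => Uz L M lab v σ t a).card : ℝ) := by
        exact_mod_cast h3
      linarith
    · have h5 : ur L M lab m t v σ = 1 := by
        unfold ur
        rw [if_pos ⟨a, h1, h2, not_le.1 h4⟩]
      rw [h5]
      linarith
  · linarith

open Classical in
/-- `∑ t ≥ J0` of the first terms is `∑ a, us`. -/
theorem sum_rel_uses (m J0 : ℕ) (v : V) (σ : Equiv.Perm (Fin d)) :
    ∑ t ∈ (univ : Finset (Fin d)).filter (fun t : Fin d => J0 ≤ (t : ℕ)),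
      (((rel L M m v).filter fun a => Uz L M lab v σ t a).card : ℝ) =
    ∑ a ∈ rel L M m v, (us L M lab J0 v σ a : ℝ) := by
  have e1 : ∀ t : Fin d, (((rel L M m v).filter fun a => Uz L M lab v σ t a).card : ℝ) =
      ∑ a ∈ rel L M m v, if Uz L M lab v σ t a then (1 : ℝ) else 0 := by
    intro t
    rw [sum_boole]
  have e2 : ∀ a : Finset V, (us L M lab J0 v σ a : ℝ) =
      ∑ t ∈ (univ : Finset (Fin d)).filter (fun t : Fin d => J0 ≤ (t : ℕ)),
        if Uz L M lab v σ t a then (1 : ℝ) else 0 := by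
    intro a
    rw [sum_boole, filter_filter]
    unfold us
    congr!
  rw [sum_congr rfl fun t _ => e1 t, sum_congr rfl fun a _ => e2 a, sum_comm]

end Pool.Agent.Helper13.TSE
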