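import Mathlib
import Pool.Agent.Helper13.TSE.Q2

/-!
# TSE-Q3: the uses with missing facets which are not relevant
-/

namespace Pool.Agent.Helper13.TSE

open Finset Pool.Agent.Helper82.TotSep Pool.Agent.Helper13.TSD

variable {V : Type*} [Fintype V] {G : SimpleGraph V} {d : ℕ} {Λ : Type*} {L : FaceData G d}
  {M : Finset V} {lab : V → Λ}

open Classical in
/-- In the face `F` at `v`: the directions used with missing facets `a`, `1 ≤ mm F v a`,
`mm univ v a < m`, map injectively to the labels of the classes `cl F v a`, and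
`|cl| ≤ 1 + (|cl| - 1)`. -/
theorem card_used_le (m : ℕ) {j : ℕ} (v : V) (hv : v ∈ M) (U : Finset (Fin d))
    (hU : U.card = j) :
    ((U.filter fun l => ∃ a, Use L M lab v U l a ∧ 1 ≤ mm L M (faceOf L v U) v a ∧
      mm L M univ v a < m).card : ℝ) ≤
      (((fc L).filter fun a => v ∉ a ∧ mm L M univ v a < m ∧
        1 ≤ mm L M (faceOf L v U) v a).card : ℝ) +
      ∑ a ∈ fc L, (((cl L M lab j (faceOf L v U) v a).card - 1 : ℕ) : ℝ) := by
  have hF : IsFace L j (faceOf L v U) := by
    have h := isFace_faceOf (L := L) v U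
    rwa [hU] at h
  set F := faceOf L v U with hFdef
  have hdir : dir L F v = U := dir_faceOf v U
  set D := U.filter fun l => ∃ a, Use L M lab v U l a ∧ 1 ≤ mm L M F v a ∧
      mm L M univ v a < m with hD
  set A := (fc L).filter fun a => v ∉ a ∧ mm L M univ v a < m ∧ 1 ≤ mm L M F v a with hA
  have key : ∀ l : Fin d, ∃ a : Finset V, l ∈ D →
      (Use L M lab v U l a ∧ a ∈ A) := by
    intro l
    by_cases hl : l ∈ D
    · rw [hD, Finset.mem_filter] at hl
      obtain ⟨-, a, h1, h2, h3⟩ := hl
      refine ⟨a, fun _ => ⟨h1, ?_⟩⟩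
      rw [hA, Finset.mem_filter]
      exact ⟨(mem_ZZ.mp h1.miss).1, h1.av, h3, h2⟩
    · exact ⟨∅, fun h => absurd h hl⟩
  choose g hg using key
  have hnic : ∀ l ∈ D, Nic L M lab j F (lab (L.nb v l)) := by
    intro l hl
    have h := (hg l hl).1.nice.2.1
    rwa [hU] at h
  have hcl : ∀ l ∈ D, lab (L.nb v l) ∈ cl L M lab j F v (g l) := by
    intro l hl
    have h := (hg l hl).1
    exact mem_cl.mpr ⟨h.nice.1, hnic l hl, h.good, h.miss, h.av⟩
  have hinj : D.card ≤ (A.sigma fun a => cl L M lab j F v a).card := by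
    refine Finset.card_le_card_of_injOn
      (fun l => (⟨g l, lab (L.nb v l)⟩ : Σ _ : Finset V, Λ)) ?_ ?_
    · intro l hl
      rw [Finset.mem_coe] at hl
      rw [Finset.mem_coe, Finset.mem_sigma]
      exact ⟨(hg l hl).2, hcl l hl⟩
    · intro l hl l' hl' he
      rw [Finset.mem_coe] at hl hl'
      have he2 : lab (L.nb v l) = lab (L.nb v l') := by
        have := congrArg Sigma.snd he
        exact this
      have h := (hg l hl).1
      have h' := (hg l' hl').1
      have hd : l ∈ dir L F v := by rw [hdir]; exact h.mem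
      have hd' : l' ∈ dir L F v := by rw [hdir]; exact h'.mem
      exact (hnic l hl).dir_unique hF h.good hd h.out rfl hd' h'.out he2.symm
  rw [Finset.card_sigma] at hinj
  have h1 : ∑ a ∈ A, (cl L M lab j F v a).card ≤
      A.card + ∑ a ∈ fc L, ((cl L M lab j F v a).card - 1) := by
    calc ∑ a ∈ A, (cl L M lab j F v a).card
        ≤ ∑ a ∈ A, (1 + ((cl L M lab j F v a).card - 1)) :=
          Finset.sum_le_sum fun a _ => by omega
      _ = A.card + ∑ a ∈ A, ((cl L M lab j F v a).card - 1) := by
          rw [Finset.sum_add_distrib, Finset.card_eq_sum_ones]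
      _ ≤ A.card + ∑ a ∈ fc L, ((cl L M lab j F v a).card - 1) := by
          have := Finset.sum_le_sum_of_subset (f := fun a => (cl L M lab j F v a).card - 1)
            (Finset.filter_subset (fun a => v ∉ a ∧ mm L M univ v a < m ∧ 1 ≤ mm L M F v a)
              (fc L))
          exact Nat.add_le_add_left this _
  have h2 : D.card ≤ A.card + ∑ a ∈ fc L, ((cl L M lab j F v a).card - 1) := hinj.trans h1
  exact_mod_cast h2

end Pool.Agent.Helper13.TSE
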