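import Mathlib
import Pool.Agent.Helper13.TSE.Q2

/-!
# TSE-Q3b: the uses with missing facets which are not relevant
-/

namespace Pool.Agent.Helper13.TSE

open Finset Pool.Agent.Helper82.TotSep Pool.Agent.Helper13.TSD

variable {V : Type*} [Fintype V] {G : SimpleGraph V} {d : ℕ} {Λ : Type*} {L : FaceData G d}
  {M : Finset V} {lab : V → Λ}

/-- the number of the permutations with `l` in the initial set -/
private theorem Q3b_count {j : ℕ} (hj : j ≤ d) (hd : 1 ≤ d) (l : Fin d) :
    (∑ σ : Equiv.Perm (Fin d), if (σ l : ℕ) < j then (1 : ℝ) else 0) =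
      (j : ℝ) / d * (Nat.factorial d : ℝ) := by
  have h1 : ∀ l' : Fin d, (∑ σ : Equiv.Perm (Fin d), if (σ l' : ℕ) < j then (1 : ℝ) else 0) =
      ∑ σ : Equiv.Perm (Fin d), if (σ l : ℕ) < j then (1 : ℝ) else 0 := by
    intro l'
    refine Fintype.sum_equiv (Equiv.mulRight (Equiv.swap l l')) _ _ fun σ => ?_
    rw [Equiv.coe_mulRight, Equiv.Perm.mul_apply, Equiv.swap_apply_left]
  have h2 : ∑ l' : Fin d, (∑ σ : Equiv.Perm (Fin d), if (σ l' : ℕ) < j then (1 : ℝ) else 0) =
      (Nat.factorial d : ℝ) * j := by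
    rw [Finset.sum_comm]
    have h3 : ∀ σ : Equiv.Perm (Fin d),
        (∑ l' : Fin d, if (σ l' : ℕ) < j then (1 : ℝ) else 0) = j := by
      intro σ
      rw [Finset.sum_boole]
      have h4 := card_ini σ hj
      unfold ini at h4
      rw [h4]
    rw [Finset.sum_congr rfl fun σ _ => h3 σ, Finset.sum_const, Finset.card_univ,
      Fintype.card_perm, Fintype.card_fin, nsmul_eq_mul]
  rw [Finset.sum_congr rfl fun l' _ => h1 l', Finset.sum_const, Finset.card_univ,
    Fintype.card_fin, nsmul_eq_mul] at h2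
  have hd' : (d : ℝ) ≠ 0 := by
    have : (0 : ℝ) < d := by exact_mod_cast hd
    exact this.ne'
  field_simp
  linarith

open Classical in
private theorem Q3b_sum {j : ℕ} (hj : j ≤ d) (hd : 1 ≤ d) (Q : Fin d → Prop) :
    (∑ σ : Equiv.Perm (Fin d), (((ini σ j).filter fun l => Q l).card : ℝ)) /
      (Nat.factorial d : ℝ) = (j : ℝ) / d * ((univ.filter fun l => Q l).card : ℝ) := by
  have h1 : ∀ σ : Equiv.Perm (Fin d), (((ini σ j).filter fun l => Q l).card : ℝ) =
      ∑ l ∈ univ.filter (fun l => Q l), if (σ l : ℕ) < j then (1 : ℝ) else 0 := by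
    intro σ
    rw [Finset.sum_boole, Finset.filter_filter]
    unfold ini
    rw [Finset.filter_filter]
    congr 2
    ext l
    simp only [Finset.mem_filter, Finset.mem_univ, true_and]
    exact and_comm
  rw [Finset.sum_congr rfl fun σ _ => h1 σ, Finset.sum_comm,
    Finset.sum_congr rfl fun l _ => Q3b_count hj hd l, Finset.sum_const, nsmul_eq_mul]
  have hf : ((Nat.factorial d : ℕ) : ℝ) ≠ 0 := by exact_mod_cast Nat.factorial_ne_zero d
  field_simp

open Classical in
/-- The probability that `ini σ j` meets a set of `x` directions is at most `x j / d`. -/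
theorem Es_meet (m : ℕ) {j : ℕ} (hj : j ≤ d) (hd : 1 ≤ d) :
    Es M (fun v σ => (((fc L).filter fun a => v ∉ a ∧ mm L M univ v a < m ∧
        1 ≤ mm L M (fl L v σ j) v a).card : ℝ)) ≤
      (j : ℝ) / d * ∑ v ∈ M, ∑ a ∈ (fc L).filter (fun a => v ∉ a ∧ mm L M univ v a < m),
        (mm L M univ v a : ℝ) := by
  have hfac : (0 : ℝ) < (Nat.factorial d : ℝ) := by exact_mod_cast Nat.factorial_pos d
  unfold Es
  rw [Finset.mul_sum]
  refine Finset.sum_le_sum fun v _ => ?_
  have h1 : ∀ σ : Equiv.Perm (Fin d), (((fc L).filter fun a => v ∉ a ∧ mm L M univ v a < m ∧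
      1 ≤ mm L M (fl L v σ j) v a).card : ℝ) ≤
      ∑ a ∈ (fc L).filter (fun a => v ∉ a ∧ mm L M univ v a < m),
        (((ini σ j).filter fun l => L.nb v l ∈ M ∧ L.nb v l ∈ a).card : ℝ) := by
    intro σ
    have h2 : ((fc L).filter fun a => v ∉ a ∧ mm L M univ v a < m ∧
        1 ≤ mm L M (fl L v σ j) v a) =
        ((fc L).filter (fun a => v ∉ a ∧ mm L M univ v a < m)).filter
          (fun a => 1 ≤ mm L M (fl L v σ j) v a) := by
      rw [Finset.filter_filter]
      refine Finset.filter_congr fun a _ => ?_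
      rw [and_assoc]
    have h3 : ∀ a, ((ini σ j).filter fun l => L.nb v l ∈ M ∧ L.nb v l ∈ a).card =
        mm L M (fl L v σ j) v a := by
      intro a
      unfold fl
      rw [mm_faceOf]
    rw [h2, Finset.card_filter]
    push_cast
    refine Finset.sum_le_sum fun a _ => ?_
    rw [h3]
    split_ifs with h4
    · exact_mod_cast h4
    · exact Nat.cast_nonneg _
  have h5 : ∀ a, ((univ.filter fun l : Fin d => L.nb v l ∈ M ∧ L.nb v l ∈ a).card : ℝ) =
      (mm L M univ v a : ℝ) := by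
    intro a
    unfold mm dir
    congr 2
    ext l
    simp
  rw [div_le_iff₀ hfac]
  refine (Finset.sum_le_sum fun σ _ => h1 σ).trans ?_
  rw [Finset.sum_comm, Finset.mul_sum, Finset.sum_mul]
  refine Finset.sum_le_sum fun a _ => ?_
  have h6 : (∑ σ : Equiv.Perm (Fin d),
      (((ini σ j).filter fun l => L.nb v l ∈ M ∧ L.nb v l ∈ a).card : ℝ)) /
      (Nat.factorial d : ℝ) = (j : ℝ) / d *
      ((univ.filter fun l : Fin d => L.nb v l ∈ M ∧ L.nb v l ∈ a).card : ℝ) := by
    convert Q3b_sum hj hd (fun l => L.nb v l ∈ M ∧ L.nb v l ∈ a)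
  rw [h5, div_eq_iff hfac.ne'] at h6
  exact h6.le

end Pool.Agent.Helper13.TSE
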