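import Mathlib
import Pool.Agent.Helper13.TSE.Q3
import Pool.Agent.Helper13.TSE.Q3b

/-!
# TSE-Q3c: the uses with missing facets which are not relevant
-/

namespace Pool.Agent.Helper13.TSE

open Finset Pool.Agent.Helper82.TotSep Pool.Agent.Helper13.TSD

variable {V : Type*} [Fintype V] {G : SimpleGraph V} {d : ℕ} {Λ : Type*} {L : FaceData G d}
  {M : Finset V} {lab : V → Λ}

private theorem q3c_excess [Nonempty V] (hlab : LabOn G M lab univ) (t : Fin d) :
    Es M (fun v σ => ∑ a ∈ fc L,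
      (((cl L M lab (t + 1) (fl L v σ (t + 1)) v a).card - 1 : ℕ) : ℝ)) ≤
      6 * √((t : ℝ) + 1) * M.card := by
  have hP : IsFace L d (univ : Finset V) := isFace_univ
  have htd : (t : ℕ) + 1 ≤ d := t.isLt
  rw [Es_fl htd (fun v F => ∑ a ∈ fc L, (((cl L M lab (t + 1) F v a).card - 1 : ℕ) : ℝ))]
  have h1 : av L d univ ((t : ℕ) + 1) (fun F => ∑ v ∈ inner M F, ∑ a ∈ fc L,
      (((cl L M lab (t + 1) F v a).card - 1 : ℕ) : ℝ)) ≤
      av L d univ ((t : ℕ) + 1) (fun F => (6 * √((t : ℝ) + 1)) * ((inner M F).card : ℝ)) := by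
    refine av_mono fun F hF => ?_
    have hF' := mem_fcs.mp hF
    exact sum_excess hF'.1 (hlab.mono hF'.2)
  refine h1.trans (le_of_eq ?_)
  have h2 : (inner M (univ : Finset V)).card = M.card := by
    congr 1
    ext x
    simp [mem_inner]
  rw [av_mul, av_inner hP htd, h2]

/-- `Es_last`, `card_used_le`, `Es_meet`, `sum_nonrel_le`, and the mean of `sum_excess`
(`Es_fl`). -/
theorem Es_ur (hlab : LabOn G M lab univ) (m : ℕ) (t : Fin d) :
    Es M (ur L M lab m t) ≤ 2 * m * (M.card * Real.log M.card) / d +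
      6 / √((t : ℝ) + 1) * M.card := by
  classical
  rcases isEmpty_or_nonempty V with hV | hV
  · have hM : M = ∅ := Finset.eq_empty_of_isEmpty M
    subst hM
    simp [Es]
  · have htd : (t : ℕ) + 1 ≤ d := t.isLt
    have hd : 1 ≤ d := by omega
    have ht0 : (0 : ℝ) < (t : ℝ) + 1 := by positivity
    have h1 : ((t : ℝ) + 1) * Es M (ur L M lab m t) =
        Es M (fun v σ => ∑ l ∈ ini σ (t + 1),
          if ∃ a, Use L M lab v (ini σ (t + 1)) l a ∧
            1 ≤ mm L M (faceOf L v (ini σ (t + 1))) v a ∧ mm L M univ v a < m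
          then (1 : ℝ) else 0) := by
      rw [← Es_last t (fun v U l => if ∃ a, Use L M lab v U l a ∧
            1 ≤ mm L M (faceOf L v U) v a ∧ mm L M univ v a < m then (1 : ℝ) else 0)]
      rfl
    have h2 : Es M (fun v σ => ∑ l ∈ ini σ (t + 1),
          if ∃ a, Use L M lab v (ini σ (t + 1)) l a ∧
            1 ≤ mm L M (faceOf L v (ini σ (t + 1))) v a ∧ mm L M univ v a < m
          then (1 : ℝ) else 0) ≤
        Es M (fun v σ => (((fc L).filter fun a => v ∉ a ∧ mm L M univ v a < m ∧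
            1 ≤ mm L M (fl L v σ (t + 1)) v a).card : ℝ) +
          ∑ a ∈ fc L, (((cl L M lab (t + 1) (fl L v σ (t + 1)) v a).card - 1 : ℕ) : ℝ)) := by
      refine Es_mono fun v hv σ => ?_
      have h3 := card_used_le (L := L) (lab := lab) m v hv (ini σ (t + 1)) (card_ini σ htd)
      refine le_trans (le_of_eq ?_) (h3.trans (le_of_eq ?_))
      · rw [← Finset.sum_filter, Finset.sum_const, nsmul_eq_mul, mul_one]
      · congr!
    rw [Es_add] at h2
    have h4 := Es_meet (L := L) (M := M) m htd hd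
    have h5 := sum_nonrel_le (L := L) (M := M) m
    have h6 := q3c_excess (L := L) hlab t
    have h7 : ((t : ℝ) + 1) * Es M (ur L M lab m t) ≤
        ((t : ℝ) + 1) / d * (2 * m * (M.card * Real.log M.card)) +
          6 * √((t : ℝ) + 1) * M.card := by
      rw [h1]
      refine h2.trans (add_le_add ?_ h6)
      have h8 : (((t : ℕ) + 1 : ℕ) : ℝ) / d * ∑ v ∈ M, ∑ a ∈ (fc L).filter
          (fun a => v ∉ a ∧ mm L M univ v a < m), (mm L M univ v a : ℝ) ≤
          ((t : ℝ) + 1) / d * (2 * m * (M.card * Real.log M.card)) := by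
        push_cast
        refine mul_le_mul_of_nonneg_left ?_ (by positivity)
        exact h5
      refine le_trans ?_ h8
      exact h4
    have hs : (0 : ℝ) < √((t : ℝ) + 1) := Real.sqrt_pos.mpr ht0
    have hsq : √((t : ℝ) + 1) * √((t : ℝ) + 1) = (t : ℝ) + 1 := Real.mul_self_sqrt ht0.le
    have h9 : 6 / √((t : ℝ) + 1) * (M.card : ℝ) =
        6 * √((t : ℝ) + 1) * M.card / ((t : ℝ) + 1) := by
      rw [div_mul_eq_mul_div, div_eq_div_iff hs.ne' ht0.ne']
      calc 6 * (M.card : ℝ) * ((t : ℝ) + 1)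
          = 6 * (M.card : ℝ) * (√((t : ℝ) + 1) * √((t : ℝ) + 1)) := by rw [hsq]
        _ = _ := by ring
    have h10 : 2 * (m : ℝ) * (M.card * Real.log M.card) / d =
        ((t : ℝ) + 1) / d * (2 * m * (M.card * Real.log M.card)) / ((t : ℝ) + 1) := by
      have hd0 : (d : ℝ) ≠ 0 := by positivity
      field_simp
    rw [h9, h10, ← add_div, le_div_iff₀ ht0, mul_comm]
    exact h7

end Pool.Agent.Helper13.TSE
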