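import Mathlib
import Pool.Agent.Helper13.TSE.Q3c

/-!
# TSE-Q4: the sum of all `KQ`
-/

namespace Pool.Agent.Helper13.TSE

open Finset Pool.Agent.Helper82.TotSep Pool.Agent.Helper13.TSD

variable {V : Type*} [Fintype V] {G : SimpleGraph V} {d : ℕ} {Λ : Type*} {L : FaceData G d}
  {M : Finset V} {lab : V → Λ}

/-- the threshold at dimension `j`: `1` for small `j` and `m` for large `j` -/
def mu (d m j : ℕ) : ℕ := if m ^ 2 * j < d then 1 else m

private lemma q4_sqrt (n : ℕ) : ∑ j ∈ range n, 1 / √((j : ℝ) + 1) ≤ 2 * √(n : ℝ) := by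
  induction n with
  | zero => simp
  | succ n ih =>
    rw [sum_range_succ]
    push_cast
    have h1 : 0 < √((n : ℝ) + 1) := by positivity
    have h2 : √((n : ℝ) + 1) ^ 2 = n + 1 := Real.sq_sqrt (by positivity)
    have h3 : √(n : ℝ) ^ 2 = n := Real.sq_sqrt (by positivity)
    have h4 : 1 / √((n : ℝ) + 1) ≤ 2 * √((n : ℝ) + 1) - 2 * √(n : ℝ) := by
      rw [div_le_iff₀ h1]
      nlinarith [sq_nonneg (√((n : ℝ) + 1) - √(n : ℝ))]
    linarith

private lemma q4_reindex (d J0 : ℕ) (f : ℕ → ℝ) :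
    ∑ j ∈ Ico J0 d, f j =
      ∑ t ∈ (univ : Finset (Fin d)).filter (fun t : Fin d => J0 ≤ (t : ℕ)), f t := by
  have h : Ico J0 d = (range d).filter (fun j => J0 ≤ j) := by
    ext j
    simp only [mem_Ico, mem_filter, mem_range]
    exact and_comm
  rw [h, sum_filter, sum_filter, ← Fin.sum_univ_eq_sum_range (fun j => if J0 ≤ j then f j else 0) d]

private lemma q4_card (d m : ℕ) (hm : 1 ≤ m) :
    (((univ : Finset (Fin d)).filter (fun t : Fin d => m ^ 2 * ((t : ℕ) + 1) < d)).card : ℝ) ≤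
      (d : ℝ) / (m : ℝ) ^ 2 := by
  have h1 : ((univ : Finset (Fin d)).filter (fun t : Fin d => m ^ 2 * ((t : ℕ) + 1) < d)).card ≤
      (range (d / m ^ 2)).card := by
    refine card_le_card_of_injOn (fun t => (t : ℕ)) ?_ ?_
    · intro t ht
      simp only [coe_filter, mem_univ, true_and, Set.mem_ofPred_eq] at ht
      simp only [coe_range, Set.mem_Iio]
      have h2 : (t : ℕ) + 1 ≤ d / m ^ 2 := by
        rw [Nat.le_div_iff_mul_le (by positivity), mul_comm]
        exact ht.le
      omega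
    · intro s _ t _ hst
      exact Fin.ext hst
  rw [card_range] at h1
  calc (((univ : Finset (Fin d)).filter (fun t : Fin d => m ^ 2 * ((t : ℕ) + 1) < d)).card : ℝ)
      ≤ ((d / m ^ 2 : ℕ) : ℝ) := by exact_mod_cast h1
    _ ≤ (d : ℝ) / ((m ^ 2 : ℕ) : ℝ) := Nat.cast_div_le
    _ = (d : ℝ) / (m : ℝ) ^ 2 := by push_cast; rfl

/-- `av_KQ_le`, `uq_le_rel`, `uq_one_le`, `sum_rel_uses`; the `t` with `m² (t + 1) < d` contribute
`Es_ur`: `∑ 2 m n log n / d ≤ 2 n log n / m`, `∑ 6 / √(t + 1) ≤ 12 √d`. -/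
theorem sum_av_KQ (hlab : LabOn G M lab univ) {m : ℕ} (hm : 1 ≤ m) (J0 : ℕ) :
    ∑ j ∈ Ico J0 d, av L d univ (j + 1)
        (fun F => ((KQ L M lab (j + 1) F (mu d m (j + 1))).card : ℝ)) ≤
      4 * Es M (fun v σ => ∑ a ∈ rel L M m v, (us L M lab J0 v σ a : ℝ)) +
      8 / m * (M.card * Real.log M.card) + 48 * √(d : ℝ) * M.card := by
  classical
  have hm0 : (0 : ℝ) < m := by exact_mod_cast hm
  have hX : 0 ≤ (M.card : ℝ) * Real.log M.card :=
    mul_nonneg (Nat.cast_nonneg _) (Real.log_natCast_nonneg _)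
  set X : ℝ := (M.card : ℝ) * Real.log M.card with hXdef
  set S : Finset (Fin d) := (univ : Finset (Fin d)).filter (fun t : Fin d => J0 ≤ (t : ℕ)) with hS
  set A : Fin d → ℝ := fun t =>
    Es M (fun v σ => (((rel L M m v).filter fun a => Uz L M lab v σ t a).card : ℝ)) with hA
  set B : Fin d → ℝ := fun t => if m ^ 2 * ((t : ℕ) + 1) < d then
    4 * (2 * m * X / d + 6 / √((t : ℝ) + 1) * M.card) else 0 with hB
  have key : ∀ t : Fin d, av L d univ ((t : ℕ) + 1)
      (fun F => ((KQ L M lab ((t : ℕ) + 1) F (mu d m ((t : ℕ) + 1))).card : ℝ)) ≤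
      4 * A t + B t := by
    intro t
    by_cases h : m ^ 2 * ((t : ℕ) + 1) < d
    · have hmu : mu d m ((t : ℕ) + 1) = 1 := by simp [mu, h]
      have h1 := av_KQ_le (L := L) (M := M) (lab := lab) t 1
      have h2 : Es M (uq L M lab 1 t) ≤ Es M (fun v σ =>
          (((rel L M m v).filter fun a => Uz L M lab v σ t a).card : ℝ) + ur L M lab m t v σ) :=
        Es_mono fun v _ σ => uq_one_le m t v σ
      have h3 := Es_add (M := M) (fun v σ =>
          (((rel L M m v).filter fun a => Uz L M lab v σ t a).card : ℝ))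
          (fun v σ => ur L M lab m t v σ)
      have h4 := Es_ur (L := L) hlab m t
      have h5 : B t = 4 * (2 * m * X / d + 6 / √((t : ℝ) + 1) * M.card) := by
        simp only [hB, h, if_true]
      rw [hmu, h5]
      have h6 : Es M (ur L M lab m t) = Es M (fun v σ => ur L M lab m t v σ) := rfl
      rw [← hXdef] at h4
      simp only [hA]
      linarith
    · have hmu : mu d m ((t : ℕ) + 1) = m := by simp [mu, h]
      have h1 := av_KQ_le (L := L) (M := M) (lab := lab) t m
      have h2 : Es M (uq L M lab m t) ≤ Es M (fun v σ =>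
          (((rel L M m v).filter fun a => Uz L M lab v σ t a).card : ℝ)) :=
        Es_mono fun v _ σ => uq_le_rel m t v σ
      have h5 : B t = 0 := by simp only [hB, h, if_false]
      rw [hmu, h5]
      simp only [hA]
      linarith
  have hAs : ∑ t ∈ S, A t = Es M (fun v σ => ∑ a ∈ rel L M m v, (us L M lab J0 v σ a : ℝ)) := by
    rw [← Es_sum]
    congr 1
    funext v σ
    exact sum_rel_uses m J0 v σ
  have hB1 : ∀ t : Fin d, B t ≤ (if m ^ 2 * ((t : ℕ) + 1) < d then 8 * m * X / d else 0) +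
      24 * M.card * (1 / √((t : ℝ) + 1)) := by
    intro t
    have hn : (0 : ℝ) ≤ 24 * M.card * (1 / √((t : ℝ) + 1)) := by positivity
    by_cases h : m ^ 2 * ((t : ℕ) + 1) < d
    · simp only [hB, h, if_true]
      refine le_of_eq ?_
      ring
    · simp only [hB, h, if_false]
      linarith
  have hB0 : ∀ t : Fin d, 0 ≤ B t := by
    intro t
    simp only [hB]
    split_ifs
    · positivity
    · exact le_rfl
  have hBs : ∑ t ∈ S, B t ≤ 8 / m * X + 48 * √(d : ℝ) * M.card := by
    calc ∑ t ∈ S, B t ≤ ∑ t : Fin d, B t :=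
          sum_le_sum_of_subset_of_nonneg (subset_univ _) fun t _ _ => hB0 t
      _ ≤ ∑ t : Fin d, ((if m ^ 2 * ((t : ℕ) + 1) < d then 8 * m * X / d else 0) +
            24 * M.card * (1 / √((t : ℝ) + 1))) := sum_le_sum fun t _ => hB1 t
      _ = (((univ : Finset (Fin d)).filter
            (fun t : Fin d => m ^ 2 * ((t : ℕ) + 1) < d)).card : ℝ) * (8 * m * X / d) +
            24 * M.card * ∑ j ∈ range d, 1 / √((j : ℝ) + 1) := by
          rw [sum_add_distrib, ← sum_filter, sum_const, nsmul_eq_mul, ← mul_sum,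
            Fin.sum_univ_eq_sum_range (fun j => 1 / √((j : ℝ) + 1)) d]
      _ ≤ (d : ℝ) / (m : ℝ) ^ 2 * (8 * m * X / d) + 24 * M.card * (2 * √(d : ℝ)) := by
          refine add_le_add ?_ ?_
          · exact mul_le_mul_of_nonneg_right (q4_card d m hm) (by positivity)
          · exact mul_le_mul_of_nonneg_left (q4_sqrt d) (by positivity)
      _ ≤ 8 / m * X + 48 * √(d : ℝ) * M.card := by
          have h1 : (d : ℝ) / (m : ℝ) ^ 2 * (8 * m * X / d) ≤ 8 / m * X := by
            rcases Nat.eq_zero_or_pos d with h0 | h0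
            · subst h0
              simp only [Nat.cast_zero, zero_div, zero_mul]
              positivity
            · have h0' : (0 : ℝ) < d := by exact_mod_cast h0
              refine le_of_eq ?_
              field_simp
          linarith
  rw [q4_reindex]
  refine (sum_le_sum fun t _ => key t).trans ?_
  rw [sum_add_distrib, ← mul_sum, hAs]
  linarith

end Pool.Agent.Helper13.TSE
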