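import Mathlib
import Pool.Agent.Helper13.TSE.L2
import Pool.Agent.Helper13.TSE.D2

/-!
# TSE-L3: the recursion
-/

namespace Pool.Agent.Helper13.TSE

open Finset Pool.Agent.Helper82.TotSep Pool.Agent.Helper13.TSD

variable {V : Type*} [Fintype V] {G : SimpleGraph V} {d : ℕ} {Λ : Type*} {L : FaceData G d}
  {M : Finset V} {lab : V → Λ} {r j : ℕ} {P : Finset V}

/-- Mean of `face_ineq` (dimension `j + 1`), `sum_cuts`, `av_facets`, `av_inner`. -/
theorem rec_step (hP : IsFace L r P) (hlab : LabOn G M lab P) (hj : 1 ≤ j) (hjr : j < r) :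
    ((j : ℝ) + 2) * av L r P (j + 1) (KR M lab) ≤ ((j : ℝ) + 1) * av L r P j (KR M lab) +
      av L r P (j + 1) (fun F => ((sn L M lab (j + 1) F).card : ℝ)) +
      12 / (j : ℝ) * (inner M P).card +
      2 / ((j : ℝ) + 1) * av L r P (j + 1) (NR L M lab) := by
  have hj0 : (0 : ℝ) < j := by exact_mod_cast hj
  have key : ∀ F ∈ fcs L (j + 1) P, ((j : ℝ) + 2) * KR M lab F ≤
      ((∑ A ∈ facets L j F, KR M lab A + ((sn L M lab (j + 1) F).card : ℝ)) +
        12 / (j : ℝ) * ((inner M F).card : ℝ)) + 2 / ((j : ℝ) + 1) * NR L M lab F := by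
    intro F hF
    rw [mem_fcs] at hF
    have h := face_ineq (M := M) (lab := lab) (LabOn.mono hlab hF.2) hF.1 (by omega)
    rw [sum_cuts hF.1] at h
    push_cast at h
    have e1 : (j : ℝ) + 1 + 1 = (j : ℝ) + 2 := by ring
    have e2 : (j : ℝ) + 1 - 1 = (j : ℝ) := by ring
    rw [e1, e2] at h
    have h8 : 8 / ((j : ℝ) + 1) ≤ 8 / (j : ℝ) := by
      apply div_le_div_of_nonneg_left (by norm_num) hj0 (by linarith)
    have h12 : 8 / (j : ℝ) + 4 / (j : ℝ) = 12 / (j : ℝ) := by
      rw [← add_div]; norm_num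
    have hc : (0 : ℝ) ≤ ((inner M F).card : ℝ) := Nat.cast_nonneg _
    have hm : (8 / ((j : ℝ) + 1) + 4 / (j : ℝ)) * ((inner M F).card : ℝ) ≤
        12 / (j : ℝ) * ((inner M F).card : ℝ) := by
      apply mul_le_mul_of_nonneg_right _ hc
      linarith
    linarith
  have hav := av_mono (r := r) key
  rw [av_mul, av_add, av_add, av_add, av_mul, av_mul, av_facets hP hjr, av_inner hP (by omega)]
    at hav
  exact hav

end Pool.Agent.Helper13.TSE
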