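import Mathlib
import Pool.Agent.Helper13.TSE.L2
import Pool.Agent.Helper13.TSE.D2

/-!
# TSE-L3b: the recursion
-/

namespace Pool.Agent.Helper13.TSE

open Finset Pool.Agent.Helper82.TotSep Pool.Agent.Helper13.TSD

variable {V : Type*} [Fintype V] {G : SimpleGraph V} {d : ℕ} {Λ : Type*} {L : FaceData G d}
  {M : Finset V} {lab : V → Λ} {r j : ℕ} {P : Finset V}

private lemma l3b_re_mono {F A : Finset V} (h : A ⊆ F) (hA : Re M lab A) : Re M lab F := by
  classical
  unfold Re at hA ⊢
  refine hA.trans (Finset.card_le_card fun c hc => ?_)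
  obtain ⟨x, hx, hxM, hxc⟩ := mem_labs.mp hc
  exact mem_labs.mpr ⟨x, h hx, hxM, hxc⟩

/-- In a real face `F` of dimension `j + 1`, `∑ v, (j + 1 - nr F v)` is the sum over the facets
`H` cutting `F` with `F ∩ H` real of the number of nodes of `M` in `F ∩ H`; and the faces
containing a real face are real. -/
theorem NR_eq {F : Finset V} (hF : IsFace L (j + 1) F) :
    NR L M lab F = ((j : ℝ) + 1) * nR M lab F - ∑ H ∈ cuts L F, nR M lab (ct H F) := by
  classical
  by_cases hR : Re M lab F
  · have h1 : NR L M lab F = ∑ v ∈ inner M F, (nr L M lab F v : ℝ) := by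
      unfold NR
      rw [if_pos hR]
    have h2 : nR M lab F = ((inner M F).card : ℝ) := by
      unfold nR
      rw [if_pos hR]
    have h3 : ∀ v ∈ inner M F, (nr L M lab F v : ℝ) = ((j : ℝ) + 1) -
        ∑ H ∈ cuts L F, if v ∈ H ∧ Re M lab (ct H F) then (1 : ℝ) else 0 := by
      intro v hv
      have hvF : v ∈ F := (mem_inner.mp hv).1
      have c1 := card_th hF hvF
      have c2 := Finset.card_filter_add_card_filter_not (s := th L F v)
        (fun H => Re M lab (ct H F))
      have c3 : ((th L F v).filter fun H => Re M lab (ct H F)).card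
          = ((cuts L F).filter fun H => v ∈ H ∧ Re M lab (ct H F)).card := by
        rw [th_eq_cuts_filter hF hvF, Finset.filter_filter]
      have c4 : ∑ H ∈ cuts L F, (if v ∈ H ∧ Re M lab (ct H F) then (1 : ℝ) else 0)
          = (((cuts L F).filter fun H => v ∈ H ∧ Re M lab (ct H F)).card : ℝ) := by
        rw [Finset.sum_boole]
      rw [c4, ← c3]
      have c5 : nr L M lab F v = ((th L F v).filter fun H => ¬ Re M lab (ct H F)).card := by
        unfold nr
        congr!
      rw [c5]
      have c6 : ((((th L F v).filter fun H => Re M lab (ct H F)).card : ℕ) : ℝ) +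
          ((((th L F v).filter fun H => ¬ Re M lab (ct H F)).card : ℕ) : ℝ) = (j : ℝ) + 1 := by
        rw [c1] at c2
        exact_mod_cast c2
      linarith
    have h4 : ∀ H ∈ cuts L F, nR M lab (ct H F) = ∑ v ∈ inner M F,
        if v ∈ H ∧ Re M lab (ct H F) then (1 : ℝ) else 0 := by
      intro H _
      by_cases hH : Re M lab (ct H F)
      · unfold nR
        rw [if_pos hH, Finset.sum_boole]
        congr 2
        ext v
        simp only [mem_inner, mem_ct, Finset.mem_filter, hH, and_true]
        tauto
      · unfold nR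
        rw [if_neg hH]
        simp [hH]
    rw [h1, h2, Finset.sum_congr rfl h3, Finset.sum_congr rfl h4, Finset.sum_sub_distrib,
      Finset.sum_comm, Finset.sum_const, nsmul_eq_mul]
    ring
  · have h1 : NR L M lab F = 0 := by
      unfold NR
      rw [if_neg hR]
    have h2 : nR M lab F = 0 := by
      unfold nR
      rw [if_neg hR]
    have h3 : ∀ H ∈ cuts L F, nR M lab (ct H F) = 0 := by
      intro H _
      unfold nR
      rw [if_neg (fun h => hR (l3b_re_mono ct_subset h))]
    rw [h1, h2, Finset.sum_congr rfl h3]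
    simp

/-- `NR_eq`, `sum_cuts`, `av_facets`. -/
theorem av_NR (hP : IsFace L r P) (hjr : j < r) :
    av L r P (j + 1) (NR L M lab) =
      ((j : ℝ) + 1) * (av L r P (j + 1) (nR M lab) - av L r P j (nR M lab)) := by
  have h1 : av L r P (j + 1) (NR L M lab) = av L r P (j + 1)
      (fun F => ((j : ℝ) + 1) * nR M lab F + (-1) * ∑ A ∈ facets L j F, nR M lab A) := by
    unfold av
    congr 1
    refine Finset.sum_congr rfl fun F hF => ?_
    have hF' := (mem_fcs.mp hF).1
    rw [NR_eq hF', sum_cuts hF' (nR M lab)]
    ring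
  rw [h1, av_add, av_mul, av_mul, av_facets hP hjr]
  ring

end Pool.Agent.Helper13.TSE
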