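import Mathlib
import Pool.Agent.Helper13.TSE.L3
import Pool.Agent.Helper13.TSE.L3b

/-!
# TSE-L4: the recursion, summed up
-/

namespace Pool.Agent.Helper13.TSE

open Finset Pool.Agent.Helper82.TotSep Pool.Agent.Helper13.TSD

variable {V : Type*} [Fintype V] {G : SimpleGraph V} {d : ℕ} {Λ : Type*} {L : FaceData G d}
  {M : Finset V} {lab : V → Λ} {r j : ℕ} {P : Finset V}

omit [Fintype V] in
private lemma l4_nR_nonneg (F : Finset V) : 0 ≤ nR M lab F := by
  unfold nR
  split_ifs
  · positivity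
  · exact le_rfl

omit [Fintype V] in
private lemma l4_nR_le (F : Finset V) : nR M lab F ≤ ((inner M F).card : ℝ) := by
  unfold nR
  split_ifs
  · exact le_rfl
  · positivity

private lemma l4_NR_nonneg (F : Finset V) : 0 ≤ NR L M lab F := by
  unfold NR
  split_ifs
  · exact Finset.sum_nonneg fun v _ => Nat.cast_nonneg _
  · exact le_rfl

theorem av_nR_nonneg : 0 ≤ av L r P j (nR M lab) :=
  av_nonneg fun F _ => l4_nR_nonneg F

theorem av_nR_le (hP : IsFace L r P) (hj : j ≤ r) :
    av L r P j (nR M lab) ≤ (inner M P).card :=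
  (av_mono fun F _ => l4_nR_le F).trans (av_inner hP hj M).le

private lemma l4_step (hP : IsFace L r P) {j : ℕ} (hj : j < r) :
    0 ≤ av L r P (j + 1) (nR M lab) - av L r P j (nR M lab) := by
  have h1 : 0 ≤ av L r P (j + 1) (NR L M lab) := av_nonneg fun F _ => l4_NR_nonneg F
  rw [av_NR hP hj] at h1
  have h2 : (0 : ℝ) < (j : ℝ) + 1 := by positivity
  exact nonneg_of_mul_nonneg_right h1 h2

/-- The increments of `av nR` are nonnegative (`av_NR`, `NR ≥ 0`), and their sum is at most
`n`. -/
theorem sum_av_nR_le (hP : IsFace L r P) (J0 : ℕ) (hJ : J0 ≤ r) :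
    (∀ j < r, 0 ≤ av L r P (j + 1) (nR M lab) - av L r P j (nR M lab)) ∧
      ∑ j ∈ Ico J0 r, (av L r P (j + 1) (nR M lab) - av L r P j (nR M lab)) ≤
        (inner M P).card := by
  refine ⟨fun j hj => l4_step hP hj, ?_⟩
  rw [Finset.sum_Ico_sub (fun j => av L r P j (nR M lab)) hJ]
  have h1 := av_nR_nonneg (L := L) (M := M) (lab := lab) (r := r) (j := J0) (P := P)
  have h2 := av_nR_le (L := L) (M := M) (lab := lab) hP le_rfl
  linarith

/-- Sum of `rec_step` over `j` from `J0` to `r - 1`, with `av_NR` and `sum_av_nR_le`. -/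
theorem recursion (hP : IsFace L r P) (hlab : LabOn G M lab P) {J0 : ℕ} (h1 : 1 ≤ J0)
    (hJ : J0 ≤ r) :
    ((r : ℝ) + 1) * KR M lab P ≤ ((J0 : ℝ) + 1) * av L r P J0 (KR M lab) +
      ∑ j ∈ Ico J0 r, (av L r P (j + 1) (fun F => ((sn L M lab (j + 1) F).card : ℝ)) +
        12 / (j : ℝ) * (inner M P).card) + 2 * (inner M P).card := by
  have hstep : ∀ j ∈ Ico J0 r, (((j + 1 : ℕ) : ℝ) + 1) * av L r P (j + 1) (KR M lab) -
      ((j : ℝ) + 1) * av L r P j (KR M lab) ≤
      (av L r P (j + 1) (fun F => ((sn L M lab (j + 1) F).card : ℝ)) +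
        12 / (j : ℝ) * (inner M P).card) +
      2 * (av L r P (j + 1) (nR M lab) - av L r P j (nR M lab)) := by
    intro j hj
    rw [Finset.mem_Ico] at hj
    have h := rec_step (L := L) (M := M) (lab := lab) hP hlab (j := j) (by omega) hj.2
    rw [av_NR hP hj.2] at h
    have hpos : ((j : ℝ) + 1) ≠ 0 := by positivity
    have h3 : 2 / ((j : ℝ) + 1) *
        (((j : ℝ) + 1) * (av L r P (j + 1) (nR M lab) - av L r P j (nR M lab))) =
        2 * (av L r P (j + 1) (nR M lab) - av L r P j (nR M lab)) := by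
      field_simp
    rw [h3] at h
    push_cast
    linarith
  have hsum := Finset.sum_le_sum hstep
  rw [Finset.sum_Ico_sub (fun j => ((j : ℝ) + 1) * av L r P j (KR M lab)) hJ,
    Finset.sum_add_distrib, ← Finset.mul_sum, av_self hP] at hsum
  have h2 := (sum_av_nR_le (L := L) (M := M) (lab := lab) hP J0 hJ).2
  linarith

/-- `TSD.card_labs_le`. -/
theorem KR_le {F : Finset V} (hF : IsFace L j F) (hlab : LabOn G M lab F) :
    KR M lab F ≤ (inner M F).card := by
  unfold KR
  split_ifs with h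
  · exact_mod_cast card_labs_le hlab hF h
  · positivity

/-- `TSD.face_bound`. -/
theorem KR_le_bd {F : Finset V} (hF : IsFace L j F) (hlab : LabOn G M lab F) :
    KR M lab F ≤ bd j (inner M F).card := by
  unfold KR
  split_ifs with h
  · exact face_bound j F hF M lab hlab h
  · unfold bd
    have h1 : 0 ≤ Real.log ((inner M F).card : ℝ) := Real.log_natCast_nonneg _
    positivity

theorem av_KR_le (hP : IsFace L r P) (hlab : LabOn G M lab P) (hj : j ≤ r) :
    av L r P j (KR M lab) ≤ (inner M P).card := by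
  refine (av_mono (g := fun F => ((inner M F).card : ℝ)) fun F hF => ?_).trans
    (av_inner hP hj M).le
  rw [mem_fcs] at hF
  exact KR_le hF.1 (hlab.mono hF.2)

end Pool.Agent.Helper13.TSE
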