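import Mathlib
import Pool.Agent.Helper13.TSE.F6b
import Pool.Agent.Helper13.TSE.F7
import Pool.Agent.Helper13.TSE.L4

/-!
# TSE-Z1: strongly nice labels of a face of high dimension
-/

namespace Pool.Agent.Helper13.TSE

open Finset Pool.Agent.Helper82.TotSep Pool.Agent.Helper13.TSD

variable {V : Type*} [Fintype V] {G : SimpleGraph V} {d : ℕ} {Λ : Type*} {L : FaceData G d}
  {M : Finset V} {lab : V → Λ} {j : ℕ} {F : Finset V}

/-- `qq_log` with `B = m`, summed over the nodes: the nodes with `qq ≥ θ`, if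
`8 m SS ≤ θ`. -/
theorem sum_qv_le (hF : IsFace L j F) {m : ℕ} (hm : 1 ≤ m) {θ : ℝ}
    (h : 8 * m * SS L M F ≤ θ) :
    Real.log m * ∑ v ∈ inner M F, qv L M F θ v ≤ 2 * SL L M F := by
  have hm1 : (1 : ℝ) ≤ m := by exact_mod_cast hm
  unfold SL
  rw [Finset.mul_sum, Finset.mul_sum]
  refine Finset.sum_le_sum fun v hv => ?_
  unfold qv
  split_ifs with hq
  · rw [mul_comm]
    refine qq_log hF hv hm1 (le_trans ?_ hq)
    calc 8 * SS L M F * (m : ℝ) = 8 * m * SS L M F := by ring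
      _ ≤ θ := h
  · rw [mul_zero]
    exact mul_nonneg (by norm_num) (lv_nonneg v)

end Pool.Agent.Helper13.TSE
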