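import Mathlib
import Pool.Agent.Helper13.TSE.Z1

/-!
# TSE-Z1b: strongly nice labels of a face of high dimension
-/

namespace Pool.Agent.Helper13.TSE

open Finset Pool.Agent.Helper82.TotSep Pool.Agent.Helper13.TSD

variable {V : Type*} [Fintype V] {G : SimpleGraph V} {d : ℕ} {Λ : Type*} {L : FaceData G d}
  {M : Finset V} {lab : V → Λ} {j : ℕ} {F : Finset V}

private theorem z1b_sn_le_KR : ((sn L M lab j F).card : ℝ) ≤ KR M lab F := by
  classical
  by_cases hR : Re M lab F
  · rw [KR, if_pos hR]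
    have h : sn L M lab j F ⊆ labs M lab F := fun c hc => (mem_sn.mp hc).1
    exact_mod_cast Finset.card_le_card h
  · have h : sn L M lab j F = ∅ := by
      rw [Finset.eq_empty_iff_forall_notMem]
      intro c hc
      obtain ⟨_, ⟨_, h2⟩, _⟩ := mem_sn.mp hc
      exact hR (Re.of_gs (L := L) (c := c) (Finset.card_pos.mp (by omega)))
    rw [h, KR, if_neg hR]
    simp

/-- If `SS F ≤ √(j y)`: `card_sn_le` for `P = F`, `ε = 1 / m`, `θ = j / (8 m) - 1`, `sf_mul_log_le`,
`sum_qv_le` (`8 m √(j y) ≤ j / (16 m) ≤ θ`, as `j ≥ 16 m`).  Otherwise `|sn| ≤ KR ≤ bd j n`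
(`KR_le_bd`) `≤ 30 n / √j + 30 n y / j` and `y / j ≤ √(y / j) SS / j`, `n SS ≤ SL` (`SS_mul_le`),
`√(y / j) ≤ 1 / (128 m ^ 2) ≤ 1 / log m`. -/
theorem top_face (hF : IsFace L j F) (hlab : LabOn G M lab F) {m : ℕ} (hm : 2 ≤ m) {y : ℝ}
    (hy : 1 ≤ y) (hny : Real.log ((inner M F).card : ℝ) ≤ y)
    (hc : 128 * (m : ℝ) ^ 2 * √((j : ℝ) * y) ≤ j) (hj : 1 ≤ j) :
    ((sn L M lab j F).card : ℝ) ≤ (KQ L M lab j F m).card +
      30 / ((j : ℝ) * Real.log m) * SL L M F + 30 / √(j : ℝ) * (inner M F).card := by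
  have hjR : (1 : ℝ) ≤ j := by exact_mod_cast hj
  have hmR : (2 : ℝ) ≤ m := by exact_mod_cast hm
  have hsq : √(j : ℝ) ≤ √((j : ℝ) * y) := Real.sqrt_le_sqrt (by nlinarith)
  have hj0 : 0 < √(j : ℝ) := Real.sqrt_pos.mpr (by linarith)
  have hjj : √(j : ℝ) * √(j : ℝ) = j := Real.mul_self_sqrt (by linarith)
  have h128 : 128 * (m : ℝ) ^ 2 ≤ √(j : ℝ) := by
    have h1 : 128 * (m : ℝ) ^ 2 * √(j : ℝ) ≤ √(j : ℝ) * √(j : ℝ) := by
      rw [hjj]
      exact (mul_le_mul_of_nonneg_left hsq (by positivity)).trans hc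
    exact le_of_mul_le_mul_right h1 hj0
  have hmsq : 2 * (m : ℝ) ≤ (m : ℝ) ^ 2 := by nlinarith
  have hj1 : 1 ≤ √(j : ℝ) := by nlinarith
  have hjs : √(j : ℝ) ≤ j := by nlinarith
  have h16m : 16 * (m : ℝ) ≤ j := by nlinarith
  have hlogm : 0 < Real.log m := Real.log_pos (by linarith)
  have hlogm' : Real.log m ≤ m := by
    have := Real.log_le_sub_one_of_pos (show (0 : ℝ) < m by linarith)
    linarith
  have hSL : 0 ≤ SL L M F := SL_nonneg
  have hn0 : (0 : ℝ) ≤ ((inner M F).card : ℝ) := Nat.cast_nonneg _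
  by_cases hS : SS L M F ≤ √((j : ℝ) * y)
  · have h16 : 16 ≤ j := by
      have : (16 : ℝ) ≤ j := by linarith
      exact_mod_cast this
    have hs0 : 0 ≤ √((j : ℝ) * y) := Real.sqrt_nonneg _
    have hS1 : 16 * (m : ℝ) * SS L M F ≤ 1 / (m : ℝ) * j := by
      have h1 : 16 * (m : ℝ) * SS L M F ≤ 16 * (m : ℝ) * √((j : ℝ) * y) :=
        mul_le_mul_of_nonneg_left hS (by linarith)
      have h2 : 16 * (m : ℝ) * √((j : ℝ) * y) ≤ 1 / (m : ℝ) * j := by
        rw [one_div, inv_mul_eq_div, le_div_iff₀ (by linarith)]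
        have h3 : 16 * (m : ℝ) * √((j : ℝ) * y) * m = 16 * (m : ℝ) ^ 2 * √((j : ℝ) * y) := by
          ring
        rw [h3]
        have h4 : 0 ≤ (m : ℝ) ^ 2 * √((j : ℝ) * y) := by positivity
        nlinarith
      exact h1.trans h2
    have hθ : 8 * (m : ℝ) * (((j : ℝ) / (8 * m) - 1) + 1) ≤ j := by
      have h1 : (8 * (m : ℝ)) ≠ 0 := by positivity
      rw [sub_add_cancel, mul_div_cancel₀ _ h1]
    have key := card_sn_le (P := F) hlab hF h16 (by omega : 1 ≤ m) (ε := 1 / (m : ℝ))
      (θ := (j : ℝ) / (8 * m) - 1) (by positivity) hS1 hθ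
    have hsf : (∑ v ∈ inner M F, (sf L M F F (1 / (m : ℝ)) v : ℝ)) * Real.log m ≤
        SL L M F := by
      rw [Finset.sum_mul, SL]
      refine Finset.sum_le_sum fun v hv => ?_
      have h1 := sf_mul_log_le (L := L) (ε := 1 / (m : ℝ)) (by positivity)
        (by rw [div_le_one (by linarith)]; linarith) hv
      rwa [one_div_one_div] at h1
    have hq8 : 8 * (m : ℝ) * SS L M F ≤ (j : ℝ) / (8 * m) - 1 := by
      have h1 : 8 * (m : ℝ) * SS L M F ≤ 8 * (m : ℝ) * √((j : ℝ) * y) :=
        mul_le_mul_of_nonneg_left hS (by linarith)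
      have h2 : 8 * (m : ℝ) * √((j : ℝ) * y) ≤ (j : ℝ) / (16 * m) := by
        rw [le_div_iff₀ (by linarith)]
        have h3 : 8 * (m : ℝ) * √((j : ℝ) * y) * (16 * m) =
            128 * (m : ℝ) ^ 2 * √((j : ℝ) * y) := by ring
        rw [h3]
        exact hc
      have h4 : 1 ≤ (j : ℝ) / (16 * m) := by
        rw [le_div_iff₀ (by linarith)]
        linarith
      have h5 : (j : ℝ) / (8 * m) = (j : ℝ) / (16 * m) + (j : ℝ) / (16 * m) := by
        field_simp
        ring
      linarith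
    have hqv := sum_qv_le hF (by omega : 1 ≤ m) hq8
    have hA : 26 / (j : ℝ) * ∑ v ∈ inner M F, (sf L M F F (1 / (m : ℝ)) v : ℝ) ≤
        26 / ((j : ℝ) * Real.log m) * SL L M F := by
      have h1 : ∑ v ∈ inner M F, (sf L M F F (1 / (m : ℝ)) v : ℝ) ≤ SL L M F / Real.log m := by
        rw [le_div_iff₀ hlogm]
        exact hsf
      calc 26 / (j : ℝ) * ∑ v ∈ inner M F, (sf L M F F (1 / (m : ℝ)) v : ℝ) ≤
          26 / (j : ℝ) * (SL L M F / Real.log m) :=
            mul_le_mul_of_nonneg_left h1 (by positivity)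
        _ = 26 / ((j : ℝ) * Real.log m) * SL L M F := by
            field_simp
    have hB : 2 / (j : ℝ) * ∑ v ∈ inner M F, qv L M F ((j : ℝ) / (8 * m) - 1) v ≤
        4 / ((j : ℝ) * Real.log m) * SL L M F := by
      have h1 : ∑ v ∈ inner M F, qv L M F ((j : ℝ) / (8 * m) - 1) v ≤
          2 * SL L M F / Real.log m := by
        rw [le_div_iff₀ hlogm]
        linarith
      calc 2 / (j : ℝ) * ∑ v ∈ inner M F, qv L M F ((j : ℝ) / (8 * m) - 1) v ≤
          2 / (j : ℝ) * (2 * SL L M F / Real.log m) :=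
            mul_le_mul_of_nonneg_left h1 (by positivity)
        _ = 4 / ((j : ℝ) * Real.log m) * SL L M F := by
            field_simp
            ring
    have hC : 12 / √(j : ℝ) * ((inner M F).card : ℝ) ≤ 30 / √(j : ℝ) * (inner M F).card := by
      apply mul_le_mul_of_nonneg_right _ hn0
      exact div_le_div_of_nonneg_right (by norm_num) hj0.le
    have hD : 26 / ((j : ℝ) * Real.log m) * SL L M F + 4 / ((j : ℝ) * Real.log m) * SL L M F =
        30 / ((j : ℝ) * Real.log m) * SL L M F := by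
      rw [← add_mul, ← add_div]
      norm_num
    linarith
  · push Not at hS
    have h1 : ((sn L M lab j F).card : ℝ) ≤ bd j (inner M F).card :=
      z1b_sn_le_KR.trans (KR_le_bd hF hlab)
    have h2 : bd j (inner M F).card ≤ 30 / √(j : ℝ) * (inner M F).card +
        30 * ((inner M F).card : ℝ) * y / j := by
      unfold bd
      have h3 : Real.log ((inner M F).card : ℝ) / j ≤ y / j :=
        div_le_div_of_nonneg_right hny (by linarith)
      calc 30 * ((inner M F).card : ℝ) * (1 / √(j : ℝ) +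
            Real.log ((inner M F).card : ℝ) / j) ≤
          30 * ((inner M F).card : ℝ) * (1 / √(j : ℝ) + y / j) :=
            mul_le_mul_of_nonneg_left (by linarith) (by positivity)
        _ = _ := by ring
    have h3 : ((inner M F).card : ℝ) * y * Real.log m ≤ SL L M F := by
      have h4 : SS L M F * (inner M F).card ≤ SL L M F := SS_mul_le
      have h5 : y * Real.log m ≤ SS L M F := by
        refine le_trans ?_ hS.le
        have hy0 : 0 ≤ y := by linarith
        have hy1 : √y * √y = y := Real.mul_self_sqrt hy0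
        have hy2 : 0 ≤ √y := Real.sqrt_nonneg y
        rw [Real.sqrt_mul (by linarith : (0 : ℝ) ≤ j)] at hc ⊢
        -- `128 m ^ 2 √y ≤ √j`
        have h6 : 128 * (m : ℝ) ^ 2 * √y ≤ √(j : ℝ) := by
          have h7 : 128 * (m : ℝ) ^ 2 * √y * √(j : ℝ) ≤ √(j : ℝ) * √(j : ℝ) := by
            rw [hjj]
            calc 128 * (m : ℝ) ^ 2 * √y * √(j : ℝ) = 128 * (m : ℝ) ^ 2 * (√(j : ℝ) * √y) := by
                  ring
              _ ≤ (j : ℝ) := hc
          exact le_of_mul_le_mul_right h7 hj0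
        have h8 : Real.log m * √y ≤ √(j : ℝ) := by
          have h9 : Real.log m * √y ≤ 128 * (m : ℝ) ^ 2 * √y := by
            apply mul_le_mul_of_nonneg_right _ hy2
            nlinarith
          exact h9.trans h6
        calc y * Real.log m = (Real.log m * √y) * √y := by
              rw [mul_assoc, hy1]
              ring
          _ ≤ √(j : ℝ) * √y := mul_le_mul_of_nonneg_right h8 hy2
      calc ((inner M F).card : ℝ) * y * Real.log m =
          (y * Real.log m) * (inner M F).card := by ring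
        _ ≤ SS L M F * (inner M F).card := mul_le_mul_of_nonneg_right h5 hn0
        _ ≤ SL L M F := h4
    have h4 : 30 * ((inner M F).card : ℝ) * y / j ≤
        30 / ((j : ℝ) * Real.log m) * SL L M F := by
      have h5 : ((inner M F).card : ℝ) * y ≤ SL L M F / Real.log m := by
        rw [le_div_iff₀ hlogm]
        exact h3
      calc 30 * ((inner M F).card : ℝ) * y / j =
          30 / (j : ℝ) * (((inner M F).card : ℝ) * y) := by ring
        _ ≤ 30 / (j : ℝ) * (SL L M F / Real.log m) :=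
            mul_le_mul_of_nonneg_left h5 (by positivity)
        _ = 30 / ((j : ℝ) * Real.log m) * SL L M F := by
            field_simp
    have h5 : (0 : ℝ) ≤ (KQ L M lab j F m).card := Nat.cast_nonneg _
    linarith

end Pool.Agent.Helper13.TSE
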