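import Mathlib
import Pool.Agent.Helper13.TSE.Z1b
import Pool.Agent.Helper13.TSE.E2

/-!
# TSE-Z2: the sum over the high dimensions
-/

namespace Pool.Agent.Helper13.TSE

open Finset Pool.Agent.Helper82.TotSep Pool.Agent.Helper13.TSD

variable {V : Type*} [Fintype V] {G : SimpleGraph V} {d : ℕ} {Λ : Type*} {L : FaceData G d}
  {M : Finset V} {lab : V → Λ}

private lemma inv_sqrt_step (j : ℕ) :
    1 / √((j : ℝ) + 1) ≤ 2 * (√((j : ℝ) + 1) - √(j : ℝ)) := by
  have h0 : (0 : ℝ) ≤ j := Nat.cast_nonneg j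
  have h1 : 0 < √((j : ℝ) + 1) := Real.sqrt_pos.mpr (by linarith)
  have h2 : √((j : ℝ) + 1) * √((j : ℝ) + 1) = (j : ℝ) + 1 := Real.mul_self_sqrt (by linarith)
  have h3 : √(j : ℝ) * √(j : ℝ) = (j : ℝ) := Real.mul_self_sqrt h0
  rw [div_le_iff₀ h1]
  nlinarith [sq_nonneg (√((j : ℝ) + 1) - √(j : ℝ))]

private lemma sum_sqrt_tele (a b : ℕ) :
    ∑ j ∈ Ico a b, 2 * (√((j : ℝ) + 1) - √(j : ℝ)) ≤ 2 * √(b : ℝ) := by
  rcases le_or_gt a b with h | h
  · have h1 : ∑ j ∈ Ico a b, 2 * (√((j : ℝ) + 1) - √(j : ℝ)) = 2 * √(b : ℝ) - 2 * √(a : ℝ) := by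
      induction b, h using Nat.le_induction with
      | base => simp
      | succ n hn ih =>
        rw [Finset.sum_Ico_succ_top hn, ih]
        push_cast
        ring
    rw [h1]
    have := Real.sqrt_nonneg (a : ℝ)
    linarith
  · rw [Finset.Ico_eq_empty (by omega), Finset.sum_empty]
    positivity

theorem sum_inv_sqrt_le (a b : ℕ) : ∑ j ∈ Ico a b, 1 / √((j : ℝ) + 1) ≤ 2 * √(b : ℝ) :=
  (Finset.sum_le_sum fun j _ => inv_sqrt_step j).trans (sum_sqrt_tele a b)

/-- `1 + log b ≤ 2 √b`. -/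
theorem sum_inv_le {a b : ℕ} (ha : 1 ≤ a) (hb : 1 ≤ b) : ∑ j ∈ Ico a b, 1 / (j : ℝ) ≤ 2 * √(b : ℝ) := by
  have h := Finset.sum_Ico_add' (fun r : ℕ => 1 / (r : ℝ)) (a - 1) (b - 1) 1
  rw [show a - 1 + 1 = a by omega, show b - 1 + 1 = b by omega] at h
  rw [← h]
  refine (Finset.sum_le_sum fun j _ => ?_).trans ((sum_inv_sqrt_le (a - 1) (b - 1)).trans ?_)
  · push_cast
    have h0 : (0 : ℝ) ≤ j := Nat.cast_nonneg j
    have h1 : 0 < √((j : ℝ) + 1) := Real.sqrt_pos.mpr (by linarith)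
    have h2 : √((j : ℝ) + 1) * √((j : ℝ) + 1) = (j : ℝ) + 1 := Real.mul_self_sqrt (by linarith)
    refine one_div_le_one_div_of_le h1 ?_
    have h3 : 1 ≤ √((j : ℝ) + 1) := Real.one_le_sqrt.mpr (by linarith)
    nlinarith
  · have h1 : √((b - 1 : ℕ) : ℝ) ≤ √(b : ℝ) := Real.sqrt_le_sqrt (by
      exact_mod_cast Nat.sub_le b 1)
    linarith

/-- Mean of `top_face` (the condition for `r` gives it for all larger dimensions), `sum_entropy`
for `P = univ`, `sum_inv_sqrt_le`. -/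
theorem top_sum (hlab : LabOn G M lab univ) {m : ℕ} (hm : 2 ≤ m)
    (hy : 1 ≤ Real.log M.card) {r : ℕ} (hr : 1 ≤ r)
    (hc : 128 * (m : ℝ) ^ 2 * √((r : ℝ) * Real.log M.card) ≤ r) :
    ∑ j ∈ Ico r d, av L d univ (j + 1) (fun F => ((sn L M lab (j + 1) F).card : ℝ)) ≤
      ∑ j ∈ Ico r d, av L d univ (j + 1) (fun F => ((KQ L M lab (j + 1) F m).card : ℝ)) +
      30 / Real.log m * (M.card * Real.log M.card) + 60 * √(d : ℝ) * M.card := by
  have hMne : M.card ≠ 0 := by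
    intro h0
    rw [h0] at hy
    simp at hy
    linarith
  have hV : Nonempty V := by
    obtain ⟨x, _⟩ := Finset.card_pos.mp (Nat.pos_of_ne_zero hMne)
    exact ⟨x⟩
  have hP : IsFace L d (univ : Finset V) := isFace_univ
  have hin : inner M (univ : Finset V) = M := by
    ext x
    rw [mem_inner]
    simp
  have hE := sum_entropy (M := M) hP
  rw [hin] at hE
  have hm1 : (1 : ℝ) < m := by
    have : 1 < m := by omega
    exact_mod_cast this
  have hlogm : 0 < Real.log m := Real.log_pos hm1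
  set y : ℝ := Real.log (M.card : ℝ) with hydef
  have hav : ∀ i : ℕ, 0 ≤ av L d (univ : Finset V) i (SL L M) :=
    fun i => av_nonneg fun F _ => SL_nonneg
  -- the condition for all larger dimensions
  have hcond : ∀ j : ℕ, r ≤ j → 128 * (m : ℝ) ^ 2 * √(((j : ℕ) : ℝ) * y) ≤ j := by
    intro j hj
    have hr0 : (0 : ℝ) < r := by exact_mod_cast hr
    have hj0 : (r : ℝ) ≤ j := by exact_mod_cast hj
    have hy0 : 0 ≤ y := by linarith
    rw [Real.sqrt_mul (Nat.cast_nonneg _)] at hc ⊢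
    have h1 : √(r : ℝ) * √(r : ℝ) = r := Real.mul_self_sqrt (Nat.cast_nonneg _)
    have h2 : √(j : ℝ) * √(j : ℝ) = j := Real.mul_self_sqrt (Nat.cast_nonneg _)
    have h3 : 0 < √(r : ℝ) := Real.sqrt_pos.mpr hr0
    have h4 : √(r : ℝ) ≤ √(j : ℝ) := Real.sqrt_le_sqrt hj0
    have h5 : 128 * (m : ℝ) ^ 2 * √y ≤ √(r : ℝ) := by
      have h6 : √(r : ℝ) * (128 * (m : ℝ) ^ 2 * √y) ≤ √(r : ℝ) * √(r : ℝ) := by
        rw [h1]
        calc √(r : ℝ) * (128 * (m : ℝ) ^ 2 * √y) = 128 * (m : ℝ) ^ 2 * (√(r : ℝ) * √y) := by ring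
          _ ≤ (r : ℝ) := hc
      exact le_of_mul_le_mul_left h6 h3
    calc 128 * (m : ℝ) ^ 2 * (√(j : ℝ) * √y) = √(j : ℝ) * (128 * (m : ℝ) ^ 2 * √y) := by ring
      _ ≤ √(j : ℝ) * √(j : ℝ) :=
        mul_le_mul_of_nonneg_left (h5.trans h4) (Real.sqrt_nonneg _)
      _ = (j : ℝ) := h2
  -- one dimension
  have hstep : ∀ j ∈ Ico r d,
      av L d univ (j + 1) (fun F => ((sn L M lab (j + 1) F).card : ℝ)) ≤
        av L d univ (j + 1) (fun F => ((KQ L M lab (j + 1) F m).card : ℝ)) +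
        30 / Real.log m * (av L d (univ : Finset V) (j + 1) (SL L M) / ((j : ℝ) + 1)) +
        30 * M.card * (1 / √((j : ℝ) + 1)) := by
    intro j hj
    rw [Finset.mem_Ico] at hj
    have h1 : av L d univ (j + 1) (fun F => ((sn L M lab (j + 1) F).card : ℝ)) ≤
        av L d univ (j + 1) (fun F => (((KQ L M lab (j + 1) F m).card : ℝ) +
          30 / (((j + 1 : ℕ) : ℝ) * Real.log m) * SL L M F) +
          30 / √((j + 1 : ℕ) : ℝ) * ((inner M F).card : ℝ)) := by
      refine av_mono fun F hF => ?_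
      have hF' := (mem_fcs.mp hF).1
      refine top_face hF' (hlab.mono (Finset.subset_univ F)) hm hy ?_ (hcond (j + 1) (by omega))
        (by omega)
      rcases Nat.eq_zero_or_pos (inner M F).card with h0 | h0
      · rw [h0]
        simp only [Nat.cast_zero, Real.log_zero]
        linarith
      · refine Real.log_le_log (by exact_mod_cast h0) ?_
        have h2 : (inner M F).card ≤ M.card := by
          refine Finset.card_le_card fun x hx => ?_
          exact (mem_inner.mp hx).2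
        exact_mod_cast h2
    rw [av_add, av_add, av_mul, av_mul, av_inner hP (by omega : j + 1 ≤ d) M, hin] at h1
    refine h1.trans (le_of_eq ?_)
    push_cast
    have h4 : ((j : ℝ) + 1) ≠ 0 := by positivity
    have h5 : √((j : ℝ) + 1) ≠ 0 := (Real.sqrt_pos.mpr (by positivity)).ne'
    field_simp
  refine (Finset.sum_le_sum hstep).trans ?_
  rw [Finset.sum_add_distrib, Finset.sum_add_distrib, ← Finset.mul_sum, ← Finset.mul_sum]
  have h1 : ∑ j ∈ Ico r d, av L d (univ : Finset V) (j + 1) (SL L M) / ((j : ℝ) + 1) ≤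
      M.card * y := by
    rw [← hE]
    refine Finset.sum_le_sum_of_subset_of_nonneg (fun x hx => ?_) fun j _ _ =>
      div_nonneg (hav _) (by positivity)
    rw [Finset.mem_Ico] at hx
    rw [Finset.mem_range]
    omega
  have h2 := sum_inv_sqrt_le r d
  have h3 : 30 / Real.log m * ∑ j ∈ Ico r d, av L d (univ : Finset V) (j + 1) (SL L M) /
      ((j : ℝ) + 1) ≤ 30 / Real.log m * (M.card * y) :=
    mul_le_mul_of_nonneg_left h1 (by positivity)
  have h4 : 30 * (M.card : ℝ) * ∑ j ∈ Ico r d, 1 / √((j : ℝ) + 1) ≤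
      30 * (M.card : ℝ) * (2 * √(d : ℝ)) := mul_le_mul_of_nonneg_left h2 (by positivity)
  linarith

end Pool.Agent.Helper13.TSE
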