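import Mathlib
import Pool.Agent.Helper13.TSE.F6
import Pool.Agent.Helper13.TSE.F0

/-!
# TSE-Z3x: the sum over the dimensions for one node
-/

namespace Pool.Agent.Helper13.TSE

open Finset Pool.Agent.Helper82.TotSep Pool.Agent.Helper13.TSD

variable {V : Type*} [Fintype V] {G : SimpleGraph V} {d : ℕ} {L : FaceData G d} {M : Finset V}
  {r : ℕ} {P : Finset V}

private lemma z3x_aux {J0 : ℕ} (hJ : 1 ≤ J0) (k : ℕ) :
    ∑ j ∈ Ico J0 (J0 + k), 2 / ((j : ℝ) + 1) ≤ 2 * Real.log (((J0 + k : ℕ) : ℝ) / J0) := by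
  have hJ' : (0 : ℝ) < J0 := by exact_mod_cast hJ
  induction k with
  | zero => simp [div_self hJ'.ne']
  | succ k ih =>
    rw [← add_assoc, Finset.sum_Ico_succ_top (by omega)]
    have hj : (0 : ℝ) < ((J0 + k : ℕ) : ℝ) := by positivity
    have h1 : 1 / (((J0 + k : ℕ) : ℝ) + 1) ≤
        Real.log ((((J0 + k : ℕ) : ℝ) + 1) / ((J0 + k : ℕ) : ℝ)) := by
      have h2 := Real.add_one_le_exp (-(1 / (((J0 + k : ℕ) : ℝ) + 1)))
      have h3 : (((J0 + k : ℕ) : ℝ)) / (((J0 + k : ℕ) : ℝ) + 1) ≤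
          Real.exp (-(1 / (((J0 + k : ℕ) : ℝ) + 1))) := by
        refine le_trans (le_of_eq ?_) h2
        field_simp
        ring
      rw [Real.exp_neg] at h3
      rw [Real.le_log_iff_exp_le (by positivity)]
      have h6 := (le_inv_comm₀ (by positivity) (Real.exp_pos _)).1 h3
      rwa [inv_div] at h6
    have h4 : Real.log (((J0 + k + 1 : ℕ) : ℝ) / J0) =
        Real.log (((J0 + k : ℕ) : ℝ) / J0) +
          Real.log ((((J0 + k : ℕ) : ℝ) + 1) / ((J0 + k : ℕ) : ℝ)) := by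
      rw [← Real.log_mul (by positivity) (by positivity)]
      congr 1
      push_cast
      field_simp
    rw [h4]
    have h5 : 2 / (((J0 + k : ℕ) : ℝ) + 1) = 2 * (1 / (((J0 + k : ℕ) : ℝ) + 1)) := by ring
    linarith

/-- `∑ 2 / (j + 1)` over `J0 ≤ j`, `j + 1 ≤ x` is at most `2 log (x / J0)`, if `J0 ≤ x`, else `0`. -/
theorem sum_two_div_le {J0 r : ℕ} (hJ : 1 ≤ J0) (x : ℝ) :
    ∑ j ∈ (Ico J0 r).filter (fun j : ℕ => (j : ℝ) + 1 ≤ x), 2 / ((j : ℝ) + 1) ≤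
      if (J0 : ℝ) ≤ x then 2 * Real.log (x / J0) else 0 := by
  have hJ' : (0 : ℝ) < J0 := by exact_mod_cast hJ
  split_ifs with hx
  · have hsub : (Ico J0 r).filter (fun j : ℕ => (j : ℝ) + 1 ≤ x) ⊆
        Ico J0 (J0 + (⌊x⌋₊ - J0)) := by
      intro j hj
      rw [Finset.mem_filter, Finset.mem_Ico] at hj
      rw [Finset.mem_Ico]
      have h1 : j + 1 ≤ ⌊x⌋₊ := Nat.le_floor (by push_cast; exact hj.2)
      omega
    refine (Finset.sum_le_sum_of_subset_of_nonneg hsub fun j _ _ => by positivity).trans ?_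
    refine (z3x_aux hJ _).trans ?_
    have h2 : J0 ≤ ⌊x⌋₊ := Nat.le_floor hx
    have h3 : J0 + (⌊x⌋₊ - J0) = ⌊x⌋₊ := by omega
    rw [h3]
    have h4 : ((⌊x⌋₊ : ℕ) : ℝ) ≤ x := Nat.floor_le (by linarith)
    have h5 : (0 : ℝ) < ((⌊x⌋₊ : ℕ) : ℝ) := by
      have : (J0 : ℝ) ≤ ((⌊x⌋₊ : ℕ) : ℝ) := by exact_mod_cast h2
      linarith
    have h6 : Real.log (((⌊x⌋₊ : ℕ) : ℝ) / J0) ≤ Real.log (x / J0) :=
      Real.log_le_log (by positivity) (by gcongr)
    linarith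
  · rw [Finset.filter_false_of_mem]
    · simp
    · intro j hj
      rw [Finset.mem_Ico] at hj
      have : (J0 : ℝ) ≤ j := by exact_mod_cast hj.1
      push Not at hx ⊢
      linarith

end Pool.Agent.Helper13.TSE
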