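import Mathlib
import Pool.Agent.Helper13.TSE.Z3x
import Pool.Agent.Helper13.TSE.F6b
import Pool.Agent.Helper13.TSE.F0

/-!
# TSE-Z3a: the sum over the dimensions for one node
-/

namespace Pool.Agent.Helper13.TSE

open Finset Pool.Agent.Helper82.TotSep Pool.Agent.Helper13.TSD

variable {V : Type*} [Fintype V] {G : SimpleGraph V} {d : ℕ} {L : FaceData G d} {M : Finset V}
  {r : ℕ} {P : Finset V}

/-- With `q = qq P v`: the condition is `j + 1 ≤ 4 q ^ 2 / s`, so for `q < 4 s` the sum is `0`, and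
otherwise it is at most `2 q log (4 q ^ 2 / s / (64 s)) = 4 q log (q / (4 s))`.  For `q ≥ 16 s`,
`log (q / (4 s)) ≤ 2 log (q / (8 s))` and `qq_log` with `B = q / (8 s)`; for `q ≤ 16 s` it is at
most `64 s log 4 ≤ 89 s`. -/
theorem sum_qv_levels (hP : IsFace L r P) {v : V} (hv : v ∈ inner M P) {s : ℝ} (hs : 0 < s)
    (hS : SS L M P ≤ s) {J0 : ℕ} (hJ : 64 * s ≤ J0) :
    ∑ j ∈ Ico J0 r, 2 / ((j : ℝ) + 1) * qv L M P (√(s * ((j : ℝ) + 1)) / 2) v ≤
      16 * lv L M P v + 89 * s := by
  have hlv := lv_nonneg (L := L) (M := M) (P := P) v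
  set q : ℝ := (qq L M P v : ℝ) with hq
  have hq0 : 0 ≤ q := by positivity
  have hJ1 : 1 ≤ J0 := by
    have : (0 : ℝ) < J0 := by linarith
    exact_mod_cast this
  have hJ' : (0 : ℝ) < J0 := by exact_mod_cast hJ1
  -- the sum as a filtered sum
  have h1 : ∑ j ∈ Ico J0 r, 2 / ((j : ℝ) + 1) * qv L M P (√(s * ((j : ℝ) + 1)) / 2) v =
      q * ∑ j ∈ (Ico J0 r).filter (fun j : ℕ => (j : ℝ) + 1 ≤ 4 * q ^ 2 / s),
        2 / ((j : ℝ) + 1) := by
    rw [Finset.sum_filter, Finset.mul_sum]
    refine Finset.sum_congr rfl fun j _ => ?_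
    have hj : (0 : ℝ) < (j : ℝ) + 1 := by positivity
    have hiff : √(s * ((j : ℝ) + 1)) / 2 ≤ q ↔ (j : ℝ) + 1 ≤ 4 * q ^ 2 / s := by
      rw [div_le_iff₀ (by norm_num : (0 : ℝ) < 2), Real.sqrt_le_left (by positivity),
        le_div_iff₀ hs]
      constructor <;> intro h <;> nlinarith
    unfold qv
    by_cases hc : √(s * ((j : ℝ) + 1)) / 2 ≤ q
    · rw [if_pos hc, if_pos (hiff.1 hc)]
      ring
    · rw [if_neg hc, if_neg (fun h => hc (hiff.2 h))]
      ring
  rw [h1]
  have h2 := sum_two_div_le (r := r) hJ1 (4 * q ^ 2 / s)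
  by_cases hx : (J0 : ℝ) ≤ 4 * q ^ 2 / s
  · rw [if_pos hx] at h2
    have h3 : 64 * s ≤ 4 * q ^ 2 / s := hJ.trans hx
    rw [le_div_iff₀ hs] at h3
    have hq4 : 4 * s ≤ q := by
      by_contra hcon
      push Not at hcon
      nlinarith
    have hqpos : 0 < q := by linarith
    have h4 : Real.log (4 * q ^ 2 / s / J0) ≤ 2 * Real.log (q / (4 * s)) := by
      have h5 : 4 * q ^ 2 / s / J0 ≤ (q / (4 * s)) ^ 2 := by
        rw [div_div, div_pow, div_le_div_iff₀ (by positivity) (by positivity)]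
        have h6 : s * (64 * s) ≤ s * J0 := by gcongr
        nlinarith [sq_nonneg q]
      calc Real.log (4 * q ^ 2 / s / J0) ≤ Real.log ((q / (4 * s)) ^ 2) :=
            Real.log_le_log (by positivity) h5
        _ = 2 * Real.log (q / (4 * s)) := by rw [Real.log_pow]; norm_num
    have h7 : q * ∑ j ∈ (Ico J0 r).filter (fun j : ℕ => (j : ℝ) + 1 ≤ 4 * q ^ 2 / s),
        2 / ((j : ℝ) + 1) ≤ 4 * (q * Real.log (q / (4 * s))) := by
      calc _ ≤ q * (2 * Real.log (4 * q ^ 2 / s / J0)) := by gcongr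
        _ ≤ q * (2 * (2 * Real.log (q / (4 * s)))) := by gcongr
        _ = _ := by ring
    refine h7.trans ?_
    by_cases hq16 : 16 * s ≤ q
    · have h8 : Real.log (q / (4 * s)) ≤ 2 * Real.log (q / (8 * s)) := by
        have h9 : q / (4 * s) ≤ (q / (8 * s)) ^ 2 := by
          rw [div_pow, div_le_div_iff₀ (by positivity) (by positivity)]
          nlinarith [mul_nonneg hqpos.le hs.le, mul_le_mul_of_nonneg_left hq16
            (mul_nonneg hqpos.le hs.le)]
        calc Real.log (q / (4 * s)) ≤ Real.log ((q / (8 * s)) ^ 2) :=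
              Real.log_le_log (by positivity) h9
          _ = 2 * Real.log (q / (8 * s)) := by rw [Real.log_pow]; norm_num
      have h10 := qq_log (B := q / (8 * s)) hP hv
        (by rw [one_le_div (by positivity)]; linarith)
        (by
          calc 8 * SS L M P * (q / (8 * s)) ≤ 8 * s * (q / (8 * s)) := by gcongr
            _ = q := by field_simp)
      have h11 : q * Real.log (q / (4 * s)) ≤ q * (2 * Real.log (q / (8 * s))) := by gcongr
      nlinarith
    · push Not at hq16
      have h12 : Real.log (q / (4 * s)) ≤ Real.log 4 := by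
        refine Real.log_le_log (by positivity) ?_
        rw [div_le_iff₀ (by positivity)]
        linarith
      have h13 : Real.log 4 = 2 * Real.log 2 := by
        rw [show (4 : ℝ) = 2 ^ 2 by norm_num, Real.log_pow]; norm_num
      have h14 := Real.log_two_lt_d9
      have h15 : 0 ≤ Real.log (q / (4 * s)) :=
        Real.log_nonneg (by rw [one_le_div (by positivity)]; exact hq4)
      have h16 : q * Real.log (q / (4 * s)) ≤ 16 * s * Real.log 4 := by
        calc q * Real.log (q / (4 * s)) ≤ 16 * s * Real.log (q / (4 * s)) := by gcongr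
          _ ≤ 16 * s * Real.log 4 := by gcongr
      rw [h13] at h16
      have h17 : 16 * s * (2 * Real.log 2) ≤ 16 * s * (2 * 0.6931471808) := by gcongr
      nlinarith
  · rw [if_neg hx] at h2
    have h3 : q * ∑ j ∈ (Ico J0 r).filter (fun j : ℕ => (j : ℝ) + 1 ≤ 4 * q ^ 2 / s),
        2 / ((j : ℝ) + 1) ≤ q * 0 := by gcongr
    linarith

end Pool.Agent.Helper13.TSE
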