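import Mathlib
import Pool.Agent.Helper13.TSE.Z2
import Pool.Agent.Helper13.TSE.Z3a
import Pool.Agent.Helper13.TSE.Q4

/-!
# TSE-Z3b: the low dimensions inside a face
-/

namespace Pool.Agent.Helper13.TSE

open Finset Pool.Agent.Helper82.TotSep Pool.Agent.Helper13.TSD

variable {V : Type*} [Fintype V] {G : SimpleGraph V} {d : ℕ} {Λ : Type*} {L : FaceData G d}
  {M : Finset V} {lab : V → Λ} {r : ℕ} {P : Finset V}

theorem qv_anti {θ θ' : ℝ} (h : θ ≤ θ') (v : V) : qv L M P θ' v ≤ qv L M P θ v := by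
  unfold qv
  split_ifs with h1 h2
  · exact le_rfl
  · exact absurd (h.trans h1) h2
  · positivity
  · exact le_rfl

private lemma mu_le {d m j m0 : ℕ} {s y : ℝ} (hs : 1 / 4 ≤ s)
    (hsy : s ≤ y) (hm : 1 ≤ m) (hmd : 64 * (m : ℝ) ^ 4 * y ≤ d)
    (hm0 : 1 ≤ m0) (hdef : m0 = ⌊√(((j : ℝ) + 1) / s) / 8⌋₊) : mu d m (j + 1) ≤ m0 := by
  unfold mu
  split_ifs with hc
  · exact hm0
  · push Not at hc
    have hs0 : 0 < s := by linarith
    have hm' : (1 : ℝ) ≤ m := by exact_mod_cast hm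
    have hc' : (d : ℝ) ≤ (m : ℝ) ^ 2 * ((j : ℝ) + 1) := by exact_mod_cast hc
    rw [hdef]
    refine Nat.le_floor ?_
    rw [le_div_iff₀ (by norm_num : (0 : ℝ) < 8)]
    refine Real.le_sqrt_of_sq_le ?_
    rw [le_div_iff₀ hs0]
    have h1 : 64 * (m : ℝ) ^ 4 * s ≤ (m : ℝ) ^ 2 * ((j : ℝ) + 1) := by
      calc 64 * (m : ℝ) ^ 4 * s ≤ 64 * (m : ℝ) ^ 4 * y := by gcongr
        _ ≤ (d : ℝ) := hmd
        _ ≤ (m : ℝ) ^ 2 * ((j : ℝ) + 1) := hc'
    have h2 : (m : ℝ) ^ 2 * (64 * (m : ℝ) ^ 2 * s) ≤ (m : ℝ) ^ 2 * ((j : ℝ) + 1) := by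
      refine le_trans (le_of_eq ?_) h1
      ring
    have h3 : 64 * (m : ℝ) ^ 2 * s ≤ (j : ℝ) + 1 := le_of_mul_le_mul_left h2 (by positivity)
    refine le_trans (le_of_eq ?_) h3
    ring

/-- `av_sn_le` with `ε = 1 / 4` and `m0 = ⌊√((j + 1) / s) / 8⌋₊ ≥ 1`:
`16 m0 SS ≤ 2 √(s (j + 1)) ≤ (j + 1) / 4`; `θ = (j + 1) / (8 m0) - 1 ≥ √(s (j + 1)) - 1 ≥
√(s (j + 1)) / 2` (`qv_anti`).  `mu d m (j + 1) ≤ m0` (`KQ_anti`): if `m ^ 2 (j + 1) ≥ d` then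
`(j + 1) / s ≥ d / (m ^ 2 y) ≥ 64 m ^ 2`.  `26 / log 4 ≤ 19`. -/
theorem low_level (hP : IsFace L r P) (hlab : LabOn G M lab P) {s y : ℝ} (hs : 1 / 4 ≤ s)
    (hsy : s ≤ y) (hS : SS L M P ≤ s) {m : ℕ} (hm : 1 ≤ m) (hmd : 64 * (m : ℝ) ^ 4 * y ≤ d)
    {j : ℕ} (hj : 64 * s ≤ j) (hjr : j < r) :
    av L r P (j + 1) (fun F => ((sn L M lab (j + 1) F).card : ℝ)) ≤
      av L r P (j + 1) (fun F => ((KQ L M lab (j + 1) F (mu d m (j + 1))).card : ℝ)) +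
      19 / (r : ℝ) * SL L M P +
      2 / ((j : ℝ) + 1) * ∑ v ∈ inner M P, qv L M P (√(s * ((j : ℝ) + 1)) / 2) v +
      12 / √((j : ℝ) + 1) * (inner M P).card := by
  have hs0 : 0 < s := by linarith
  have hj1 : (0 : ℝ) < (j : ℝ) + 1 := by positivity
  have hj16' : (16 : ℝ) ≤ j := by linarith
  have hj16 : 16 ≤ j := by exact_mod_cast hj16'
  have hr0 : (0 : ℝ) < r := by
    have : (j : ℝ) < r := by exact_mod_cast hjr
    linarith
  set R : ℝ := √(((j : ℝ) + 1) / s) with hR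
  have hR0 : 0 < R := Real.sqrt_pos.2 (by positivity)
  have hR2 : R ^ 2 = ((j : ℝ) + 1) / s := Real.sq_sqrt (by positivity)
  have hR2' : R ^ 2 * s = (j : ℝ) + 1 := by rw [hR2]; field_simp
  have hR8 : 8 ≤ R := by
    refine Real.le_sqrt_of_sq_le ?_
    rw [le_div_iff₀ hs0]
    linarith
  set m0 : ℕ := ⌊R / 8⌋₊ with hm0
  have hm01 : 1 ≤ m0 := by
    refine Nat.le_floor ?_
    rw [le_div_iff₀ (by norm_num : (0 : ℝ) < 8)]
    simpa using hR8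
  have hm0R : (m0 : ℝ) ≤ R / 8 := Nat.floor_le (by positivity)
  have hSq : √(s * ((j : ℝ) + 1)) = R * s := by
    rw [← hR2', show s * (R ^ 2 * s) = (R * s) ^ 2 by ring, Real.sqrt_sq (by positivity)]
  have hmu : mu d m (j + 1) ≤ m0 := mu_le hs hsy hm hmd hm01 hm0
  have hSSn : 0 ≤ SS L M P := SS_nonneg
  have key := av_sn_le (j := j + 1) (θ := R * s / 2) (ε := 1 / 4) hP hlab (by omega) (by omega)
    hm01 (by norm_num) (by norm_num)
    (by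
      push_cast
      have h1 : 16 * (m0 : ℝ) * SS L M P ≤ 16 * (R / 8) * s := by gcongr
      nlinarith)
    (by
      push_cast
      have h1 : 8 * (m0 : ℝ) * (R * s / 2 + 1) ≤ 8 * (R / 8) * (R * s / 2 + 1) := by gcongr
      have h2 : R ≤ R ^ 2 * s / 2 := by nlinarith
      nlinarith)
  have h1 : av L r P (j + 1) (fun F => ((KQ L M lab (j + 1) F m0).card : ℝ)) ≤
      av L r P (j + 1) (fun F => ((KQ L M lab (j + 1) F (mu d m (j + 1))).card : ℝ)) := by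
    refine av_mono fun F _ => ?_
    exact_mod_cast Finset.card_le_card (KQ_anti hmu)
  have hSL : 0 ≤ SL L M P := SL_nonneg
  have h2 : 26 / ((r : ℝ) * Real.log (1 / (1 / 4))) * SL L M P ≤ 19 / (r : ℝ) * SL L M P := by
    refine mul_le_mul_of_nonneg_right ?_ hSL
    have h13 : Real.log (1 / (1 / 4)) = 2 * Real.log 2 := by
      rw [show (1 : ℝ) / (1 / 4) = 2 ^ 2 by norm_num, Real.log_pow]; norm_num
    have h14 := Real.log_two_gt_d9
    rw [h13, div_le_div_iff₀ (by positivity) hr0]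
    nlinarith
  rw [hSq]
  push_cast at key
  linarith

end Pool.Agent.Helper13.TSE
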