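import Mathlib
import Pool.Agent.Helper13.TSE.Z3b

/-!
# TSE-Z3c: the bound inside a face
-/

namespace Pool.Agent.Helper13.TSE

open Finset Pool.Agent.Helper82.TotSep Pool.Agent.Helper13.TSD

variable {V : Type*} [Fintype V] {G : SimpleGraph V} {d : ℕ} {Λ : Type*} {L : FaceData G d}
  {M : Finset V} {lab : V → Λ} {r : ℕ} {P : Finset V}

/-- The case `SS P ≤ s ≤ y`: with `J0 = ⌈64 s⌉₊`, if `J0 > r` then `(r + 1) KR ≤ (64 s + 1) n`
(`KR_le`); otherwise `recursion` from `J0` (`av_KR_le`), `low_level`, `sum_qv_levels`,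
`sum_inv_sqrt_le`, `sum_inv_le`. -/
theorem low_face_aux (hP : IsFace L r P) (hlab : LabOn G M lab P) (hr : 1 ≤ r) {s y : ℝ}
    (hs : 1 / 4 ≤ s) (hsy : s ≤ y) (hS : SS L M P ≤ s) {m : ℕ} (hm : 1 ≤ m)
    (hmd : 64 * (m : ℝ) ^ 4 * y ≤ d) {Jm : ℕ} (hJm : Jm ≤ ⌈64 * s⌉₊) :
    ((r : ℝ) + 1) * KR M lab P ≤
      ∑ j ∈ Ico Jm r, av L r P (j + 1)
        (fun F => ((KQ L M lab (j + 1) F (mu d m (j + 1))).card : ℝ)) +
      35 * SL L M P + 153 * s * (inner M P).card + 52 * √(r : ℝ) * (inner M P).card := by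
  have hs0 : 0 < s := by linarith
  have hr' : (1 : ℝ) ≤ r := by exact_mod_cast hr
  have hsq : 1 ≤ √(r : ℝ) := by rw [Real.one_le_sqrt]; exact hr'
  set n : ℝ := ((inner M P).card : ℝ) with hn
  have hn0 : 0 ≤ n := by positivity
  have hSL : 0 ≤ SL L M P := SL_nonneg
  have hav : ∀ j, 0 ≤ av L r P (j + 1)
      (fun F => ((KQ L M lab (j + 1) F (mu d m (j + 1))).card : ℝ)) :=
    fun j => av_nonneg fun F _ => by positivity
  set J0 : ℕ := ⌈64 * s⌉₊ with hJ0
  have hJge : 64 * s ≤ (J0 : ℝ) := Nat.le_ceil _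
  have hJlt : (J0 : ℝ) < 64 * s + 1 := Nat.ceil_lt_add_one (by positivity)
  have hJ1 : 1 ≤ J0 := by
    have : (0 : ℝ) < J0 := by linarith
    exact_mod_cast this
  have hsumnn : 0 ≤ ∑ j ∈ Ico Jm r, av L r P (j + 1)
      (fun F => ((KQ L M lab (j + 1) F (mu d m (j + 1))).card : ℝ)) :=
    Finset.sum_nonneg fun j _ => hav j
  by_cases hc : J0 ≤ r
  · have h1 := recursion hP hlab hJ1 hc
    have h2 : ((J0 : ℝ) + 1) * av L r P J0 (KR M lab) ≤ (64 * s + 2) * n := by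
      have h3 : av L r P J0 (KR M lab) ≤ n := av_KR_le hP hlab hc
      calc ((J0 : ℝ) + 1) * av L r P J0 (KR M lab) ≤ ((J0 : ℝ) + 1) * n := by gcongr
        _ ≤ (64 * s + 2) * n := mul_le_mul_of_nonneg_right (by linarith) hn0
    have h4 : ∑ j ∈ Ico J0 r, (av L r P (j + 1) (fun F => ((sn L M lab (j + 1) F).card : ℝ)) +
        12 / (j : ℝ) * n) ≤
        ∑ j ∈ Ico J0 r, (av L r P (j + 1)
          (fun F => ((KQ L M lab (j + 1) F (mu d m (j + 1))).card : ℝ)) +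
        19 / (r : ℝ) * SL L M P +
        2 / ((j : ℝ) + 1) * ∑ v ∈ inner M P, qv L M P (√(s * ((j : ℝ) + 1)) / 2) v +
        12 * n * (1 / √((j : ℝ) + 1)) + 12 * n * (1 / (j : ℝ))) := by
      refine Finset.sum_le_sum fun j hj => ?_
      rw [Finset.mem_Ico] at hj
      have hj' : (J0 : ℝ) ≤ j := by exact_mod_cast hj.1
      have h5 := low_level hP hlab hs hsy hS hm hmd (hJge.trans hj') hj.2
      have h6 : 12 / √((j : ℝ) + 1) * n = 12 * n * (1 / √((j : ℝ) + 1)) := by ring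
      have h7 : 12 / (j : ℝ) * n = 12 * n * (1 / (j : ℝ)) := by ring
      rw [← hn, h6] at h5
      rw [h7]
      linarith
    rw [← hn] at h1
    simp only [Finset.sum_add_distrib] at h4 h1
    have h8 : ∑ j ∈ Ico J0 r, av L r P (j + 1)
          (fun F => ((KQ L M lab (j + 1) F (mu d m (j + 1))).card : ℝ)) ≤
        ∑ j ∈ Ico Jm r, av L r P (j + 1)
          (fun F => ((KQ L M lab (j + 1) F (mu d m (j + 1))).card : ℝ)) :=
      Finset.sum_le_sum_of_subset_of_nonneg (Finset.Ico_subset_Ico_left hJm)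
        fun j _ _ => hav j
    have h9 : ∑ _j ∈ Ico J0 r, 19 / (r : ℝ) * SL L M P ≤ 19 * SL L M P := by
      rw [Finset.sum_const, Nat.card_Ico, nsmul_eq_mul]
      have h10 : ((r - J0 : ℕ) : ℝ) ≤ r := by exact_mod_cast Nat.sub_le r J0
      calc ((r - J0 : ℕ) : ℝ) * (19 / (r : ℝ) * SL L M P) ≤
            (r : ℝ) * (19 / (r : ℝ) * SL L M P) := by gcongr
        _ = 19 * SL L M P := by field_simp
    have h11 : ∑ j ∈ Ico J0 r,
        2 / ((j : ℝ) + 1) * ∑ v ∈ inner M P, qv L M P (√(s * ((j : ℝ) + 1)) / 2) v ≤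
        16 * SL L M P + 89 * s * n := by
      have h12 : ∑ j ∈ Ico J0 r,
          2 / ((j : ℝ) + 1) * ∑ v ∈ inner M P, qv L M P (√(s * ((j : ℝ) + 1)) / 2) v =
          ∑ v ∈ inner M P, ∑ j ∈ Ico J0 r,
            2 / ((j : ℝ) + 1) * qv L M P (√(s * ((j : ℝ) + 1)) / 2) v := by
        rw [Finset.sum_comm]
        refine Finset.sum_congr rfl fun j _ => ?_
        rw [Finset.mul_sum]
      rw [h12]
      calc ∑ v ∈ inner M P, ∑ j ∈ Ico J0 r,
            2 / ((j : ℝ) + 1) * qv L M P (√(s * ((j : ℝ) + 1)) / 2) v ≤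
            ∑ v ∈ inner M P, (16 * lv L M P v + 89 * s) :=
            Finset.sum_le_sum fun v hv => sum_qv_levels hP hv hs0 hS hJge
        _ = 16 * SL L M P + 89 * s * n := by
            rw [Finset.sum_add_distrib, ← Finset.mul_sum, Finset.sum_const, nsmul_eq_mul, SL]
            ring
    have h13 : ∑ j ∈ Ico J0 r, 12 * n * (1 / √((j : ℝ) + 1)) ≤ 24 * √(r : ℝ) * n := by
      rw [← Finset.mul_sum]
      calc 12 * n * ∑ j ∈ Ico J0 r, 1 / √((j : ℝ) + 1) ≤ 12 * n * (2 * √(r : ℝ)) := by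
            gcongr
            exact sum_inv_sqrt_le J0 r
        _ = 24 * √(r : ℝ) * n := by ring
    have h14 : ∑ j ∈ Ico J0 r, 12 * n * (1 / (j : ℝ)) ≤ 24 * √(r : ℝ) * n := by
      rw [← Finset.mul_sum]
      calc 12 * n * ∑ j ∈ Ico J0 r, 1 / (j : ℝ) ≤ 12 * n * (2 * √(r : ℝ)) := by
            gcongr
            exact sum_inv_le hJ1 hr
        _ = 24 * √(r : ℝ) * n := by ring
    have h15 : n ≤ √(r : ℝ) * n := by nlinarith
    linarith
  · push Not at hc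
    have h1 : KR M lab P ≤ n := KR_le hP hlab
    have h2 : (r : ℝ) + 1 ≤ J0 := by exact_mod_cast hc
    have h3 : ((r : ℝ) + 1) * KR M lab P ≤ (68 * s) * n := by
      calc ((r : ℝ) + 1) * KR M lab P ≤ ((r : ℝ) + 1) * n := by gcongr
        _ ≤ (68 * s) * n := mul_le_mul_of_nonneg_right (by linarith) hn0
    have h4 : 0 ≤ √(r : ℝ) * n := by positivity
    have h5 : 0 ≤ s * n := by positivity
    nlinarith

end Pool.Agent.Helper13.TSE
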