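import Mathlib
import Pool.Agent.Helper13.TSE.Z3c

/-!
# TSE-Z3d: the bound inside a face
-/

namespace Pool.Agent.Helper13.TSE

open Finset Pool.Agent.Helper82.TotSep Pool.Agent.Helper13.TSD

variable {V : Type*} [Fintype V] {G : SimpleGraph V} {d : ℕ} {Λ : Type*} {L : FaceData G d}
  {M : Finset V} {lab : V → Λ} {r : ℕ} {P : Finset V}

/-- `s = max (SS P) z`, `s n ≤ SL + z n` (`SS_mul_le`); if `SS P > y` then `KR_le_bd` gives
`(r + 1) KR ≤ 60 n (√r + y) ≤ 60 √r n + 60 SL`. -/
theorem low_face (hP : IsFace L r P) (hlab : LabOn G M lab P) (hr : 1 ≤ r) {z y : ℝ}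
    (hz : 1 / 4 ≤ z) (hzy : z ≤ y) (hny : Real.log ((inner M P).card : ℝ) ≤ y) {m : ℕ}
    (hm : 1 ≤ m) (hmd : 64 * (m : ℝ) ^ 4 * y ≤ d) :
    ((r : ℝ) + 1) * KR M lab P ≤
      ∑ j ∈ Ico ⌈64 * z⌉₊ r, av L r P (j + 1)
        (fun F => ((KQ L M lab (j + 1) F (mu d m (j + 1))).card : ℝ)) +
      188 * SL L M P + 153 * z * (inner M P).card + 60 * √(r : ℝ) * (inner M P).card := by
  have hn0 : (0 : ℝ) ≤ ((inner M P).card : ℝ) := Nat.cast_nonneg _
  have hSL : 0 ≤ SL L M P := SL_nonneg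
  have hSS : 0 ≤ SS L M P := SS_nonneg
  have hSSn : SS L M P * (inner M P).card ≤ SL L M P := SS_mul_le
  have hz0 : 0 ≤ z := by linarith
  have hsum : 0 ≤ ∑ j ∈ Ico ⌈64 * z⌉₊ r, av L r P (j + 1)
      (fun F => ((KQ L M lab (j + 1) F (mu d m (j + 1))).card : ℝ)) :=
    Finset.sum_nonneg fun j _ => av_nonneg fun F _ => Nat.cast_nonneg _
  have hsq : 0 ≤ √(r : ℝ) * (inner M P).card := mul_nonneg (Real.sqrt_nonneg _) hn0
  by_cases hSy : SS L M P ≤ y
  · have hs1 : 1 / 4 ≤ max (SS L M P) z := hz.trans (le_max_right _ _)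
    have hs2 : max (SS L M P) z ≤ y := max_le hSy hzy
    have hJ : ⌈64 * z⌉₊ ≤ ⌈64 * max (SS L M P) z⌉₊ :=
      Nat.ceil_mono (by have := le_max_right (SS L M P) z; linarith)
    have h := low_face_aux hP hlab hr hs1 hs2 (le_max_left _ _) hm hmd hJ
    have hs3 : max (SS L M P) z ≤ SS L M P + z := max_le (by linarith) (by linarith)
    have hs4 : max (SS L M P) z * (inner M P).card ≤ SL L M P + z * (inner M P).card := by
      calc max (SS L M P) z * (inner M P).card ≤ (SS L M P + z) * (inner M P).card :=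
            mul_le_mul_of_nonneg_right hs3 hn0
        _ ≤ _ := by rw [add_mul]; linarith
    nlinarith
  · have hy : y ≤ SS L M P := (not_le.mp hSy).le
    have hr0 : (1 : ℝ) ≤ (r : ℝ) := by exact_mod_cast hr
    have hrpos : (0 : ℝ) < (r : ℝ) := by linarith
    have hlog : 0 ≤ Real.log ((inner M P).card : ℝ) := Real.log_natCast_nonneg _
    have h1 := KR_le_bd (L := L) (M := M) (lab := lab) hP hlab
    have hbd0 : 0 ≤ bd r (inner M P).card := by
      unfold bd
      positivity
    have h2 : ((r : ℝ) + 1) * KR M lab P ≤ (2 * r) * bd r (inner M P).card := by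
      calc ((r : ℝ) + 1) * KR M lab P ≤ ((r : ℝ) + 1) * bd r (inner M P).card :=
            mul_le_mul_of_nonneg_left h1 (by linarith)
        _ ≤ _ := mul_le_mul_of_nonneg_right (by linarith) hbd0
    have h3 : (2 * (r : ℝ)) * bd r (inner M P).card =
        60 * (√(r : ℝ) * (inner M P).card) +
          60 * (Real.log ((inner M P).card : ℝ) * (inner M P).card) := by
      unfold bd
      have hs : (r : ℝ) / √(r : ℝ) = √(r : ℝ) := Real.div_sqrt
      have hs' : (r : ℝ) * (1 / √(r : ℝ)) = √(r : ℝ) := by rw [mul_one_div, hs]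
      have hl : (r : ℝ) * (Real.log ((inner M P).card : ℝ) / r) =
          Real.log ((inner M P).card : ℝ) := by
        field_simp
      calc (2 * (r : ℝ)) * (30 * ((inner M P).card : ℝ) * (1 / √(r : ℝ) +
            Real.log ((inner M P).card : ℝ) / r))
          = 60 * ((inner M P).card : ℝ) * ((r : ℝ) * (1 / √(r : ℝ)) +
            (r : ℝ) * (Real.log ((inner M P).card : ℝ) / r)) := by ring
        _ = _ := by rw [hs', hl]; ring
    have h4 : Real.log ((inner M P).card : ℝ) * (inner M P).card ≤ SL L M P :=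
      (mul_le_mul_of_nonneg_right (hny.trans hy) hn0).trans hSSn
    have h5 : 0 ≤ z * (inner M P).card := mul_nonneg hz0 hn0
    nlinarith

end Pool.Agent.Helper13.TSE
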