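import Mathlib
import Pool.Agent.Helper13.TSE.L2

/-!
# TSE-Z4: means of means
-/

namespace Pool.Agent.Helper13.TSE

open Finset Pool.Agent.Helper82.TotSep Pool.Agent.Helper13.TSD

variable {V : Type*} [Fintype V] {G : SimpleGraph V} {d : ℕ} {L : FaceData G d}

open Classical in
private lemma card_above {j r : ℕ} {F : Finset V} (hF : IsFace L j F) :
    ((univ : Finset (Finset V)).filter fun P => IsFace L r P ∧ F ⊆ P).card =
      ((powersetCard r (univ : Finset (Fin d))).filter fun U =>
        dir L F hF.nonempty.choose ⊆ U).card := by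
  have hv := hF.nonempty.choose_spec
  set v := hF.nonempty.choose with hvdef
  refine Finset.card_nbij' (fun P => dir L P v) (fun U => faceOf L v U) ?_ ?_ ?_ ?_
  · intro P hP
    simp only [Finset.mem_coe, Finset.mem_filter, Finset.mem_univ, true_and,
      Finset.mem_powersetCard, Finset.subset_univ] at hP ⊢
    exact ⟨hP.1.card_dir (hP.2 hv), fun i hi => mem_dir.mpr (hP.2 (mem_dir.mp hi))⟩
  · intro U hU
    simp only [Finset.mem_coe, Finset.mem_filter, Finset.mem_univ, true_and,
      Finset.mem_powersetCard, Finset.subset_univ] at hU ⊢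
    refine ⟨hU.1 ▸ isFace_faceOf v U, fun x hx => ?_⟩
    rw [mem_faceOf]
    exact ((hF.mem_iff hv).mp hx).trans hU.2
  · intro P hP
    simp only [Finset.mem_coe, Finset.mem_filter, Finset.mem_univ, true_and] at hP
    exact (hP.1.eq_faceOf (hP.2 hv)).symm
  · intro U _
    exact dir_faceOf (L := L) v U

private lemma card_supersets {n : ℕ} (D : Finset (Fin n)) (r : ℕ) (hr : D.card ≤ r) :
    ((powersetCard r (univ : Finset (Fin n))).filter fun U => D ⊆ U).card =
      (n - D.card).choose (r - D.card) := by
  have h1 : ((powersetCard r (univ : Finset (Fin n))).filter fun U => D ⊆ U).card =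
      (powersetCard (r - D.card) (univ \ D)).card := by
    refine Finset.card_nbij' (fun U => U \ D) (fun W => W ∪ D) ?_ ?_ ?_ ?_
    · intro U hU
      simp only [Finset.mem_coe, Finset.mem_filter, Finset.mem_powersetCard,
        Finset.subset_univ, true_and] at hU ⊢
      exact ⟨Finset.sdiff_subset_sdiff (Finset.subset_univ _) (Finset.Subset.refl _), by
        rw [Finset.card_sdiff_of_subset hU.2, hU.1]⟩
    · intro W hW
      simp only [Finset.mem_coe, Finset.mem_filter, Finset.mem_powersetCard,
        Finset.subset_univ, true_and] at hW ⊢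
      refine ⟨?_, Finset.subset_union_right⟩
      rw [Finset.card_union_of_disjoint, hW.2]
      · omega
      · exact Finset.disjoint_of_subset_left hW.1 Finset.sdiff_disjoint
    · intro U hU
      simp only [Finset.mem_coe, Finset.mem_filter] at hU
      exact Finset.sdiff_union_of_subset hU.2
    · intro W hW
      simp only [Finset.mem_coe, Finset.mem_powersetCard] at hW
      refine Finset.union_sdiff_cancel_right ?_
      exact Finset.disjoint_of_subset_left hW.1 Finset.sdiff_disjoint
  rw [h1, Finset.card_powersetCard, Finset.card_sdiff_of_subset (Finset.subset_univ _),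
    Finset.card_univ, Fintype.card_fin]

/-- Every face of dimension `j` is contained in exactly `C(d - j, r - j)` faces of dimension `r`,
and `C(d, r) C(r, j) = C(d, j) C(d - j, r - j)`. -/
theorem av_av {j r : ℕ} (hj : j ≤ r) (hr : r ≤ d) (f : Finset V → ℝ) :
    av L d univ r (fun P => av L r P j f) = av L d univ j f := by
  classical
  have key : ∑ P ∈ fcs L r (univ : Finset V), ∑ F ∈ fcs L j P, f F =
      ((d - j).choose (r - j) : ℝ) * ∑ F ∈ fcs L j (univ : Finset V), f F := by
    rw [Finset.sum_comm' (t' := fcs L j (univ : Finset V))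
      (s' := fun F => (univ : Finset (Finset V)).filter fun P => IsFace L r P ∧ F ⊆ P)
      (fun P F => by
        simp only [mem_fcs, Finset.mem_filter, Finset.mem_univ, true_and, Finset.subset_univ,
          and_true]
        tauto)]
    rw [Finset.mul_sum]
    refine Finset.sum_congr rfl fun F hF => ?_
    have hF' := (mem_fcs.mp hF).1
    rw [Finset.sum_const, nsmul_eq_mul, card_above hF', card_supersets _ _ (by
      rw [hF'.card_dir hF'.nonempty.choose_spec]
      exact hj), hF'.card_dir hF'.nonempty.choose_spec]
  unfold av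
  rw [← Finset.sum_div, key]
  have h1 : (0 : ℝ) < (r.choose j : ℝ) := by exact_mod_cast Nat.choose_pos hj
  have h2 : (0 : ℝ) < (d.choose r : ℝ) := by exact_mod_cast Nat.choose_pos hr
  have h3 : (0 : ℝ) < (d.choose j : ℝ) := by exact_mod_cast Nat.choose_pos (hj.trans hr)
  have h4 : (d.choose r : ℝ) * (r.choose j : ℝ) = (d.choose j : ℝ) * ((d - j).choose (r - j) : ℝ) := by
    exact_mod_cast Nat.choose_mul hj
  rw [div_div, div_eq_div_iff (by positivity) h3.ne']
  linear_combination (-∑ F ∈ fcs L j (univ : Finset V), f F) * h4

end Pool.Agent.Helper13.TSE
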