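import Mathlib
import Pool.Agent.Helper13.TSE.E2

/-!
# TSE-Z5: a level with small entropy
-/

namespace Pool.Agent.Helper13.TSE

open Finset Pool.Agent.Helper82.TotSep Pool.Agent.Helper13.TSD

variable {V : Type*} [Fintype V] {G : SimpleGraph V} {d : ℕ} {L : FaceData G d} {M : Finset V}

private lemma log_le_sum_inv {a : ℕ} (ha : 1 ≤ a) : ∀ b : ℕ, a ≤ b →
    Real.log b - Real.log a ≤ ∑ r ∈ Ico a b, 1 / (r : ℝ) := by
  intro b hb
  induction b, hb using Nat.le_induction with
  | base => simp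
  | succ n hn ih =>
    rw [Finset.sum_Ico_succ_top hn]
    have hn0 : (0 : ℝ) < n := by
      have : 0 < n := by omega
      exact_mod_cast this
    have h1 : Real.log ((n + 1 : ℕ) : ℝ) - Real.log n ≤ 1 / (n : ℝ) := by
      rw [← Real.log_div (by positivity) hn0.ne']
      have h2 := Real.log_le_sub_one_of_pos (x := ((n + 1 : ℕ) : ℝ) / n) (by positivity)
      have h3 : ((n + 1 : ℕ) : ℝ) / n - 1 = 1 / (n : ℝ) := by
        push_cast
        field_simp
        ring
      linarith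
    linarith

/-- Otherwise `sum_entropy` for `P = univ` and `∑ 1 / r` over `d / m ^ 2 ≤ r ≤ d`, which is at least
`log ((d + 1) / (d / m ^ 2 + 1)) ≥ log (m ^ 2 / 2) ≥ log m`, give a contradiction. -/
theorem exists_level (hn : 1 ≤ M.card) {m : ℕ} (hm : 2 ≤ m) (hmd : m ^ 2 ≤ d) :
    ∃ r, 1 ≤ r ∧ r ≤ d ∧ d ≤ m ^ 2 * r ∧
      Real.log m * av L d univ r (SL L M) ≤ M.card * Real.log M.card := by
  by_contra hcon
  push Not at hcon
  have hm2 : 0 < m ^ 2 := by positivity
  have hd : 0 < d := lt_of_lt_of_le hm2 hmd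
  have : Nonempty V := by
    obtain ⟨x, _⟩ := Finset.card_pos.mp (lt_of_lt_of_le Nat.one_pos hn)
    exact ⟨x⟩
  have hP : IsFace L d (univ : Finset V) := isFace_univ
  have hE := sum_entropy (M := M) hP
  have hin : inner M (univ : Finset V) = M := by
    ext x
    rw [mem_inner]
    simp
  rw [hin] at hE
  set E : ℝ := (M.card : ℝ) * Real.log (M.card : ℝ) with hEdef
  have hE0 : 0 ≤ E := by
    have h1 : (1 : ℝ) ≤ M.card := by exact_mod_cast hn
    exact mul_nonneg (by linarith) (Real.log_nonneg h1)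
  have hm1 : (1 : ℝ) < m := by
    have : 1 < m := by omega
    exact_mod_cast this
  have hlogm : 0 < Real.log m := Real.log_pos hm1
  have hav : ∀ r : ℕ, 0 ≤ av L d (univ : Finset V) r (SL L M) :=
    fun r => av_nonneg fun F _ => SL_nonneg
  obtain ⟨a, ha⟩ : ∃ a : ℕ, a = (d + m ^ 2 - 1) / m ^ 2 := ⟨_, rfl⟩
  have ha1 : d ≤ m ^ 2 * a := by
    have h := Nat.div_add_mod (d + m ^ 2 - 1) (m ^ 2)
    have h' := Nat.mod_lt (d + m ^ 2 - 1) hm2
    rw [← ha] at h
    omega
  have ha2 : m ^ 2 * a ≤ d + m ^ 2 - 1 := by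
    rw [ha]
    exact Nat.mul_div_le _ _
  have ha3 : 1 ≤ a := by
    rcases Nat.eq_zero_or_pos a with h | h
    · rw [h] at ha1
      omega
    · exact h
  have ha4 : a ≤ d := by
    by_contra hc
    push Not at hc
    have h5 : m ^ 2 * (d + 1) ≤ m ^ 2 * a := Nat.mul_le_mul_left _ hc
    have h6 : 1 * d ≤ m ^ 2 * d := Nat.mul_le_mul_right _ hm2
    rw [Nat.mul_succ] at h5
    omega
  -- lower bound of the sum
  have hsub : Ico (a - 1) d ⊆ range d := by
    intro x hx
    rw [Finset.mem_Ico] at hx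
    rw [Finset.mem_range]
    omega
  have h1 : ∑ j ∈ Ico (a - 1) d, av L d (univ : Finset V) (j + 1) (SL L M) / ((j : ℝ) + 1) ≤ E := by
    rw [← hE]
    refine Finset.sum_le_sum_of_subset_of_nonneg hsub fun j _ _ => ?_
    exact div_nonneg (hav _) (by positivity)
  have hterm : ∀ j ∈ Ico (a - 1) d, E / Real.log m * (1 / ((j : ℝ) + 1)) <
      av L d (univ : Finset V) (j + 1) (SL L M) / ((j : ℝ) + 1) := by
    intro j hj
    rw [Finset.mem_Ico] at hj
    have h3 := hcon (j + 1) (by omega) (by omega)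
      (ha1.trans (Nat.mul_le_mul_left _ (by omega)))
    have h4 : (0 : ℝ) < (j : ℝ) + 1 := by positivity
    rw [mul_one_div]
    refine div_lt_div_of_pos_right ?_ h4
    rw [div_lt_iff₀ hlogm]
    linarith
  have h2 : ∑ j ∈ Ico (a - 1) d, E / Real.log m * (1 / ((j : ℝ) + 1)) <
      ∑ j ∈ Ico (a - 1) d, av L d (univ : Finset V) (j + 1) (SL L M) / ((j : ℝ) + 1) := by
    refine Finset.sum_lt_sum_of_nonempty ?_ hterm
    rw [Finset.nonempty_Ico]
    omega
  rw [← Finset.mul_sum] at h2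
  have h3 : ∑ j ∈ Ico (a - 1) d, 1 / ((j : ℝ) + 1) = ∑ r ∈ Ico a (d + 1), 1 / (r : ℝ) := by
    have h := Finset.sum_Ico_add' (fun r : ℕ => 1 / (r : ℝ)) (a - 1) d 1
    rw [show a - 1 + 1 = a by omega] at h
    rw [← h]
    refine Finset.sum_congr rfl fun j _ => ?_
    push_cast
    rfl
  have h4 := log_le_sum_inv ha3 (d + 1) (by omega)
  have ha0 : (0 : ℝ) < a := by exact_mod_cast ha3
  have h5 : Real.log m ≤ Real.log ((d + 1 : ℕ) : ℝ) - Real.log a := by
    rw [← Real.log_div (by positivity) ha0.ne']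
    refine Real.log_le_log (by linarith) ?_
    rw [le_div_iff₀ ha0]
    have h6 : m * a ≤ d + 1 := by
      have h7 : m * (m * a) ≤ 2 * d := by
        calc m * (m * a) = m ^ 2 * a := by ring
          _ ≤ d + m ^ 2 - 1 := ha2
          _ ≤ 2 * d := by omega
      have h8 : 2 * (m * a) ≤ m * (m * a) := Nat.mul_le_mul_right _ hm
      omega
    exact_mod_cast h6
  rw [h3] at h2
  have h6 : E ≤ E / Real.log m * ∑ r ∈ Ico a (d + 1), 1 / (r : ℝ) := by
    calc E = E / Real.log m * Real.log m := by field_simp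
      _ ≤ E / Real.log m * ∑ r ∈ Ico a (d + 1), 1 / (r : ℝ) :=
        mul_le_mul_of_nonneg_left (h5.trans h4) (div_nonneg hE0 hlogm.le)
  linarith

end Pool.Agent.Helper13.TSE
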