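import Mathlib
import Pool.Agent.Helper13.TSE.Z3d
import Pool.Agent.Helper13.TSE.Z4
import Pool.Agent.Helper13.TSE.Z5
import Pool.Agent.Helper13.TSE.Z2

/-!
# TSE-Z6: the bound in terms of the labels `KQ`
-/

namespace Pool.Agent.Helper13.TSE

open Finset Pool.Agent.Helper82.TotSep Pool.Agent.Helper13.TSD

variable {V : Type*} [Fintype V] {G : SimpleGraph V} {d : ℕ} {Λ : Type*} {L : FaceData G d}
  {M : Finset V} {lab : V → Λ}

private lemma z6_av_sum {r j : ℕ} {P : Finset V} (s : Finset ℕ) (f : ℕ → Finset V → ℝ) :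
    av L r P j (fun F => ∑ i ∈ s, f i F) = ∑ i ∈ s, av L r P j (f i) := by
  unfold av
  rw [Finset.sum_comm, Finset.sum_div]

/-- `exists_level`; `recursion` for `P = univ` from `r`; the mean of `low_face` over the faces of
dimension `r` (`av_av`, `av_inner`), `top_sum`, `sum_inv_le`; `mu d m (j + 1) = m` for `j ≥ r`;
`⌈64 z⌉₊ ≤ r` as `m ^ 2 (64 y + 1) ≤ 64 m ^ 4 y ≤ d ≤ m ^ 2 r`. -/
theorem combined (hlab : LabOn G M lab univ) (hR : Re M lab univ) {m : ℕ} (hm : 2 ≤ m)
    (hy : 1 ≤ Real.log M.card) (hmd : 16384 * (m : ℝ) ^ 6 * Real.log M.card ≤ d) {z : ℝ}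
    (hz : 1 / 4 ≤ z) (hzy : z ≤ Real.log M.card) :
    ((d : ℝ) + 1) * (labs M lab univ).card ≤
      ∑ j ∈ Ico ⌈64 * z⌉₊ d, av L d univ (j + 1)
        (fun F => ((KQ L M lab (j + 1) F (mu d m (j + 1))).card : ℝ)) +
      218 / Real.log m * (M.card * Real.log M.card) + 153 * z * M.card +
      146 * √(d : ℝ) * M.card := by
  classical
  set y := Real.log M.card with hydef
  have hM1 : 1 ≤ M.card := by
    by_contra h
    have h0 : M.card = 0 := by omega
    rw [hydef, h0] at hy
    simp at hy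
    linarith
  have hne : Nonempty V := by
    obtain ⟨x, _⟩ := Finset.card_pos.mp hM1
    exact ⟨x⟩
  have hmR : (2 : ℝ) ≤ m := by exact_mod_cast hm
  have hm1 : (1 : ℝ) ≤ m := by linarith
  have hm2 : (1 : ℝ) ≤ (m : ℝ) ^ 2 := one_le_pow₀ hm1
  have hm4 : (1 : ℝ) ≤ (m : ℝ) ^ 4 := one_le_pow₀ hm1
  have hm6 : (1 : ℝ) ≤ (m : ℝ) ^ 6 := one_le_pow₀ hm1
  have hm26 : (m : ℝ) ^ 2 ≤ (m : ℝ) ^ 6 := pow_le_pow_right₀ hm1 (by norm_num)
  have hm46 : (m : ℝ) ^ 4 ≤ (m : ℝ) ^ 6 := pow_le_pow_right₀ hm1 (by norm_num)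
  have hmdn : m ^ 2 ≤ d := by
    have : (m : ℝ) ^ 2 ≤ d := by
      refine le_trans ?_ hmd
      nlinarith [mul_le_mul_of_nonneg_left hy (by positivity : (0 : ℝ) ≤ 16384 * (m : ℝ) ^ 6)]
    exact_mod_cast this
  obtain ⟨r, hr1, hrd, hdr, hSL⟩ := exists_level (L := L) hM1 hm hmdn
  have hlogm : 0 < Real.log m := Real.log_pos (by linarith)
  have hin : Pool.Agent.Helper82.TotSep.inner M (univ : Finset V) = M := by
    ext x; simp [Pool.Agent.Helper82.TotSep.inner]
  have hUn : IsFace L d (univ : Finset V) := isFace_univ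
  have hKR : KR M lab (univ : Finset V) = ((labs M lab univ).card : ℝ) := by
    unfold KR; rw [if_pos hR]
  have hdrR : (d : ℝ) ≤ (m : ℝ) ^ 2 * r := by exact_mod_cast hdr
  have hr4 : 16384 * (m : ℝ) ^ 4 * y ≤ r := by
    have h1 : (m : ℝ) ^ 2 * (16384 * (m : ℝ) ^ 4 * y) ≤ (m : ℝ) ^ 2 * r := by
      have h0 : (m : ℝ) ^ 2 * (16384 * (m : ℝ) ^ 4 * y) = 16384 * (m : ℝ) ^ 6 * y := by ring
      rw [h0]
      exact hmd.trans hdrR
    exact le_of_mul_le_mul_left h1 (by positivity)
  have hr0 : (0 : ℝ) ≤ r := Nat.cast_nonneg r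
  have hJr : ⌈64 * z⌉₊ ≤ r := by
    rw [Nat.ceil_le]
    nlinarith [mul_le_mul_of_nonneg_right hm4 (by linarith : (0 : ℝ) ≤ y)]
  -- the recursion from `r`
  have hrec := recursion (L := L) (M := M) (lab := lab) hUn hlab hr1 hrd
  rw [hKR, hin] at hrec
  -- the mean of `low_face`
  have hlow : ((r : ℝ) + 1) * av L d univ r (KR M lab) ≤
      ∑ j ∈ Ico ⌈64 * z⌉₊ r, av L d univ (j + 1)
        (fun F => ((KQ L M lab (j + 1) F (mu d m (j + 1))).card : ℝ)) +
      188 * av L d univ r (SL L M) + 153 * z * M.card + 60 * √(r : ℝ) * M.card := by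
    have h1 : av L d univ r (fun P => ((r : ℝ) + 1) * KR M lab P) ≤
        av L d univ r (fun P => (∑ j ∈ Ico ⌈64 * z⌉₊ r, av L r P (j + 1)
          (fun F => ((KQ L M lab (j + 1) F (mu d m (j + 1))).card : ℝ))) +
          (188 * SL L M P + (153 * z + 60 * √(r : ℝ)) *
            ((Pool.Agent.Helper82.TotSep.inner M P).card : ℝ))) := by
      refine av_mono fun P hP => ?_
      have hP' := (mem_fcs.mp hP).1
      have hny : Real.log ((Pool.Agent.Helper82.TotSep.inner M P).card : ℝ) ≤ y := by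
        rcases Nat.eq_zero_or_pos (Pool.Agent.Helper82.TotSep.inner M P).card with h0 | h0
        · rw [h0]; simp; linarith
        · apply Real.log_le_log (by exact_mod_cast h0)
          have : (Pool.Agent.Helper82.TotSep.inner M P).card ≤ M.card := by
            apply Finset.card_le_card
            intro x hx
            simp only [Pool.Agent.Helper82.TotSep.inner, Finset.mem_filter] at hx
            exact hx.2
          exact_mod_cast this
      have h2 := low_face (L := L) hP' (hlab.mono (Finset.subset_univ P)) hr1 hz hzy hny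
        (m := m) (by omega) (by
          refine le_trans ?_ hmd
          have : 0 ≤ y := by linarith
          nlinarith [mul_le_mul_of_nonneg_right hm46 this])
      linarith
    rw [av_mul, av_add, av_add, av_mul, av_mul, z6_av_sum, av_inner hUn hrd, hin] at h1
    have h3 : ∀ j ∈ Ico ⌈64 * z⌉₊ r, av L d univ r (fun P => av L r P (j + 1)
          (fun F => ((KQ L M lab (j + 1) F (mu d m (j + 1))).card : ℝ))) =
        av L d univ (j + 1) (fun F => ((KQ L M lab (j + 1) F (mu d m (j + 1))).card : ℝ)) := by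
      intro j hj
      have := (Finset.mem_Ico.mp hj).2
      exact av_av (by omega) hrd _
    rw [Finset.sum_congr rfl h3] at h1
    linarith
  -- the top part
  have hc : 128 * (m : ℝ) ^ 2 * √((r : ℝ) * y) ≤ r := by
    have h1 : √((r : ℝ) * y) ≤ r / (128 * (m : ℝ) ^ 2) := by
      rw [Real.sqrt_le_left (by positivity)]
      rw [div_pow, le_div_iff₀ (by positivity)]
      have h2 : (r : ℝ) * y * (128 * (m : ℝ) ^ 2) ^ 2 = r * (16384 * (m : ℝ) ^ 4 * y) := by ring
      rw [h2, sq]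
      exact mul_le_mul_of_nonneg_left hr4 hr0
    calc 128 * (m : ℝ) ^ 2 * √((r : ℝ) * y)
        ≤ 128 * (m : ℝ) ^ 2 * (r / (128 * (m : ℝ) ^ 2)) :=
          mul_le_mul_of_nonneg_left h1 (by positivity)
      _ = r := by field_simp
  have htop := top_sum (L := L) (M := M) (lab := lab) hlab hm hy hr1 hc
  have hmu : ∀ j ∈ Ico r d, av L d univ (j + 1) (fun F => ((KQ L M lab (j + 1) F m).card : ℝ)) =
      av L d univ (j + 1) (fun F => ((KQ L M lab (j + 1) F (mu d m (j + 1))).card : ℝ)) := by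
    intro j hj
    have hj' := (Finset.mem_Ico.mp hj).1
    have : mu d m (j + 1) = m := by
      unfold mu
      rw [if_neg]
      have : m ^ 2 * r ≤ m ^ 2 * (j + 1) := Nat.mul_le_mul_left _ (by omega)
      omega
    rw [this]
  rw [Finset.sum_congr rfl hmu] at htop
  have hsplit := Finset.sum_Ico_consecutive (fun j => av L d univ (j + 1)
    (fun F => ((KQ L M lab (j + 1) F (mu d m (j + 1))).card : ℝ))) hJr hrd
  have hinv := sum_inv_le hr1 (le_trans hr1 hrd)
  have hMr : (0 : ℝ) ≤ M.card := Nat.cast_nonneg _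
  have hsum12 : ∑ j ∈ Ico r d, 12 / (j : ℝ) * (M.card : ℝ) ≤ 24 * √(d : ℝ) * M.card := by
    have : ∑ j ∈ Ico r d, 12 / (j : ℝ) * (M.card : ℝ)
        = 12 * M.card * ∑ j ∈ Ico r d, 1 / (j : ℝ) := by
      rw [Finset.mul_sum]
      refine Finset.sum_congr rfl fun j _ => ?_
      ring
    rw [this]
    calc 12 * (M.card : ℝ) * ∑ j ∈ Ico r d, 1 / (j : ℝ) ≤ 12 * M.card * (2 * √(d : ℝ)) :=
          mul_le_mul_of_nonneg_left hinv (by positivity)
      _ = _ := by ring
  rw [Finset.sum_add_distrib] at hrec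
  have hsqrt : √(r : ℝ) * M.card ≤ √(d : ℝ) * M.card := by
    apply mul_le_mul_of_nonneg_right _ hMr
    apply Real.sqrt_le_sqrt
    exact_mod_cast hrd
  have hd1 : (1 : ℝ) ≤ √(d : ℝ) := by
    rw [Real.one_le_sqrt]
    exact_mod_cast le_trans hr1 hrd
  have h2M : 2 * (M.card : ℝ) ≤ 2 * √(d : ℝ) * M.card := by nlinarith
  have hSL' : 188 * av L d univ r (SL L M) ≤ 188 / Real.log m * (M.card * y) := by
    have : av L d univ r (SL L M) ≤ (M.card * y) / Real.log m := by
      rw [le_div_iff₀ hlogm, mul_comm]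
      exact hSL
    calc 188 * av L d univ r (SL L M) ≤ 188 * ((M.card * y) / Real.log m) := by linarith
      _ = _ := by ring
  have hfin : 218 / Real.log m * (M.card * y) = 188 / Real.log m * (M.card * y)
      + 30 / Real.log m * (M.card * y) := by ring
  rw [hfin]
  nlinarith

end Pool.Agent.Helper13.TSE
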