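import Mathlib

/-!
# TSE-Z7: numbers
-/

namespace Pool.Agent.Helper13.TSE

/-- `m = ⌊T ^ (1 / 10)⌋₊`. -/
theorem exists_m {T : ℝ} (hT : 2 ^ 40 ≤ T) :
    ∃ m : ℕ, 2 ≤ m ∧ 16384 * (m : ℝ) ^ 6 ≤ T ∧ Real.log T ≤ 20 * Real.log m := by
  have hT0 : 0 < T := by
    have : (0:ℝ) < 2 ^ 40 := by norm_num
    linarith
  set r : ℝ := T ^ ((1:ℝ) / 10) with hr
  have hr0 : 0 ≤ r := Real.rpow_nonneg hT0.le _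
  have hr10 : r ^ 10 = T := by
    rw [hr, ← Real.rpow_natCast, ← Real.rpow_mul hT0.le]
    norm_num
  have hr16 : 16 ≤ r := by
    by_contra h
    push Not at h
    have h2 : r ^ 10 < 16 ^ 10 := pow_lt_pow_left₀ h hr0 (by norm_num)
    rw [hr10] at h2
    have : (16:ℝ) ^ 10 = 2 ^ 40 := by norm_num
    linarith
  refine ⟨⌊r⌋₊, ?_, ?_, ?_⟩
  · have : 16 ≤ ⌊r⌋₊ := Nat.le_floor (by exact_mod_cast hr16)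
    omega
  · have h16 : 16 ≤ ⌊r⌋₊ := Nat.le_floor (by exact_mod_cast hr16)
    have h16' : (16:ℝ) ≤ (⌊r⌋₊ : ℝ) := by exact_mod_cast h16
    have hle : (⌊r⌋₊ : ℝ) ≤ r := Nat.floor_le hr0
    have h1 : (⌊r⌋₊ : ℝ) ^ 10 ≤ T := by
      rw [← hr10]; exact pow_le_pow_left₀ (by positivity) hle 10
    have h2 : (16:ℝ) ^ 4 ≤ (⌊r⌋₊ : ℝ) ^ 4 := pow_le_pow_left₀ (by norm_num) h16' 4
    have h3 : 0 ≤ (⌊r⌋₊ : ℝ) ^ 6 := by positivity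
    calc 16384 * (⌊r⌋₊ : ℝ) ^ 6 ≤ (⌊r⌋₊ : ℝ) ^ 4 * (⌊r⌋₊ : ℝ) ^ 6 := by
          apply mul_le_mul_of_nonneg_right _ h3
          norm_num at h2 ⊢
          linarith
      _ = (⌊r⌋₊ : ℝ) ^ 10 := by ring
      _ ≤ T := h1
  · have h16 : 16 ≤ ⌊r⌋₊ := Nat.le_floor (by exact_mod_cast hr16)
    have h16' : (16:ℝ) ≤ (⌊r⌋₊ : ℝ) := by exact_mod_cast h16
    have hlt : r < (⌊r⌋₊ : ℝ) + 1 := Nat.lt_floor_add_one r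
    have h1 : r ≤ (⌊r⌋₊ : ℝ) ^ 2 := by nlinarith
    have h2 : T ≤ (⌊r⌋₊ : ℝ) ^ 20 := by
      rw [← hr10]
      calc r ^ 10 ≤ ((⌊r⌋₊ : ℝ) ^ 2) ^ 10 := pow_le_pow_left₀ hr0 h1 10
        _ = (⌊r⌋₊ : ℝ) ^ 20 := by rw [← pow_mul]
    calc Real.log T ≤ Real.log ((⌊r⌋₊ : ℝ) ^ 20) := Real.log_le_log hT0 h2
      _ = 20 * Real.log (⌊r⌋₊ : ℝ) := by rw [Real.log_pow]; norm_num

end Pool.Agent.Helper13.TSE
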