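import Mathlib
import Pool.Agent.Helper13.TSE.H1
import Pool.Agent.Helper13.TSE.G12

/-!
# TSE-H2: the mean weights of the configurations
-/

namespace Pool.Agent.Helper13.TSE

open Finset Pool.Agent.Helper82.TotSep Pool.Agent.Helper13.TSD

variable {V : Type*} [Fintype V] {G : SimpleGraph V} {d : ℕ} {Λ : Type*} {L : FaceData G d}
  {M : Finset V} {lab : V → Λ}

/-- the mean over the flags of a function of the configuration of the ranks `i`, `j` -/
noncomputable def Ep (L : FaceData G d) (M : Finset V)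
    (s : Finset V → V → Fin d → Fin d → Finset V → ℝ) (i j : Fin d) : ℝ :=
  Es M fun v σ => ∑ a ∈ fc L,
    s (faceOf L v (insert (σ.symm i) (ini σ (j + 1)))) v (σ.symm i) (σ.symm j) a

private lemma Ep_eq (s : Finset V → V → Fin d → Fin d → Finset V → ℝ) (i j : Fin d)
    (hji : j < i) :
    Ep L M s i j = 1 / (((j : ℝ) + 2) * ((j : ℝ) + 1)) * av L d univ ((j : ℕ) + 2) (fun F =>
      ∑ v ∈ Pool.Agent.Helper82.TotSep.inner M F, ∑ l1 ∈ dir L F v,
        ∑ l2 ∈ (dir L F v).erase l1, ∑ a ∈ fc L, s F v l1 l2 a) := by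
  unfold Ep
  exact Es_pair (L := L) (M := M) i j hji (fun F v l1 l2 => ∑ a ∈ fc L, s F v l1 l2 a)

private lemma Ep_le (s : Finset V → V → Fin d → Fin d → Finset V → ℝ) (i j : Fin d)
    (hji : j < i) (b : Finset V → ℝ)
    (hs : ∀ F v l1 l2 a, ¬ Cfg L M lab ((j : ℕ) + 1) F v l1 l2 a → s F v l1 l2 a = 0)
    (hb : ∀ F, IsFace L ((j : ℕ) + 1 + 1) F →
      ∑ x ∈ CF L M lab ((j : ℕ) + 1) F, s F x.1 x.2.1 x.2.2.1 x.2.2.2 ≤ b F) :
    Ep L M s i j ≤ 1 / (((j : ℝ) + 2) * ((j : ℝ) + 1)) * av L d univ ((j : ℕ) + 2) b := by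
  rw [Ep_eq s i j hji]
  refine mul_le_mul_of_nonneg_left ?_ (by positivity)
  refine av_mono fun F hF => ?_
  have hF' : IsFace L ((j : ℕ) + 1 + 1) F := (mem_fcs.mp hF).1
  rw [sum_CF hF' (fun v l1 l2 a => s F v l1 l2 a) (hs F)]
  exact hb F hF'

/-- `Es_pair`, `sum_CF`, `sum_s1`, `av_inner`. -/
theorem Ep_s1 (i j : Fin d) (hji : j < i) :
    Ep L M (s1 L M lab (j + 1)) i j ≤ 10 / (((j : ℝ) + 2) * ((j : ℝ) + 1)) * M.card := by
  rcases isEmpty_or_nonempty V with hV | hV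
  · have hM : M = ∅ := Finset.eq_empty_of_isEmpty M
    subst hM
    simp [Ep, Es]
  · have hin : Pool.Agent.Helper82.TotSep.inner M (univ : Finset V) = M := by
      ext x; simp [Pool.Agent.Helper82.TotSep.inner]
    have h1 := Ep_le (L := L) (M := M) (lab := lab) (s1 L M lab ((j : ℕ) + 1)) i j hji
      (fun F => 10 * ((Pool.Agent.Helper82.TotSep.inner M F).card : ℝ))
      (fun F v l1 l2 a h => by
        unfold s1
        rw [if_neg (fun h' => h h'.1)])
      (fun F hF => sum_s1 hF)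
    have hj : (j : ℕ) + 2 ≤ d := by
      have := i.2
      have h2 : (j : ℕ) < (i : ℕ) := hji
      omega
    rw [av_mul, av_inner isFace_univ hj M, hin] at h1
    refine h1.trans (le_of_eq ?_)
    ring

/-- `Es_pair`, `sum_CF`, `sum_s2`. -/
theorem Ep_s2 (hlab : LabOn G M lab univ) (i j : Fin d) (hji : j < i) :
    Ep L M (s2 L M lab (j + 1)) i j ≤ 1 / (((j : ℝ) + 2) * ((j : ℝ) + 1)) *
      (4 * av L d univ (j + 2) (fun F => (N2 L M lab (j + 1) F : ℝ)) +
        8 * av L d univ (j + 2) (fun F => (N3 L M lab F : ℝ))) := by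
  have h1 := Ep_le (L := L) (M := M) (lab := lab) (s2 L M lab ((j : ℕ) + 1)) i j hji
    (fun F => 4 * (N2 L M lab ((j : ℕ) + 1) F : ℝ) + 8 * (N3 L M lab F : ℝ))
    (fun F v l1 l2 a h => by
      unfold s2
      rw [if_neg (fun h' => h h'.1)])
    (fun F hF => sum_s2 hF (hlab.mono (Finset.subset_univ F)))
  rw [av_add (fun F => 4 * (N2 L M lab ((j : ℕ) + 1) F : ℝ)) (fun F => 8 * (N3 L M lab F : ℝ)),
    av_mul, av_mul] at h1
  exact h1

end Pool.Agent.Helper13.TSE
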