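import Mathlib
import Pool.Agent.Helper13.TSE.H1
import Pool.Agent.Helper13.TSE.B5

/-!
# TSE-H3: the mean of `N2`
-/

namespace Pool.Agent.Helper13.TSE

open Finset Pool.Agent.Helper82.TotSep Pool.Agent.Helper13.TSD

variable {V : Type*} [Fintype V] {G : SimpleGraph V} {d : ℕ} {Λ : Type*} {L : FaceData G d}
  {M : Finset V} {lab : V → Λ} {k : ℕ} {F : Finset V}

open Classical in
/-- Each strongly nice label of `ct H F` (`H ∈ cuts F`) has at least `3 k / 4` good seers
`v` (`SN.card_gs`), each sees it through a direction `l`; `H = hf v l1`, and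
`ct H F = faceOf v ((dir F v).erase l1)` (`ct_hf`). -/
theorem N2_le (hF : IsFace L (k + 1) F) (hlab : LabOn G M lab F) :
    3 * k * N2 L M lab k F ≤ 4 * ∑ v ∈ inner M F, ∑ l1 ∈ dir L F v,
      (((dir L F v).erase l1).filter fun l =>
        Fail L M lab v ((dir L F v).erase l1) (dir L F v) l).card := by
  unfold N2
  have h1 : ∀ H ∈ cuts L F, ∀ c ∈ (sn L M lab k (ct H F)).filter
      (fun c => (ZZ L M lab F c).card ≠ k + 1), 3 * k ≤ 4 * (gs L M lab (ct H F) c).card := by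
    intro H hH c hc
    rw [Finset.mem_filter, mem_sn] at hc
    refine hc.1.card_gs ?_ (isFace_ct hF hH)
    intro x y hxy hx hy
    exact hlab x y hxy (ct_subset hx) (ct_subset hy)
  have h2 : 3 * k * ∑ H ∈ cuts L F, ((sn L M lab k (ct H F)).filter
      (fun c => (ZZ L M lab F c).card ≠ k + 1)).card ≤
      4 * ∑ H ∈ cuts L F, ∑ c ∈ (sn L M lab k (ct H F)).filter
        (fun c => (ZZ L M lab F c).card ≠ k + 1), (gs L M lab (ct H F) c).card := by
    rw [Finset.mul_sum, Finset.mul_sum]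
    refine Finset.sum_le_sum fun H hH => ?_
    rw [Finset.mul_sum, mul_comm, ← smul_eq_mul, ← Finset.sum_const]
    exact Finset.sum_le_sum (h1 H hH)
  refine h2.trans (Nat.mul_le_mul_left 4 ?_)
  let A : Finset (Σ _ : Finset V, Σ _ : Λ, V) := (cuts L F).sigma fun H =>
    ((sn L M lab k (ct H F)).filter (fun c => (ZZ L M lab F c).card ≠ k + 1)).sigma fun c =>
      gs L M lab (ct H F) c
  let R : Finset (Σ _ : V, Σ _ : Fin d, Fin d) := (inner M F).sigma fun v =>
    (dir L F v).sigma fun l1 => ((dir L F v).erase l1).filter fun l =>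
      Fail L M lab v ((dir L F v).erase l1) (dir L F v) l
  have hA : A.card = ∑ H ∈ cuts L F, ∑ c ∈ (sn L M lab k (ct H F)).filter
        (fun c => (ZZ L M lab F c).card ≠ k + 1), (gs L M lab (ct H F) c).card := by
    simp only [A, Finset.card_sigma]
  have hR : R.card = ∑ v ∈ inner M F, ∑ l1 ∈ dir L F v,
      (((dir L F v).erase l1).filter fun l =>
        Fail L M lab v ((dir L F v).erase l1) (dir L F v) l).card := by
    simp only [R, Finset.card_sigma]
  rw [← hA, ← hR]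
  refine Finset.card_le_card_of_surjOn
    (fun x : (Σ _ : V, Σ _ : Fin d, Fin d) =>
      (⟨hf L x.1 x.2.1, lab (L.nb x.1 x.2.2), x.1⟩ : Σ _ : Finset V, Σ _ : Λ, V)) ?_
  rintro ⟨H, c, v⟩ hx
  simp only [A, Finset.coe_sigma, Set.mem_sigma_iff, Finset.mem_coe, Finset.mem_filter,
    mem_sn] at hx
  obtain ⟨hH, ⟨hsn, hbad⟩, hv⟩ := hx
  have hv' := hv
  unfold gs at hv'
  rw [Finset.mem_filter, mem_seers] at hv'
  obtain ⟨⟨hvc, hvM, l, hl, hlM, hlc⟩, -⟩ := hv'
  obtain ⟨hvF, hvH⟩ := mem_ct.1 hvc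
  have hth : H ∈ th L F v := mem_th.2 ⟨(mem_cuts.1 hH).1, (mem_cuts.1 hH).2.1, hvH⟩
  obtain ⟨l1, hl1, rfl⟩ := (mem_th_iff hF hvF).1 hth
  rw [dir_ct_hf hF hvF l1] at hl
  have hct : faceOf L v ((dir L F v).erase l1) = ct (hf L v l1) F := (ct_hf hF hvF l1).symm
  have hcard : ((dir L F v).erase l1).card = k := by
    rw [Finset.card_erase_of_mem hl1, hF.card_dir hvF, Nat.add_sub_cancel]
  have hFail : Fail L M lab v ((dir L F v).erase l1) (dir L F v) l := by
    refine ⟨hl, hlM, ?_, ?_, ?_⟩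
    · rw [hcard, hct, hlc]
      exact hsn
    · rw [hct, hlc]
      exact hv
    · rw [hcard, hlc, ← hF.eq_faceOf hvF]
      exact hbad
  refine ⟨⟨v, l1, l⟩, ?_, ?_⟩
  · simp only [R, Finset.coe_sigma, Set.mem_sigma_iff, Finset.mem_coe, Finset.mem_filter]
    exact ⟨mem_inner.2 ⟨hvF, hvM⟩, hl1, hl, hFail⟩
  · show (⟨hf L v l1, lab (L.nb v l), v⟩ : Σ _ : Finset V, Σ _ : Λ, V) = _
    rw [hlc]

end Pool.Agent.Helper13.TSE
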