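import Mathlib
import Pool.Agent.Helper13.TSE.H3

/-!
# TSE-H3b: the mean of `N2`
-/

namespace Pool.Agent.Helper13.TSE

open Finset Pool.Agent.Helper82.TotSep Pool.Agent.Helper13.TSD

variable {V : Type*} [Fintype V] {G : SimpleGraph V} {d : ℕ} {Λ : Type*} {L : FaceData G d}
  {M : Finset V} {lab : V → Λ} {k : ℕ} {F : Finset V}

private theorem H3b_erase (σ : Equiv.Perm (Fin d)) (j : ℕ) (hj : j < d) :
    (ini σ (j + 1)).erase (σ.symm ⟨j, hj⟩) = ini σ j := by
  ext l
  simp only [mem_erase, mem_ini]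
  constructor
  · rintro ⟨h1, h2⟩
    have h3 : (σ l : ℕ) ≠ j := by
      intro h
      apply h1
      rw [Equiv.eq_symm_apply]
      exact Fin.ext h
    omega
  · intro h
    refine ⟨?_, by omega⟩
    intro h1
    rw [h1, Equiv.apply_symm_apply] at h
    exact lt_irrefl _ h

/-- `N2_le`, `Es_fl` and `Es_last` (`t = j + 1`, `ini σ (j + 2)` without `σ.symm t` is
`ini σ (j + 1)`). -/
theorem av_N2 (hlab : LabOn G M lab univ) {j : ℕ} (hj : j + 1 < d) :
    3 * ((j : ℝ) + 1) * av L d univ (j + 2) (fun F => (N2 L M lab (j + 1) F : ℝ)) ≤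
      4 * ((j : ℝ) + 2) * nn L M lab (j + 1) := by
  classical
  set φ : V → Finset (Fin d) → Fin d → ℝ := fun v U l1 =>
    (((U.erase l1).filter fun l => Fail L M lab v (U.erase l1) U l).card : ℝ) with hφ
  set ψ : V → Finset V → ℝ := fun v F => ∑ l1 ∈ dir L F v, φ v (dir L F v) l1 with hψ
  have h1 : 3 * ((j : ℝ) + 1) * av L d univ (j + 2) (fun F => (N2 L M lab (j + 1) F : ℝ)) ≤
      4 * av L d univ (j + 2) (fun F => ∑ v ∈ inner M F, ψ v F) := by
    unfold av
    rw [mul_div_assoc', mul_div_assoc', mul_sum, mul_sum]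
    apply div_le_div_of_nonneg_right _ (by positivity)
    apply sum_le_sum
    intro F hF
    have hF1 := (mem_fcs.mp hF).1
    have h := N2_le (L := L) (M := M) (lab := lab) (k := j + 1) (F := F) hF1
      (hlab.mono (subset_univ F))
    have h' : (3 * ((j + 1 : ℕ) : ℝ) * (N2 L M lab (j + 1) F : ℝ)) ≤
        4 * ∑ v ∈ inner M F, ∑ l1 ∈ dir L F v,
          (((((dir L F v).erase l1).filter fun l =>
            Fail L M lab v ((dir L F v).erase l1) (dir L F v) l).card : ℕ) : ℝ) := by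
      have h2 : ((3 * (j + 1) * N2 L M lab (j + 1) F : ℕ) : ℝ) ≤ _ := Nat.cast_le.mpr h
      push_cast at h2 ⊢
      convert h2
    push_cast at h'
    simpa [hψ, hφ] using h'
  have h2 : 4 * av L d univ (j + 2) (fun F => ∑ v ∈ inner M F, ψ v F) =
      4 * (((j : ℝ) + 2) * nn L M lab (j + 1)) := by
    rw [← Es_fl (L := L) (M := M) (j := j + 2) (by omega) ψ]
    congr 1
    have h3 := Es_last (M := M) (⟨j + 1, hj⟩ : Fin d) φ
    have h4 : (fun v σ => ψ v (fl L v σ (j + 2))) =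
        fun v σ => ∑ l ∈ ini σ (((⟨j + 1, hj⟩ : Fin d) : ℕ) + 1),
          φ v (ini σ (((⟨j + 1, hj⟩ : Fin d) : ℕ) + 1)) l := by
      funext v σ
      simp only [hψ, fl, dir_faceOf]
    rw [h4, ← h3]
    have h5 : ((((⟨j + 1, hj⟩ : Fin d) : ℕ) : ℝ) + 1) = (j : ℝ) + 2 := by
      push_cast
      ring
    rw [h5]
    congr 1
    unfold nn
    congr 1
    funext v σ
    simp only [hφ]
    rw [H3b_erase σ (j + 1) hj]
  linarith

end Pool.Agent.Helper13.TSE
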