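import Mathlib
import Pool.Agent.Helper13.TSE.H2
import Pool.Agent.Helper13.TSE.H3b
import Pool.Agent.Helper13.TSE.L4

/-!
# TSE-H4: the mean weight of the configurations which are not single
-/

namespace Pool.Agent.Helper13.TSE

open Finset Pool.Agent.Helper82.TotSep Pool.Agent.Helper13.TSD

variable {V : Type*} [Fintype V] {G : SimpleGraph V} {d : ℕ} {Λ : Type*} {L : FaceData G d}
  {M : Finset V} {lab : V → Λ}

/-- the increments of the mean size of the real faces -/
noncomputable def dn (L : FaceData G d) (M : Finset V) (lab : V → Λ) (j : ℕ) : ℝ :=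
  av L d univ (j + 1) (nR M lab) - av L d univ j (nR M lab)

private theorem H4_av_empty [IsEmpty V] (r j : ℕ) (P : Finset V) (f : Finset V → ℝ) :
    av L r P j f = 0 := by
  have h : fcs L j P = ∅ := by
    rw [Finset.eq_empty_iff_forall_notMem]
    intro F hF
    obtain ⟨v, _⟩ := (mem_fcs.mp hF).1
    exact isEmptyElim v
  rw [av, h, Finset.sum_empty, zero_div]

private theorem H4_N3_le_NR (F : Finset V) : (N3 L M lab F : ℝ) ≤ NR L M lab F := by
  classical
  unfold N3 NR
  split_ifs with h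
  · rw [Finset.card_filter]
    push_cast
    refine Finset.sum_le_sum fun v _ => ?_
    split_ifs with h1
    · rw [h1]
      norm_num
    · exact Nat.cast_nonneg _
  · simp

/-- `N3 ≤ NR`, `av_NR`. -/
theorem av_N3 {j : ℕ} (hj : j + 1 < d) :
    av L d univ (j + 2) (fun F => (N3 L M lab F : ℝ)) ≤ ((j : ℝ) + 2) * dn L M lab (j + 1) := by
  rcases isEmpty_or_nonempty V with hV | hV
  · rw [dn]
    simp only [H4_av_empty]
    simp
  · have h1 : av L d univ (j + 2) (fun F => (N3 L M lab F : ℝ)) ≤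
        av L d univ (j + 1 + 1) (NR L M lab) := av_mono fun F _ => H4_N3_le_NR F
    rw [av_NR (isFace_univ (L := L)) hj] at h1
    refine h1.trans (le_of_eq ?_)
    rw [dn]
    push_cast
    ring

/-- `Ep_s2`, `av_N2`, `av_N3`. -/
theorem Ep_s2_le (hlab : LabOn G M lab univ) (i j : Fin d) (hji : j < i) :
    Ep L M (s2 L M lab (j + 1)) i j ≤ 16 / 3 * nn L M lab (j + 1) / ((j : ℝ) + 1) ^ 2 +
      8 * dn L M lab (j + 1) / ((j : ℝ) + 1) := by
  have hjd : (j : ℕ) + 1 < d := lt_of_le_of_lt (Nat.succ_le_of_lt hji) i.isLt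
  have h0 := Ep_s2 (L := L) hlab i j hji
  have h1 := av_N2 (L := L) hlab hjd
  have h2 := av_N3 (L := L) (M := M) (lab := lab) hjd
  have hj0 : (0 : ℝ) ≤ ((j : ℕ) : ℝ) := Nat.cast_nonneg _
  generalize ((j : ℕ) : ℝ) = x at *
  generalize av L d univ ((j : ℕ) + 2) (fun F => (N2 L M lab ((j : ℕ) + 1) F : ℝ)) = A at *
  generalize av L d univ ((j : ℕ) + 2) (fun F => (N3 L M lab F : ℝ)) = B at *
  refine h0.trans ?_
  have hx1 : 0 < x + 1 := by linarith
  have hx2 : 0 < x + 2 := by linarith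
  have hA : A ≤ 4 * (x + 2) * nn L M lab ((j : ℕ) + 1) / (3 * (x + 1)) := by
    rw [le_div_iff₀ (by positivity)]
    linarith
  have h3 : 4 * A + 8 * B ≤ 4 * (4 * (x + 2) * nn L M lab ((j : ℕ) + 1) / (3 * (x + 1))) +
      8 * ((x + 2) * dn L M lab ((j : ℕ) + 1)) := by linarith
  refine (mul_le_mul_of_nonneg_left h3 (by positivity)).trans (le_of_eq ?_)
  field_simp
  ring

/-- `sum_av_nR_le` for `P = univ`. -/
theorem dn_nonneg {j : ℕ} (hj : j < d) : 0 ≤ dn L M lab j := by
  rcases isEmpty_or_nonempty V with hV | hV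
  · rw [dn]
    simp only [H4_av_empty]
    simp
  · exact (sum_av_nR_le (M := M) (lab := lab) (isFace_univ (L := L)) 0 (Nat.zero_le d)).1 j hj

theorem sum_dn_le (J0 : ℕ) : ∑ j ∈ Ico J0 d, dn L M lab j ≤ M.card := by
  rcases isEmpty_or_nonempty V with hV | hV
  · have h : ∀ j ∈ Ico J0 d, dn L M lab j = 0 := fun j _ => by
      rw [dn]
      simp only [H4_av_empty]
      simp
    rw [Finset.sum_eq_zero h]
    exact Nat.cast_nonneg _
  · by_cases hJ : J0 ≤ d
    · refine (sum_av_nR_le (M := M) (lab := lab) (isFace_univ (L := L)) J0 hJ).2.trans ?_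
      have h : inner M (univ : Finset V) ⊆ M := fun x hx => (mem_inner.mp hx).2
      exact_mod_cast Finset.card_le_card h
    · rw [Finset.Ico_eq_empty (by omega), Finset.sum_empty]
      exact Nat.cast_nonneg _

end Pool.Agent.Helper13.TSE
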