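import Mathlib
import Pool.Agent.Helper13.TSE.K3
import Pool.Agent.Helper13.TSE.H4

/-!
# TSE-K4: the mean of the weights
-/

namespace Pool.Agent.Helper13.TSE

open Finset Pool.Agent.Helper82.TotSep Pool.Agent.Helper13.TSD

variable {V : Type*} [Fintype V] {G : SimpleGraph V} {d : ℕ} {Λ' : Type*} {L : FaceData G d}
  {M : Finset V} {lab : V → Λ'}

private lemma K4_mem {lam : ℝ} {J0 : ℕ} {p : Fin d × Fin d} : p ∈ np d lam J0 ↔
    J0 ≤ (p.1 : ℕ) ∧ p.1 < p.2 ∧ ((p.2 : ℝ) + 1) ≤ lam * ((p.1 : ℝ) + 1) := by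
  simp [np]

/-- For fixed `j` the number of the near `i` is at most `λ (j + 1)` and at most `d`. -/
theorem card_near_le {lam : ℝ} (h0 : 0 ≤ lam) (J0 : ℕ) (j : Fin d) :
    (((np d lam J0).filter fun p => p.1 = j).card : ℝ) ≤ lam * ((j : ℝ) + 1) ∧
      (((np d lam J0).filter fun p => p.1 = j).card : ℝ) ≤ d := by
  constructor
  · have hnn : 0 ≤ lam * ((j : ℝ) + 1) := by positivity
    have h1 : ((np d lam J0).filter fun p => p.1 = j).card ≤
        (range ⌊lam * ((j : ℝ) + 1)⌋₊).card := by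
      apply card_le_card_of_injOn (fun p => (p.2 : ℕ))
      · intro p hp
        rw [mem_coe, mem_filter, K4_mem] at hp
        rw [mem_coe, mem_range]
        obtain ⟨⟨_, _, h3⟩, h4⟩ := hp
        rw [h4] at h3
        have h5 : (((p.2 : ℕ) + 1 : ℕ) : ℝ) ≤ lam * ((j : ℝ) + 1) := by
          push_cast
          exact h3
        have h6 := Nat.le_floor h5
        exact h6
      · intro p hp q hq hpq
        rw [mem_coe, mem_filter] at hp hq
        simp only at hpq
        exact Prod.ext (hp.2.trans hq.2.symm) (Fin.ext hpq)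
    rw [card_range] at h1
    calc (((np d lam J0).filter fun p => p.1 = j).card : ℝ) ≤ (⌊lam * ((j : ℝ) + 1)⌋₊ : ℝ) := by
          exact_mod_cast h1
      _ ≤ lam * ((j : ℝ) + 1) := Nat.floor_le hnn
  · have h1 : ((np d lam J0).filter fun p => p.1 = j).card ≤ (univ : Finset (Fin d)).card := by
      apply card_le_card_of_injOn (fun p => p.2)
      · intro p _
        simp
      · intro p hp q hq hpq
        rw [mem_coe, mem_filter] at hp hq
        simp only at hpq
        exact Prod.ext (hp.2.trans hq.2.symm) hpq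
    rw [card_univ, Fintype.card_fin] at h1
    exact_mod_cast h1

/-- Sums over the near pairs of functions of `j`. -/
theorem sum_near_le {lam : ℝ} (h0 : 0 ≤ lam) (J0 : ℕ) (f g : ℕ → ℝ) (hf : ∀ j, 0 ≤ f j)
    (hg : ∀ j, 0 ≤ g j) :
    ∑ p ∈ np d lam J0, (f p.1 + g p.1) ≤ ∑ j ∈ Ico J0 (d - 1),
      (lam * ((j : ℝ) + 1) * f j + min (lam * ((j : ℝ) + 1)) d * g j) := by
  classical
  set R : ℕ → ℝ := fun j => lam * ((j : ℝ) + 1) * f j + min (lam * ((j : ℝ) + 1)) d * g j with hR
  have h1 : ∑ p ∈ np d lam J0, (f p.1 + g p.1) =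
      ∑ j : Fin d, ∑ p ∈ (np d lam J0).filter (fun p => p.1 = j), (f p.1 + g p.1) :=
    (sum_fiberwise (np d lam J0) (fun p => p.1) _).symm
  have h2 : ∀ j : Fin d, ∑ p ∈ (np d lam J0).filter (fun p => p.1 = j), (f p.1 + g p.1) ≤
      if (j : ℕ) ∈ Ico J0 (d - 1) then R j else 0 := by
    intro j
    have h3 : ∑ p ∈ (np d lam J0).filter (fun p => p.1 = j), (f p.1 + g p.1) =
        (((np d lam J0).filter fun p => p.1 = j).card : ℝ) * (f j + g j) := by
      rw [sum_congr rfl (g := fun _ => f j + g j), sum_const, nsmul_eq_mul]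
      intro p hp
      rw [(mem_filter.mp hp).2]
    rw [h3]
    obtain ⟨h4, h5⟩ := card_near_le (d := d) h0 J0 j
    by_cases hj : (j : ℕ) ∈ Ico J0 (d - 1)
    · rw [if_pos hj, mul_add]
      exact add_le_add (mul_le_mul_of_nonneg_right h4 (hf _))
        (mul_le_mul_of_nonneg_right (le_min h4 h5) (hg _))
    · rw [if_neg hj]
      have h6 : (np d lam J0).filter (fun p => p.1 = j) = ∅ := by
        rw [filter_eq_empty_iff]
        intro p hp hpj
        rw [K4_mem] at hp
        apply hj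
        obtain ⟨h7, h8, _⟩ := hp
        rw [hpj] at h7 h8
        rw [mem_Ico]
        have h9 : (j : ℕ) < (p.2 : ℕ) := h8
        have h10 := p.2.isLt
        omega
      rw [h6]
      simp
  rw [h1]
  calc ∑ j : Fin d, ∑ p ∈ (np d lam J0).filter (fun p => p.1 = j), (f p.1 + g p.1)
      ≤ ∑ j : Fin d, (if (j : ℕ) ∈ Ico J0 (d - 1) then R j else 0) := sum_le_sum fun j _ => h2 j
    _ = ∑ j ∈ range d, (if j ∈ Ico J0 (d - 1) then R j else 0) :=
        Fin.sum_univ_eq_sum_range (fun j => if j ∈ Ico J0 (d - 1) then R j else 0) d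
    _ = ∑ j ∈ (range d).filter (fun j => j ∈ Ico J0 (d - 1)), R j := (sum_filter _ _).symm
    _ = ∑ j ∈ Ico J0 (d - 1), R j := by
        congr 1
        ext j
        rw [mem_filter, mem_range, mem_Ico]
        omega

end Pool.Agent.Helper13.TSE
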