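import Mathlib
import Pool.Agent.Helper13.TSE.K4

/-!
# TSE-K4b: the mean of the weights
-/

namespace Pool.Agent.Helper13.TSE

open Finset Pool.Agent.Helper82.TotSep Pool.Agent.Helper13.TSD

variable {V : Type*} [Fintype V] {G : SimpleGraph V} {d : ℕ} {Λ' : Type*} {L : FaceData G d}
  {M : Finset V} {lab : V → Λ'}

private lemma k4b_nn_nonneg (J : ℕ) : 0 ≤ nn L M lab J := by
  unfold nn
  exact Es_nonneg fun v _ σ => Nat.cast_nonneg _

/-- the mean of `XX` as a sum of means -/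
private lemma k4b_Es (Λ : ℕ) (lam : ℝ) (J0 : ℕ) :
    Es M (XX L M lab Λ lam J0) = ∑ p ∈ np d lam J0,
      (Ep L M (s1 L M lab (p.1 + 1)) p.2 p.1 +
        ((Λ : ℝ) + 2) * Ep L M (s2 L M lab (p.1 + 1)) p.2 p.1) := by
  have h1 : XX L M lab Λ lam J0 = fun v σ => ∑ p ∈ np d lam J0,
      ((∑ a ∈ fc L, s1 L M lab (p.1 + 1) (FF L v σ p.2 p.1) v (σ.symm p.2) (σ.symm p.1) a) +
        ((Λ : ℝ) + 2) * ∑ a ∈ fc L,
          s2 L M lab (p.1 + 1) (FF L v σ p.2 p.1) v (σ.symm p.2) (σ.symm p.1) a) := by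
    funext v σ
    unfold XX
    refine Finset.sum_congr rfl fun p _ => ?_
    rw [Finset.sum_add_distrib, Finset.mul_sum]
  rw [h1, Es_sum]
  refine Finset.sum_congr rfl fun p _ => ?_
  rw [Es_add, Es_mul]
  rfl

private lemma k4b_harm (J0 : ℕ) (hd : 1 ≤ d) :
    ∑ j ∈ Ico J0 (d - 1), 1 / ((j : ℝ) + 2) ≤ 1 + Real.log d := by
  have h1 : ∑ j ∈ Ico J0 (d - 1), 1 / ((j : ℝ) + 2) ≤
      ∑ j ∈ range (d - 1), 1 / ((j : ℝ) + 2) := by
    refine Finset.sum_le_sum_of_subset_of_nonneg (fun j hj => ?_) fun j _ _ => by positivity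
    exact Finset.mem_range.mpr (Finset.mem_Ico.mp hj).2
  have h2 := harmonic_le_one_add_log d
  have h3 : ((harmonic d : ℚ) : ℝ) = ∑ i ∈ range d, 1 / ((i : ℝ) + 1) := by
    simp [harmonic]
  have h4 : ∑ i ∈ range d, 1 / ((i : ℝ) + 1) =
      ∑ j ∈ range (d - 1), 1 / ((j : ℝ) + 2) + 1 := by
    obtain ⟨e, rfl⟩ : ∃ e, d = e + 1 := ⟨d - 1, by omega⟩
    rw [Finset.sum_range_succ', Nat.add_sub_cancel]
    congr 1
    · refine Finset.sum_congr rfl fun j _ => ?_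
      push_cast
      ring
    · norm_num
  rw [h3, h4] at h2
  linarith

/-- `Ep_s1`, `Ep_s2_le`, `sum_near_le`:
`∑ λ (j + 1) 10 / ((j + 1) (j + 2)) ≤ 10 λ (1 + log d)`, and for the `s2`:
`λ (j + 1) (16 / 3 nn / (j + 1)² + 8 dn / (j + 1))`. -/
theorem Es_XX (hlab : LabOn G M lab univ) (Λ : ℕ) {lam : ℝ} (h0 : 0 ≤ lam) (J0 : ℕ)
    (hd : 1 ≤ d) :
    Es M (XX L M lab Λ lam J0) ≤ 10 * lam * (1 + Real.log d) * M.card +
      ((Λ : ℝ) + 2) * lam * (16 / 3 / ((J0 : ℝ) + 1) * ∑ j ∈ Ico J0 d, nn L M lab j +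
        8 * M.card) := by
  classical
  set f : ℕ → ℝ := fun j => 10 / (((j : ℝ) + 2) * ((j : ℝ) + 1)) * M.card +
    ((Λ : ℝ) + 2) * (16 / 3 * nn L M lab (j + 1) / ((j : ℝ) + 1) ^ 2 +
      8 * max 0 (dn L M lab (j + 1)) / ((j : ℝ) + 1)) with hf
  have hf0 : ∀ j, 0 ≤ f j := by
    intro j
    have h1 := k4b_nn_nonneg (L := L) (M := M) (lab := lab) (j + 1)
    have h2 : 0 ≤ max 0 (dn L M lab (j + 1)) := le_max_left _ _
    simp only [hf]
    positivity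
  have h1 : Es M (XX L M lab Λ lam J0) ≤ ∑ p ∈ np d lam J0, (f p.1 + (fun _ => (0 : ℝ)) p.1) := by
    rw [k4b_Es]
    refine Finset.sum_le_sum fun p hp => ?_
    have hlt : p.1 < p.2 := (Finset.mem_filter.mp hp).2.2.1
    have h2 := Ep_s1 (L := L) (M := M) (lab := lab) p.2 p.1 hlt
    have h3 := Ep_s2_le (L := L) hlab p.2 p.1 hlt
    have h4 : 8 * dn L M lab (p.1 + 1) / ((p.1 : ℝ) + 1) ≤
        8 * max 0 (dn L M lab (p.1 + 1)) / ((p.1 : ℝ) + 1) := by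
      have h5 : dn L M lab (p.1 + 1) ≤ max 0 (dn L M lab (p.1 + 1)) := le_max_right _ _
      gcongr
    have h6 : (0 : ℝ) ≤ (Λ : ℝ) + 2 := by positivity
    have h7 := mul_le_mul_of_nonneg_left (h3.trans (add_le_add_right h4 _)) h6
    simp only [hf, add_zero]
    linarith
  refine h1.trans ((sum_near_le h0 J0 f _ hf0 (fun _ => le_rfl)).trans ?_)
  have h2 : ∀ j ∈ Ico J0 (d - 1), lam * ((j : ℝ) + 1) * f j +
      min (lam * ((j : ℝ) + 1)) d * (fun _ => (0 : ℝ)) j ≤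
      10 * lam * M.card * (1 / ((j : ℝ) + 2)) +
        (((Λ : ℝ) + 2) * lam * (16 / 3 / ((J0 : ℝ) + 1)) * nn L M lab (j + 1) +
          ((Λ : ℝ) + 2) * lam * 8 * dn L M lab (j + 1)) := by
    intro j hj
    have hj1 := (Finset.mem_Ico.mp hj).1
    have hj2 := (Finset.mem_Ico.mp hj).2
    have h3 : 0 ≤ dn L M lab (j + 1) := dn_nonneg (by omega)
    have h4 := k4b_nn_nonneg (L := L) (M := M) (lab := lab) (j + 1)
    have h5 : (0 : ℝ) < (j : ℝ) + 1 := by positivity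
    have h5' : (0 : ℝ) < (j : ℝ) + 2 := by positivity
    have h6 : lam * ((j : ℝ) + 1) * f j = 10 * lam * M.card * (1 / ((j : ℝ) + 2)) +
        (((Λ : ℝ) + 2) * lam * (16 / 3 / ((j : ℝ) + 1)) * nn L M lab (j + 1) +
          ((Λ : ℝ) + 2) * lam * 8 * dn L M lab (j + 1)) := by
      simp only [hf, max_eq_right h3]
      field_simp
    have h7 : (16 : ℝ) / 3 / ((j : ℝ) + 1) ≤ 16 / 3 / ((J0 : ℝ) + 1) := by
      have h8 : (J0 : ℝ) ≤ j := by exact_mod_cast hj1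
      gcongr
    rw [h6, mul_zero, add_zero]
    gcongr
  refine (Finset.sum_le_sum h2).trans ?_
  rw [Finset.sum_add_distrib, Finset.sum_add_distrib, ← Finset.mul_sum, ← Finset.mul_sum,
    ← Finset.mul_sum]
  have hs : ∀ g : ℕ → ℝ, ∑ j ∈ Ico J0 (d - 1), g (j + 1) = ∑ i ∈ Ico (J0 + 1) d, g i := by
    intro g
    rw [Finset.sum_Ico_add' g J0 (d - 1) 1, Nat.sub_add_cancel hd]
  have h3 := k4b_harm (d := d) J0 hd
  have h4 : ∑ j ∈ Ico J0 (d - 1), nn L M lab (j + 1) ≤ ∑ j ∈ Ico J0 d, nn L M lab j := by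
    rw [hs]
    refine Finset.sum_le_sum_of_subset_of_nonneg (fun j hj => ?_)
      fun j _ _ => k4b_nn_nonneg j
    rw [Finset.mem_Ico] at hj ⊢
    omega
  have h5 : ∑ j ∈ Ico J0 (d - 1), dn L M lab (j + 1) ≤ M.card := by
    rw [hs]
    exact sum_dn_le (J0 + 1)
  have h6 : 10 * lam * (M.card : ℝ) * ∑ j ∈ Ico J0 (d - 1), 1 / ((j : ℝ) + 2) ≤
      10 * lam * M.card * (1 + Real.log d) := by gcongr
  have h7 : ((Λ : ℝ) + 2) * lam * (16 / 3 / ((J0 : ℝ) + 1)) *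
      ∑ j ∈ Ico J0 (d - 1), nn L M lab (j + 1) ≤
      ((Λ : ℝ) + 2) * lam * (16 / 3 / ((J0 : ℝ) + 1)) * ∑ j ∈ Ico J0 d, nn L M lab j := by
    gcongr
  have h8 : ((Λ : ℝ) + 2) * lam * 8 * ∑ j ∈ Ico J0 (d - 1), dn L M lab (j + 1) ≤
      ((Λ : ℝ) + 2) * lam * 8 * M.card := by gcongr
  linarith

end Pool.Agent.Helper13.TSE
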