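import Mathlib
import Pool.Agent.Helper13.TSE.P2

/-!
# TSE-P5: the rank of a direction which depends only on the initial set
-/

namespace Pool.Agent.Helper13.TSE

open Finset

variable {d : ℕ}

private theorem sum_rank_eq {J : ℕ} (Φ : Equiv.Perm (Fin d) → ℝ)
    (l : Equiv.Perm (Fin d) → Fin d)
    (hinv : ∀ (s t : Fin d), (s : ℕ) < J → (t : ℕ) < J → ∀ σ,
      Φ (Equiv.swap s t * σ) = Φ σ ∧ l (Equiv.swap s t * σ) = l σ)
    (s t : Fin d) (hs : (s : ℕ) < J) (ht : (t : ℕ) < J) :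
    ∑ σ : Equiv.Perm (Fin d), (if σ (l σ) = s then Φ σ else 0) =
      ∑ σ : Equiv.Perm (Fin d), (if σ (l σ) = t then Φ σ else 0) := by
  rw [← Equiv.sum_comp (Equiv.mulLeft (Equiv.swap s t))
    (fun σ : Equiv.Perm (Fin d) => if σ (l σ) = t then Φ σ else 0)]
  refine Finset.sum_congr rfl fun σ _ => ?_
  obtain ⟨h1, h2⟩ := hinv s t hs ht σ
  simp only [Equiv.coe_mulLeft, h1, h2, Equiv.Perm.mul_apply]
  have : (Equiv.swap s t (σ (l σ)) = t) ↔ σ (l σ) = s := by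
    constructor
    · intro h
      have h' := congrArg (Equiv.swap s t) h
      rwa [Equiv.swap_apply_self, Equiv.swap_apply_right] at h'
    · intro h
      rw [h, Equiv.swap_apply_left]
  simp only [this]

private theorem sum_set_rank {J : ℕ} (Φ : Equiv.Perm (Fin d) → ℝ)
    (l : Equiv.Perm (Fin d) → Fin d)
    (hinv : ∀ (s t : Fin d), (s : ℕ) < J → (t : ℕ) < J → ∀ σ,
      Φ (Equiv.swap s t * σ) = Φ σ ∧ l (Equiv.swap s t * σ) = l σ)
    (t : Fin d) (ht : (t : ℕ) < J) (S : Finset (Fin d)) (hS : ∀ s ∈ S, (s : ℕ) < J) :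
    ∑ σ : Equiv.Perm (Fin d), (if σ (l σ) ∈ S then Φ σ else 0) =
      S.card * ∑ σ : Equiv.Perm (Fin d), (if σ (l σ) = t then Φ σ else 0) := by
  calc ∑ σ : Equiv.Perm (Fin d), (if σ (l σ) ∈ S then Φ σ else 0)
      = ∑ σ : Equiv.Perm (Fin d), ∑ s ∈ S, (if σ (l σ) = s then Φ σ else 0) := by
        refine Finset.sum_congr rfl fun σ _ => ?_
        rw [Finset.sum_ite_eq]
    _ = ∑ s ∈ S, ∑ σ : Equiv.Perm (Fin d), (if σ (l σ) = s then Φ σ else 0) :=
        Finset.sum_comm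
    _ = ∑ s ∈ S, ∑ σ : Equiv.Perm (Fin d), (if σ (l σ) = t then Φ σ else 0) :=
        Finset.sum_congr rfl fun s hs => sum_rank_eq Φ l hinv s t (hS s hs) ht
    _ = _ := by rw [Finset.sum_const, nsmul_eq_mul]

/-- For `t < J` let `A t` be the sum of `Φ σ` over the `σ` with `σ (l σ) = t`.  The swap of `s`
and `t` shows `A s = A t`; the sum of all `A t` is `∑ Φ`. -/
theorem sum_perm_rank {J J0 : ℕ} (h0 : J0 ≤ J) (hJ : J ≤ d) (h1 : 1 ≤ J)
    (Φ : Equiv.Perm (Fin d) → ℝ) (l : Equiv.Perm (Fin d) → Fin d)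
    (hl : ∀ σ, Φ σ ≠ 0 → (σ (l σ) : ℕ) < J)
    (hinv : ∀ (s t : Fin d), (s : ℕ) < J → (t : ℕ) < J → ∀ σ,
      Φ (Equiv.swap s t * σ) = Φ σ ∧ l (Equiv.swap s t * σ) = l σ) :
    (J : ℝ) * ∑ σ : Equiv.Perm (Fin d), (if J0 ≤ (σ (l σ) : ℕ) then Φ σ else 0) =
      ((J : ℝ) - J0) * ∑ σ : Equiv.Perm (Fin d), Φ σ := by
  have hd : 0 < d := by omega
  set t : Fin d := ⟨0, hd⟩ with ht
  have htJ : (t : ℕ) < J := by rw [ht]; exact h1
  set S1 : Finset (Fin d) := univ.filter fun s : Fin d => J0 ≤ (s : ℕ) ∧ (s : ℕ) < J with hS1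
  set S : Finset (Fin d) := univ.filter fun s : Fin d => (s : ℕ) < J with hS
  have hc1 : S1.card = J - J0 := by
    have : S1.card = (Finset.Ico J0 J).card := by
      apply Finset.card_bij (fun (s : Fin d) _ => (s : ℕ))
      · intro s hs
        rw [hS1, mem_filter] at hs
        rw [mem_Ico]
        exact hs.2
      · intro s _ s' _ h
        exact Fin.ext h
      · intro n hn
        rw [mem_Ico] at hn
        refine ⟨⟨n, by omega⟩, ?_, rfl⟩
        rw [hS1, mem_filter]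
        exact ⟨mem_univ _, hn.1, hn.2⟩
    rw [this, Nat.card_Ico]
  have hc : S.card = J := by
    have : S.card = (Finset.range J).card := by
      apply Finset.card_bij (fun (s : Fin d) _ => (s : ℕ))
      · intro s hs
        rw [hS, mem_filter] at hs
        rw [mem_range]
        exact hs.2
      · intro s _ s' _ h
        exact Fin.ext h
      · intro n hn
        rw [mem_range] at hn
        refine ⟨⟨n, by omega⟩, ?_, rfl⟩
        rw [hS, mem_filter]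
        exact ⟨mem_univ _, hn⟩
    rw [this, card_range]
  have e1 : ∑ σ : Equiv.Perm (Fin d), (if J0 ≤ (σ (l σ) : ℕ) then Φ σ else 0)
      = ∑ σ : Equiv.Perm (Fin d), (if σ (l σ) ∈ S1 then Φ σ else 0) := by
    refine Finset.sum_congr rfl fun σ _ => ?_
    by_cases hΦ : Φ σ = 0
    · simp [hΦ]
    · have h2 := hl σ hΦ
      have : (σ (l σ) ∈ S1) ↔ J0 ≤ (σ (l σ) : ℕ) := by
        rw [hS1, mem_filter]
        exact ⟨fun h => h.2.1, fun h => ⟨mem_univ _, h, h2⟩⟩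
      simp only [this]
  have e2 : ∑ σ : Equiv.Perm (Fin d), Φ σ
      = ∑ σ : Equiv.Perm (Fin d), (if σ (l σ) ∈ S then Φ σ else 0) := by
    refine Finset.sum_congr rfl fun σ _ => ?_
    by_cases hΦ : Φ σ = 0
    · simp [hΦ]
    · have h2 := hl σ hΦ
      have : (σ (l σ) ∈ S) := by
        rw [hS, mem_filter]
        exact ⟨mem_univ _, h2⟩
      rw [if_pos this]
  rw [e1, e2, sum_set_rank Φ l hinv t htJ S1 (fun s hs => by
      rw [hS1, mem_filter] at hs; exact hs.2.2),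
    sum_set_rank Φ l hinv t htJ S (fun s hs => by
      rw [hS, mem_filter] at hs; exact hs.2), hc1, hc, Nat.cast_sub h0]
  ring

/-- With three such directions: at least half of the weight has all three ranks below `J0`, if
`6 (J - J0) ≤ J`. -/
theorem sum_perm_three {J J0 : ℕ} (h0 : J0 ≤ J) (hJ : J ≤ d) (h6 : 6 * (J - J0) ≤ J)
    (h1 : 1 ≤ J) (Φ : Equiv.Perm (Fin d) → ℝ) (hΦ : ∀ σ, 0 ≤ Φ σ)
    (l : Fin 3 → Equiv.Perm (Fin d) → Fin d) (hl : ∀ i σ, Φ σ ≠ 0 → (σ (l i σ) : ℕ) < J)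
    (hinv : ∀ (s t : Fin d), (s : ℕ) < J → (t : ℕ) < J → ∀ σ,
      Φ (Equiv.swap s t * σ) = Φ σ ∧ ∀ i, l i (Equiv.swap s t * σ) = l i σ) :
    ∑ σ : Equiv.Perm (Fin d), Φ σ ≤ 2 * ∑ σ : Equiv.Perm (Fin d),
      (if ∀ i, (σ (l i σ) : ℕ) < J0 then Φ σ else 0) := by
  have hJ0 : (0:ℝ) < J := by exact_mod_cast h1
  have hsum : 0 ≤ ∑ σ : Equiv.Perm (Fin d), Φ σ := Finset.sum_nonneg fun σ _ => hΦ σ
  have hbad : ∀ i, 6 * ∑ σ : Equiv.Perm (Fin d), (if J0 ≤ (σ (l i σ) : ℕ) then Φ σ else 0)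
      ≤ ∑ σ : Equiv.Perm (Fin d), Φ σ := by
    intro i
    have h := sum_perm_rank h0 hJ h1 Φ (l i) (hl i) (fun s t hs ht σ =>
      ⟨(hinv s t hs ht σ).1, (hinv s t hs ht σ).2 i⟩)
    have h6' : 6 * ((J : ℝ) - J0) ≤ J := by
      have : ((6 * (J - J0) : ℕ) : ℝ) ≤ J := by exact_mod_cast h6
      rw [Nat.cast_mul, Nat.cast_sub h0] at this
      exact_mod_cast this
    set x := ∑ σ : Equiv.Perm (Fin d), (if J0 ≤ (σ (l i σ) : ℕ) then Φ σ else 0)
    set y := ∑ σ : Equiv.Perm (Fin d), Φ σ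
    have h7 : (J : ℝ) * (6 * x) ≤ (J : ℝ) * y := by
      have : (J : ℝ) * (6 * x) = (6 * ((J : ℝ) - J0)) * y := by
        calc (J : ℝ) * (6 * x) = 6 * ((J : ℝ) * x) := by ring
          _ = 6 * (((J : ℝ) - J0) * y) := by rw [h]
          _ = _ := by ring
      rw [this]
      exact mul_le_mul_of_nonneg_right h6' hsum
    exact le_of_mul_le_mul_left h7 hJ0
  have hpt : ∀ σ : Equiv.Perm (Fin d), Φ σ ≤
      (if ∀ i, (σ (l i σ) : ℕ) < J0 then Φ σ else 0)
        + ∑ i : Fin 3, (if J0 ≤ (σ (l i σ) : ℕ) then Φ σ else 0) := by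
    intro σ
    have hn : ∀ i : Fin 3, 0 ≤ (if J0 ≤ (σ (l i σ) : ℕ) then Φ σ else 0) := fun i => by
      split_ifs
      · exact hΦ σ
      · exact le_rfl
    by_cases h : ∀ i, (σ (l i σ) : ℕ) < J0
    · rw [if_pos h]
      have := Finset.sum_nonneg (s := (univ : Finset (Fin 3))) fun i _ => hn i
      linarith
    · rw [if_neg h, zero_add]
      push Not at h
      obtain ⟨i, hi⟩ := h
      calc Φ σ = (if J0 ≤ (σ (l i σ) : ℕ) then Φ σ else 0) := by rw [if_pos hi]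
        _ ≤ _ := Finset.single_le_sum (fun i _ => hn i) (mem_univ i)
  have htot : ∑ σ : Equiv.Perm (Fin d), Φ σ ≤
      ∑ σ : Equiv.Perm (Fin d), (if ∀ i, (σ (l i σ) : ℕ) < J0 then Φ σ else 0)
        + ∑ i : Fin 3, ∑ σ : Equiv.Perm (Fin d),
          (if J0 ≤ (σ (l i σ) : ℕ) then Φ σ else 0) := by
    rw [Finset.sum_comm (s := (univ : Finset (Fin 3))), ← Finset.sum_add_distrib]
    exact Finset.sum_le_sum fun σ _ => hpt σ
  have h3 := Fin.sum_univ_three (fun i : Fin 3 => ∑ σ : Equiv.Perm (Fin d),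
          (if J0 ≤ (σ (l i σ) : ℕ) then Φ σ else 0))
  have b0 := hbad 0
  have b1 := hbad 1
  have b2 := hbad 2
  linarith

end Pool.Agent.Helper13.TSE
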