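import Mathlib
import Pool.Agent.Helper13.TSE.B4
import Pool.Agent.Helper13.TSE.P5

/-!
# TSE-I1: persistence along a flag
-/

namespace Pool.Agent.Helper13.TSE

open Finset Pool.Agent.Helper82.TotSep Pool.Agent.Helper13.TSD

variable {V : Type*} [Fintype V] {G : SimpleGraph V} {d : ℕ} {Λ : Type*} {L : FaceData G d}
  {M : Finset V} {lab : V → Λ} {F : Finset V}

/-- `ZZ_mono`, and `H ∈ ZZ F c`, `H ∉ ZZ (ct H F) c`. -/
theorem card_ZZ_succ {H : Finset V} (hH : H ∈ cuts L F) {c : Λ} (hR : Re M lab (ct H F))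
    (hc : c ∈ labs M lab (ct H F)) :
    (ZZ L M lab (ct H F) c).card + 1 ≤ (ZZ L M lab F c).card := by
  classical
  have h1 : H ∈ ZZ L M lab F c := by
    rw [mem_cuts] at hH
    exact mem_ZZ.mpr ⟨hH.1, hH.2.1, hR, hc⟩
  have h2 : H ∉ ZZ L M lab (ct H F) c := fun h =>
    (mem_ZZ.mp h).2.1 fun x hx => (mem_ct.mp hx).2
  have h3 : insert H (ZZ L M lab (ct H F) c) ⊆ ZZ L M lab F c :=
    insert_subset h1 (ZZ_mono ct_subset c)
  have h4 := card_le_card h3
  rwa [card_insert_of_notMem h2] at h4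

/-- The direction `l` has rank less than `J0`, `v` is a good seer of the label of `nb v l` in the
face of step `J0`, and this label lies in at most `J` real facets of the face of step `J`. -/
def Lo (L : FaceData G d) (M : Finset V) (lab : V → Λ) (v : V) (σ : Equiv.Perm (Fin d))
    (J0 J : ℕ) (l : Fin d) : Prop :=
  l ∈ ini σ J0 ∧ L.nb v l ∉ M ∧ v ∈ gs L M lab (fl L v σ J0) (lab (L.nb v l)) ∧
    (ZZ L M lab (fl L v σ J) (lab (L.nb v l))).card ≤ J

open Classical in
/-- the mean number of these directions -/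
noncomputable def gg (L : FaceData G d) (M : Finset V) (lab : V → Λ) (J0 J : ℕ) : ℝ :=
  Es M fun v σ => ((univ.filter fun l => Lo L M lab v σ J0 J l).card : ℝ)

/-- `card_ZZ_succ`: `fl v σ J = ct (hf v (σ.symm J)) (fl v σ (J + 1))` is real and contains the
label, as it contains `fl v σ J0`. -/
theorem Lo.pred {v : V} {σ : Equiv.Perm (Fin d)} {J0 J : ℕ} {l : Fin d} (h0 : J0 ≤ J)
    (hJ : J < d) (h : Lo L M lab v σ J0 (J + 1) l) : Lo L M lab v σ J0 J l := by
  obtain ⟨hl, hM, hg, hc⟩ := h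
  refine ⟨hl, hM, hg, ?_⟩
  obtain ⟨hi, hn⟩ := ini_succ σ ⟨J, hJ⟩
  simp only at hi hn
  set t := σ.symm ⟨J, hJ⟩ with ht
  have hF : IsFace L (ini σ (J + 1)).card (fl L v σ (J + 1)) := isFace_faceOf v _
  have hv : v ∈ fl L v σ (J + 1) := self_mem_faceOf
  have hd : dir L (fl L v σ (J + 1)) v = ini σ (J + 1) := dir_faceOf v _
  have ht' : t ∈ dir L (fl L v σ (J + 1)) v := by
    rw [hd, hi]
    exact mem_insert_self _ _
  have hct : ct (hf L v t) (fl L v σ (J + 1)) = fl L v σ J := by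
    rw [ct_hf hF hv, hd, hi, erase_insert hn, fl]
  have hcut : hf L v t ∈ cuts L (fl L v σ (J + 1)) := cuts_of_th hF hv (hf_mem_th hF hv ht')
  have hsub : fl L v σ J0 ⊆ fl L v σ J := by
    intro x hx
    rw [fl, mem_faceOf] at hx ⊢
    exact hx.trans (ini_mono σ h0)
  have hRe : Re M lab (fl L v σ J) := by
    refine Re.mono hsub ?_
    have h3 := (mem_gs.mp hg).2
    have h4 := card_le_card (eqSeen_subset (L := L) (M := M) (lab := lab)
      (F := fl L v σ J0) (w := v))
    unfold Re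
    omega
  have hlab : lab (L.nb v l) ∈ labs M lab (fl L v σ J) := by
    refine mem_labs.mpr ⟨L.nb v l, hsub ?_, hM, rfl⟩
    rw [fl, mem_faceOf, L.supp_nb, singleton_subset_iff]
    exact hl
  have h5 := card_ZZ_succ (lab := lab) hcut (c := lab (L.nb v l)) (by rw [hct]; exact hRe)
    (by rw [hct]; exact hlab)
  rw [hct] at h5
  omega

end Pool.Agent.Helper13.TSE
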