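import Mathlib
import Pool.Agent.Helper13.TSE.I1
import Pool.Agent.Helper13.TSE.H1

/-!
# TSE-I2: one step of the flag
-/

namespace Pool.Agent.Helper13.TSE

open Finset Pool.Agent.Helper82.TotSep Pool.Agent.Helper13.TSD

variable {V : Type*} [Fintype V] {G : SimpleGraph V} {d : ℕ} {Λ : Type*} {L : FaceData G d}
  {M : Finset V} {lab : V → Λ}

/-- If `Fail v (ini σ J) (ini σ (J + 1)) l`, and `l` and two directions `l'`, `l''` to two other
labels have ranks less than `J0`, then `Lo J0 J l` and not `Lo J0 (J + 1) l` (by `card_ZZ_succ`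
`|ZZ| ≥ J + 1` in the face of step `J + 1`). -/
theorem Lo_of_Fail {v : V} {σ : Equiv.Perm (Fin d)} {J0 J : ℕ} {l l' l'' : Fin d} (hv : v ∈ M)
    (h0 : J0 ≤ J) (hJ : J < d) (h : Fail L M lab v (ini σ J) (ini σ (J + 1)) l)
    (h1 : l ∈ ini σ J0) (h2 : l' ∈ ini σ J0) (h3 : l'' ∈ ini σ J0) (hM' : L.nb v l' ∉ M)
    (hM'' : L.nb v l'' ∉ M) (n1 : lab (L.nb v l') ≠ lab (L.nb v l))
    (n2 : lab (L.nb v l'') ≠ lab (L.nb v l)) (n3 : lab (L.nb v l') ≠ lab (L.nb v l'')) :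
    Lo L M lab v σ J0 J l ∧ ¬ Lo L M lab v σ J0 (J + 1) l := by
  have hcard : (ini σ J).card = J := card_ini σ hJ.le
  have hN : (ZZ L M lab (fl L v σ J) (lab (L.nb v l))).card = J := h.nice.2.1.1.trans hcard
  refine ⟨⟨h1, h.out, ?_, hN.le⟩, ?_⟩
  · rw [mem_gs, mem_seers]
    have hd : ∀ m ∈ ini σ J0, L.nb v m ∉ M →
        lab (L.nb v m) ∈ eqSeen L M lab (fl L v σ J0) v := by
      intro m hm hmM
      rw [mem_eqSeen]
      refine ⟨m, ?_, hmM, rfl⟩
      unfold fl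
      rw [dir_faceOf]
      exact hm
    refine ⟨⟨self_mem_faceOf, hv, mem_eqSeen.mp (hd l h1 h.out)⟩, ?_⟩
    have h4 : 2 < (eqSeen L M lab (fl L v σ J0) v).card := by
      rw [Finset.two_lt_card]
      exact ⟨_, hd l h1 h.out, _, hd l' h2 hM', _, hd l'' h3 hM'', n1.symm, n2.symm, n3⟩
    exact h4
  · intro hLo
    have hF : IsFace L (ini σ (J + 1)).card (fl L v σ (J + 1)) := isFace_faceOf v _
    have hv1 : v ∈ fl L v σ (J + 1) := self_mem_faceOf
    have hs := ini_succ σ ⟨J, hJ⟩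
    have hs1 : ini σ (J + 1) = insert (σ.symm ⟨J, hJ⟩) (ini σ J) := hs.1
    have hs2 : σ.symm ⟨J, hJ⟩ ∉ ini σ J := hs.2
    have hdir : dir L (fl L v σ (J + 1)) v = ini σ (J + 1) := dir_faceOf v _
    have hct : ct (hf L v (σ.symm ⟨J, hJ⟩)) (fl L v σ (J + 1)) = fl L v σ J := by
      rw [ct_hf hF hv1, hdir, hs1, Finset.erase_insert hs2]
      rfl
    have hcut : hf L v (σ.symm ⟨J, hJ⟩) ∈ cuts L (fl L v σ (J + 1)) := by
      refine cuts_of_th hF hv1 (hf_mem_th hF hv1 ?_)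
      rw [hdir, hs1]
      exact Finset.mem_insert_self _ _
    have hR : Re M lab (ct (hf L v (σ.symm ⟨J, hJ⟩)) (fl L v σ (J + 1))) := by
      rw [hct]
      have h5 : 3 ≤ (eqSeen L M lab (fl L v σ J) v).card := (mem_gs.mp h.good).2
      have h6 := Finset.card_le_card
        (eqSeen_subset (L := L) (M := M) (lab := lab) (F := fl L v σ J) (w := v))
      unfold Re
      omega
    have hc : lab (L.nb v l) ∈ labs M lab (ct (hf L v (σ.symm ⟨J, hJ⟩)) (fl L v σ (J + 1))) := by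
      rw [hct]
      exact h.nice.1
    have h7 := card_ZZ_succ hcut hR hc
    rw [hct, hN] at h7
    have h8 : (ZZ L M lab (fl L v σ (J + 1)) (lab (L.nb v l))).card ≠ J + 1 := by
      have h9 := h.fails
      rw [hcard] at h9
      exact h9
    have h10 := hLo.2.2.2
    omega

end Pool.Agent.Helper13.TSE
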