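import Mathlib
import Pool.Agent.Helper13.TSE.I2

/-!
# TSE-I2b: one step of the flag
-/

namespace Pool.Agent.Helper13.TSE

open Finset Pool.Agent.Helper82.TotSep Pool.Agent.Helper13.TSD

variable {V : Type*} [Fintype V] {G : SimpleGraph V} {d : ℕ} {Λ : Type*} {L : FaceData G d}
  {M : Finset V} {lab : V → Λ}

/-- `l'`, `l''` are two directions of `U` through which `v` sees two different labels, both
different from the label of `nb v l`. -/
private def I2bGood (L : FaceData G d) (M : Finset V) (lab : V → Λ) (v : V) (l : Fin d)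
    (U : Finset (Fin d)) (p : Fin d × Fin d) : Prop :=
  p.1 ∈ U ∧ p.2 ∈ U ∧ L.nb v p.1 ∉ M ∧ L.nb v p.2 ∉ M ∧ lab (L.nb v p.1) ≠ lab (L.nb v l) ∧
    lab (L.nb v p.2) ≠ lab (L.nb v l) ∧ lab (L.nb v p.1) ≠ lab (L.nb v p.2)

private theorem I2b_exists {v : V} {U U' : Finset (Fin d)} {l : Fin d}
    (h : Fail L M lab v U U' l) : ∃ p, I2bGood L M lab v l U p := by
  classical
  have h3 := (mem_gs.mp h.good).2
  have h4 : 2 ≤ ((eqSeen L M lab (faceOf L v U) v).erase (lab (L.nb v l))).card := by
    have := Finset.pred_card_le_card_erase (s := eqSeen L M lab (faceOf L v U) v)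
      (a := lab (L.nb v l))
    omega
  obtain ⟨x, hx, y, hy, hxy⟩ := Finset.one_lt_card.mp h4
  rw [Finset.mem_erase] at hx hy
  obtain ⟨i, hi, hiM, hix⟩ := mem_eqSeen.mp hx.2
  obtain ⟨j, hj, hjM, hjy⟩ := mem_eqSeen.mp hy.2
  have hdir : ∀ i, i ∈ dir L (faceOf L v U) v → i ∈ U := by
    intro i hi
    rwa [mem_dir, mem_faceOf, L.supp_nb, Finset.singleton_subset_iff] at hi
  exact ⟨(i, j), hdir i hi, hdir j hj, hiM, hjM, by rw [hix]; exact hx.1,
    by rw [hjy]; exact hy.1, by rw [hix, hjy]; exact hxy⟩

open Classical in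
/-- the two directions as a function of the set -/
private noncomputable def i2bDir (L : FaceData G d) (M : Finset V) (lab : V → Λ) (v : V)
    (l : Fin d) (U : Finset (Fin d)) : Fin d × Fin d :=
  if h : ∃ p, I2bGood L M lab v l U p then h.choose else (l, l)

private theorem i2bDir_spec {v : V} {U U' : Finset (Fin d)} {l : Fin d}
    (h : Fail L M lab v U U' l) : I2bGood L M lab v l U (i2bDir L M lab v l U) := by
  have h1 := I2b_exists h
  rw [i2bDir, dif_pos h1]
  exact h1.choose_spec

/-- For each `v` and each direction `l` let `Φ σ` be the indicator of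
`Fail v (ini σ J) (ini σ (J + 1)) l`, and let `l'`, `l''` be chosen as functions of `ini σ J`
(`v` is a good seer: it sees three labels through directions of `ini σ J`): `sum_perm_three`,
`ini_swap` (for `J` and `J + 1`), `Lo_of_Fail`; sum over `l` and `v`. -/
theorem nn_le {J0 J : ℕ} (h0 : J0 ≤ J) (hJ : J < d) (h1 : 1 ≤ J) (h6 : 6 * (J - J0) ≤ J) :
    nn L M lab J ≤ 2 * (gg L M lab J0 J - gg L M lab J0 (J + 1)) := by
  classical
  unfold nn gg Es
  rw [← Finset.sum_sub_distrib, Finset.mul_sum]
  refine Finset.sum_le_sum fun v hv => ?_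
  rw [← sub_div, ← mul_div_assoc]
  refine div_le_div_of_nonneg_right ?_ (by positivity)
  have key : ∀ l : Fin d, ∑ σ : Equiv.Perm (Fin d),
      (if Fail L M lab v (ini σ J) (ini σ (J + 1)) l then (1 : ℝ) else 0) ≤
      2 * ∑ σ : Equiv.Perm (Fin d), ((if Lo L M lab v σ J0 J l then (1 : ℝ) else 0) -
        (if Lo L M lab v σ J0 (J + 1) l then (1 : ℝ) else 0)) := by
    intro l
    have h3 := sum_perm_three (d := d) (J := J) (J0 := J0) h0 hJ.le h6 h1
      (fun σ => if Fail L M lab v (ini σ J) (ini σ (J + 1)) l then (1 : ℝ) else 0)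
      (fun σ => by split_ifs <;> norm_num)
      (fun i σ => if i = 0 then l else if i = 1 then (i2bDir L M lab v l (ini σ J)).1
        else (i2bDir L M lab v l (ini σ J)).2)
      (fun i σ hσ => by
        have hf : Fail L M lab v (ini σ J) (ini σ (J + 1)) l := by
          by_contra hn
          exact hσ (if_neg hn)
        have hg := i2bDir_spec hf
        split_ifs
        · exact mem_ini.mp hf.mem
        · exact mem_ini.mp hg.1
        · exact mem_ini.mp hg.2.1)
      (fun s t hs ht σ => by
        have e1 := ini_swap σ hs ht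
        have e2 := ini_swap σ (J := J + 1) (s := s) (t := t) (by omega) (by omega)
        refine ⟨by simp only [e1, e2], fun i => by simp only [e1]⟩)
    refine h3.trans ?_
    refine mul_le_mul_of_nonneg_left (Finset.sum_le_sum fun σ _ => ?_) (by norm_num)
    by_cases hL : Lo L M lab v σ J0 (J + 1) l
    · have hL' := hL.pred h0 hJ
      rw [if_pos hL, if_pos hL']
      split_ifs with hr hf
      · exfalso
        have hg := i2bDir_spec hf
        have r0 := hr 0
        have r1 := hr 1
        have r2 := hr 2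
        simp only [if_true] at r0
        simp only [show (1 : Fin 3) ≠ 0 by decide, if_false, if_true] at r1
        simp only [show (2 : Fin 3) ≠ 0 by decide, show (2 : Fin 3) ≠ 1 by decide,
          if_false] at r2
        exact (Lo_of_Fail hv h0 hJ hf (mem_ini.mpr r0) (mem_ini.mpr r1) (mem_ini.mpr r2)
          hg.2.2.1 hg.2.2.2.1 hg.2.2.2.2.1 hg.2.2.2.2.2.1 hg.2.2.2.2.2.2).2 hL
      all_goals norm_num
    · rw [if_neg hL]
      by_cases hL' : Lo L M lab v σ J0 J l
      · rw [if_pos hL']
        split_ifs <;> norm_num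
      · rw [if_neg hL']
        split_ifs with hr hf
        · exfalso
          have hg := i2bDir_spec hf
          have r0 := hr 0
          have r1 := hr 1
          have r2 := hr 2
          simp only [if_true] at r0
          simp only [show (1 : Fin 3) ≠ 0 by decide, if_false, if_true] at r1
          simp only [show (2 : Fin 3) ≠ 0 by decide, show (2 : Fin 3) ≠ 1 by decide,
            if_false] at r2
          exact hL' (Lo_of_Fail hv h0 hJ hf (mem_ini.mpr r0) (mem_ini.mpr r1) (mem_ini.mpr r2)
            hg.2.2.1 hg.2.2.2.1 hg.2.2.2.2.1 hg.2.2.2.2.2.1 hg.2.2.2.2.2.2).1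
        all_goals norm_num
  have hA : ∀ σ : Equiv.Perm (Fin d),
      (((ini σ J).filter fun l => Fail L M lab v (ini σ J) (ini σ (J + 1)) l).card : ℝ) =
        ∑ l : Fin d, (if Fail L M lab v (ini σ J) (ini σ (J + 1)) l then (1 : ℝ) else 0) := by
    intro σ
    rw [Finset.sum_boole]
    congr 2
    ext l
    simp only [Finset.mem_filter, Finset.mem_univ, true_and, and_iff_right_iff_imp]
    exact fun h => h.mem
  have hB : ∀ (σ : Equiv.Perm (Fin d)) (K : ℕ),
      ((univ.filter fun l => Lo L M lab v σ J0 K l).card : ℝ) =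
        ∑ l : Fin d, (if Lo L M lab v σ J0 K l then (1 : ℝ) else 0) := by
    intro σ K
    rw [Finset.sum_boole]
  simp_rw [hA, hB]
  rw [Finset.sum_comm, ← Finset.sum_sub_distrib]
  simp_rw [← Finset.sum_sub_distrib]
  rw [Finset.sum_comm (s := (univ : Finset (Equiv.Perm (Fin d)))), Finset.mul_sum]
  exact Finset.sum_le_sum fun l _ => key l

end Pool.Agent.Helper13.TSE
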