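import Mathlib
import Pool.Agent.Helper13.TSE.I1
import Pool.Agent.Helper13.TSE.H1
import Pool.Agent.Helper13.TSE.L4

/-!
# TSE-I3: the mean number of directions at the lower level
-/

namespace Pool.Agent.Helper13.TSE

open Finset Pool.Agent.Helper82.TotSep Pool.Agent.Helper13.TSD

variable {V : Type*} [Fintype V] {G : SimpleGraph V} {d : ℕ} {Λ : Type*} {L : FaceData G d}
  {M : Finset V} {lab : V → Λ} {j : ℕ} {F : Finset V}

open Classical in
/-- one label -/
private theorem I3_fiber (hF : IsFace L j F) (c : Λ) (T : Finset (Σ _ : V, Fin d))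
    (hT : ∀ x ∈ T, x.2 ∈ dir L F x.1 ∧ L.nb x.1 x.2 ∉ M ∧ x.1 ∈ gs L M lab F c ∧
      (ZZ L M lab F c).card ≤ j ∧ lab (L.nb x.1 x.2) = c) : T.card ≤ j := by
  rcases T.eq_empty_or_nonempty with he | hne
  · rw [he, Finset.card_empty]
    exact Nat.zero_le _
  by_cases h2 : 2 ≤ (gs L M lab F c).card
  · obtain ⟨x0, hx0⟩ := hne
    have hle := (hT x0 hx0).2.2.2.1
    have hN : Nic L M lab j F c := ⟨le_antisymm hle (card_ZZ_ge hF h2), h2⟩
    have hex : ∀ v : V, ∃ a : Finset V, v ∈ gs L M lab F c → a ∈ ZZ L M lab F c ∧ v ∉ a := by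
      intro v
      by_cases hv : v ∈ gs L M lab F c
      · obtain ⟨a, ha, hva⟩ := hN.exists_miss hF hv
        exact ⟨a, fun _ => ⟨ha, hva⟩⟩
      · exact ⟨∅, fun h => absurd h hv⟩
    choose g hg using hex
    rw [← hN.1]
    refine Finset.card_le_card_of_injOn (fun x => g x.1) (fun x hx => ?_) ?_
    · exact (hg x.1 (hT x hx).2.2.1).1
    · rintro ⟨v, l⟩ hx ⟨v', l'⟩ hx' hxx
      obtain ⟨h1, h3, h4, -, h5⟩ := hT _ hx
      obtain ⟨h1', h3', h4', -, h5'⟩ := hT _ hx'
      simp only at h1 h3 h4 h5 h1' h3' h4' h5' hxx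
      have hg1 := hg v h4
      have hg2 := hg v' h4'
      have hvv : v = v' := hN.seer_unique hF h4 h4' hg1.1 hg1.2 (hxx ▸ hg2.2)
      subst hvv
      have hll : l = l' := hN.dir_unique hF h4 h1 h3 h5 h1' h3' h5'
      rw [hll]
  · obtain ⟨⟨v0, l0⟩, hx0⟩ := hne
    obtain ⟨-, -, h4, -, -⟩ := hT _ hx0
    simp only at h4
    have hv0F : v0 ∈ F := (mem_seers.mp (mem_gs.mp h4).1).1
    rw [← hF.card_dir hv0F]
    refine Finset.card_le_card_of_injOn (fun x => x.2) ?_ ?_
    · rintro ⟨v, l⟩ hx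
      obtain ⟨h1', -, h4', -, -⟩ := hT _ hx
      simp only at h1' h4'
      have hvv : v = v0 := Finset.card_le_one.mp (by omega) v h4' v0 h4
      subst hvv
      exact h1'
    · rintro ⟨v, l⟩ hx ⟨v', l'⟩ hx' hxx
      obtain ⟨-, -, h4', -, -⟩ := hT _ hx
      obtain ⟨-, -, h4'', -, -⟩ := hT _ hx'
      simp only at h4' h4'' hxx
      have hvv : v = v' := Finset.card_le_one.mp (by omega) v h4' v' h4''
      rw [hvv, hxx]

open Classical in
/-- For every label `c` of `F` at most `j` pairs: if `c` has two good seers then it is nice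
(`card_ZZ_ge`), the direction is unique (`Nic.dir_unique`) and different good seers have
different missing facets in `ZZ F c` (`Nic.exists_miss`, `Nic.seer_unique`); if it has one good
seer, there are at most `j` directions.  A good seer exists only in real faces. -/
theorem face_lo (hF : IsFace L j F) :
    ∑ v ∈ inner M F, ((((dir L F v).filter fun l => L.nb v l ∉ M ∧
      v ∈ gs L M lab F (lab (L.nb v l)) ∧ (ZZ L M lab F (lab (L.nb v l))).card ≤ j).card : ℕ) : ℝ)
      ≤ (j : ℝ) * KR M lab F := by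
  set D : V → Finset (Fin d) := fun v => (dir L F v).filter fun l => L.nb v l ∉ M ∧
      v ∈ gs L M lab F (lab (L.nb v l)) ∧ (ZZ L M lab F (lab (L.nb v l))).card ≤ j with hD
  by_cases hR : Re M lab F
  · rw [KR, if_pos hR]
    have h1 : ((inner M F).sigma D).card ≤ j * (labs M lab F).card := by
      refine Finset.card_le_mul_card_image_of_maps_to
        (f := fun x : (Σ _ : V, Fin d) => lab (L.nb x.1 x.2)) ?_ j ?_
      · rintro ⟨v, l⟩ hx
        rw [Finset.mem_sigma, hD, Finset.mem_filter] at hx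
        exact mem_labs.mpr ⟨_, mem_dir.mp hx.2.1, hx.2.2.1, rfl⟩
      · intro c _
        refine I3_fiber (M := M) (lab := lab) hF c _ ?_
        rintro ⟨v, l⟩ hx
        rw [Finset.mem_filter, Finset.mem_sigma, hD, Finset.mem_filter] at hx
        obtain ⟨⟨-, h1, h2, h3, h4⟩, h5⟩ := hx
        simp only at h1 h2 h3 h4 h5
        rw [h5] at h3 h4
        exact ⟨h1, h2, h3, h4, h5⟩
    rw [Finset.card_sigma] at h1
    exact_mod_cast h1
  · rw [KR, if_neg hR, mul_zero]
    refine le_of_eq (Finset.sum_eq_zero fun v _ => ?_)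
    rw [Nat.cast_eq_zero, Finset.card_eq_zero, Finset.filter_eq_empty_iff]
    rintro l - ⟨-, h2, -⟩
    apply hR
    have h3 := (mem_gs.mp h2).2
    have h4 := Finset.card_le_card (eqSeen_subset (L := L) (M := M) (lab := lab) (F := F) (w := v))
    unfold Re
    omega

end Pool.Agent.Helper13.TSE
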