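import Mathlib
import Pool.Agent.Helper13.TSE.I3

/-!
# TSE-I3b: the mean number of directions at the lower level
-/

namespace Pool.Agent.Helper13.TSE

open Finset Pool.Agent.Helper82.TotSep Pool.Agent.Helper13.TSD

variable {V : Type*} [Fintype V] {G : SimpleGraph V} {d : ℕ} {Λ : Type*} {L : FaceData G d}
  {M : Finset V} {lab : V → Λ} {j : ℕ} {F : Finset V}

/-- `Es_fl`, `face_lo`. -/
theorem gg_self {J0 : ℕ} (hJ : J0 ≤ d) :
    gg L M lab J0 J0 ≤ (J0 : ℝ) * av L d univ J0 (KR M lab) := by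
  classical
  obtain ⟨ψ, hψ⟩ : ∃ ψ : V → Finset V → ℝ, ∀ v F, ψ v F =
      ((((dir L F v).filter fun l => L.nb v l ∉ M ∧ v ∈ gs L M lab F (lab (L.nb v l)) ∧
        (ZZ L M lab F (lab (L.nb v l))).card ≤ J0).card : ℕ) : ℝ) := ⟨_, fun _ _ => rfl⟩
  have h1 : gg L M lab J0 J0 = Es M (fun v σ => ψ v (fl L v σ J0)) := by
    unfold gg
    congr 1
    funext v σ
    rw [hψ]
    have e : (univ.filter fun l => Lo L M lab v σ J0 J0 l) =
        (dir L (fl L v σ J0) v).filter fun l => L.nb v l ∉ M ∧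
          v ∈ gs L M lab (fl L v σ J0) (lab (L.nb v l)) ∧
          (ZZ L M lab (fl L v σ J0) (lab (L.nb v l))).card ≤ J0 := by
      have hd : dir L (fl L v σ J0) v = ini σ J0 := by
        unfold fl
        exact dir_faceOf _ _
      ext l
      simp only [Finset.mem_filter, Finset.mem_univ, true_and, hd]
      rfl
    rw [e]
  rw [h1, Es_fl hJ, ← av_mul]
  refine av_mono fun F hF => ?_
  refine le_trans (le_of_eq (Finset.sum_congr rfl fun v _ => hψ v F)) ?_
  exact face_lo (mem_fcs.1 hF).1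

end Pool.Agent.Helper13.TSE
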