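import Mathlib
import Pool.Agent.Helper13.TSE.L4

/-!
# TSE-I3c: the mean number of directions at the lower level
-/

namespace Pool.Agent.Helper13.TSE

open Finset Pool.Agent.Helper82.TotSep Pool.Agent.Helper13.TSD

variable {V : Type*} [Fintype V] {G : SimpleGraph V} {d : ℕ} {Λ : Type*} {L : FaceData G d}
  {M : Finset V} {lab : V → Λ} {j : ℕ} {F : Finset V}

/-- `KR_le_bd`: mean of `bd j n_F ≤ 30 n_F (1 / √j + log n / j)`. -/
theorem av_KR_le_bd {r : ℕ} {P : Finset V} (hP : IsFace L r P) (hlab : LabOn G M lab P)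
    (hj : 1 ≤ j) (hjr : j ≤ r) :
    (j : ℝ) * av L r P j (KR M lab) ≤
      30 * (inner M P).card * (√(j : ℝ) + Real.log ((inner M P).card : ℝ)) := by
  have hj0 : (0 : ℝ) < j := by exact_mod_cast hj
  have hle : ∀ F ∈ fcs L j P, KR M lab F ≤
      (30 * (1 / √(j : ℝ) + Real.log ((inner M P).card : ℝ) / j)) *
        ((inner M F).card : ℝ) := by
    intro F hF
    have hF' := mem_fcs.mp hF
    refine (KR_le_bd hF'.1 (hlab.mono hF'.2)).trans ?_
    rcases Nat.eq_zero_or_pos (inner M F).card with h0 | h0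
    · unfold bd
      rw [h0]
      simp
    · have hsub : inner M F ⊆ inner M P := fun x hx =>
        mem_inner.mpr ⟨hF'.2 (mem_inner.mp hx).1, (mem_inner.mp hx).2⟩
      have hlog : Real.log ((inner M F).card : ℝ) ≤ Real.log ((inner M P).card : ℝ) := by
        apply Real.log_le_log
        · exact_mod_cast h0
        · exact_mod_cast Finset.card_le_card hsub
      have h1 : Real.log ((inner M F).card : ℝ) / j ≤ Real.log ((inner M P).card : ℝ) / j :=
        div_le_div_of_nonneg_right hlog hj0.le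
      unfold bd
      have h2 : (0 : ℝ) ≤ 30 * ((inner M F).card : ℝ) := by positivity
      calc 30 * ((inner M F).card : ℝ) *
            (1 / √(j : ℝ) + Real.log ((inner M F).card : ℝ) / j)
          ≤ 30 * ((inner M F).card : ℝ) *
            (1 / √(j : ℝ) + Real.log ((inner M P).card : ℝ) / j) :=
            mul_le_mul_of_nonneg_left (by linarith) h2
        _ = _ := by ring
  have h3 : av L r P j (KR M lab) ≤
      (30 * (1 / √(j : ℝ) + Real.log ((inner M P).card : ℝ) / j)) *
        ((inner M P).card : ℝ) := by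
    refine (av_mono hle).trans ?_
    rw [av_mul, av_inner hP hjr]
  have h4 := mul_le_mul_of_nonneg_left h3 hj0.le
  refine h4.trans (le_of_eq ?_)
  have hs : √(j : ℝ) ≠ 0 := (Real.sqrt_pos.mpr hj0).ne'
  have hsq : √(j : ℝ) * √(j : ℝ) = j := Real.mul_self_sqrt hj0.le
  have hdiv : (j : ℝ) * (1 / √(j : ℝ)) = √(j : ℝ) := by
    rw [mul_one_div, div_eq_iff hs, hsq]
  have hdiv2 : (j : ℝ) * (Real.log ((inner M P).card : ℝ) / j) =
      Real.log ((inner M P).card : ℝ) := by
    field_simp
  calc (j : ℝ) * (30 * (1 / √(j : ℝ) + Real.log ((inner M P).card : ℝ) / j) *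
        ((inner M P).card : ℝ))
      = 30 * ((inner M P).card : ℝ) * ((j : ℝ) * (1 / √(j : ℝ)) +
        (j : ℝ) * (Real.log ((inner M P).card : ℝ) / j)) := by ring
    _ = _ := by rw [hdiv, hdiv2]

end Pool.Agent.Helper13.TSE
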