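import Mathlib
import Pool.Agent.Helper13.TSE.I2b
import Pool.Agent.Helper13.TSE.I3b
import Pool.Agent.Helper13.TSE.I3c

/-!
# TSE-I4: the sum of the `nn`
-/

namespace Pool.Agent.Helper13.TSE

open Finset Pool.Agent.Helper82.TotSep Pool.Agent.Helper13.TSD

variable {V : Type*} [Fintype V] {G : SimpleGraph V} {d : ℕ} {Λ : Type*} {L : FaceData G d}
  {M : Finset V} {lab : V → Λ}

omit [Fintype V] in
private lemma I4_Es_nonneg {f : V → Equiv.Perm (Fin d) → ℝ} (h : ∀ v σ, 0 ≤ f v σ) :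
    0 ≤ Es M f :=
  Finset.sum_nonneg fun v _ =>
    div_nonneg (Finset.sum_nonneg fun σ _ => h v σ) (Nat.cast_nonneg _)

theorem nn_nonneg (J : ℕ) : 0 ≤ nn L M lab J :=
  I4_Es_nonneg fun _ _ => Nat.cast_nonneg _

theorem gg_nonneg (J0 J : ℕ) : 0 ≤ gg L M lab J0 J :=
  I4_Es_nonneg fun _ _ => Nat.cast_nonneg _

/-- Telescoping sum of `nn_le`, `gg_self`, `av_KR_le_bd`. -/
theorem sum_block (hlab : LabOn G M lab univ) {J0 J1 : ℕ} (h0 : 1 ≤ J0) (h01 : J0 ≤ J1)
    (h1 : J1 ≤ d) (h5 : 5 * J1 ≤ 6 * J0 + 5) :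
    ∑ J ∈ Ico J0 J1, nn L M lab J ≤ 60 * M.card * (√(d : ℝ) + Real.log M.card) := by
  rcases isEmpty_or_nonempty V with hV | hV
  · have hM : M = ∅ := Finset.eq_empty_of_isEmpty M
    subst hM
    simp [nn, Es]
  have hsum : ∀ J, J0 ≤ J → J ≤ J1 → ∑ i ∈ Ico J0 J, nn L M lab i ≤
      2 * (gg L M lab J0 J0 - gg L M lab J0 J) := by
    intro J hJ
    induction J, hJ using Nat.le_induction with
    | base => intro _; simp
    | succ J hJ ih =>
      intro hJ1
      rw [Finset.sum_Ico_succ_top hJ]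
      have h2 := ih (by omega)
      have h3 : nn L M lab J ≤ 2 * (gg L M lab J0 J - gg L M lab J0 (J + 1)) :=
        nn_le hJ (by omega) (by omega) (by omega)
      linarith
  have hP : IsFace L d (univ : Finset V) := isFace_univ
  have hin : (inner M (univ : Finset V)).card = M.card := by
    congr 1
    ext x
    simp [mem_inner]
  have h2 := hsum J1 h01 le_rfl
  have h3 : (0 : ℝ) ≤ gg L M lab J0 J1 := gg_nonneg J0 J1
  have h4 : gg L M lab J0 J0 ≤ (J0 : ℝ) * av L d univ J0 (KR M lab) := gg_self (by omega)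
  have h6 : (J0 : ℝ) * av L d univ J0 (KR M lab) ≤
      30 * (inner M (univ : Finset V)).card *
        (√(J0 : ℝ) + Real.log ((inner M (univ : Finset V)).card : ℝ)) :=
    av_KR_le_bd hP hlab h0 (by omega)
  rw [hin] at h6
  have h7 : √(J0 : ℝ) ≤ √(d : ℝ) := Real.sqrt_le_sqrt (by exact_mod_cast (h01.trans h1))
  have h8 : (30 : ℝ) * M.card * (√(J0 : ℝ) + Real.log M.card) ≤
      30 * M.card * (√(d : ℝ) + Real.log M.card) := by
    gcongr
  linarith

end Pool.Agent.Helper13.TSE
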