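import Mathlib
import Pool.Agent.Helper13.TSE.I4

/-!
# TSE-I4b: the sum of the `nn`
-/

namespace Pool.Agent.Helper13.TSE

open Finset Pool.Agent.Helper82.TotSep Pool.Agent.Helper13.TSD

variable {V : Type*} [Fintype V] {G : SimpleGraph V} {d : ℕ} {Λ : Type*} {L : FaceData G d}
  {M : Finset V} {lab : V → Λ}

/-- Cover `[J0, d)` by the blocks `[J, 6 J / 5 + 1)`: at most `6 log (d / J0) + 1` blocks, as
`log (6 / 5) ≥ 1 / 6`. -/
theorem sum_nn_le (hlab : LabOn G M lab univ) {J0 : ℕ} (h0 : 1 ≤ J0) (h1 : J0 ≤ d) :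
    ∑ J ∈ Ico J0 d, nn L M lab J ≤
      (6 * Real.log ((d : ℝ) / J0) + 1) * (60 * M.card * (√(d : ℝ) + Real.log M.card)) := by
  have hB : (0 : ℝ) ≤ 60 * M.card * (√(d : ℝ) + Real.log M.card) := by
    have h2 : (0 : ℝ) ≤ Real.log M.card := Real.log_natCast_nonneg _
    positivity
  obtain ⟨m, hm⟩ : ∃ m, d - J0 = m := ⟨_, rfl⟩
  induction m using Nat.strong_induction_on generalizing J0 with
  | _ m ih =>
    have hJpos : (0 : ℝ) < J0 := by exact_mod_cast h0
    have hdJ : (1 : ℝ) ≤ (d : ℝ) / J0 := by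
      rw [le_div_iff₀ hJpos, one_mul]
      exact_mod_cast h1
    have hlog : 0 ≤ Real.log ((d : ℝ) / J0) := Real.log_nonneg hdJ
    rcases Nat.lt_or_ge ((6 * J0 + 5) / 5) d with hlt | hge
    · -- a block and the rest
      have hJ1 : J0 < (6 * J0 + 5) / 5 := by omega
      have hblock := sum_block (L := L) (M := M) (lab := lab) hlab h0 hJ1.le hlt.le
        (by omega : 5 * ((6 * J0 + 5) / 5) ≤ 6 * J0 + 5)
      have hrest := ih (d - (6 * J0 + 5) / 5) (by omega) (J0 := (6 * J0 + 5) / 5) (by omega)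
        hlt.le rfl
      have hsplit : ∑ J ∈ Ico J0 d, nn L M lab J =
          ∑ J ∈ Ico J0 ((6 * J0 + 5) / 5), nn L M lab J +
            ∑ J ∈ Ico ((6 * J0 + 5) / 5) d, nn L M lab J :=
        (Finset.sum_Ico_consecutive _ hJ1.le hlt.le).symm
      have h65 : (6 : ℝ) / 5 * J0 ≤ (((6 * J0 + 5) / 5 : ℕ) : ℝ) := by
        have h3 : 6 * J0 ≤ 5 * ((6 * J0 + 5) / 5) := by omega
        have h4 : (6 : ℝ) * J0 ≤ 5 * (((6 * J0 + 5) / 5 : ℕ) : ℝ) := by exact_mod_cast h3
        linarith
      generalize (6 * J0 + 5) / 5 = J1 at *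
      have hJ1pos : (0 : ℝ) < J1 := by
        have : (0 : ℝ) < 6 / 5 * J0 := by positivity
        linarith
      have hdpos : (0 : ℝ) < d := by
        have : (J0 : ℝ) ≤ d := by exact_mod_cast h1
        linarith
      have hlog65 : (1 : ℝ) / 6 ≤ Real.log (6 / 5) := by
        have h3 := Real.log_le_sub_one_of_pos (show (0 : ℝ) < 5 / 6 by norm_num)
        have h4 : Real.log (5 / 6) = - Real.log (6 / 5) := by
          rw [← Real.log_inv]
          norm_num
        rw [h4] at h3
        linarith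
      have hlogs : Real.log ((d : ℝ) / J1) + 1 / 6 ≤ Real.log ((d : ℝ) / J0) := by
        rw [Real.log_div hdpos.ne' hJ1pos.ne', Real.log_div hdpos.ne' hJpos.ne']
        have h3 : Real.log (6 / 5 * (J0 : ℝ)) ≤ Real.log J1 :=
          Real.log_le_log (by positivity) h65
        rw [Real.log_mul (by norm_num) hJpos.ne'] at h3
        linarith
      rw [hsplit]
      calc _ ≤ 60 * M.card * (√(d : ℝ) + Real.log M.card) +
            (6 * Real.log ((d : ℝ) / J1) + 1) *
              (60 * M.card * (√(d : ℝ) + Real.log M.card)) := add_le_add hblock hrest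
        _ = (6 * (Real.log ((d : ℝ) / J1) + 1 / 6) + 1) *
              (60 * M.card * (√(d : ℝ) + Real.log M.card)) := by ring
        _ ≤ (6 * Real.log ((d : ℝ) / J0) + 1) *
              (60 * M.card * (√(d : ℝ) + Real.log M.card)) := by
            gcongr
    · -- one block
      have hblock := sum_block (L := L) (M := M) (lab := lab) hlab h0 h1 le_rfl (by omega)
      calc _ ≤ 1 * (60 * M.card * (√(d : ℝ) + Real.log M.card)) := by rw [one_mul]; exact hblock
        _ ≤ _ := by
          gcongr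
          linarith

end Pool.Agent.Helper13.TSE
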