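import Mathlib

/-!
# TSE-Z7c: numbers
-/

namespace Pool.Agent.Helper13.TSE

/-- `z = y / log T`, `T = d / y`, `√d ≤ y`, so `T ≤ √d`: the facts about
`λ = T ^ (1 / 8)` and `J0 = ⌈64 z⌉₊`. -/
theorem params {d : ℕ} (hd : 1 ≤ d) {y T z lam : ℝ} (hy : 1 ≤ y) (hT : T = d / y)
    (hT0 : 2 ^ 40 ≤ T) (hyd : √(d : ℝ) ≤ y) (hz : z = y / Real.log T)
    (hlam : lam = T ^ ((1 : ℝ) / 8)) :
    1 < lam ∧ (d : ℝ) ≤ lam ^ 16 * ((⌈64 * z⌉₊ : ℝ) + 1) ∧ 1 / 4 ≤ z ∧ z ≤ y ∧
      1 ≤ ⌈64 * z⌉₊ ∧ ⌈64 * z⌉₊ ≤ d ∧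
      Real.log ((d : ℝ) / (⌈64 * z⌉₊ : ℝ)) ≤ 2 * Real.log T ∧
      Real.log T ≤ Real.log d ∧ lam ≤ (d : ℝ) ^ ((1 : ℝ) / 16) ∧
      lam * (12 * Real.log T + 1) ≤ 200 * T := by
  have hy0 : 0 < y := by linarith
  have hT1 : 1 < T := by
    have : (1 : ℝ) < 2 ^ 40 := by norm_num
    linarith
  have hT00 : 0 < T := by linarith
  have hd0 : (0 : ℝ) < d := by exact_mod_cast hd
  have hdT : (d : ℝ) = T * y := by
    rw [hT]
    field_simp
  have hdy : (d : ℝ) ≤ y ^ 2 := by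
    have h := Real.sqrt_le_left (y := y) hy0.le |>.mp hyd
    exact h
  have hTy : T ≤ y := by
    rw [hT, div_le_iff₀ hy0]
    nlinarith
  have hTs : T ≤ √(d : ℝ) := by
    have hs : 0 < √(d : ℝ) := Real.sqrt_pos.mpr hd0
    rw [hT, div_le_iff₀ hy0]
    calc (d : ℝ) = √(d : ℝ) * √(d : ℝ) := (Real.mul_self_sqrt hd0.le).symm
      _ ≤ √(d : ℝ) * y := mul_le_mul_of_nonneg_left hyd hs.le
  have hlogT : Real.log T ≤ T := by
    have := Real.log_le_sub_one_of_pos hT00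
    linarith
  have hlog1 : 1 ≤ Real.log T := by
    rw [Real.le_log_iff_exp_le hT00]
    have h := Real.exp_one_lt_d9
    have : (2.7182818286 : ℝ) ≤ 2 ^ 40 := by norm_num
    linarith
  have hlog0 : 0 < Real.log T := by linarith
  have hz1 : 1 ≤ z := by
    rw [hz, le_div_iff₀ hlog0, one_mul]
    linarith
  have hz0 : 0 < z := by linarith
  have hzy : z ≤ y := by
    rw [hz, div_le_iff₀ hlog0]
    nlinarith
  have hyz : y = z * Real.log T := by
    rw [hz]
    field_simp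
  have hc : 64 * z ≤ (⌈64 * z⌉₊ : ℝ) := Nat.le_ceil _
  have hc0 : (0 : ℝ) < (⌈64 * z⌉₊ : ℝ) := by linarith
  have hlamT : lam ^ 16 = T ^ 2 := by
    rw [hlam, ← Real.rpow_natCast, ← Real.rpow_mul hT00.le]
    norm_num
  refine ⟨?_, ?_, ?_, hzy, ?_, ?_, ?_, ?_, ?_, ?_⟩
  · rw [hlam]
    exact Real.one_lt_rpow hT1 (by norm_num)
  · rw [hlamT, hdT, hyz]
    have h1 : T * (z * Real.log T) ≤ T ^ 2 * (64 * z) := by
      have : z * Real.log T ≤ z * T := mul_le_mul_of_nonneg_left hlogT hz0.le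
      nlinarith [mul_pos hT00 (mul_pos hz0 hT00)]
    refine h1.trans ?_
    refine mul_le_mul_of_nonneg_left ?_ (by positivity)
    linarith
  · linarith
  · exact Nat.one_le_iff_ne_zero.mpr fun h => by
      rw [h] at hc0
      simp at hc0
  · rw [Nat.ceil_le, hdT, hyz]
    have : 64 * z ≤ z * T := by
      have : (64 : ℝ) ≤ T := by
        have : (64 : ℝ) ≤ 2 ^ 40 := by norm_num
        linarith
      nlinarith
    have h2 : z * T ≤ z * T * Real.log T := le_mul_of_one_le_right (by positivity) hlog1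
    calc 64 * z ≤ z * T := this
      _ ≤ z * T * Real.log T := h2
      _ = T * (z * Real.log T) := by ring
  · have h1 : (d : ℝ) / (⌈64 * z⌉₊ : ℝ) ≤ T ^ 2 := by
      rw [div_le_iff₀ hc0, hdT, hyz]
      have h1 : T * (z * Real.log T) ≤ T ^ 2 * (64 * z) := by
        have : z * Real.log T ≤ z * T := mul_le_mul_of_nonneg_left hlogT hz0.le
        nlinarith [mul_pos hT00 (mul_pos hz0 hT00)]
      exact h1.trans (mul_le_mul_of_nonneg_left hc (by positivity))
    have h2 := Real.log_le_log (by positivity) h1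
    rw [Real.log_pow] at h2
    simpa using h2
  · refine Real.log_le_log hT00 ?_
    rw [hdT]
    nlinarith
  · rw [hlam]
    calc T ^ ((1 : ℝ) / 8) ≤ (√(d : ℝ)) ^ ((1 : ℝ) / 8) :=
          Real.rpow_le_rpow hT00.le hTs (by norm_num)
      _ = (d : ℝ) ^ ((1 : ℝ) / 16) := by
          rw [Real.sqrt_eq_rpow, ← Real.rpow_mul hd0.le]
          norm_num
  · have hS : 1 ≤ T ^ ((7 : ℝ) / 8) := Real.one_le_rpow hT1.le (by norm_num)
    have hS0 : 0 < T ^ ((7 : ℝ) / 8) := by linarith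
    have hl : Real.log T ≤ 8 / 7 * T ^ ((7 : ℝ) / 8) := by
      have h := Real.log_le_sub_one_of_pos hS0
      rw [Real.log_rpow hT00] at h
      linarith
    have hlT : lam * T ^ ((7 : ℝ) / 8) = T := by
      rw [hlam, ← Real.rpow_add hT00]
      norm_num
    have hlam0 : 0 < lam := by
      rw [hlam]
      exact Real.rpow_pos_of_pos hT00 _
    calc lam * (12 * Real.log T + 1) ≤ lam * (200 * T ^ ((7 : ℝ) / 8)) := by
          refine mul_le_mul_of_nonneg_left ?_ hlam0.le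
          linarith
      _ = 200 * (lam * T ^ ((7 : ℝ) / 8)) := by ring
      _ = 200 * T := by rw [hlT]

end Pool.Agent.Helper13.TSE
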