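import Mathlib
import Pool.Agent.Helper13.TSE.Z7c
import Pool.Agent.Helper13.TSE.I4b

/-!
# TSE-Z8: the mean weights, with numbers
-/

namespace Pool.Agent.Helper13.TSE

open Finset Pool.Agent.Helper82.TotSep Pool.Agent.Helper13.TSD

variable {V : Type*} [Fintype V] {G : SimpleGraph V} {d : ℕ} {Λ : Type*} {L : FaceData G d}
  {M : Finset V} {lab : V → Λ}

/-- `sum_nn_le`, `params`, `√d + y ≤ 2 y`. -/
theorem nn_num (hlab : LabOn G M lab univ) (hd : 1 ≤ d) {y T z lam : ℝ}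
    (hyn : y = Real.log M.card) (hy : 1 ≤ y) (hT : T = d / y) (hT0 : 2 ^ 40 ≤ T)
    (hyd : √(d : ℝ) ≤ y) (hz : z = y / Real.log T) (hlam : lam = T ^ ((1 : ℝ) / 8)) :
    ∑ J ∈ Ico ⌈64 * z⌉₊ d, nn L M lab J ≤ (12 * Real.log T + 1) * (120 * M.card * y) := by
  obtain ⟨_, _, _, _, h1, h2, h3, _⟩ := params hd hy hT hT0 hyd hz hlam
  have hT1 : 0 ≤ Real.log T := Real.log_nonneg (by
    have : (1 : ℝ) ≤ 2 ^ 40 := by norm_num
    linarith)
  have hM : (0 : ℝ) ≤ M.card := Nat.cast_nonneg _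
  refine (sum_nn_le hlab h1 h2).trans (mul_le_mul ?_ ?_ ?_ ?_)
  · linarith
  · rw [← hyn]
    have h4 : 60 * (M.card : ℝ) * (√(d : ℝ) + y) ≤ 60 * (M.card : ℝ) * (2 * y) :=
      mul_le_mul_of_nonneg_left (by linarith) (by positivity)
    linarith
  · rw [← hyn]
    have h5 := Real.sqrt_nonneg (d : ℝ)
    positivity
  · linarith

end Pool.Agent.Helper13.TSE
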