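import Mathlib
import Pool.Agent.Helper13.TSE.Z8
import Pool.Agent.Helper13.TSE.K4b

/-!
# TSE-Z8b: the mean weights, with numbers
-/

namespace Pool.Agent.Helper13.TSE

open Finset Pool.Agent.Helper82.TotSep Pool.Agent.Helper13.TSD

variable {V : Type*} [Fintype V] {G : SimpleGraph V} {d : ℕ} {Λ : Type*} {L : FaceData G d}
  {M : Finset V} {lab : V → Λ}

/-- `Es_XX`, `nn_num`: `16 / 3 / (J0 + 1) * (12 log T + 1) 120 n y ≤ 10 log T (12 log T + 1) n ≤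
130 (1 + log d) ^ 2 n`, `4 (Nat.log 2 d + 1) + 2 ≤ 8 (1 + log d)`, `lam ≤ d ^ (1 / 16)`. -/
theorem XX_num (hlab : LabOn G M lab univ) (hd : 1 ≤ d) {y T z lam : ℝ}
    (hyn : y = Real.log M.card) (hy : 1 ≤ y) (hT : T = d / y) (hT0 : 2 ^ 40 ≤ T)
    (hyd : √(d : ℝ) ≤ y) (hz : z = y / Real.log T) (hlam : lam = T ^ ((1 : ℝ) / 8)) :
    Es M (XX L M lab (4 * (Nat.log 2 d + 1)) lam ⌈64 * z⌉₊) ≤
      1114 * ((1 + Real.log d) ^ 3 * (d : ℝ) ^ ((1 : ℝ) / 16)) * M.card := by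
  obtain ⟨hlam1, -, hz4, -, hJ1, -, -, hlogTd, hlamd, -⟩ :=
    params hd hy hT hT0 hyd hz hlam
  have hT1 : 1 < T := by
    have : (1 : ℝ) < 2 ^ 40 := by norm_num
    linarith
  have hlogT : 1 ≤ Real.log T := by
    rw [Real.le_log_iff_exp_le (by linarith)]
    have h := Real.exp_one_lt_d9
    have : (2.7182818286 : ℝ) ≤ 2 ^ 40 := by norm_num
    linarith
  have hz0 : 0 < z := by linarith
  have hyz : y = z * Real.log T := by
    rw [hz]
    field_simp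
  have hn := nn_num (L := L) (M := M) hlab hd hyn hy hT hT0 hyd hz hlam
  have hX := Es_XX (L := L) (M := M) hlab (4 * (Nat.log 2 d + 1)) (lam := lam) (by linarith)
    ⌈64 * z⌉₊ hd
  refine hX.trans ?_
  have hc : 64 * z ≤ (⌈64 * z⌉₊ : ℝ) := Nat.le_ceil _
  set J : ℝ := (⌈64 * z⌉₊ : ℝ) with hJdef
  set S : ℝ := ∑ J ∈ Ico ⌈64 * z⌉₊ d, nn L M lab J with hSdef
  set n : ℝ := (M.card : ℝ) with hndef
  set lT : ℝ := Real.log T with hlT
  set ld : ℝ := Real.log d with hld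
  have hn0 : 0 ≤ n := Nat.cast_nonneg _
  have hJ0 : 0 < J + 1 := by linarith
  -- the first bound
  have h1 : 16 / 3 / (J + 1) * S ≤ 10 * lT * (12 * lT + 1) * n := by
    have h2 : 16 / 3 / (J + 1) * S ≤ 16 / 3 / (J + 1) * ((12 * lT + 1) * (120 * n * y)) :=
      mul_le_mul_of_nonneg_left hn (by positivity)
    refine h2.trans ?_
    have h3 : 16 / 3 / (J + 1) ≤ 16 / 3 / (64 * z) :=
      div_le_div_of_nonneg_left (by norm_num) (by positivity) (by linarith)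
    have h4 : 0 ≤ (12 * lT + 1) * (120 * n * y) := by
      have h5 : 0 ≤ 12 * lT + 1 := by linarith
      have h6 : 0 ≤ y := by linarith
      exact mul_nonneg h5 (mul_nonneg (mul_nonneg (by norm_num) hn0) h6)
    refine (mul_le_mul_of_nonneg_right h3 h4).trans (le_of_eq ?_)
    rw [hyz]
    field_simp
    ring
  have h2 : 10 * lT * (12 * lT + 1) * n + 8 * n ≤ 128 * (1 + ld) ^ 2 * n := by
    have h3 : 10 * lT * (12 * lT + 1) + 8 ≤ 128 * (1 + ld) ^ 2 := by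
      have h4 : lT * lT ≤ ld * ld := mul_self_le_mul_self (by linarith) hlogTd
      nlinarith
    have h5 := mul_le_mul_of_nonneg_right h3 hn0
    nlinarith [h5]
  have h3 : (((4 * (Nat.log 2 d + 1) : ℕ) : ℝ) + 2) ≤ 8 * (1 + ld) := by
    have h4 : (Nat.log 2 d : ℝ) * Real.log 2 ≤ ld := by
      have h5 : ((2 : ℕ) ^ (Nat.log 2 d) : ℕ) ≤ d := Nat.pow_log_le_self 2 (by omega)
      have h6 : ((2 : ℝ) ^ (Nat.log 2 d)) ≤ (d : ℝ) := by exact_mod_cast h5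
      have h7 := Real.log_le_log (by positivity) h6
      rwa [Real.log_pow] at h7
    have h5 := Real.log_two_gt_d9
    have h6 : (0 : ℝ) ≤ (Nat.log 2 d : ℝ) := Nat.cast_nonneg _
    push_cast
    nlinarith
  have hld0 : 0 ≤ ld := by linarith
  have h4 : (((4 * (Nat.log 2 d + 1) : ℕ) : ℝ) + 2) * lam * (16 / 3 / (J + 1) * S + 8 * n) ≤
      8 * (1 + ld) * lam * (128 * (1 + ld) ^ 2 * n) := by
    have h5 : 0 ≤ lam := by linarith
    have h6 : 0 ≤ 8 * (1 + ld) * lam := by positivity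
    have h7 : 16 / 3 / (J + 1) * S + 8 * n ≤ 128 * (1 + ld) ^ 2 * n := by linarith
    have h8 : 0 ≤ 128 * (1 + ld) ^ 2 * n :=
      mul_nonneg (mul_nonneg (by norm_num) (sq_nonneg _)) hn0
    have h9 : (((4 * (Nat.log 2 d + 1) : ℕ) : ℝ) + 2) * lam ≤ 8 * (1 + ld) * lam :=
      mul_le_mul_of_nonneg_right h3 h5
    have h10 : 0 ≤ (((4 * (Nat.log 2 d + 1) : ℕ) : ℝ) + 2) * lam := by positivity
    exact (mul_le_mul_of_nonneg_left h7 h10).trans (mul_le_mul_of_nonneg_right h9 h8)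
  have h5 : 10 * lam * (1 + ld) * n ≤ 10 * lam * (1 + ld) ^ 3 * n := by
    have h6 : (1 + ld) ≤ (1 + ld) ^ 3 := by
      have h7 : (1 : ℝ) ≤ (1 + ld) ^ 2 := by nlinarith
      nlinarith
    have h7 : 0 ≤ 10 * lam := by linarith
    exact mul_le_mul_of_nonneg_right (mul_le_mul_of_nonneg_left h6 h7) hn0
  calc 10 * lam * (1 + ld) * n +
        (((4 * (Nat.log 2 d + 1) : ℕ) : ℝ) + 2) * lam * (16 / 3 / (J + 1) * S + 8 * n)
      ≤ 10 * lam * (1 + ld) ^ 3 * n + 8 * (1 + ld) * lam * (128 * (1 + ld) ^ 2 * n) :=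
        add_le_add h5 h4
    _ = 1034 * ((1 + ld) ^ 3 * lam) * n := by ring
    _ ≤ 1114 * ((1 + ld) ^ 3 * (d : ℝ) ^ ((1 : ℝ) / 16)) * n := by
        refine mul_le_mul_of_nonneg_right ?_ hn0
        have h6 : (1 + ld) ^ 3 * lam ≤ (1 + ld) ^ 3 * (d : ℝ) ^ ((1 : ℝ) / 16) :=
          mul_le_mul_of_nonneg_left hlamd (by positivity)
        have h7 : 0 ≤ (1 + ld) ^ 3 * (d : ℝ) ^ ((1 : ℝ) / 16) := by positivity
        linarith

end Pool.Agent.Helper13.TSE
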