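import Mathlib
import Pool.Agent.Helper13.TSE.K4

/-!
# TSE-K4c: the mean of the weights
-/

namespace Pool.Agent.Helper13.TSE

open Finset Pool.Agent.Helper82.TotSep Pool.Agent.Helper13.TSD

variable {V : Type*} [Fintype V] {G : SimpleGraph V} {d : ℕ} {Λ' : Type*} {L : FaceData G d}
  {M : Finset V} {lab : V → Λ'}

private lemma nn_nonneg' (J : ℕ) : 0 ≤ nn L M lab J := by
  unfold nn
  exact Es_nonneg fun v _ σ => Nat.cast_nonneg _

/-- `Ep_s2_le`, `sum_near_le`: `min (λ (j + 1)) d (j + 1) (16 / 3 nn / (j + 1)² +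
8 dn / (j + 1)) ≤ 16 / 3 λ nn + 8 d dn`. -/
theorem Es_YY (hlab : LabOn G M lab univ) {lam : ℝ} (h0 : 0 ≤ lam) (J0 : ℕ) :
    Es M (YY L M lab lam J0) ≤ 16 / 3 * lam * ∑ j ∈ Ico J0 d, nn L M lab j +
      8 * d * M.card := by
  classical
  -- the mean as a sum over the near pairs
  have e1 : Es M (YY L M lab lam J0) = ∑ p ∈ np d lam J0,
      ((p.1 : ℝ) + 1) * Ep L M (s2 L M lab ((p.1 : ℕ) + 1)) p.2 p.1 := by
    have h1 : YY L M lab lam J0 = fun v σ => ∑ p ∈ np d lam J0,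
        (fun (p : Fin d × Fin d) v σ => ((p.1 : ℝ) + 1) * ∑ a ∈ fc L,
          s2 L M lab (p.1 + 1) (FF L v σ p.2 p.1) v (σ.symm p.2) (σ.symm p.1) a) p v σ := rfl
    rw [h1, Es_sum]
    refine Finset.sum_congr rfl fun p _ => ?_
    rw [Es_mul]
    rfl
  let f : ℕ → ℝ := fun j => 16 / 3 * nn L M lab (j + 1) / ((j : ℝ) + 1)
  let g : ℕ → ℝ := fun j => if j + 1 < d then 8 * dn L M lab (j + 1) else 0
  have hf : ∀ j, 0 ≤ f j := fun j => by
    have := nn_nonneg' (L := L) (M := M) (lab := lab) (j + 1)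
    simp only [f]
    positivity
  have hg : ∀ j, 0 ≤ g j := fun j => by
    simp only [g]
    split_ifs with h
    · have := dn_nonneg (L := L) (M := M) (lab := lab) h
      linarith
    · exact le_refl _
  have e2 : Es M (YY L M lab lam J0) ≤ ∑ p ∈ np d lam J0, (f p.1 + g p.1) := by
    rw [e1]
    refine Finset.sum_le_sum fun p hp => ?_
    simp only [np, Finset.mem_filter, Finset.mem_univ, true_and] at hp
    have hlt : (p.1 : ℕ) < (p.2 : ℕ) := hp.2.1
    have hd : (p.1 : ℕ) + 1 < d := lt_of_le_of_lt hlt p.2.2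
    have h2 := Ep_s2_le (L := L) hlab p.2 p.1 hp.2.1
    have hpos : (0 : ℝ) < (p.1 : ℝ) + 1 := by positivity
    calc ((p.1 : ℝ) + 1) * Ep L M (s2 L M lab ((p.1 : ℕ) + 1)) p.2 p.1
        ≤ ((p.1 : ℝ) + 1) * (16 / 3 * nn L M lab (p.1 + 1) / ((p.1 : ℝ) + 1) ^ 2 +
          8 * dn L M lab (p.1 + 1) / ((p.1 : ℝ) + 1)) := mul_le_mul_of_nonneg_left h2 hpos.le
      _ = f p.1 + g p.1 := by
          simp only [f, g, if_pos hd]
          field_simp
  refine e2.trans ((sum_near_le h0 J0 f g hf hg).trans ?_)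
  have h3 : ∀ j ∈ Ico J0 (d - 1), (lam * ((j : ℝ) + 1) * f j + min (lam * ((j : ℝ) + 1)) d * g j) ≤
      16 / 3 * lam * nn L M lab (j + 1) + 8 * d * dn L M lab (j + 1) := by
    intro j hj
    rw [Finset.mem_Ico] at hj
    have hd : j + 1 < d := by omega
    have hpos : (0 : ℝ) < (j : ℝ) + 1 := by positivity
    have h4 : lam * ((j : ℝ) + 1) * f j = 16 / 3 * lam * nn L M lab (j + 1) := by
      simp only [f]
      field_simp
    have h5 : min (lam * ((j : ℝ) + 1)) d * g j ≤ 8 * d * dn L M lab (j + 1) := by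
      calc min (lam * ((j : ℝ) + 1)) d * g j ≤ (d : ℝ) * g j :=
            mul_le_mul_of_nonneg_right (min_le_right _ _) (hg j)
        _ = 8 * d * dn L M lab (j + 1) := by
            simp only [g, if_pos hd]
            ring
    rw [h4]
    linarith
  refine (Finset.sum_le_sum h3).trans ?_
  rw [Finset.sum_add_distrib, ← Finset.mul_sum, ← Finset.mul_sum]
  have hshift : ∀ x : ℕ → ℝ, ∑ j ∈ Ico J0 (d - 1), x (j + 1) = ∑ j ∈ Ico (J0 + 1) (d - 1 + 1), x j :=
    fun x => (Finset.sum_Ico_add' x J0 (d - 1) 1)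
  have h6 : ∑ j ∈ Ico J0 (d - 1), nn L M lab (j + 1) ≤ ∑ j ∈ Ico J0 d, nn L M lab j := by
    rw [hshift]
    refine Finset.sum_le_sum_of_subset_of_nonneg ?_ fun j _ _ => nn_nonneg' j
    intro j hj
    rw [Finset.mem_Ico] at hj ⊢
    omega
  have h7 : ∑ j ∈ Ico J0 (d - 1), dn L M lab (j + 1) ≤ M.card := by
    rw [hshift]
    refine le_trans ?_ (sum_dn_le (L := L) (M := M) (lab := lab) (J0 + 1))
    refine Finset.sum_le_sum_of_subset_of_nonneg ?_ fun j hj _ => dn_nonneg (Finset.mem_Ico.mp hj).2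
    intro j hj
    rw [Finset.mem_Ico] at hj ⊢
    omega
  have h8 : 16 / 3 * lam * ∑ j ∈ Ico J0 (d - 1), nn L M lab (j + 1) ≤
      16 / 3 * lam * ∑ j ∈ Ico J0 d, nn L M lab j :=
    mul_le_mul_of_nonneg_left h6 (by positivity)
  have h9 : 8 * (d : ℝ) * ∑ j ∈ Ico J0 (d - 1), dn L M lab (j + 1) ≤ 8 * d * M.card :=
    mul_le_mul_of_nonneg_left h7 (by positivity)
  linarith

end Pool.Agent.Helper13.TSE
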