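import Mathlib
import Pool.Agent.Helper13.TSE.Z8
import Pool.Agent.Helper13.TSE.K4c

/-!
# TSE-Z8c: the mean weights, with numbers
-/

namespace Pool.Agent.Helper13.TSE

open Finset Pool.Agent.Helper82.TotSep Pool.Agent.Helper13.TSD

variable {V : Type*} [Fintype V] {G : SimpleGraph V} {d : ℕ} {Λ : Type*} {L : FaceData G d}
  {M : Finset V} {lab : V → Λ}

/-- `Es_YY`, `nn_num`, `lam (12 log T + 1) ≤ 200 T`, `T y = d`. -/
theorem YY_num (hlab : LabOn G M lab univ) (hd : 1 ≤ d) {y T z lam : ℝ}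
    (hyn : y = Real.log M.card) (hy : 1 ≤ y) (hT : T = d / y) (hT0 : 2 ^ 40 ≤ T)
    (hyd : √(d : ℝ) ≤ y) (hz : z = y / Real.log T) (hlam : lam = T ^ ((1 : ℝ) / 8)) :
    Es M (YY L M lab lam ⌈64 * z⌉₊) ≤ 10 ^ 6 * d * M.card := by
  have hT1 : (1 : ℝ) ≤ T := le_trans (by norm_num) hT0
  have hTp : (0 : ℝ) < T := lt_of_lt_of_le one_pos hT1
  have hl1 : (1 : ℝ) ≤ lam := by
    rw [hlam]; exact Real.one_le_rpow hT1 (by norm_num)
  have hl8 : lam ^ 8 = T := by
    rw [hlam, ← Real.rpow_natCast, ← Real.rpow_mul hTp.le]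
    norm_num
  have hlog : Real.log T ≤ 8 * lam := by
    rw [← hl8, Real.log_pow]
    have := Real.log_le_sub_one_of_pos (lt_of_lt_of_le one_pos hl1)
    push_cast
    linarith
  have hl2 : lam ^ 2 ≤ T := by
    rw [← hl8]
    exact pow_le_pow_right₀ hl1 (by norm_num)
  have hlogn : 0 ≤ Real.log T := Real.log_nonneg hT1
  have hkey : lam * (12 * Real.log T + 1) ≤ 97 * T := by
    have h1 : 12 * Real.log T + 1 ≤ 97 * lam := by linarith
    calc lam * (12 * Real.log T + 1) ≤ lam * (97 * lam) :=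
          mul_le_mul_of_nonneg_left h1 (by linarith)
      _ = 97 * lam ^ 2 := by ring
      _ ≤ 97 * T := by linarith
  have hTy : T * y = d := by
    rw [hT, div_mul_cancel₀]
    linarith
  have h1 := Es_YY (L := L) (M := M) (lab := lab) hlab (lam := lam) (by linarith) ⌈64 * z⌉₊
  have h2 := nn_num (L := L) hlab hd hyn hy hT hT0 hyd hz hlam
  have hM : (0 : ℝ) ≤ M.card := Nat.cast_nonneg _
  have h3 : 16 / 3 * lam * ∑ j ∈ Ico ⌈64 * z⌉₊ d, nn L M lab j
      ≤ 16 / 3 * lam * ((12 * Real.log T + 1) * (120 * M.card * y)) :=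
    mul_le_mul_of_nonneg_left h2 (by linarith)
  have h4 : 16 / 3 * lam * ((12 * Real.log T + 1) * (120 * M.card * y))
      ≤ 16 / 3 * (97 * T) * (120 * M.card * y) := by
    have h5 : 0 ≤ 120 * (M.card : ℝ) * y := by positivity
    calc 16 / 3 * lam * ((12 * Real.log T + 1) * (120 * M.card * y))
        = 16 / 3 * (lam * (12 * Real.log T + 1)) * (120 * M.card * y) := by ring
      _ ≤ 16 / 3 * (97 * T) * (120 * M.card * y) := by
          apply mul_le_mul_of_nonneg_right _ h5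
          linarith
  have h6 : 16 / 3 * (97 * T) * (120 * M.card * y) = 62080 * d * M.card := by
    rw [← hTy]; ring
  have hd0 : (0 : ℝ) ≤ d * M.card := by positivity
  calc Es M (YY L M lab lam ⌈64 * z⌉₊) ≤ 62080 * d * M.card + 8 * d * M.card := by linarith
    _ ≤ 10 ^ 6 * d * M.card := by nlinarith

end Pool.Agent.Helper13.TSE
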