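import Mathlib
import Pool.Agent.Helper13.TSE.Z6
import Pool.Agent.Helper13.TSE.Z8b
import Pool.Agent.Helper13.TSE.Z8c
import Pool.Agent.Helper13.TSE.K5
import Pool.Agent.Helper13.TSE.Q4
import Pool.Agent.Helper13.TSE.Z7

/-!
# TSE-Z9: the main case
-/

namespace Pool.Agent.Helper13.TSE

open Finset Pool.Agent.Helper82.TotSep Pool.Agent.Helper13.TSD

variable {V : Type*} [Fintype V] {G : SimpleGraph V} {d : ℕ} {Λ : Type*} {L : FaceData G d}
  {M : Finset V} {lab : V → Λ}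

include L in
/-- `combined`, `sum_av_KQ`, `Es_us` (`B = 16`, `lam = T ^ (1 / 8)`), `sum_rel_le`, `XX_num`,
`YY_num`, `poly_log_le`; `y / log m ≤ 20 y / log T`, `y / m ≤ y / log m`. -/
theorem main_case {C : ℝ} (hC : 0 < C) (hCd : (1 + Real.log d) ^ 3 * (d : ℝ) ^ ((1 : ℝ) / 16) ≤
      C * √(d : ℝ)) (hlab : LabOn G M lab univ) (hR : Re M lab univ) (hd : 1 ≤ d)
    (hy : 1 ≤ Real.log M.card) (hT0 : 2 ^ 40 ≤ (d : ℝ) / Real.log M.card)
    (hyd : √(d : ℝ) ≤ Real.log M.card) :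
    ((d : ℝ) + 1) * (labs M lab univ).card ≤ (10 ^ 4 * C + 10 ^ 6) * M.card * (√(d : ℝ) +
      Real.log M.card / Real.log ((d : ℝ) / Real.log M.card)) := by
  set y : ℝ := Real.log M.card with hydef
  set T : ℝ := (d : ℝ) / y with hT
  set z : ℝ := y / Real.log T with hz
  set lam : ℝ := T ^ ((1 : ℝ) / 8) with hlam
  set n : ℝ := (M.card : ℝ) with hn
  have hn0 : 0 ≤ n := Nat.cast_nonneg _
  have hy0 : 0 < y := by linarith
  have hTpos : 0 < T := lt_of_lt_of_le (by norm_num) hT0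
  have hTy : T * y = d := by
    rw [hT]
    field_simp
  have hd1 : (1 : ℝ) ≤ d := by exact_mod_cast hd
  have hs0 : 0 ≤ √(d : ℝ) := Real.sqrt_nonneg _
  have hs1 : 1 ≤ √(d : ℝ) := Real.one_le_sqrt.2 hd1
  obtain ⟨h1, h2, h3, h4, -, -, -, -, -, -⟩ := params (y := y) (T := T) (z := z) (lam := lam)
    hd hy hT hT0 hyd hz hlam
  obtain ⟨m, hm2, hm6, hmlog⟩ := exists_m hT0
  have hz0 : 0 ≤ z := by linarith
  have hlogm : 0 < Real.log m := by
    refine Real.log_pos ?_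
    exact_mod_cast (by omega : 1 < m)
  have hm0 : (0 : ℝ) < m := by exact_mod_cast (by omega : 0 < m)
  have hlogT : 0 < Real.log T := Real.log_pos (lt_of_lt_of_le (by norm_num) hT0)
  have hzT : z * Real.log T = y := by
    rw [hz]
    field_simp
  -- `y / log m ≤ 20 z`
  have hyz : y / Real.log m ≤ 20 * z := by
    rw [div_le_iff₀ hlogm]
    calc y = z * Real.log T := hzT.symm
      _ ≤ z * (20 * Real.log m) := mul_le_mul_of_nonneg_left hmlog hz0
      _ = 20 * z * Real.log m := by ring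
  have hlogm_le : Real.log m ≤ m := (Real.log_le_sub_one_of_pos hm0).trans (by linarith)
  have hyz' : y / m ≤ 20 * z :=
    (div_le_div_of_nonneg_left hy0.le hlogm hlogm_le).trans hyz
  have hmd : 16384 * (m : ℝ) ^ 6 * y ≤ d := by
    rw [← hTy]
    exact mul_le_mul_of_nonneg_right hm6 hy0.le
  have hc := combined (L := L) hlab hR hm2 hy hmd h3 h4
  have hq := sum_av_KQ (L := L) hlab (by omega : 1 ≤ m) ⌈64 * z⌉₊
  have hu := Es_us (L := L) (M := M) (lab := lab) hd h1 (B := 16) (J0 := ⌈64 * z⌉₊) (by norm_num) h2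
    (by omega : 1 ≤ m)
  have hr := sum_rel_le (L := L) (M := M) hm2
  have hX := XX_num (L := L) hlab hd (y := y) (T := T) (z := z) (lam := lam) hydef hy hT hT0 hyd hz
    hlam
  have hY := YY_num (L := L) hlab hd (y := y) (T := T) (z := z) (lam := lam) hydef hy hT hT0 hyd hz
    hlam
  rw [← hydef, ← hn] at hc hq hr
  rw [← hn] at hu hX hY
  -- the relevant facets
  have hr' : ∑ v ∈ M, ((rel L M m v).card : ℝ) ≤ 40 * z * n := by
    have e : ∑ v ∈ M, ((rel L M m v).card : ℝ) ≤ 2 * (n * y) / Real.log m := by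
      rw [le_div_iff₀ hlogm]
      linarith
    calc ∑ v ∈ M, ((rel L M m v).card : ℝ) ≤ 2 * (n * y) / Real.log m := e
      _ = 2 * n * (y / Real.log m) := by ring
      _ ≤ 2 * n * (20 * z) := mul_le_mul_of_nonneg_left hyz (by positivity)
      _ = 40 * z * n := by ring
  have hX' : Es M (XX L M lab (4 * (Nat.log 2 d + 1)) lam ⌈64 * z⌉₊) ≤
      1114 * C * √(d : ℝ) * n := by
    refine hX.trans ?_
    have := mul_le_mul_of_nonneg_right hCd hn0
    nlinarith
  have hY' : √(n * Es M (YY L M lab lam ⌈64 * z⌉₊)) ≤ 10 ^ 3 * √(d : ℝ) * n := by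
    rw [show (10 : ℝ) ^ 3 * √(d : ℝ) * n = √((10 ^ 3 * √(d : ℝ) * n) ^ 2) from
      (Real.sqrt_sq (by positivity)).symm]
    refine Real.sqrt_le_sqrt ?_
    have e : (10 ^ 3 * √(d : ℝ) * n) ^ 2 = n * (10 ^ 6 * d * n) := by
      have := Real.sq_sqrt (by linarith : (0 : ℝ) ≤ d)
      calc (10 ^ 3 * √(d : ℝ) * n) ^ 2 = 10 ^ 6 * (√(d : ℝ)) ^ 2 * n ^ 2 := by ring
        _ = 10 ^ 6 * d * n ^ 2 := by rw [this]
        _ = n * (10 ^ 6 * d * n) := by ring
    rw [e]
    exact mul_le_mul_of_nonneg_left hY hn0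
  have h16 : √((16 : ℕ) : ℝ) = 4 := by
    rw [show ((16 : ℕ) : ℝ) = 4 ^ 2 by norm_num]
    exact Real.sqrt_sq (by norm_num)
  have hu' : Es M (fun v σ => ∑ a ∈ rel L M m v, (us L M lab ⌈64 * z⌉₊ v σ a : ℝ)) ≤
      960 * z * n + 1114 * C * √(d : ℝ) * n + 16000 * √(d : ℝ) * n + √(d : ℝ) * n := by
    rw [h16] at hu
    have e1 : n ≤ √(d : ℝ) * n := by nlinarith
    push_cast at hu
    nlinarith
  have e2 : 8 / (m : ℝ) * (n * y) ≤ 160 * z * n := by
    calc 8 / (m : ℝ) * (n * y) = 8 * n * (y / m) := by ring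
      _ ≤ 8 * n * (20 * z) := mul_le_mul_of_nonneg_left hyz' (by positivity)
      _ = 160 * z * n := by ring
  have e3 : 218 / Real.log m * (n * y) ≤ 4360 * z * n := by
    calc 218 / Real.log m * (n * y) = 218 * n * (y / Real.log m) := by ring
      _ ≤ 218 * n * (20 * z) := mul_le_mul_of_nonneg_left hyz (by positivity)
      _ = 4360 * z * n := by ring
  have hsn : 0 ≤ √(d : ℝ) * n := by positivity
  have hzn : 0 ≤ z * n := by positivity
  have hCsn : 0 ≤ C * (√(d : ℝ) * n) := by positivity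
  have hCzn : 0 ≤ C * (z * n) := by positivity
  have fin : ((d : ℝ) + 1) * (labs M lab univ).card ≤
      8513 * (z * n) + 4456 * (C * (√(d : ℝ) * n)) + 64198 * (√(d : ℝ) * n) := by
    linarith
  calc ((d : ℝ) + 1) * (labs M lab univ).card ≤
      8513 * (z * n) + 4456 * (C * (√(d : ℝ) * n)) + 64198 * (√(d : ℝ) * n) := fin
    _ ≤ 10 ^ 6 * (z * n) + 10 ^ 4 * (C * (z * n)) + 10 ^ 4 * (C * (√(d : ℝ) * n)) +
        10 ^ 6 * (√(d : ℝ) * n) := by linarith
    _ = (10 ^ 4 * C + 10 ^ 6) * n * (√(d : ℝ) + z) := by ring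

end Pool.Agent.Helper13.TSE
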