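import Mathlib
import Pool.Agent.Helper13.TSE.Z9
import Pool.Agent.Helper13.TSE.Z7b

/-!
# TSE-Z9b: the main case
-/

namespace Pool.Agent.Helper13.TSE

open Finset Pool.Agent.Helper82.TotSep Pool.Agent.Helper13.TSD

variable {V : Type*} [Fintype V] {G : SimpleGraph V} {d : ℕ} {Λ : Type*} {L : FaceData G d}
  {M : Finset V} {lab : V → Λ}

/-- **Upper bound.**  If `log n < √d` then `KR_le_bd`; if `d < 2 ^ 40 log n` then `KR_le`;
otherwise `main_case`, `log T ≥ (1 + log T) / 2`. -/
theorem upper : ∃ C : ℝ, 0 < C ∧ ∀ (V Λ : Type) [Fintype V] (G : SimpleGraph V) (d : ℕ)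
    (L : FaceData G d) (M : Finset V) (lab : V → Λ), LabOn G M lab univ → Re M lab univ →
    1 ≤ d → Real.log M.card ≤ d →
    ((labs M lab univ).card : ℝ) ≤ C * M.card * (1 / √(d : ℝ) +
      Real.log M.card / (d * (1 + Real.log ((d : ℝ) / Real.log M.card)))) := by
  obtain ⟨C, hC, hCd⟩ := poly_log_le
  refine ⟨2 * (10 ^ 4 * C + 10 ^ 6) + 41 * 2 ^ 40 + 60, by positivity, ?_⟩
  intro V Λ _ G d L M lab hlab hR hd hyd
  classical
  have hne : Nonempty V := by
    have h1 : 0 < (labs M lab univ).card := by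
      have := hR
      unfold Re at this
      omega
    obtain ⟨c, hc⟩ := card_pos.mp h1
    obtain ⟨x, -⟩ := mem_labs.mp hc
    exact ⟨x⟩
  have hF : IsFace L d (univ : Finset V) := isFace_univ
  have hin : Helper82.TotSep.inner M univ = M := by
    ext x
    simp [mem_inner]
  have hKR : KR M lab univ = ((labs M lab univ).card : ℝ) := by
    unfold KR
    rw [if_pos hR]
  set K : ℝ := ((labs M lab univ).card : ℝ) with hK
  set m : ℝ := (M.card : ℝ) with hm
  set y : ℝ := Real.log m with hy
  have hm0 : 0 ≤ m := Nat.cast_nonneg _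
  have hy0 : 0 ≤ y := Real.log_natCast_nonneg _
  have hd1 : (1 : ℝ) ≤ d := by exact_mod_cast hd
  have hd0 : (0 : ℝ) < d := by linarith
  have hs0 : 0 < √(d : ℝ) := Real.sqrt_pos.mpr hd0
  have hss : √(d : ℝ) * √(d : ℝ) = d := Real.mul_self_sqrt hd0.le
  have hlT : 0 ≤ Real.log ((d : ℝ) / y) := by
    rcases hy0.eq_or_lt with h | h
    · rw [← h, div_zero, Real.log_zero]
    · exact Real.log_nonneg (by rw [le_div_iff₀ h]; linarith)
  have hb0 : 0 ≤ y / (d * (1 + Real.log ((d : ℝ) / y))) := by positivity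
  have ha0 : 0 ≤ 1 / √(d : ℝ) := by positivity
  rcases lt_or_ge y (√(d : ℝ)) with h1 | h1
  · have h2 := KR_le_bd hF hlab
    rw [hKR, hin] at h2
    have h3 : bd d M.card ≤ 60 * m * (1 / √(d : ℝ)) := by
      unfold bd
      rw [← hm, ← hy]
      have h4 : y / d ≤ 1 / √(d : ℝ) := by
        rw [div_le_div_iff₀ hd0 hs0, one_mul]
        calc y * √(d : ℝ) ≤ √(d : ℝ) * √(d : ℝ) := mul_le_mul_of_nonneg_right h1.le hs0.le
          _ = d := hss
      nlinarith [mul_le_mul_of_nonneg_left h4 hm0]
    have h5 : 60 * m * (1 / √(d : ℝ)) ≤ (2 * (10 ^ 4 * C + 10 ^ 6) + 41 * 2 ^ 40 + 60) * m *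
        (1 / √(d : ℝ) + y / (d * (1 + Real.log ((d : ℝ) / y)))) := by
      apply mul_le_mul _ (by linarith) ha0 (by positivity)
      apply mul_le_mul_of_nonneg_right _ hm0
      linarith
    linarith
  · have hy1 : 1 ≤ y := by
      refine le_trans ?_ h1
      rw [Real.one_le_sqrt]
      exact hd1
    have hyp : 0 < y := by linarith
    rcases lt_or_ge ((d : ℝ) / y) (2 ^ 40) with h2 | h2
    · have h3 := KR_le hF hlab
      rw [hKR, hin, ← hm] at h3
      have hTp : 0 < (d : ℝ) / y := by positivity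
      have h4 : Real.log ((d : ℝ) / y) ≤ 40 := by
        have h5 := Real.log_le_log hTp h2.le
        rw [Real.log_pow] at h5
        have h6 : Real.log 2 ≤ 1 := by linarith [Real.log_two_lt_d9]
        push_cast at h5
        linarith
      have h5 : 1 ≤ 41 * 2 ^ 40 * (y / (d * (1 + Real.log ((d : ℝ) / y)))) := by
        rw [mul_div_assoc', le_div_iff₀ (by positivity), one_mul]
        rw [div_lt_iff₀ hyp] at h2
        calc (d : ℝ) * (1 + Real.log ((d : ℝ) / y)) ≤ (2 ^ 40 * y) * 41 := by
              apply mul_le_mul h2.le (by linarith) (by positivity) (by positivity)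
          _ = 41 * 2 ^ 40 * y := by ring
      have h6 : m * 1 ≤ m * (41 * 2 ^ 40 * (y / (d * (1 + Real.log ((d : ℝ) / y))))) :=
        mul_le_mul_of_nonneg_left h5 hm0
      have h7 : m * (41 * 2 ^ 40 * (y / (d * (1 + Real.log ((d : ℝ) / y))))) ≤
          (2 * (10 ^ 4 * C + 10 ^ 6) + 41 * 2 ^ 40 + 60) * m *
          (1 / √(d : ℝ) + y / (d * (1 + Real.log ((d : ℝ) / y)))) := by
        calc m * (41 * 2 ^ 40 * (y / (d * (1 + Real.log ((d : ℝ) / y)))))
            = (41 * 2 ^ 40) * m * (y / (d * (1 + Real.log ((d : ℝ) / y)))) := by ring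
          _ ≤ _ := by
            apply mul_le_mul _ (by linarith) hb0 (by positivity)
            apply mul_le_mul_of_nonneg_right _ hm0
            linarith
      linarith
    · have h3 := main_case (L := L) hC (hCd d hd) hlab hR hd hy1 h2 h1
      rw [← hK, ← hm, ← hy] at h3
      have hK0 : 0 ≤ K := Nat.cast_nonneg _
      have hl1 : 1 ≤ Real.log ((d : ℝ) / y) := by
        have h4 : Real.exp 1 ≤ (d : ℝ) / y := by
          have := Real.exp_one_lt_d9
          have h6 : (2.7182818286 : ℝ) ≤ 2 ^ 40 := by norm_num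
          linarith
        have h5 := Real.log_le_log (Real.exp_pos 1) h4
        rwa [Real.log_exp] at h5
      have hl0 : 0 < Real.log ((d : ℝ) / y) := by linarith
      set A : ℝ := 10 ^ 4 * C + 10 ^ 6 with hA
      have hA0 : 0 < A := by positivity
      have h4 : K ≤ A * m * (1 / √(d : ℝ) + y / (d * Real.log ((d : ℝ) / y))) := by
        have h5 : d * K ≤ A * m * (√(d : ℝ) + y / Real.log ((d : ℝ) / y)) := by
          calc d * K ≤ ((d : ℝ) + 1) * K := by
                apply mul_le_mul_of_nonneg_right _ hK0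
                linarith
            _ ≤ _ := h3
        have h6 : A * m * (1 / √(d : ℝ) + y / (d * Real.log ((d : ℝ) / y))) =
            (A * m * (√(d : ℝ) + y / Real.log ((d : ℝ) / y))) / d := by
          have h7 : 1 / √(d : ℝ) = √(d : ℝ) / d := by
            rw [div_eq_div_iff hs0.ne' hd0.ne', one_mul, hss]
          rw [h7]
          field_simp
        rw [h6, le_div_iff₀ hd0]
        linarith
      have h5 : y / (d * Real.log ((d : ℝ) / y)) ≤
          2 * (y / (d * (1 + Real.log ((d : ℝ) / y)))) := by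
        rw [mul_div_assoc', div_le_div_iff₀ (by positivity) (by positivity)]
        have : y * d * (1 + Real.log ((d : ℝ) / y)) ≤ y * d * (2 * Real.log ((d : ℝ) / y)) :=
          mul_le_mul_of_nonneg_left (by linarith) (by positivity)
        nlinarith
      calc K ≤ A * m * (1 / √(d : ℝ) + y / (d * Real.log ((d : ℝ) / y))) := h4
        _ ≤ A * m * (2 * (1 / √(d : ℝ) + y / (d * (1 + Real.log ((d : ℝ) / y))))) := by
            apply mul_le_mul_of_nonneg_left _ (by positivity)
            linarith
        _ = 2 * A * m * (1 / √(d : ℝ) + y / (d * (1 + Real.log ((d : ℝ) / y)))) := by ring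
        _ ≤ _ := by
            apply mul_le_mul_of_nonneg_right _ (by positivity)
            apply mul_le_mul_of_nonneg_right _ hm0
            linarith

end Pool.Agent.Helper13.TSE
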