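import Mathlib
import Pool.Agent.Helper13.TSE.Z9b
import Pool.Agent.Helper13.TSD.EC2

/-!
# TSE-Z10: the upper bound for polytopes
-/

namespace Pool.Agent.Helper13.TSE

open Finset Pool.Agent.Helper82.TotSep Pool.Agent.Helper13.TSD Pool.Agent.Helper70.Poly

/-- Copy of the proof of `TSD.sepCards_bound` (EC2), with `upper` instead of `face_bound`. -/
theorem sepCards_upper : ∃ C : ℝ, 0 < C ∧ ∀ n d k : ℕ, 1 ≤ d → 2 ≤ k → k ∈ sepCards n d →
    Real.log n ≤ d → (k : ℝ) ≤ C * n * (1 / √(d : ℝ) +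
      Real.log n / (d * (1 + Real.log ((d : ℝ) / Real.log n)))) := by
  classical
  obtain ⟨C, hC, hup⟩ := upper
  refine ⟨C, hC, ?_⟩
  intro n d k hd hk2 hk hn
  obtain ⟨P, hP, M, N, hM, hN, hsep⟩ := hk
  have hPo : IsPoly P := hP.1
  have hfin : Finite (P.extremePoints ℝ) := hPo.finite_extremePoints
  have : Fintype (P.extremePoints ℝ) := Fintype.ofFinite _
  obtain ⟨L⟩ := exists_faceData hP
  have hNne : N.Nonempty := Finset.card_pos.mp (by omega)
  obtain ⟨a0, ha0⟩ := hNne
  have : Nonempty (P.extremePoints ℝ) := ⟨a0⟩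
  have hNM : ∀ a ∈ N, a ∉ M := fun a ha haM => (Finset.disjoint_left.mp hsep.1) haM ha
  -- labels
  let H := delVerts (skel P) (M : Set (P.extremePoints ℝ))
  let lab : P.extremePoints ℝ → P.extremePoints ℝ := fun x =>
    if h : ∃ a, a ∈ N ∧ H.Reachable a x then h.choose else a0
  have hlab_eq : ∀ x a, a ∈ N → H.Reachable a x → lab x = a := by
    intro x a ha hax
    have h : ∃ a, a ∈ N ∧ H.Reachable a x := ⟨a, ha, hax⟩
    have h1 : lab x = h.choose := dif_pos h
    rw [h1]
    by_contra hne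
    exact hsep.not_reachable h.choose_spec.1 ha hne (h.choose_spec.2.trans hax.symm)
  have hlab : ∀ x y, (skel P).Adj x y → x ∉ M → y ∉ M → lab x = lab y := by
    intro x y hxy hx hy
    have hadj : H.Adj x y := ⟨hxy, by simpa using hx, by simpa using hy⟩
    by_cases h : ∃ a, a ∈ N ∧ H.Reachable a x
    · obtain ⟨a, ha, hax⟩ := h
      rw [hlab_eq x a ha hax, hlab_eq y a ha (hax.trans hadj.reachable)]
    · have h' : ¬ ∃ a, a ∈ N ∧ H.Reachable a y := by
        rintro ⟨a, ha, hay⟩
        exact h ⟨a, ha, hay.trans hadj.symm.reachable⟩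
      simp only [lab]
      rw [dif_neg h, dif_neg h']
  have hlabs : N ⊆ labs M lab Finset.univ := by
    intro a ha
    exact mem_labs.mpr ⟨a, Finset.mem_univ a, hNM a ha,
      hlab_eq a a ha (SimpleGraph.Reachable.refl _)⟩
  have hle : N.card ≤ (labs M lab (Finset.univ : Finset (P.extremePoints ℝ))).card :=
    Finset.card_le_card hlabs
  have h := hup (P.extremePoints ℝ) (P.extremePoints ℝ) (skel P) d L M lab
    (fun x y hxy _ _ hx hy => hlab x y hxy hx hy)
    (le_trans (by rw [hN]; exact hk2) hle) hd (by rw [hM]; exact hn)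
  rw [hM] at h
  refine le_trans ?_ h
  rw [← hN]
  exact_mod_cast hle

end Pool.Agent.Helper13.TSE
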