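import Mathlib
import Pool.Agent.Helper13.TSE.Z10
import Pool.Agent.Helper13.TSL.Fin

/-!
# The exact order of magnitude of the degree of total separability of simple polytopes
-/

namespace Pool.Agent.Helper13.TSE

open Pool.Agent.Helper70.Poly

/-- All bounds together; `x = min 1 (log n / d)`. -/
theorem exact_order : ∃ C : ℝ, 0 < C ∧ ∀ d n : ℕ, 2 ≤ d → 2 * d - 1 ≤ n → ∀ x : ℝ,
    x = min 1 (Real.log n / d) →
    ∃ s, IsGreatest (sepCards n d) s ∧ (n : ℝ) / (4 * √(d : ℝ)) ≤ s ∧
      (n : ℝ) * x / (80 * (1 + Real.log (1 / x))) ≤ s ∧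
      (s : ℝ) ≤ 30 * n * (1 / √(d : ℝ) + x) ∧
      (s : ℝ) ≤ C * n * (1 / √(d : ℝ) + x / (1 + Real.log (1 / x))) := by
  obtain ⟨C, hC, hup⟩ := sepCards_upper
  refine ⟨max C 1, lt_max_of_lt_right one_pos, fun d n hd hn x hx => ?_⟩
  obtain ⟨s, hs⟩ := Pool.Agent.Helper13.TSL.exists_isGreatest hd hn
  obtain ⟨h1, h2, h3⟩ := Pool.Agent.Helper13.TSL.bounds hd hn hs
  have hd0 : (0 : ℝ) < d := by exact_mod_cast (by omega : 0 < d)
  have hn3 : (3 : ℝ) ≤ n := by exact_mod_cast (by omega : 3 ≤ n)
  have hn0 : (0 : ℝ) < n := by linarith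
  have hlog : 0 < Real.log n := Real.log_pos (by linarith)
  refine ⟨s, hs, h1, ?_⟩
  have hsq : (0 : ℝ) ≤ 1 / √(d : ℝ) := by positivity
  rcases le_or_gt (Real.log n) d with hle | hgt
  · have hx' : x = Real.log n / d := by
      rw [hx, min_eq_right]
      rw [div_le_one hd0]
      exact hle
    have hx0 : 0 < x := by
      rw [hx']
      positivity
    have hx1 : x ≤ 1 := by
      rw [hx]
      exact min_le_left _ _
    have hl0 : 0 ≤ Real.log (1 / x) := Real.log_nonneg (by
      rw [le_div_iff₀ hx0]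
      linarith)
    have hinv : (d : ℝ) / Real.log n = 1 / x := by
      rw [hx', one_div_div]
    refine ⟨?_, ?_, ?_⟩
    · rw [div_le_iff₀ (by positivity)]
      have h4 := h2 hle
      rw [hinv, ← hx'] at h4
      linarith
    · rw [hx']
      exact h3
    · rcases le_or_gt 2 s with hs2 | hs2
      · have h5 := hup n d s (by omega) hs2 hs.1 hle
        rw [hinv] at h5
        have h6 : Real.log n / (d * (1 + Real.log (1 / x))) = x / (1 + Real.log (1 / x)) := by
          rw [hx', div_div]
        rw [h6] at h5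
        refine h5.trans ?_
        gcongr
        exact le_max_left _ _
      · -- `s ≤ 1`, while `n / √d ≥ 1`
        have hs1 : (s : ℝ) ≤ 1 := by exact_mod_cast (by omega : s ≤ 1)
        have h7 : √(d : ℝ) ≤ n := by
          rw [Real.sqrt_le_left (by linarith)]
          have h8 : (d : ℝ) ≤ n := by exact_mod_cast (by omega : d ≤ n)
          nlinarith
        have h9 : 1 ≤ (n : ℝ) * (1 / √(d : ℝ)) := by
          rw [mul_one_div, le_div_iff₀ (Real.sqrt_pos.mpr hd0)]
          linarith
        have h10 : (0 : ℝ) ≤ x / (1 + Real.log (1 / x)) := by positivity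
        have h11 : (1 : ℝ) ≤ max C 1 := le_max_right _ _
        have h12 : (1 : ℝ) ≤ n * (1 / √(d : ℝ) + x / (1 + Real.log (1 / x))) := by
          have : 0 ≤ (n : ℝ) * (x / (1 + Real.log (1 / x))) := by positivity
          rw [mul_add]
          linarith
        calc (s : ℝ) ≤ 1 := hs1
          _ ≤ n * (1 / √(d : ℝ) + x / (1 + Real.log (1 / x))) := h12
          _ ≤ max C 1 * (n * (1 / √(d : ℝ) + x / (1 + Real.log (1 / x)))) :=
            le_mul_of_one_le_left (by positivity) h11
          _ = _ := by ring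
  · have hx' : x = 1 := by
      rw [hx, min_eq_left]
      rw [le_div_iff₀ hd0]
      linarith
    have h6 : (s : ℝ) ≤ n := by exact_mod_cast sepCards_le (by omega) (by omega) hs.1
    refine ⟨?_, ?_, ?_⟩
    · rw [hx', one_div_one, Real.log_one, add_zero, mul_one, mul_one]
      have h5 := Pool.Agent.Helper13.TSL.large hd hn hs hgt
      linarith
    · rw [hx']
      nlinarith
    · rw [hx', one_div_one, Real.log_one, add_zero, div_one]
      have h11 : (1 : ℝ) ≤ max C 1 := le_max_right _ _
      calc (s : ℝ) ≤ n := h6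
        _ ≤ n * (1 / √(d : ℝ) + 1) := by nlinarith
        _ ≤ max C 1 * (n * (1 / √(d : ℝ) + 1)) := le_mul_of_one_le_left (by positivity) h11
        _ = _ := by ring

end Pool.Agent.Helper13.TSE
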