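import Mathlib
import Pool.Agent.Helper13.TSD.EC2
import Pool.Agent.Helper26.PolySep.Geo
import Pool.Agent.Helper26.PolySep.Lower

/-!
# The order of magnitude of `s(n, 𝒮^d)` for `d < n < 2 d - 1`
-/

namespace Pool.Agent.Helper13.TSE

open Pool.Agent.Helper70.Poly

/-- For `d < n < 2 d - 1` the maximum is between `√(2 (n - d))` and `400 √(n - d)`. -/
theorem mid_range (d n : ℕ) (h1 : d < n) (h2 : n < 2 * d - 1) :
    ∃ s, IsGreatest (sepCards n d) s ∧ √(2 * ((n : ℝ) - d)) ≤ s ∧
      (s : ℝ) ≤ 400 * √((n : ℝ) - d) := by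
  classical
  -- the maximum exists
  have hd : 3 ≤ d := by omega
  -- the number `k`
  have hex : ∃ k : ℕ, n < d + k.choose 2 := by
    refine ⟨n + 2, ?_⟩
    rw [Nat.choose_succ_succ' (n + 1) 1]
    simp
    omega
  obtain ⟨k, hk1, hk2⟩ : ∃ k : ℕ, n < d + k.choose 2 ∧ ∀ j < k, ¬ n < d + j.choose 2 :=
    ⟨Nat.find hex, Nat.find_spec hex, fun j hj => Nat.find_min hex hj⟩
  have hk3 : 3 ≤ k := by
    by_contra hlt
    push Not at hlt
    have h3 : k.choose 2 ≤ (2 : ℕ).choose 2 := Nat.choose_le_choose 2 (by omega)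
    have h4 : (2 : ℕ).choose 2 = 1 := rfl
    omega
  have hk4 : d + (k - 1).choose 2 ≤ n := by
    have := hk2 (k - 1) (by omega)
    omega
  obtain ⟨m, rfl⟩ : ∃ m, k = m + 2 := ⟨k - 2, by omega⟩
  have e1 : m + 2 - 1 = m + 1 := by omega
  rw [e1] at hk4
  have hch : m ≤ (m + 1).choose 2 := by
    rw [Nat.choose_succ_succ' m 1]
    simp
  have hkd : m + 2 ≤ d := by omega
  have hmem : m + 2 ∈ sepCards n d :=
    Pool.Agent.Helper26.PolySep.mem_sepCards (by omega) hkd (by rw [e1]; exact hk4) hk1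
  have hb : ∀ m ∈ sepCards n d, m ≤ n := fun m hm => sepCards_le (by omega) (by omega) hm
  obtain ⟨s, hs⟩ : ∃ s, IsGreatest (sepCards n d) s := by
    obtain ⟨s, hs⟩ := (Set.finite_Iic n).subset
      (fun m hm => hb m hm : sepCards n d ⊆ Set.Iic n) |>.exists_maximalFor id _ ⟨_, hmem⟩
    refine ⟨s, hs.1, fun m hm => ?_⟩
    by_contra hlt
    push Not at hlt
    have := hs.2 hm hlt.le
    exact absurd this (by simpa using hlt)
  have hms : ((m : ℝ) + 2) ≤ s := by exact_mod_cast hs.2 hmem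
  have hnd : (1 : ℝ) ≤ (n : ℝ) - d := by
    have : ((d + 1 : ℕ) : ℝ) ≤ n := by exact_mod_cast (by omega : d + 1 ≤ n)
    push_cast at this
    linarith
  have hsq1 : 1 ≤ √((n : ℝ) - d) := by
    rw [Real.one_le_sqrt]
    exact hnd
  have hc1 : ((m + 1).choose 2 : ℝ) = ((m : ℝ) + 1) * m / 2 := by
    rw [Nat.cast_choose_two]
    push_cast
    ring
  have hc2 : ((m + 2).choose 2 : ℝ) = ((m : ℝ) + 2) * (m + 1) / 2 := by
    rw [Nat.cast_choose_two]
    push_cast
    ring
  have hlow : (n : ℝ) - d < ((m : ℝ) + 2) * (m + 1) / 2 := by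
    rw [← hc2]
    have : (n : ℝ) < ((d + (m + 2).choose 2 : ℕ) : ℝ) := by exact_mod_cast hk1
    push_cast at this
    linarith
  have hup : ((m : ℝ) + 1) * m / 2 ≤ (n : ℝ) - d := by
    rw [← hc1]
    have : ((d + (m + 1).choose 2 : ℕ) : ℝ) ≤ n := by exact_mod_cast hk4
    push_cast at this
    linarith
  have hm0 : (0 : ℝ) ≤ m := Nat.cast_nonneg m
  refine ⟨s, hs, ?_, ?_⟩
  · refine le_trans ?_ hms
    rw [Real.sqrt_le_left (by linarith)]
    nlinarith
  · by_cases hr : 2 * n + 2 ≤ 3 * d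
    · have h3 := Pool.Agent.Helper26.PolySep.sepCards_lt (K := m + 3) (by omega) (by omega)
        (by
          have : m + 3 - 1 = m + 2 := by omega
          rw [this]
          exact hk1) (Or.inr hr) hs.1
      have h4 : (s : ℝ) ≤ (m : ℝ) + 2 := by exact_mod_cast (by omega : s ≤ m + 2)
      have h5 : (m : ℝ) ≤ √(2 * ((n : ℝ) - d)) := by
        apply Real.le_sqrt_of_sq_le
        nlinarith
      have h6 : √(2 * ((n : ℝ) - d)) ≤ 2 * √((n : ℝ) - d) := by
        rw [Real.sqrt_mul (by norm_num)]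
        have : √(2 : ℝ) ≤ 2 := by
          rw [Real.sqrt_le_left (by norm_num)]
          norm_num
        gcongr
      linarith
    · push Not at hr
      have hd0 : (0 : ℝ) < d := by exact_mod_cast (by omega : 0 < d)
      have h3 : (d : ℝ) ≤ 3 * ((n : ℝ) - d) := by
        have : ((4 * d : ℕ) : ℝ) ≤ ((3 * n : ℕ) : ℝ) := by exact_mod_cast (by omega : 4 * d ≤ 3 * n)
        push_cast at this
        linarith
      have h4 : √(d : ℝ) ≤ 2 * √((n : ℝ) - d) := by
        rw [Real.sqrt_le_left (by positivity), mul_pow, Real.sq_sqrt (by linarith)]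
        linarith
      have h5 : (n : ℝ) ≤ 2 * d := by exact_mod_cast (by omega : n ≤ 2 * d)
      have hn0 : (0 : ℝ) < n := by linarith
      have hsd : 0 < √(d : ℝ) := Real.sqrt_pos.mpr hd0
      have hsd2 : √(d : ℝ) * √(d : ℝ) = d := Real.mul_self_sqrt hd0.le
      have hlog : Real.log n ≤ 2.2 * √(d : ℝ) := by
        have h6 : Real.log n ≤ Real.log (2 * d) := Real.log_le_log hn0 h5
        have h7 : Real.log (2 * d) = Real.log 2 + 2 * Real.log (√(d : ℝ)) := by
          rw [Real.log_mul (by norm_num) hd0.ne', Real.log_sqrt hd0.le]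
          ring
        have h8 : Real.log (√(d : ℝ)) ≤ √(d : ℝ) - 1 := Real.log_le_sub_one_of_pos hsd
        have h9 : Real.log 2 ≤ 0.7 := by
          have := Real.log_two_lt_d9
          linarith
        linarith
      have h2s : 2 ≤ s := le_trans (by omega : 2 ≤ m + 2) (hs.2 hmem)
      have h6 := Pool.Agent.Helper13.TSD.sepCards_bound h2s hs.1
      have h7 : (s : ℝ) ≤ 30 * n * (1 / √(d : ℝ) + Real.log n / d) := by
        simpa [Pool.Agent.Helper13.TSD.bd] using h6
      have h8 : 1 / √(d : ℝ) + Real.log n / d ≤ 3.2 / √(d : ℝ) := by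
        have : Real.log n / d ≤ 2.2 / √(d : ℝ) := by
          rw [div_le_div_iff₀ hd0 hsd]
          calc Real.log n * √(d : ℝ) ≤ 2.2 * √(d : ℝ) * √(d : ℝ) := by gcongr
            _ = 2.2 * d := by rw [mul_assoc, hsd2]
        calc 1 / √(d : ℝ) + Real.log n / d ≤ 1 / √(d : ℝ) + 2.2 / √(d : ℝ) := by gcongr
          _ = 3.2 / √(d : ℝ) := by
            rw [← add_div]
            norm_num
      have h9 : (s : ℝ) ≤ 192 * √(d : ℝ) := by
        calc (s : ℝ) ≤ 30 * n * (1 / √(d : ℝ) + Real.log n / d) := h7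
          _ ≤ 30 * (2 * d) * (3.2 / √(d : ℝ)) := by gcongr
          _ = 192 * √(d : ℝ) := by
            field_simp
            nlinarith [hsd2]
      linarith

end Pool.Agent.Helper13.TSE
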